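import Pool.Agent.P.MP_92d394_lc.H.St

/-! A spanning forest adapted to all thresholds. -/

namespace Pool.Agent.P.MP_92d394_lc.H

open Finset

namespace Kru

variable {V E : Type} [Fintype V] [DecidableEq V]

open Classical in
/-- The class of `v`: vertices not separated from `v` by a set uncrossed by `A`. -/
noncomputable def cl (a b : E → V) (A : Finset E) (v : V) : Finset V :=
  univ.filter fun u => ∀ S, dl a b A S = ∅ → (u ∈ S ↔ v ∈ S)

/-- The number of classes. -/
noncomputable def pc (a b : E → V) (A : Finset E) : ℕ := (univ.image (cl a b A)).card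

theorem mem_cl {a b : E → V} {A : Finset E} {u v : V} :
    u ∈ cl a b A v ↔ ∀ S, dl a b A S = ∅ → (u ∈ S ↔ v ∈ S) := by
  unfold cl
  simp only [mem_filter, mem_univ, true_and]

omit [Fintype V] in
theorem dl_empty {a b : E → V} {A : Finset E} {S : Finset V} :
    dl a b A S = ∅ ↔ ∀ e ∈ A, (a e ∈ S ↔ b e ∈ S) := by
  unfold dl
  rw [filter_eq_empty_iff]
  constructor
  · intro h e he
    exact not_not.mp (h he)
  · intro h e he
    exact not_not.mpr (h e he)

theorem self_mem (a b : E → V) (A : Finset E) (v : V) : v ∈ cl a b A v :=
  mem_cl.mpr fun _ _ => Iff.rfl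

theorem cl_eq {a b : E → V} {A : Finset E} {u v : V} (h : u ∈ cl a b A v) :
    cl a b A u = cl a b A v := by
  ext x
  rw [mem_cl, mem_cl]
  have h' := mem_cl.mp h
  constructor
  · intro hx S hS
    exact (hx S hS).trans (h' S hS)
  · intro hx S hS
    exact (hx S hS).trans (h' S hS).symm

theorem cl_mono {a b : E → V} {A A' : Finset E} (h : A ⊆ A') (v : V) :
    cl a b A v ⊆ cl a b A' v := by
  intro u hu
  rw [mem_cl] at hu ⊢
  intro S hS
  exact hu S (dl_empty.mpr fun e he => dl_empty.mp hS e (h he))

theorem cl_edge {a b : E → V} {A : Finset E} {e : E} (he : e ∈ A) :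
    cl a b A (a e) = cl a b A (b e) :=
  cl_eq (mem_cl.mpr fun _ hS => dl_empty.mp hS e he)

theorem biUnion_cl {a b : E → V} {A A' : Finset E} (h : A ⊆ A') (v : V) :
    (cl a b A v).biUnion (cl a b A') = cl a b A' v := by
  ext x
  rw [mem_biUnion]
  constructor
  · rintro ⟨u, hu, hx⟩
    rw [← cl_eq (cl_mono h v hu)]
    exact hx
  · intro hx
    exact ⟨v, self_mem a b A v, hx⟩

theorem image_cl {a b : E → V} {A A' : Finset E} (h : A ⊆ A') :
    univ.image (cl a b A') =
      (univ.image (cl a b A)).image fun X => X.biUnion (cl a b A') := by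
  rw [image_image]
  apply image_congr
  intro v _
  exact (biUnion_cl h v).symm

theorem pc_anti {a b : E → V} {A A' : Finset E} (h : A ⊆ A') : pc a b A' ≤ pc a b A := by
  unfold pc
  rw [image_cl h]
  exact card_image_le

theorem pc_strict {a b : E → V} {A A' : Finset E} (h : A ⊆ A') {u v : V}
    (h1 : cl a b A u ≠ cl a b A v) (h2 : cl a b A' u = cl a b A' v) :
    pc a b A' + 1 ≤ pc a b A := by
  have hle := pc_anti (a := a) (b := b) h
  have hne : pc a b A' ≠ pc a b A := by
    intro heq
    unfold pc at heq
    rw [image_cl h, card_image_iff] at heq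
    apply h1
    apply heq
    · exact mem_coe.mpr (mem_image_of_mem _ (mem_univ u))
    · exact mem_coe.mpr (mem_image_of_mem _ (mem_univ v))
    · show (cl a b A u).biUnion (cl a b A') = (cl a b A v).biUnion (cl a b A')
      rw [biUnion_cl h, biUnion_cl h, h2]
  omega

theorem main [DecidableEq E] (a b : E → V) (w : E → ℝ) (A : Finset E) :
    ∃ B ⊆ A, (∀ S, dl a b B S = ∅ → dl a b A S = ∅) ∧
      ∀ t, (B.filter fun e => t < w e).card + pc a b A ≤
        pc a b (A.filter fun e => w e ≤ t) := by
  induction A using Finset.induction_on_max_value w with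
  | empty => exact ⟨∅, Subset.refl _, fun _ h => h, fun t => by simp⟩
  | insert e A he hmax ih =>
    obtain ⟨B, hBA, hS, hb⟩ := ih
    have low : ∀ B' ⊆ insert e A, ∀ t, w e ≤ t →
        (B'.filter fun e => t < w e).card + pc a b (insert e A) ≤
          pc a b ((insert e A).filter fun e => w e ≤ t) := by
      intro B' hB' t ht
      have hall : ∀ x ∈ insert e A, w x ≤ t := by
        intro x hx
        rcases mem_insert.mp hx with rfl | hx
        · exact ht
        · exact (hmax x hx).trans ht
      have h1 : (B'.filter fun e => t < w e) = ∅ :=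
        filter_eq_empty_iff.mpr fun x hx => not_lt.mpr (hall x (hB' hx))
      rw [h1, filter_true_of_mem hall]
      simp
    have high : ∀ t, ¬ w e ≤ t →
        ((insert e A).filter fun e => w e ≤ t) = A.filter fun e => w e ≤ t := by
      intro t ht
      rw [filter_insert, if_neg ht]
    by_cases hc : cl a b A (a e) = cl a b A (b e)
    · refine ⟨B, hBA.trans (subset_insert _ _), ?_, ?_⟩
      · intro S h
        have hA := hS S h
        rw [dl_empty]
        intro x hx
        rcases mem_insert.mp hx with rfl | hx
        · have : a x ∈ cl a b A (b x) := by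
            rw [← hc]
            exact self_mem a b A _
          exact mem_cl.mp this S hA
        · exact dl_empty.mp hA x hx
      · intro t
        by_cases ht : w e ≤ t
        · exact low B (hBA.trans (subset_insert _ _)) t ht
        · rw [high t ht]
          have h1 := pc_anti (a := a) (b := b) (subset_insert e A)
          have h2 := hb t
          omega
    · refine ⟨insert e B, insert_subset_insert _ hBA, ?_, ?_⟩
      · intro S h
        rw [dl_empty] at h
        have hA := hS S (dl_empty.mpr fun x hx => h x (mem_insert_of_mem hx))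
        rw [dl_empty]
        intro x hx
        rcases mem_insert.mp hx with rfl | hx
        · exact h x (mem_insert_self _ _)
        · exact dl_empty.mp hA x hx
      · intro t
        by_cases ht : w e ≤ t
        · exact low _ (insert_subset_insert _ hBA) t ht
        · rw [high t ht]
          have h1 := pc_strict (a := a) (b := b) (subset_insert e A) hc
            (cl_edge (mem_insert_self e A))
          have h2 := hb t
          have h3 : ((insert e B).filter fun e => t < w e).card ≤
              (B.filter fun e => t < w e).card + 1 := by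
            rw [filter_insert]
            split_ifs
            · exact card_insert_le _ _
            · omega
          omega

end Kru

theorem kru : S_Kru := by
  intro V E _ _ _ _ a b w hV
  obtain ⟨B, -, hS, hb⟩ := Kru.main a b w univ
  refine ⟨B, fun t => Kru.cl a b (univ.filter fun e => w e ≤ t), ?_, ?_, ?_, ?_, ?_, ?_⟩
  · intro S h
    rw [nonempty_iff_ne_empty] at h ⊢
    exact fun h' => h (hS S h')
  · intro t v
    exact Kru.self_mem a b _ v
  · intro t u v h
    exact Kru.cl_eq h
  · intro s t v hst
    apply Kru.cl_mono
    intro e he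
    rw [mem_filter] at he ⊢
    exact ⟨he.1, he.2.trans hst⟩
  · intro t e he
    exact Kru.cl_edge (mem_filter.mpr ⟨mem_univ e, he⟩)
  · intro t
    have h1 : 1 ≤ Kru.pc a b univ := by
      obtain ⟨v⟩ := hV
      exact card_pos.mpr ⟨_, mem_image_of_mem _ (mem_univ v)⟩
    have h2 := hb t
    exact le_trans (by omega) h2

end Pool.Agent.P.MP_92d394_lc.H
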