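import Pool.Agent.P.MP_92d394_lc.H.St

/-! The threshold inequality. -/

namespace Pool.Agent.P.MP_92d394_lc.H

open Finset

namespace Thr

variable {V E : Type} [DecidableEq V]

theorem mem_dl {a b : E → V} {H : Finset E} {S : Finset V} {e : E} :
    e ∈ dl a b H S ↔ e ∈ H ∧ ¬ (a e ∈ S ↔ b e ∈ S) := by
  simp only [dl, mem_filter]

theorem dl_compl [Fintype V] (a b : E → V) (H : Finset E) (S : Finset V) :
    dl a b H Sᶜ = dl a b H S := by
  ext e
  simp only [mem_dl, mem_compl]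
  tauto

theorem dl_le [Fintype E] (a b : E → V) (H : Finset E) (S : Finset V) :
    (dl a b H S).card ≤ (dl a b univ S).card := by
  apply card_le_card
  intro e he
  rw [mem_dl] at he ⊢
  exact ⟨mem_univ _, he.2⟩

theorem pr_le [DecidableEq E] (D : Bool → Finset E) (e : E) : pr D e ≤ 4 := by
  unfold pr
  split_ifs <;> omega

theorem sum_pr_le [DecidableEq E] (D : Bool → Finset E) (A : Finset E) :
    ∑ e ∈ A, pr D e ≤ 4 * A.card := by
  calc ∑ e ∈ A, pr D e ≤ ∑ _e ∈ A, 4 := sum_le_sum fun e _ => pr_le D e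
    _ = 4 * A.card := by rw [sum_const, smul_eq_mul, mul_comm]

theorem cast_dl (a b : E → V) (H : Finset E) (S : Finset V) :
    ((dl a b H S).card : ZMod 2) =
      ∑ e ∈ H, ((if a e ∈ S then (1 : ZMod 2) else 0) + (if b e ∈ S then 1 else 0)) := by
  unfold dl
  rw [card_filter, Nat.cast_sum]
  refine sum_congr rfl fun e _ => ?_
  by_cases h1 : a e ∈ S <;> by_cases h2 : b e ∈ S <;> simp [h1, h2]
  decide

theorem even_dl [Fintype V] [Fintype E] {a b : E → V} (hR : Reg a b) (S : Finset V) :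
    Even (dl a b univ S).card := by
  rw [← ZMod.natCast_eq_zero_iff_even]
  induction S using Finset.induction_on with
  | empty => simp [dl]
  | insert v S hv ih =>
    have h4 : ((dl a b univ {v}).card : ZMod 2) = 0 := by
      rw [hR.2.1 v]
      decide
    rw [cast_dl] at ih h4 ⊢
    refine Eq.trans ?_ ((congrArg₂ (· + ·) h4 ih).trans (add_zero _))
    rw [← sum_add_distrib]
    refine sum_congr rfl fun e _ => ?_
    have k : ∀ x : V, (if x ∈ insert v S then (1 : ZMod 2) else 0) =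
        (if x ∈ ({v} : Finset V) then 1 else 0) + (if x ∈ S then 1 else 0) := by
      intro x
      by_cases hx : x = v
      · subst hx
        simp [hv]
      · simp [hx]
    rw [k, k]
    ring

theorem shake [Fintype V] (a b : E → V) (H : Finset E) (c : V → Finset V) (h1 : ∀ v, v ∈ c v)
    (h2 : ∀ u v, u ∈ c v → c u = c v) :
    ∑ Y ∈ univ.image c, (dl a b H Y).card = 2 * (H.filter fun e => c (a e) ≠ c (b e)).card := by
  have hm : ∀ Y ∈ univ.image c, ∀ x, x ∈ Y ↔ c x = Y := by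
    intro Y hY x
    obtain ⟨v, -, rfl⟩ := mem_image.1 hY
    exact ⟨h2 x v, fun h => h ▸ h1 x⟩
  simp only [dl, card_filter]
  rw [sum_comm, mul_sum]
  refine sum_congr rfl fun e _ => ?_
  rw [← card_filter]
  by_cases h : c (a e) = c (b e)
  · rw [if_neg (not_not.2 h), mul_zero, card_eq_zero, filter_eq_empty_iff]
    intro Y hY
    rw [hm Y hY, hm Y hY, h]
    simp
  · rw [if_pos h, mul_one, ← card_pair h]
    congr 1
    ext Y
    simp only [mem_filter, mem_insert, mem_singleton]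
    constructor
    · rintro ⟨hY, hn⟩
      rw [hm Y hY, hm Y hY] at hn
      by_contra hc
      push Not at hc
      exact hn ⟨fun k => absurd k.symm hc.1, fun k => absurd k.symm hc.2⟩
    · intro hY
      have hY' : Y ∈ univ.image c := by
        rcases hY with rfl | rfl <;> exact mem_image_of_mem _ (mem_univ _)
      refine ⟨hY', ?_⟩
      rw [hm Y hY', hm Y hY']
      rcases hY with rfl | rfl
      · exact fun k => h (k.1 rfl).symm
      · exact fun k => h (k.2 rfl)

/-- The edges at the root. -/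
theorem root {a b : E → V} (hl : ∀ e, a e ≠ b e) (H : Finset E) (r : V) (Y : Finset V)
    (hr : r ∈ Y) :
    (dl a b H (Y.erase r)).card +
        2 * (H.filter fun e => (a e = r ∨ b e = r) ∧ ¬ (a e ∈ Y ↔ b e ∈ Y)).card =
      (dl a b H Y).card + (dl a b H {r}).card := by
  simp only [dl, card_filter]
  rw [mul_sum, ← sum_add_distrib, ← sum_add_distrib]
  refine sum_congr rfl fun e _ => ?_
  have h := hl e
  by_cases h1 : a e = r
  · have h2 : b e ≠ r := fun k => h (h1.trans k.symm)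
    by_cases h3 : b e ∈ Y <;> simp [h1, h2, h3, hr]
  · by_cases h2 : b e = r
    · by_cases h3 : a e ∈ Y <;> simp [h1, h2, h3, hr]
    · simp [h1, h2]

/-- The partition with the root split off. -/
def rt (c : V → Finset V) (r v : V) : Finset V := if v = r then {r} else (c v).erase r

theorem rt_ne {c : V → Finset V} {r v : V} (h : v ≠ r) : rt c r v = (c v).erase r := if_neg h

theorem rt_root (c : V → Finset V) (r : V) : rt c r r = {r} := if_pos rfl

theorem rt_mem {c : V → Finset V} (h1 : ∀ v, v ∈ c v) (r v : V) : v ∈ rt c r v := by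
  by_cases h : v = r
  · subst h
    rw [rt_root]
    exact mem_singleton_self _
  · rw [rt_ne h]
    exact mem_erase.2 ⟨h, h1 v⟩

theorem rt_eq {c : V → Finset V} (h2 : ∀ u v, u ∈ c v → c u = c v) (r u v : V)
    (h : u ∈ rt c r v) : rt c r u = rt c r v := by
  by_cases hv : v = r
  · subst hv
    rw [rt_root, mem_singleton] at h
    rw [h]
  · rw [rt_ne hv] at h
    rw [rt_ne hv, rt_ne (mem_erase.1 h).1, h2 u v (mem_erase.1 h).2]

theorem val_le [Fintype V] {c : V → Finset V} (h1 : ∀ v, v ∈ c v)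
    (h2 : ∀ u v, u ∈ c v → c u = c v) (r : V) (f : Finset V → ℕ) (m : ℕ)
    (hm : ((c r).erase r).Nonempty → f ((c r).erase r) ≤ m) :
    ∑ Y ∈ ({r}ᶜ : Finset V).image (rt c r), f Y ≤ ∑ Y ∈ (univ.image c).erase (c r), f Y + m := by
  set Q := ({r}ᶜ : Finset V).image (rt c r) with hQ
  have hs : Q.erase ((c r).erase r) ⊆ (univ.image c).erase (c r) := by
    intro Y hY
    obtain ⟨hne, hY⟩ := mem_erase.1 hY
    obtain ⟨v, hv, rfl⟩ := mem_image.1 hY
    have hv' : v ≠ r := by simpa using hv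
    rw [rt_ne hv'] at hne ⊢
    have hc : c v ≠ c r := fun k => hne (by rw [k])
    have hr : r ∉ c v := fun k => hc (h2 r v k).symm
    rw [erase_eq_of_notMem hr]
    exact mem_erase.2 ⟨hc, mem_image_of_mem _ (mem_univ _)⟩
  have h3 := sum_le_sum_of_subset (f := f) hs
  by_cases hz : (c r).erase r ∈ Q
  · rw [← add_sum_erase Q f hz]
    have hne : ((c r).erase r).Nonempty := by
      obtain ⟨v, -, hv⟩ := mem_image.1 hz
      exact ⟨v, hv ▸ rt_mem h1 r v⟩
    have := hm hne
    omega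
  · rw [erase_eq_of_notMem hz] at h3
    omega

/-- The inequality for the edges between the classes of one partition. -/
theorem core [Fintype V] [Fintype E] [DecidableEq E] {a b : E → V} (hR : Reg a b)
    {H : Finset E} (hT : Two a b H) (D : Bool → Finset E) (r : V) (L : Finset (Finset V))
    (hL : ∀ X ∈ L, (dl a b univ X).card = 4) (hr : (dl a b H {r}).card ≤ 3)
    {c : V → Finset V} (h1 : ∀ v, v ∈ c v) (h2 : ∀ u v, u ∈ c v → c u = c v)
    (hg : ∀ v, r ∉ c v → (dl a b univ (c v)).card = 4 → c v ∈ L)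
    (hC : ∑ e ∈ H.filter (fun e => a e ≠ r ∧ b e ≠ r ∧ rt c r (a e) ≠ rt c r (b e)), pr D e + 4 ≤
      ∑ Y ∈ ({r}ᶜ : Finset V).image (rt c r), if Y ∈ L then 4 else 2 * (dl a b H Y).card)
    (n : ℕ) (hn : n + 1 ≤ (univ.image c).card) :
    12 * n + ∑ e ∈ H.filter (fun e => c (a e) ≠ c (b e)), pr D e ≤
      8 * (univ.filter fun e => c (a e) ≠ c (b e)).card := by
  rcases Nat.eq_zero_or_pos n with rfl | hpos
  · have k1 := sum_pr_le D (H.filter fun e => c (a e) ≠ c (b e))
    have k2 : (H.filter fun e => c (a e) ≠ c (b e)).card ≤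
        (univ.filter fun e => c (a e) ≠ c (b e)).card :=
      card_le_card (filter_subset_filter _ (subset_univ _))
    omega
  have hP : c r ∈ univ.image c := mem_image_of_mem _ (mem_univ _)
  have hcard := card_erase_of_mem hP
  have h4 : ∀ v, 4 ≤ (dl a b univ (c v)).card := by
    intro v
    refine hR.2.2 _ ⟨v, h1 v⟩ ?_
    obtain ⟨Y, hY, hne⟩ := exists_mem_ne (s := univ.image c) (by omega) (c v)
    obtain ⟨u, -, rfl⟩ := mem_image.1 hY
    exact ⟨u, mem_compl.2 fun k => hne (h2 u v k)⟩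
  have hsh := shake a b univ c h1 h2
  rw [← add_sum_erase _ _ hP] at hsh
  have hv := val_le h1 h2 r (fun Y => if Y ∈ L then 4 else 2 * (dl a b H Y).card)
    (2 * (dl a b H ((c r).erase r)).card) (by
      intro hne
      have := hT _ hne ⟨r, mem_compl.2 (notMem_erase _ _)⟩
      split_ifs <;> omega)
  have hroot := root hR.1 H r (c r) (h1 r)
  have hY0 := dl_le a b H (c r)
  have h40 := h4 r
  have hsum : ∑ Y ∈ (univ.image c).erase (c r),
      (12 + if Y ∈ L then 4 else 2 * (dl a b H Y).card) ≤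
      ∑ Y ∈ (univ.image c).erase (c r), 4 * (dl a b univ Y).card := by
    refine sum_le_sum fun Y hY => ?_
    obtain ⟨hne, hY⟩ := mem_erase.1 hY
    obtain ⟨v, -, rfl⟩ := mem_image.1 hY
    have hrv : r ∉ c v := fun k => hne (h2 r v k).symm
    split_ifs with hm
    · rw [hL _ hm]
    · have k1 : (dl a b univ (c v)).card ≠ 4 := fun k => hm (hg v hrv k)
      have k2 := h4 v
      have k3 := dl_le a b H (c v)
      obtain ⟨k, hk⟩ := even_dl hR (c v)
      omega
  rw [sum_add_distrib, sum_const, smul_eq_mul, ← mul_sum, hcard] at hsum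
  have hsub : H.filter (fun e => c (a e) ≠ c (b e)) ⊆
      H.filter (fun e => a e ≠ r ∧ b e ≠ r ∧ rt c r (a e) ≠ rt c r (b e)) ∪
        H.filter fun e => (a e = r ∨ b e = r) ∧ ¬ (a e ∈ c r ↔ b e ∈ c r) := by
    intro e he
    obtain ⟨heH, hne⟩ := mem_filter.1 he
    rw [mem_union, mem_filter, mem_filter]
    by_cases ha : a e = r
    · refine Or.inr ⟨heH, Or.inl ha, fun k => hne ?_⟩
      rw [h2 _ _ (k.1 (ha ▸ h1 _)), ha]
    by_cases hb : b e = r
    · refine Or.inr ⟨heH, Or.inr hb, fun k => hne ?_⟩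
      rw [h2 _ _ (k.2 (hb ▸ h1 _)), hb]
    refine Or.inl ⟨heH, ha, hb, fun k => hne ?_⟩
    have k1 := rt_mem h1 r (a e)
    rw [k, rt_ne hb] at k1
    exact h2 _ _ (mem_erase.1 k1).2
  have hle := sum_le_sum_of_subset (f := pr D) hsub
  have hun := sum_union_inter (f := pr D)
    (s₁ := H.filter (fun e => a e ≠ r ∧ b e ≠ r ∧ rt c r (a e) ≠ rt c r (b e)))
    (s₂ := H.filter fun e => (a e = r ∨ b e = r) ∧ ¬ (a e ∈ c r ↔ b e ∈ c r))
  have hat := sum_pr_le D (H.filter fun e => (a e = r ∨ b e = r) ∧ ¬ (a e ∈ c r ↔ b e ∈ c r))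
  omega

end Thr

open Thr in
theorem thr (h1 : S_Sub) (h2 : S_Cert) (h3 : S_Kru) : S_Thr := by
  classical
  intro V E _ _ _ _ a b w hR hV
  have hne : Nonempty V := Fintype.card_pos_iff.1 (by omega)
  obtain ⟨B, ρ, hB, hρ1, hρ2, hρ3, hρ4, hρ5⟩ := h3 V E a b w hne
  obtain ⟨r⟩ := hne
  set L : Finset (Finset V) := univ.filter fun X =>
    (∃ t v, X = ρ t v ∧ r ∉ X ∧ (dl a b univ X).card = 4) ∨ (∃ v, v ≠ r ∧ X = {v}) ∨ X = {r}ᶜ
    with hLdef
  have hmem : ∀ X, X ∈ L ↔ (∃ t v, X = ρ t v ∧ r ∉ X ∧ (dl a b univ X).card = 4) ∨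
      (∃ v, v ≠ r ∧ X = {v}) ∨ X = {r}ᶜ := by
    intro X
    rw [hLdef, mem_filter]
    exact ⟨fun h => h.2, fun h => ⟨mem_univ _, h⟩⟩
  have hL4 : ∀ X ∈ L, (dl a b univ X).card = 4 := by
    intro X hX
    rcases (hmem X).1 hX with ⟨t, v, -, -, h⟩ | ⟨v, -, rfl⟩ | rfl
    · exact h
    · exact hR.2.1 v
    · rw [dl_compl]
      exact hR.2.1 r
  have hLr : ∀ X ∈ L, r ∉ X := by
    intro X hX
    rcases (hmem X).1 hX with ⟨t, v, -, h, -⟩ | ⟨v, hv, rfl⟩ | rfl
    · exact h
    · exact fun k => hv (mem_singleton.1 k).symm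
    · simp
  have hLn : ∀ X ∈ L, X.Nonempty := by
    intro X hX
    rcases (hmem X).1 hX with ⟨t, v, rfl, -, -⟩ | ⟨v, -, rfl⟩ | rfl
    · exact ⟨v, hρ1 t v⟩
    · exact singleton_nonempty v
    · obtain ⟨v, hv⟩ := Fintype.exists_ne_of_one_lt_card (by omega : 1 < Fintype.card V) r
      exact ⟨v, by simpa using hv⟩
  have htop : ∀ X ∈ L, X ⊆ {r}ᶜ := by
    intro X hX x hx
    rw [mem_compl, mem_singleton]
    rintro rfl
    exact hLr X hX hx
  have hch : ∀ s t u v, s ≤ t → ρ s u ⊆ ρ t v ∨ Disjoint (ρ s u) (ρ t v) := by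
    intro s t u v hst
    by_cases hd : Disjoint (ρ s u) (ρ t v)
    · exact Or.inr hd
    · obtain ⟨x, hx1, hx2⟩ := not_disjoint_iff.1 hd
      left
      rw [← hρ2 s x u hx1, ← hρ2 t x v hx2]
      exact hρ3 s t x hst
  have hsg : ∀ (v : V) (Y : Finset V), {v} ⊆ Y ∨ Disjoint {v} Y := by
    intro v Y
    rw [singleton_subset_iff, disjoint_singleton_left]
    exact em _
  have hLam : Lam L := by
    intro X hX Y hY
    rcases (hmem X).1 hX with ⟨s, u, rfl, -, -⟩ | ⟨u, -, rfl⟩ | rfl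
    · rcases (hmem Y).1 hY with ⟨t, v, rfl, -, -⟩ | ⟨v, -, rfl⟩ | rfl
      · rcases le_total s t with h | h
        · exact (hch s t u v h).imp id Or.inr
        · exact Or.inr ((hch t s v u h).imp id fun k => k.symm)
      · exact Or.inr ((hsg v _).imp id fun k => k.symm)
      · exact Or.inl (htop _ hX)
    · exact (hsg u Y).imp id Or.inr
    · exact Or.inr (Or.inl (htop _ hY))
  obtain ⟨H, hT, hH⟩ := h1 V E a b L hR hL4 hLam
  have hcr : ({r}ᶜ : Finset V) ∈ L := (hmem _).2 (Or.inr (Or.inr rfl))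
  obtain ⟨D, hD, hbd⟩ := h2 V E a b H r L hT hLam (fun X hX => ⟨hLr X hX, hLn X hX, hH X hX⟩)
    (fun v hv => (hmem _).2 (Or.inr (Or.inl ⟨v, hv, rfl⟩))) hcr
  refine ⟨B, H, D, fun S hS hS' => hB S ?_, hT, hD, fun t => ?_⟩
  · have := hR.2.2 S hS hS'
    exact card_pos.1 (by omega)
  have hr3 : (dl a b H {r}).card ≤ 3 := by
    rw [← dl_compl]
    exact hH _ hcr
  have hC := hbd (rt (ρ t) r) (rt_mem (hρ1 t) r) (rt_eq (hρ2 t) r) (rt_root _ r) (by
    intro X hX
    have hX' := htop X hX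
    have hne : ∀ v ∈ X, v ≠ r := fun v hv => by simpa using hX' hv
    rcases (hmem X).1 hX with ⟨s, u, rfl, hr, -⟩ | ⟨u, -, rfl⟩ | rfl
    · rcases le_total s t with h | h
      · refine Or.inl ⟨u, fun x hx => ?_⟩
        rw [rt_ne (hne u (hρ1 s u))]
        exact mem_erase.2 ⟨hne x hx, hρ3 s t u h hx⟩
      · refine Or.inr fun v hv => ?_
        rw [rt_ne (hne v hv), ← hρ2 s v u hv]
        exact (erase_subset _ _).trans (hρ3 t s v h)
    · exact Or.inl ⟨u, singleton_subset_iff.2 (rt_mem (hρ1 t) r u)⟩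
    · refine Or.inr fun v hv x hx => ?_
      rw [rt_ne (hne v hv)] at hx
      simpa using (mem_erase.1 hx).1)
  have hcore := core hR hT D r L hL4 hr3 (hρ1 t) (hρ2 t)
    (fun v hv h4 => (hmem _).2 (Or.inl ⟨t, v, rfl, hv, h4⟩)) hC _ (hρ5 t)
  have hheavy : ∀ e, ρ t (a e) ≠ ρ t (b e) → t < w e := fun e he =>
    lt_of_not_ge fun k => he (hρ4 t e k)
  have e1 := sum_filter_add_sum_filter_not (H.filter fun e => t < w e)
    (fun e => ρ t (a e) ≠ ρ t (b e)) (pr D)
  have e2 := card_filter_add_card_filter_not (s := univ.filter fun e => t < w e)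
    (fun e => ρ t (a e) ≠ ρ t (b e))
  have e3 : ∀ A : Finset E, ((A.filter fun e => t < w e).filter
      fun e => ρ t (a e) ≠ ρ t (b e)) = A.filter fun e => ρ t (a e) ≠ ρ t (b e) := by
    intro A
    ext e
    simp only [mem_filter]
    exact ⟨fun h => ⟨h.1.1, h.2⟩, fun h => ⟨⟨h.1, hheavy e h.2⟩, h.2⟩⟩
  rw [e3] at e1 e2
  have e4 := sum_pr_le D ((H.filter fun e => t < w e).filter fun e => ¬ ρ t (a e) ≠ ρ t (b e))
  have e5 : ((H.filter fun e => t < w e).filter fun e => ¬ ρ t (a e) ≠ ρ t (b e)).card ≤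
      ((univ.filter fun e => t < w e).filter fun e => ¬ ρ t (a e) ≠ ρ t (b e)).card :=
    card_le_card (filter_subset_filter _ (filter_subset_filter _ (subset_univ _)))
  omega

end Pool.Agent.P.MP_92d394_lc.H
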