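import Pool.Agent.P.MP_92d394_lc.H.CSt

/-! The case where the second prescribed edge continues the path through the partner. -/

set_option linter.unusedSectionVars false

namespace Pool.Agent.P.MP_92d394_lc.H

open Finset

variable {W E : Type} [Fintype W] [DecidableEq W] [Fintype E] [DecidableEq E]

namespace Gr

/-- The move of this case. -/
def a2m (L : Gr W E) (e k m e' : E) (v z : W) : Gr W E := (((L.sw e 0).sw k 2).sw m 2).mv e' v z

/-- The data of this case. -/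
structure A2d (L : Gr W E) (e j f k fx m fw e' : E) (v x v' s w xs ws z : W) : Prop where
  c : L.Valid
  p : L.Pa e j f k fx m fw v x v' s w xs s ws
  os : L.Ord s m e' f w z v
  nb : ¬ L.Blk v x e'

variable {L : Gr W E} {e j f k fx m fw e' g d fz : E} {u v x v' s w xs ws z t r : W}
  {S : Finset W} {N : Finset E}

namespace A2d

variable (h : L.A2d e j f k fx m fw e' v x v' s w xs ws z)
include h

theorem zv : z ≠ v := fun c => h.nb (h.p.ov.blk h.os.wk (c ▸ h.os.lk.inc2))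

theorem zx : z ≠ x := fun c => h.nb (h.p.ox.blk h.os.wk (c ▸ h.os.lk.inc2)).symm

theorem ee : e' ≠ e := h.os.lk.ne h.p.ov.le h.p.yv h.p.yx

theorem ek : e' ≠ k := h.os.lk.ne h.p.ox.lk h.p.yx h.p.ow.nq

theorem zw : z ≠ w := fun c =>
  (h.p.ow.free h.os.wk (c ▸ h.os.lk.inc2)).elim h.ek h.os.ne.symm

theorem ej : e' ≠ j := h.os.lk.ne h.p.ov.lk h.p.yv (h.p.vs' h.c).symm

theorem wsv : ws ≠ v := fun c =>
  h.p.ow.nq (h.p.ov.part h.p.ow.wf (c ▸ h.p.ow.lf.symm)).symm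

theorem wt (g : E) : (L.a2m e k m e' v z).wt g =
    if g = m then 2 else if g = k then 2 else if g = e then 0 else L.wt g := by
  simp only [a2m, mv_wt, sw_wt]

theorem lk : (L.a2m e k m e' v z).Lk e' v z := mv_lk

theorem lk' {p q : W} (n : g ≠ e') : (L.a2m e k m e' v z).Lk g p q ↔ L.Lk g p q := mv_lk' n

theorem inc' (n : g ≠ e') : (L.a2m e k m e' v z).Inc g u ↔ L.Inc g u := mv_inc' n

theorem we : (L.a2m e k m e' v z).wt e' = 1 := by
  simp [h.wt, h.os.ne.symm, h.ek, h.ee, h.os.wk]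

theorem w2 (a : L.wt g = 2) : (L.a2m e k m e' v z).wt g = 2 := by
  have : g ≠ e := fun c => by have := h.p.ov.we; rw [← c] at this; omega
  simp [h.wt, this, a]

theorem wm : (L.a2m e k m e' v z).wt m = 2 := by simp [h.wt]

theorem free (a : (L.a2m e k m e' v z).wt g = 1) : g ≠ m ∧ g ≠ k ∧ g ≠ e ∧ L.wt g = 1 := by
  rw [h.wt] at a
  split_ifs at a with c1 c2 c3 <;> first | omega | exact ⟨c1, c2, c3, a⟩

theorem pos (a : (L.a2m e k m e' v z).wt g ≠ 0) : g ≠ e ∧ L.wt g ≠ 0 := by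
  rw [h.wt] at a
  split_ifs at a with c1 c2 c3
  · exact ⟨c1 ▸ h.p.em.symm, by rw [c1, h.p.ow.wk]; exact one_ne_zero⟩
  · exact ⟨c2 ▸ h.p.ox.ne.symm, by rw [c2, h.p.ox.wk]; exact one_ne_zero⟩
  · exact absurd rfl a
  · exact ⟨c3, a⟩

theorem om (S : Finset W) : (L.a2m e k m e' v z).om S + ch S v x + ch S s z =
    L.om S + ch S x w + ch S w s + ch S v z := by
  have a1 := sw_om h.p.ov.le 0 S
  have a2 := sw_om (L := L.sw e 0) h.p.ox.lk 2 S
  have a3 := sw_om (L := (L.sw e 0).sw k 2) h.p.ow.lk 2 S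
  have a4 := mv_om (L := ((L.sw e 0).sw k 2).sw m 2) h.os.lk v z S
  simp only [sw_wt, h.p.ox.wk, h.p.ow.wk, h.p.ov.we, h.os.wk, if_neg h.p.ow.ne.symm,
    if_neg h.p.em.symm, if_neg h.p.ox.ne.symm, if_neg h.os.ne.symm, if_neg h.ek, if_neg h.ee]
    at a1 a2 a3 a4
  simp only [a2m]
  omega

theorem fc : (L.a2m e k m e' v z).fc + 3 = L.fc := by
  have a1 := sw_fc (L := L) e 0
  have a2 := sw_fc (L := L.sw e 0) k 2
  have a3 := sw_fc (L := (L.sw e 0).sw k 2) m 2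
  simp [sw_wt, h.p.ox.wk, h.p.ow.wk, h.p.ov.we, h.p.ow.ne.symm, h.p.em.symm, h.p.ox.ne.symm]
    at a1 a2 a3
  simp only [a2m, mv_fc]
  omega

theorem agr (n1 : u ≠ v) (n2 : u ≠ x) (n3 : u ≠ w) (n4 : u ≠ s) (n5 : u ≠ z) :
    L.Agr (L.a2m e k m e' v z) u :=
  (((Agr.rfl'.sw h.p.ov.le n1 n2 0).sw h.p.ox.lk n2 n3 2).sw h.p.ow.lk n3 n4 2).mv h.os.lk n4 n5
    n1 n5

theorem ov : (L.a2m e k m e' v z).Ord v e' j f z v' s := by
  refine ⟨h.ej, h.we, by simp [h.wt, h.p.jm, h.p.jk, h.p.ov.ne.symm, h.p.ov.wk], h.w2 h.p.ov.wf,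
    h.lk, (h.lk' h.ej.symm).2 h.p.ov.lk, (h.lk' h.os.nkf.symm).2 h.p.ov.lf, h.zv, h.p.ov.nq,
    h.p.ov.nr, fun g a i => ?_⟩
  by_cases n : g = e'
  · exact Or.inl n
  · exact Or.inr ((h.p.ov.all g (h.pos a).2 ((h.inc' n).1 i)).resolve_left (h.pos a).1)

theorem oz (o : L.Ord z e' d fz s t r) : (L.a2m e k m e' v z).Ord z e' d fz v t r := by
  have a1 : d ≠ e := o.lk.ne h.p.ov.le h.zv h.zx
  have a2 : d ≠ k := o.lk.ne h.p.ox.lk h.zx h.zw
  have a3 : d ≠ m := o.lk.ne h.p.ow.lk h.zw h.os.nq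
  refine ⟨o.ne, h.we, by simp [h.wt, a1, a2, a3, o.wk], h.w2 o.wf, h.lk.symm,
    (h.lk' o.ne.symm).2 o.lk, (h.lk' o.nef.symm).2 o.lf, h.zv.symm, o.nq, o.nr, fun g a i => ?_⟩
  by_cases n : g = e'
  · exact Or.inl n
  · exact o.all g (h.pos a).2 ((h.inc' n).1 i)

theorem als (g : E) (a : (L.a2m e k m e' v z).wt g ≠ 0) (i : (L.a2m e k m e' v z).Inc g s) :
    g = f ∨ g = m := by
  by_cases n : g = e'
  · rw [n, h.lk.inc] at i
    exact (i.elim h.p.yv h.os.nq.symm).elim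
  · rcases h.os.all g (h.pos a).2 ((h.inc' n).1 i) with c | c | c
    exacts [Or.inr c, absurd c n, Or.inl c]

theorem ns : ¬ (L.a2m e k m e' v z).IsO s := fun ⟨g, a, i⟩ => by
  rcases h.als g (by omega) i with c | c
  · have := h.w2 h.p.ov.wf
    rw [← c] at this
    omega
  · exact (h.free a).1 c

theorem nx : ¬ (L.a2m e k m e' v z).IsO x := fun ⟨g, a, i⟩ => by
  have b := h.free a
  by_cases n : g = e'
  · rw [n, h.lk.inc] at i
    exact i.elim h.p.ov.np h.zx.symm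
  · exact (h.p.ox.free b.2.2.2 ((h.inc' n).1 i)).elim b.2.2.1 b.2.1

theorem nw : ¬ (L.a2m e k m e' v z).IsO w := fun ⟨g, a, i⟩ => by
  have b := h.free a
  by_cases n : g = e'
  · rw [n, h.lk.inc] at i
    exact i.elim h.p.wv h.zw.symm
  · exact (h.p.ow.free b.2.2.2 ((h.inc' n).1 i)).elim b.2.1 b.1

theorem no_cut (t : L.om S = 4) (i1 : v ∈ S) (i2 : z ∈ S) (j1 : x ∉ S) (j2 : s ∉ S) : False :=
  h.nb (Or.inl ⟨S, f, ⟨t, i1, j1⟩, h.os.lk.cr2 j2 i2, h.p.ov.wf, h.p.ov.lf.cr1 i1 j2⟩)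

theorem valid : (L.a2m e k m e' v z).Valid := by
  refine ⟨fun g => sw_w2 (sw_w2 (sw_w2 h.c.w2 (Nat.zero_le 2)) le_rfl) le_rfl g, fun u => ?_,
    fun S p q i j => ?_⟩
  · by_cases n1 : u = v
    · exact Or.inr (n1 ▸ h.ov.dg)
    by_cases n2 : u = x
    · exact deg_of fun o => absurd (n2 ▸ o) h.nx
    by_cases n3 : u = w
    · exact deg_of fun o => absurd (n3 ▸ o) h.nw
    by_cases n4 : u = s
    · exact deg_of fun o => absurd (n4 ▸ o) h.ns
    by_cases n5 : u = z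
    · obtain ⟨_, _, _, _, o⟩ := h.c.ord h.os.wk h.os.lk.symm
      exact Or.inr (n5 ▸ (h.oz o).dg)
    exact (h.agr n1 n2 n3 n4 n5).deg h.c
  · have a1 := h.om S
    have a2 := h.c.c4 S p q i j
    have a3 := h.c.even S
    have a4 := h.no_cut (S := S)
    have a5 := h.no_cut (S := Sᶜ)
    simp only [om_compl, mem_compl, not_not, ch] at a1 a5
    by_cases v ∈ S <;> by_cases x ∈ S <;> by_cases w ∈ S <;> by_cases s ∈ S <;>
      by_cases z ∈ S <;> simp [*] at a1 a4 a5 <;> omega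

theorem wsv' (n : ws ≠ z) : ws ≠ v' := fun c => by
  subst c
  have sx := h.p.yx
  have sw := h.p.ow.nq
  have wx := h.p.ox.nq
  have wv := h.p.wv
  have xv := h.p.ov.np
  have n1 := h.wsv
  have n2 := h.p.wsy h.c
  have n3 := h.p.ow.nr
  have n4 := h.p.wsx h.c.c4
  have a0 := (h.p.ov.pair h.c.c4 h.os xv sx.symm).1
  obtain ⟨_, _, q, r, o⟩ := h.c.ord h.p.ov.wk h.p.ov.lk.symm
  have r1 : w = r := o.part h.p.ow.wf h.p.ow.lf.symm
  subst r1
  have a1 := h.p.ow.ins (S := {s, v}) (by simp [sw.symm, wv])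
  have a2 := o.ins (S := insert w {s, v}) (by simp [n1, n2, n3])
  have x1 : x ∉ insert ws (insert w ({s, v} : Finset W)) := by
    simp [n4.symm, wx.symm, sx.symm, xv]
  have a3 := h.c.c4 _ v x (by simp) x1
  rw [a0] at a1
  simp only [mem_insert, mem_singleton, sx.symm, xv, n1, n2, true_or, or_true, or_self, if_true,
    if_false] at a1 a2
  refine h.nb (Or.inr ⟨{s, v}, insert ws (insert w {s, v}), fun c => ?_,
    ⟨a0, by simp, by simp [sx.symm, xv]⟩, ⟨by omega, by simp, x1⟩,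
    h.os.lk.cr1 (by simp) (by simp [h.os.nq, h.zv]),
    h.os.lk.cr1 (by simp) (by simp [h.os.nq, h.zv, h.zw, n.symm])⟩)
  have : w ∈ ({s, v} : Finset W) := by rw [c]; simp
  simp [sw.symm, wv] at this

theorem dok (o : (L.a2m e k m e' v z).IsO ws) : (L.a2m e k m e' v z).Dok v z ws := by
  by_cases n : ws = z
  · exact Or.inr (Or.inl n)
  obtain ⟨_, _, _, _, _, r, o⟩ := h.valid.ord' o
  have a1 : fw ≠ e' := fun c => by
    have := h.p.ow.wf
    have := h.os.wk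
    rw [c] at *
    omega
  have r1 : w = r := o.part (h.w2 h.p.ow.wf) ((h.lk' a1).2 h.p.ow.lf.symm)
  subst r1
  exact dok_path h.valid.c4 h.ov o h.os.nef.symm h.wm ((h.lk' h.os.ne).2 h.os.le) h.als (h.wsv' n)

theorem cov (i : e' ∈ N) (a : (L.a2m e k m e' v z).Cov N u) : L.Cov (insert e N) u := by
  obtain ⟨g, a, b⟩ := a
  by_cases n : g = e'
  · rw [n, h.lk.inc] at b
    rcases b with rfl | rfl
    exacts [⟨e, mem_insert_self .., h.p.ov.le.inc1⟩, ⟨e', mem_insert_of_mem i, h.os.lk.inc2⟩]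
  · exact ⟨g, mem_insert_of_mem a, (h.inc' n).1 b⟩

theorem lift (a : (L.a2m e k m e' v z).Sol N) (i : e' ∈ N)
    (b : (L.a2m e k m e' v z).IsO ws → (L.a2m e k m e' v z).Cov N ws) : L.Sol (insert e N) := by
  refine sol_of (fun u => u = v ∨ u = x ∨ u = w ∨ u = s ∨ u = z) (fun u n => ?_) (a.nd' _)
    (fun g c => ?_) (a.tw.lift (fun g => ?_) fun g _ c => ?_) (fun u _ => h.cov i)
    fun g u u' wg lg c _ o => ?_
  · push Not at n
    exact h.agr n.1 n.2.1 n.2.2.1 n.2.2.2.1 n.2.2.2.2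
  · exact (mem_insert.1 c).elim (fun z => z ▸ h.p.ov.we) fun c => (h.free (a.fr g c)).2.2.2
  · rw [h.wt, mem_insert]
    have := h.p.ox.wk
    have := h.p.ow.wk
    have := h.p.em.symm
    have := h.p.ox.ne.symm
    split_ifs with c1 c2 c3 <;> simp [*]
  · have : g ≠ e' := fun z => c (z ▸ i)
    simp [a2m, mv_a, mv_b, this]
  · rcases c with c | c | c | c | c
    · exact Or.inl ⟨e, mem_insert_self .., c ▸ h.p.ov.le.inc1⟩
    · exact Or.inl ⟨e, mem_insert_self .., c ▸ h.p.ov.le.inc2⟩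
    · have r1 : u' = ws := h.p.ow.part wg (c ▸ lg)
      subst r1
      by_cases n : u' = z
      · exact Or.inr ⟨e', mem_insert_of_mem i, n ▸ h.os.lk.inc2⟩
      · exact Or.inr (h.cov i (b ((h.agr h.wsv (h.p.wsx h.c.c4) h.p.ow.nr (h.p.wsy h.c) n).isO o)))
    · exact Or.inl ⟨e', mem_insert_of_mem i, c ▸ h.os.lk.inc1⟩
    · exact Or.inl ⟨e', mem_insert_of_mem i, c ▸ h.os.lk.inc2⟩

end A2d

end Gr

theorem caseA2 : S_A2 := by
  intro W E _ _ _ _ L c ih e j f k fx m fw e' v x v' s w xs ws z p we le n nb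
  obtain ⟨d, fs, t, r, o⟩ := c.ord p.ow.wk p.ow.lk.symm
  obtain ⟨rfl, rfl⟩ : e' = d ∧ z = t := (o.nbr we le).resolve_left fun a => n a.1
  obtain rfl : f = fs := o.forced p.ov.wf p.ov.lf.inc2
  obtain rfl : v = r := o.part p.ov.wf p.ov.lf.symm
  have h : L.A2d e j f k fx m fw e' v x v' s w xs ws z := ⟨c, p, o, nb⟩
  have dm := (ih W E _ h.valid (Or.inl (by have := h.fc; omega))).1
  by_cases b : (L.a2m e k m e' v z).IsO ws
  · obtain ⟨N, a1, a2, a3⟩ := dm e' v z ws h.we h.lk (h.dok b)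
    exact ⟨insert e N, h.lift a1 a2 fun _ => a3, mem_insert_self .., mem_insert_of_mem a2⟩
  · obtain ⟨N, a1, a2, -⟩ := dm e' v z v h.we h.lk (Or.inl rfl)
    exact ⟨insert e N, h.lift a1 a2 fun o => absurd o b, mem_insert_self .., mem_insert_of_mem a2⟩

end Pool.Agent.P.MP_92d394_lc.H
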