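import Pool.Agent.P.MP_92d394_lc.H.G6

/-! The two tools that keep prescribed edges. -/

set_option linter.unusedSectionVars false

namespace Pool.Agent.P.MP_92d394_lc.H

open Finset Sum

variable {W E : Type} [Fintype W] [DecidableEq W] [Fintype E] [DecidableEq E]

namespace Gr

/-- The triangle gadget. -/
def tri : Gr (Option Bool) (Option Bool) :=
  ⟨fun d => d.elim (some true) fun _ => none, fun d => d.elim (some false) some,
    fun d => d.elim 1 fun _ => 2⟩

variable {L : Gr W E} {T : Finset W} {σ : E → Option Bool} {i : Bool} {g : E} {u p : W}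

theorem tri_lk (i : Bool) : tri.Lk none (some i) (some !i) := by cases i <;> simp [Lk, tri]

theorem tri_lk' (i : Bool) : tri.Lk (some i) (some i) none := by simp [Lk, tri]

theorem tri_ord (w : L.wt g = 1) (l : L.Lk g u p) (a : u ∈ T) (b : p ∉ T) (s : σ g = some i)
    (al : ∀ k, L.wt k ≠ 0 → L.Cr T k → σ k = some i → k = g) :
    (L.rep T σ tri).Ord (inr (some i)) (inr none) (inl g) (inr (some i)) (inr (some !i))
      (inl ⟨p, b⟩) (inr none) := by
  have l' := rep_lk_cr (σ := σ) (Γ := tri) l a b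
  rw [s] at l'
  refine ⟨by simp, rfl, (rep_wt l.inc2 b).trans w, rfl, rep_lk2 (tri_lk i), l', rep_lk2 (tri_lk' i),
    by simp, by simp, by simp, fun k w j => ?_⟩
  rcases k with k | _ | k
  · have := rep_inc4 w j
    simp [al k this.1 this.2.1 this.2.2]
  · simp
  · simpa [Inc, tri] using rep_inc3.1 j

theorem tri_alone (c4 : ∀ S u, u ∈ S → Disjoint S T → 4 ≤ L.om S) (w : L.wt g = 1) (l : L.Lk g u p)
    (a : u ∈ T) (b : p ∉ T) (s : σ g = some i)
    (al : ∀ k, L.wt k ≠ 0 → L.Cr T k → σ k = some i → k = g) {S : Finset ({w // w ∉ T} ⊕ Option Bool)}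
    (s1 : inr (some i) ∈ S) (s2 : inr (some !i) ∉ S) (s3 : inr none ∉ S) :
    4 ≤ (L.rep T σ tri).om S ∧ ((L.rep T σ tri).om S = 4 → ∀ z, inl z ∉ S) := by
  have a1 := rep_om (L := L) (σ := σ) (Γ := tri) (S := S) none {g} fun k w c n => by
    have : σ k ≠ some i := fun z => n (by simpa using al k w c z)
    rcases h : σ k with _ | j
    · rfl
    · rw [Bool.eq_not_iff.2 fun z : j = i => this (z ▸ h)]
      exact iff_of_false s2 s3
  have l' := rep_lk_cr (σ := σ) (Γ := tri) l a b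
  have e2 : ∑ d, tri.wt d * ch S (inr (tri.a d)) (inr (tri.b d)) = 3 := by
    cases i <;> simp_all [tri, ch]
  simp only [sum_singleton, l.ch, l'.ch, rep_wt l.inc2 b, w, s, e2] at a1
  simp only [ch, mem_pb, pj_in a, pj_out b, s1, s3] at a1
  have a3 : ∀ z, inl z ∈ S → 4 ≤ L.om (pb T none S) := fun z j =>
    c4 _ z.1 (by simpa [pj_out z.2] using j) (pb_disj s3)
  have a4 := a3 ⟨p, b⟩
  refine ⟨?_, fun t z j => ?_⟩
  · by_cases c1 : inl ⟨p, b⟩ ∈ S <;> simp [c1] at a1 a4 <;> omega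
  · have := a3 z j
    by_cases c1 : inl ⟨p, b⟩ ∈ S <;> simp [c1] at a1 <;> omega

theorem ord_of_dg {e : E} (w2 : ∀ g, L.wt g ≤ 2) (d1 : L.dg 1 u = 2) (d2 : L.dg 2 u = 1)
    (w : L.wt e = 1) (l : L.Lk e u p) (np : p ≠ u) : ∃ k f q r, L.Ord u e k f p q r := by
  obtain ⟨f, -, f1, f2⟩ := sum_one d2
  have wf : L.wt f = 2 := by by_contra z; simp [z] at f1
  rw [if_pos wf] at f1
  obtain ⟨r, lf, nr⟩ := lk_of_en f1
  rw [dg, ← add_sum_erase _ _ (mem_univ e), if_pos w] at d1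
  have e1 : L.en e u = 1 := by rw [l.en]; simp [np]
  obtain ⟨k, k0, k1, k2⟩ := sum_one (show ∑ g ∈ univ.erase e,
    (if L.wt g = 1 then L.en g u else 0) = 1 by omega)
  have wk : L.wt k = 1 := by by_contra z; simp [z] at k1
  rw [if_pos wk] at k1
  obtain ⟨q, lk, nq⟩ := lk_of_en k1
  refine ⟨k, f, q, r, (mem_erase.1 k0).1.symm, w, wk, wf, l, lk, lf, np, nq, nr, fun g z i => ?_⟩
  have := w2 g
  by_contra n
  push Not at n
  by_cases w1 : L.wt g = 1
  · have := k2 g (mem_erase.2 ⟨n.1, mem_univ g⟩) n.2.1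
    rw [if_pos w1] at this
    exact en_ne.2 i this
  · have := f2 g (mem_univ _) n.2.2
    rw [if_pos (by omega)] at this
    exact en_ne.2 i this

end Gr

open Gr

theorem anti : S_Anti := by
  intro W E _ _ _ _ H n c₀ T c d f p ih hn w2 dg c4 ne wc wd wf cc cd cf al hp
  let σ : E → Option Bool := fun g => if g = c then some true else if g = d then some false else none
  obtain ⟨uc, pc, lc, ac, bc⟩ := cc.lk
  obtain ⟨ud, pd, ld, ad, bd⟩ := cd.lk
  have sc : σ c = some true := if_pos rfl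
  have sd : σ d = some false := by simp [σ, ne.symm]
  have alc : ∀ k, H.wt k ≠ 0 → H.Cr T k → σ k = some true → k = c := fun k _ _ z => by
    by_contra n
    simp [σ, n] at z
  have ald : ∀ k, H.wt k ≠ 0 → H.Cr T k → σ k = some false → k = d := fun k _ _ z => by
    by_contra n
    simp [σ, n] at z
  have oc := tri_ord wc lc ac bc sc alc
  have od := tri_ord wd ld ad bd sd ald
  have sp : ∀ S : Finset ({w // w ∉ T} ⊕ Option Bool), inr none ∉ S →
      ¬ (inr (some true) ∈ S ↔ inr (some false) ∈ S) →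
      4 ≤ (H.rep T σ tri).om S ∧ ((H.rep T σ tri).om S = 4 → ∀ z, inl z ∉ S) := fun S a b => by
    by_cases s : inr (some true) ∈ S
    · exact tri_alone c4 wc lc ac bc sc alc s (by simpa [s] using b) a
    · exact tri_alone c4 wd ld ad bd sd ald (by simpa [s] using b) s a
  have hv : (H.rep T σ tri).Valid := by
    refine rep_valid w2 (by rintro (_ | _) <;> simp [tri]) dg ?_ (rep_c4 none c4 fun S i j a b => ?_)
    · rintro (_ | _ | _) o
      · obtain ⟨g | _ | g, w, i⟩ := o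
        · have := rep_inc4 (w ▸ one_ne_zero) i
          rw [rep_wt_cr this.2.1] at w
          rcases al g this.1 this.2.1 with rfl | rfl | rfl
          exacts [absurd (sc.symm.trans this.2.2) (by simp), absurd (sd.symm.trans this.2.2) (by simp),
            by omega]
        · simpa [Inc, tri] using rep_inc3.1 i
        · simp [tri] at w
      exacts [⟨_, _, _, _, _, _, od⟩, ⟨_, _, _, _, _, _, oc⟩]
    · have key : ∀ S : Finset ({w // w ∉ T} ⊕ Option Bool), inr none ∉ S → ∀ i, inr i ∈ S →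
          4 ≤ (H.rep T σ tri).om S := fun S a i b => by
        by_cases s : inr (some true) ∈ S ↔ inr (some false) ∈ S
        · have s1 : inr (some true) ∈ S := by rcases i with _ | _ | _ <;> simp_all
          exact c2 (g₁ := inr (some true)) (g₂ := inr (some false)) (by simp) (oc.lf.cr1 s1 a)
            (od.lf.cr1 (s.1 s1) a)
        · exact (sp S a s).1
      by_cases s : inr none ∈ S
      · rw [← om_compl]
        exact key Sᶜ (by simpa) j (mem_compl.2 b)
      · exact key S s i a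
  have fc := rep_fc (L := H) (T := T) (σ := σ) (Γ := tri) ∅ (by simp)
  have fc' : tri.fc = 1 := by simp [Gr.fc, tri]
  have dem := (ih _ _ _ hv (Or.inl (by omega))).1
  have fin : ∀ q, (H.rep T σ tri).Dok (inr (some true)) (inr (some false)) q → ∃ N, H.Half T (pe N) ∧
      c ∉ pe N ∧ d ∉ pe N ∧ (H.rep T σ tri).Cov N q := fun q dk => by
    obtain ⟨N, s, i, j⟩ := dem _ _ _ q oc.we oc.le dk
    exact ⟨N, s.half none, fun z => oc.mat s.tw i (mem_pe.1 z), fun z => od.mat s.tw i (mem_pe.1 z), j⟩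
  by_cases hq : p ∉ T ∧ H.IsO p
  · suffices dk : ∃ k, (H.rep T σ tri).wt k = 1 ∧ (H.rep T σ tri).Inc k (inl ⟨p, hq.1⟩) ∧
        ¬ (H.rep T σ tri).Blk (inr (some true)) (inr (some false)) k by
      obtain ⟨N, a1, a2, a3, a4⟩ := fin (inl ⟨p, hq.1⟩) (Or.inr (Or.inr dk))
      exact ⟨_, a1, a2, a3, fun _ _ => (rep_cov _).1 a4⟩
    obtain ⟨k₁, k₂, _, _, _, _, o⟩ := hv.ord' ((rep_isO hq.1).2 hq.2)
    have key : ∀ k, (H.rep T σ tri).wt k = 1 → (H.rep T σ tri).Inc k (inl ⟨p, hq.1⟩) →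
        (H.rep T σ tri).Blk (inr (some true)) (inr (some false)) k → k = inl c ∨ k = inl d := by
      rintro (k | k) w i b
      swap
      · exact absurd i (rep_inc2 _)
      have k2 : ∀ S : Finset ({w // w ∉ T} ⊕ Option Bool), (H.rep T σ tri).om S = 4 → inr none ∉ S →
          ¬ (inr (some true) ∈ S ↔ inr (some false) ∈ S) → (H.rep T σ tri).Cr S (inl k) →
          k = c ∨ k = d := fun S t a b j => by
        obtain ⟨z | z, _, lk, z1, -⟩ := j.lk
        · exact absurd z1 ((sp S a b).2 t z)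
        · have := rep_inc4 (w ▸ one_ne_zero) lk.inc1
          rw [rep_wt_cr this.2.1] at w
          rcases al k this.1 this.2.1 with z | z | rfl
          exacts [Or.inl z, Or.inr z, by omega]
      obtain ⟨S, t, j⟩ : ∃ S, (H.rep T σ tri).Ct (inr (some true)) (inr (some false)) S ∧
          (H.rep T σ tri).Cr S (inl k) :=
        b.elim (fun ⟨S, _, t, j, _⟩ => ⟨S, t, j⟩) fun ⟨S, _, _, t, _, j, _⟩ => ⟨S, t, j⟩
      simp only [inl.injEq]
      by_cases s : inr none ∈ S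
      · exact k2 Sᶜ t.compl.1 (by simpa) (by simp [t.2]) (cr_compl.2 j)
      · exact k2 S t.1 s (by simp [t.2]) j
    by_contra z
    push Not at z
    have i1 := o.le.inc1
    have i2 := o.lk.inc1
    have := o.ne
    rcases key _ o.we i1 (z _ o.we i1) with rfl | rfl <;>
      rcases key _ o.wk i2 (z _ o.wk i2) with rfl | rfl <;> rw [rep_inc] at i1 i2
    exacts [this rfl, hp hq.1 ⟨i1, i2⟩, hp hq.1 ⟨i2, i1⟩, this rfl]
  · obtain ⟨N, a1, a2, a3, -⟩ := fin _ (Or.inl rfl)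
    exact ⟨_, a1, a2, a3, fun a b => absurd ⟨a, b⟩ hq⟩

theorem byp : S_Byp := by
  intro W E _ _ _ _ H n c₀ j d f v s t v' p ih hn w2 dg c4 wj wd wf lj ld lf av as n1 n2 n3 n4 n5 n6
  obtain ⟨d1, d2⟩ := (dg t n2 n3).resolve_left (isO_iff.1 ⟨d, wd, ld.inc2⟩)
  obtain ⟨k, ft, t2, t3, ot⟩ := ord_of_dg w2 d1 d2 wd ld.symm n3.symm
  have jk : j ≠ k := (ot.lk.ne lj n2 n6.symm).symm
  have wk := ot.wk
  have wt := ot.wf
  have ff : ft ≠ f := ot.lf.ne lf n2 n3
  let T : Finset W := {v, s, t}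
  have mT : ∀ z, z ∈ T ↔ z = v ∨ z = s ∨ z = t := fun z => by simp [T]
  have iv : v ∈ T := by simp [T]
  have is : s ∈ T := by simp [T]
  have it : t ∈ T := by simp [T]
  have o1 : v' ∉ T := by simp [*]
  have o2 : t2 ∉ T := fun z => by
    rcases (mT _).1 z with rfl | rfl | z
    · rcases av k (by omega) ot.lk.inc2 with rfl | rfl
      exacts [jk rfl, by omega]
    · rcases as k (by omega) ot.lk.inc2 with rfl | rfl
      exacts [ot.ne rfl, by omega]
    · exact ot.nq z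
  have o3 : t3 ∉ T := fun z => by
    rcases (mT _).1 z with rfl | rfl | z
    · rcases av ft (by omega) ot.lf.inc2 with rfl | rfl
      exacts [by omega, ff rfl]
    · rcases as ft (by omega) ot.lf.inc2 with rfl | rfl
      exacts [by omega, ff rfl]
    · exact ot.nr z
  have lg : H.Leg T j k ft := by
    refine ⟨jk, wj, wk, wt, lj.cr1 iv o1, ot.lk.cr1 it o2, ot.lf.cr1 it o3, fun g w c => ?_⟩
    have cf : g ≠ f := fun z => (lf.cr T).1 (z ▸ c) (iff_of_true iv is)
    have cd : g ≠ d := fun z => (ld.cr T).1 (z ▸ c) (iff_of_true is it)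
    obtain ⟨z, _, l, i, -⟩ := c.lk
    rcases (mT _).1 i with rfl | rfl | rfl
    · exact Or.inl ((av g w l.inc1).resolve_right cf)
    · exact ((as g w l.inc1).elim cd cf).elim
    · exact Or.inr ((ot.all g w l.inc1).resolve_left cd)
  have hv := lg.valid w2 (fun u a => dg u (fun z => a (z ▸ iv)) fun z => a (z ▸ is))
    fun S u a b => c4 S u a (disjoint_right.1 b iv) (disjoint_right.1 b is) (disjoint_right.1 b it)
  have fc := rep_fc (L := H) (T := T) (σ := fun _ => ()) (Γ := emp) {d} fun g c => by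
    rw [mem_singleton.1 c]
    rcases ld with ⟨a, b⟩ | ⟨a, b⟩ <;> simp [*]
  rw [emp_fc, card_singleton] at fc
  have dem := (ih _ _ _ hv (Or.inl (Nat.lt_of_lt_of_le fc hn))).1
  obtain ⟨q, r, o⟩ := lg.ord lj iv o1
  obtain ⟨k', _, q', _, o'⟩ := hv.ord o.we o.le.symm
  have fin : ∀ z, (H.con T).IsO z → ∃ N, (H.con T).Sol N ∧ inl j ∉ N ∧ (H.con T).Cov N z :=
    fun z oz => by
    rcases dok_two hv o.wk o'.wk o.lk o'.lk oz (Or.inr ⟨_, o.we, o.le, o.ne.symm, o'.ne.symm⟩)
      with c | c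
    · obtain ⟨N, a1, a2, a3⟩ := dem _ _ _ z o.wk o.lk c
      exact ⟨N, a1, o.symm.mat a1.tw a2, a3⟩
    · obtain ⟨N, a1, a2, a3⟩ := dem _ _ _ z o'.wk o'.lk c
      exact ⟨N, a1, o'.symm.mat a1.tw a2, a3⟩
  have ct : ∀ N, (H.con T).Sol N → inl j ∉ N → (H.con T).Cov N (inr ()) → H.Cov (pe N) t :=
    fun N a1 a2 ⟨g, a3, a4⟩ => ⟨k, mem_pe.2 ((o.free (a1.fr g a3) a4).resolve_left
      (fun z => a2 (z ▸ a3)) ▸ a3), ot.lk.inc1⟩
  have out : ∀ N, (H.con T).Sol N → inl j ∉ N → (∀ g ∈ pe N, H.wt g = 1 ∧ g ≠ j ∧ g ≠ d) ∧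
      H.Tw (pe N) ∧ H.Nd (fun u => u = v ∨ u = s) (pe N) := fun N a1 a2 => by
    have hf := a1.half ()
    have b1 : j ∉ pe N := fun z => a2 (mem_pe.1 z)
    have b2 : d ∉ pe N := fun z => (hf.fr d z).2 (by rcases ld with ⟨a, b⟩ | ⟨a, b⟩ <;> simp [*])
    have b3 : f ∉ pe N := fun z => by have := (hf.fr f z).1; omega
    have b4 : ft ∉ pe N := fun z => by have := (hf.fr ft z).1; omega
    refine ⟨fun g c => ⟨(hf.fr g c).1, fun z => b1 (z ▸ c), fun z => b2 (z ▸ c)⟩,
      tw_glue (T := T) ((kp_le {j, k, ft} fun g w _ c => by simpa using lg.all g w c).trans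
        card_le_three) (fun S u i c => ?_) hf.tw, ?_⟩
    · have p1 : v' ∉ S := fun z => o1 (c z)
      have p3 : t3 ∉ S := fun z => o3 (c z)
      have jd : j ≠ d := lj.ne ld n1.symm n2.symm
      have e1 : ∀ {a b : E}, H.wt a = 1 → H.wt b = 2 → a ≠ b := fun p q z => by rw [z] at p; omega
      have m := (mT u).1 (c i)
      by_cases c1 : v ∈ S <;> by_cases c2 : s ∈ S <;> by_cases c3 : t ∈ S
      · exact two_kp (e1 wj wt) (by omega) (by omega) b1 b4 (lj.cr1 c1 p1) (ot.lf.cr1 c3 p3)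
      · exact two_kp jd (by omega) (by omega) b1 b2 (lj.cr1 c1 p1) (ld.cr1 c2 c3)
      · exact two_kp (e1 wj wf) (by omega) (by omega) b1 b3 (lj.cr1 c1 p1) (lf.cr1 c1 c2)
      · exact two_kp (e1 wj wf) (by omega) (by omega) b1 b3 (lj.cr1 c1 p1) (lf.cr1 c1 c2)
      · exact two_kp ff (by omega) (by omega) b4 b3 (ot.lf.cr1 c3 p3) (lf.cr2 c1 c2)
      · exact two_kp (e1 wd wf) (by omega) (by omega) b2 b3 (ld.cr1 c2 c3) (lf.cr2 c1 c2)
      · exact two_kp (e1 wd wt) (by omega) (by omega) b2 b4 (ld.cr2 c2 c3) (ot.lf.cr1 c3 p3)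
      · rcases m with rfl | rfl | rfl <;> contradiction
    · have key : ∀ g z, H.wt g = 2 → H.Lk g t z → H.IsO z → H.Cov (pe N) t ∨ H.Cov (pe N) z :=
        fun g z w l oz => by
        obtain rfl := ot.part w l
        exact (a1.nd _ _ _ o.wf (rep_lk_cr ot.lf it o3) o.isO ((rep_isO o3).2 oz)).imp (ct N a1 a2)
          (rep_cov o3).1
      intro g u u' w l c1 c2 i1 i2
      by_cases e1 : u = t
      · exact e1 ▸ key g u' w (e1 ▸ l) i2
      by_cases e2 : u' = t
      · exact e2 ▸ (key g u w (e2 ▸ l.symm) i1).symm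
      exact hf.nd g u u' w l (fun z => ((mT _).1 z).elim (fun z => c1 (Or.inl z))
        fun z => z.elim (fun z => c1 (Or.inr z)) e1) (fun z => ((mT _).1 z).elim
        (fun z => c2 (Or.inl z)) fun z => z.elim (fun z => c2 (Or.inr z)) e2) i1 i2
  by_cases hq : p ∉ T ∧ H.IsO p
  · obtain ⟨N, a1, a2, a3⟩ := fin _ ((rep_isO hq.1).2 hq.2)
    obtain ⟨b1, b2, b3⟩ := out N a1 a2
    exact ⟨_, b1, b2, b3, fun _ _ _ => (rep_cov _).1 a3⟩
  · obtain ⟨N, a1, a2, a3⟩ := fin _ o.isO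
    obtain ⟨b1, b2, b3⟩ := out N a1 a2
    refine ⟨_, b1, b2, b3, fun c1 c2 c3 => ?_⟩
    have : p = t := by rw [mT] at hq; tauto
    exact this ▸ ct N a1 a2 a3

end Pool.Agent.P.MP_92d394_lc.H
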