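import Pool.Agent.P.MP_92d394_lc.H.CSt

/-! Uncovering along longer cycles. -/

set_option linter.unusedSectionVars false

namespace Pool.Agent.P.MP_92d394_lc.H

open Finset

variable {W E : Type} [Fintype W] [DecidableEq W] [Fintype E] [DecidableEq E]

namespace Gr

variable {L : Gr W E} {e j f k fx m fw d g : E} {u v x v' s w xs y ws t : W} {N : Finset E}

theorem al_cov (a : L.Cov N u) : L.Cov (insert e N) u :=
  a.imp fun _ z => ⟨mem_insert_of_mem z.1, z.2⟩

theorem al_wt2 (g : E) :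
    ((L.sw e 0).sw k 2).wt g = if g = k then 2 else if g = e then 0 else L.wt g := by
  simp only [sw_wt]

theorem al_free2 (a : ((L.sw e 0).sw k 2).wt g = 1) : g ≠ e ∧ g ≠ k ∧ L.wt g = 1 := by
  rw [al_wt2] at a
  split_ifs at a with c1 c2 <;> first | omega | exact ⟨c2, c1, a⟩

theorem al_wt3 (g : E) : (((L.sw e 0).sw k 2).sw m 2).wt g =
    if g = m then 2 else if g = k then 2 else if g = e then 0 else L.wt g := by
  simp only [sw_wt]

theorem al_free3 (a : (((L.sw e 0).sw k 2).sw m 2).wt g = 1) :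
    g ≠ e ∧ g ≠ k ∧ g ≠ m ∧ L.wt g = 1 := by
  rw [al_wt3] at a
  split_ifs at a with c1 c2 c3 <;> first | omega | exact ⟨c3, c2, c1, a⟩

/-- The partner of the first vertex is the third vertex. -/
theorem al_w (h : S_Anti) (hv : L.Valid) (ih : IH L.fc (Fintype.card W))
    (pa : L.Pa e j f k fx m fw v x v' w w xs y ws) :
    ∃ N, L.Sol N ∧ e ∈ N ∧ ¬ L.Cov N w := by
  have ov := pa.ov
  have ox := pa.ox
  have ow := pa.ow
  obtain rfl : v = ws := ow.part ov.wf ov.lf.symm
  obtain rfl : f = fw := ow.forced ov.wf ov.lf.inc2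
  have em := pa.em
  have jk := pa.jk
  have jm := pa.jm
  have ag : ∀ u, u ∉ ({v, x, w} : Finset W) → L.Agr ((L.sw e 0).sw k 2) u := fun u n => by
    simp only [mem_insert, mem_singleton, not_or] at n
    exact (Agr.rfl'.sw ov.le n.1 n.2.1 0).sw ox.lk n.2.1 n.2.2 2
  have t1 : v' ∉ ({v, x, w} : Finset W) := by simp [ov.nq, pa.vx', pa.vw']
  have t2 : y ∉ ({v, x, w} : Finset W) := by simp [pa.yv, pa.yx, ow.nq]
  have t3 : xs ∉ ({v, x, w} : Finset W) := by simp [pa.xsv hv.c4, ox.nr, pa.xsw hv.c4]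
  have wj : ((L.sw e 0).sw k 2).wt j = 1 := by rw [al_wt2, if_neg jk, if_neg ov.ne.symm, ov.wk]
  have wm : ((L.sw e 0).sw k 2).wt m = 1 := by rw [al_wt2, if_neg ow.ne.symm, if_neg em.symm, ow.wk]
  have wx : ((L.sw e 0).sw k 2).wt fx = 2 := by
    rw [al_wt2, if_neg ox.nkf.symm, if_neg ox.nef.symm, ox.wf]
  have wf : ((L.sw e 0).sw k 2).wt f = 2 := by
    rw [al_wt2, if_neg ow.nef.symm, if_neg ov.nef.symm, ov.wf]
  have wk : ((L.sw e 0).sw k 2).wt k = 2 := by rw [al_wt2, if_pos rfl]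
  have al : ∀ g, ((L.sw e 0).sw k 2).wt g ≠ 0 → ((L.sw e 0).sw k 2).Cr {v, x, w} g →
      g = j ∨ g = m ∨ g = fx := fun g a c => by
    have ne : g ≠ e := fun z => a (by rw [al_wt2, z, if_neg ox.ne, if_pos rfl])
    have nk : g ≠ k := fun z => (ox.lk.cr _).1 (z ▸ c) (by simp)
    have nf : g ≠ f := fun z => (ov.lf.cr _).1 (z ▸ c) (by simp)
    rw [al_wt2, if_neg nk, if_neg ne] at a
    obtain ⟨p, q, l, i, -⟩ := c.lk
    simp only [mem_insert, mem_singleton] at i
    rcases i with rfl | rfl | rfl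
    · have := ov.all g a l.inc1; tauto
    · have := ox.all g a l.inc1; tauto
    · have := ow.all g a l.inc1; tauto
  have fc : ((L.sw e 0).sw k 2).fc + 2 = L.fc := by
    have a1 := sw_fc (L := L) e 0
    have a2 := sw_fc (L := L.sw e 0) k 2
    simp [sw_wt, ov.we, ox.wk, ox.ne.symm] at a1 a2
    omega
  obtain ⟨N, a, n1, n2, -⟩ := h W E ((L.sw e 0).sw k 2) _ _ {v, x, w} j m fx v ih (by omega)
    (sw_w2 (sw_w2 hv.w2 (Nat.zero_le 2)) le_rfl) (fun u n => (ag u n).deg hv)
    (fun S u i c => by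
      have b1 : v ∉ S := fun z => disjoint_left.1 c z (by simp)
      have b2 : x ∉ S := fun z => disjoint_left.1 c z (by simp)
      have b3 : w ∉ S := fun z => disjoint_left.1 c z (by simp)
      have a1 := sw_om ov.le 0 S
      have a2 := sw_om (L := L.sw e 0) ox.lk 2 S
      have a3 := hv.c4 S u v i b1
      simp [ch, b1, b2, b3] at a1 a2
      omega)
    jm wj wm wx (ov.lk.cr1 (by simp) t1) (ow.lk.cr1 (by simp) t2) (ox.lf.cr1 (by simp) t3) al
    fun z => absurd (by simp) z
  have nw : ∀ g, ((L.sw e 0).sw k 2).wt g = 2 → g ∉ N := fun g z i => by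
    have := (a.fr g i).1
    omega
  have tw : ((L.sw e 0).sw k 2).Tw N := by
    refine tw_glue (T := {v, x, w}) ?_ (fun S u i c => ?_) a.tw
    · refine (kp_le {j, m, fx} fun g z _ i => ?_).trans card_le_three
      simpa using al g z i
    by_cases b1 : v ∈ S <;> by_cases b3 : w ∈ S
    · exact two_kp jm (by omega) (by omega) n1 n2 (ov.lk.cr1 b1 fun z => t1 (c z))
        (ow.lk.cr1 b3 fun z => t2 (c z))
    · exact two_kp ov.nkf (by omega) (by omega) n1 (nw f wf) (ov.lk.cr1 b1 fun z => t1 (c z))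
        (ov.lf.cr1 b1 b3)
    · exact two_kp ow.nkf (by omega) (by omega) n2 (nw f wf) (ow.lk.cr1 b3 fun z => t2 (c z))
        (ov.lf.cr2 b1 b3)
    · have b2 : x ∈ S := by
        have := c i
        simp only [mem_insert, mem_singleton] at this
        rcases this with rfl | rfl | rfl
        exacts [absurd i b1, i, absurd i b3]
      exact two_kp ox.nkf (by omega) (by omega) (nw k wk) (nw fx wx) (ox.lk.cr1 b2 b3)
        (ox.lf.cr1 b2 fun z => t3 (c z))
  have cv : L.Cov (insert e N) v := ⟨e, mem_insert_self .., ov.le.inc1⟩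
  refine ⟨insert e N, sol_of (· ∈ ({v, x, w} : Finset W)) ag a.nd (fun g c => ?_)
    (tw.lift (fun g => ?_) fun g _ _ => ⟨rfl, rfl⟩) (fun u _ z => al_cov z)
    fun g u u' wg l c _ _ => ?_, mem_insert_self .., ?_⟩
  · exact (mem_insert.1 c).elim (fun z => z ▸ ov.we) fun c => (al_free2 (a.fr g c).1).2.2
  · rw [al_wt2, mem_insert]
    have := ox.wk
    have := ox.ne.symm
    split_ifs with c1 c2 <;> simp [*]
  · simp only [mem_insert, mem_singleton] at c
    rcases c with rfl | rfl | rfl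
    · exact Or.inl cv
    · exact Or.inl ⟨e, mem_insert_self .., ov.le.inc2⟩
    · exact Or.inr (ow.part wg l ▸ cv)
  · rintro ⟨g, z, i⟩
    rcases mem_insert.1 z with rfl | z
    · exact ((ov.le.inc w).1 i).elim pa.wv ox.nq
    · have b := al_free2 (a.fr g z).1
      exact (ow.free b.2.2 i).elim b.2.1 fun c => n2 (c ▸ z)

/-- The two legs do not both end at the partner of the third vertex. -/
theorem al_two (hv : L.Valid) (pa : L.Pa e j f k fx m fw v x v' s w xs s ws)
    (os : L.Ord s m d f w t v) (n1 : ws ≠ v) (n2 : ws ≠ s) : ¬ (L.Inc j ws ∧ L.Inc d ws) := by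
  rintro ⟨i1, i2⟩
  have ov := pa.ov
  have ox := pa.ox
  have ow := pa.ow
  obtain rfl := ((ov.lk.inc ws).1 i1).resolve_left n1
  obtain rfl := ((os.lk.inc ws).1 i2).resolve_left n2
  obtain ⟨d', f', q, r, o⟩ := hv.ord os.wk os.lk.symm
  obtain rfl := o.part ow.wf ow.lf.symm
  obtain ⟨-, rfl⟩ := (o.nbr ov.wk ov.lk.symm).resolve_left fun z => ov.nr.symm z.2
  have := ov.np
  have := ov.nr.symm
  have := ox.nq.symm
  have := ow.nr.symm
  have := os.np
  have := pa.wv
  have := (pa.sx hv.c4).symm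
  have := pa.vx'.symm
  have := n1.symm
  have a1 : L.om {ws, s} = 6 := by
    have a := o.ins (S := {s}) (by simp [*])
    rw [os.single] at a
    simp [*] at a
    omega
  have a2 : L.om {v, ws, s} = 4 := by
    have a := ov.ins (S := {ws, s}) (by simp [*])
    simp [*] at a
    omega
  have a3 := ow.ins (S := {v, ws, s}) (by simp [*])
  have a4 := hv.c4 {w, v, ws, s} v x (by simp) (by simp [*])
  simp [*] at a3
  omega

/-- The partner of the first vertex is the fourth vertex. -/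
theorem al_y (h : S_Anti) (hv : L.Valid) (ih : IH L.fc (Fintype.card W))
    (pa : L.Pa e j f k fx m fw v x v' s w xs s ws) :
    ∃ N, L.Sol N ∧ e ∈ N ∧ ¬ L.Cov N s := by
  have ov := pa.ov
  have ox := pa.ox
  have ow := pa.ow
  obtain ⟨d, f', t, r, os⟩ := hv.ord ow.wk ow.lk.symm
  obtain rfl := os.part ov.wf ov.lf.symm
  obtain rfl := os.forced ov.wf ov.lf.inc2
  have em := pa.em
  have jk := pa.jk
  have jm := pa.jm
  have sx := pa.sx hv.c4
  have tv : t ≠ v := (ov.pair hv.c4 os ov.np sx.symm).2.2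
  have de : d ≠ e := os.lk.ne ov.le ov.nr sx
  have dk : d ≠ k := os.lk.ne ox.lk sx ow.nq
  have jd : j ≠ d := ov.lk.ne os.lk ov.nr.symm tv.symm
  have fk : f ≠ k := fun z => by have := ov.wf; have := ox.wk; rw [z] at *; omega
  have ag : ∀ u, ¬ (u = v ∨ u = s ∨ u = x ∨ u = w) → L.Agr (((L.sw e 0).sw k 2).sw m 2) u :=
    fun u n => by
    push Not at n
    exact ((Agr.rfl'.sw ov.le n.1 n.2.2.1 0).sw ox.lk n.2.2.1 n.2.2.2 2).sw ow.lk n.2.2.2 n.2.1 2
  have t1 : v' ∉ ({v, s} : Finset W) := by simp [ov.nq, pa.vs' hv]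
  have t2 : t ∉ ({v, s} : Finset W) := by simp [tv, os.nq]
  have t3 : w ∉ ({v, s} : Finset W) := by simp [pa.wv, os.np]
  have wj : (((L.sw e 0).sw k 2).sw m 2).wt j = 1 := by
    rw [al_wt3, if_neg jm, if_neg jk, if_neg ov.ne.symm, ov.wk]
  have wd : (((L.sw e 0).sw k 2).sw m 2).wt d = 1 := by
    rw [al_wt3, if_neg os.ne.symm, if_neg dk, if_neg de, os.wk]
  have wm : (((L.sw e 0).sw k 2).sw m 2).wt m = 2 := by rw [al_wt3, if_pos rfl]
  have wf : (((L.sw e 0).sw k 2).sw m 2).wt f = 2 := by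
    rw [al_wt3, if_neg os.nef.symm, if_neg fk, if_neg ov.nef.symm, ov.wf]
  have al : ∀ g, (((L.sw e 0).sw k 2).sw m 2).wt g ≠ 0 → (((L.sw e 0).sw k 2).sw m 2).Cr {v, s} g →
      g = j ∨ g = d ∨ g = m := fun g a c => by
    have ne : g ≠ e := fun z => a (by rw [al_wt3, z, if_neg em, if_neg ox.ne, if_pos rfl])
    have nf : g ≠ f := fun z => (ov.lf.cr _).1 (z ▸ c) (by simp)
    have nk : g ≠ k := fun z => (ox.lk.cr _).1 (z ▸ c) (by simp [t3, ov.np, sx.symm])
    by_cases nm : g = m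
    · exact Or.inr (Or.inr nm)
    rw [al_wt3, if_neg nm, if_neg nk, if_neg ne] at a
    obtain ⟨p, q, l, i, -⟩ := c.lk
    simp only [mem_insert, mem_singleton] at i
    rcases i with rfl | rfl
    · have := ov.all g a l.inc1; tauto
    · have := os.all g a l.inc1; tauto
  have fc : (((L.sw e 0).sw k 2).sw m 2).fc + 3 = L.fc := by
    have a1 := sw_fc (L := L) e 0
    have a2 := sw_fc (L := L.sw e 0) k 2
    have a3 := sw_fc (L := (L.sw e 0).sw k 2) m 2
    simp [sw_wt, ov.we, ow.wk, ox.wk, em.symm, ox.ne.symm, ow.ne.symm] at a1 a2 a3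
    omega
  obtain ⟨N, a, n1, n2, b⟩ := h W E (((L.sw e 0).sw k 2).sw m 2) _ _ {v, s} j d m ws ih (by omega)
    (sw_w2 (sw_w2 (sw_w2 hv.w2 (Nat.zero_le 2)) le_rfl) le_rfl)
    (fun u n => by
      simp only [mem_insert, mem_singleton, not_or] at n
      by_cases n3 : u = x
      · refine deg_of fun ⟨g, z, i⟩ => ?_
        have c := al_free3 z
        exact ((ox.free c.2.2.2 (n3 ▸ i)).elim c.1 c.2.1).elim
      by_cases n4 : u = w
      · refine deg_of fun ⟨g, z, i⟩ => ?_
        have c := al_free3 z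
        exact ((ow.free c.2.2.2 (n4 ▸ i)).elim c.2.1 c.2.2.1).elim
      exact (ag u (by tauto)).deg hv)
    (fun S u i c => by
      have b1 : v ∉ S := fun z => disjoint_left.1 c z (by simp)
      have b2 : s ∉ S := fun z => disjoint_left.1 c z (by simp)
      have a1 := sw_om ov.le 0 S
      have a2 := sw_om (L := L.sw e 0) ox.lk 2 S
      have a3 := sw_om (L := (L.sw e 0).sw k 2) ow.lk 2 S
      have a4 := hv.c4 S u v i b1
      simp only [sw_wt, ov.we, ow.wk, ox.wk, if_neg em.symm, if_neg ox.ne.symm, if_neg ow.ne.symm,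
        ch] at a1 a2 a3
      by_cases x ∈ S <;> by_cases w ∈ S <;> simp [*] at a1 a2 a3 <;> omega)
    jd wj wd wm (ov.lk.cr1 (by simp) t1) (os.lk.cr1 (by simp) t2) (os.le.cr1 (by simp) t3) al
    fun z => by
      simp only [mem_insert, mem_singleton, not_or] at z
      exact al_two (L := L) hv pa os z.1 z.2
  have nw : ∀ g, (((L.sw e 0).sw k 2).sw m 2).wt g = 2 → g ∉ N := fun g z i => by
    have := (a.fr g i).1
    omega
  have tw : (((L.sw e 0).sw k 2).sw m 2).Tw N := by
    refine tw_glue (T := {v, s}) ?_ (fun S u i c => ?_) a.tw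
    · refine (kp_le {j, d, m} fun g z _ i => ?_).trans card_le_three
      simpa using al g z i
    by_cases b2 : s ∈ S
    · exact two_kp os.ne (by omega) (by omega) (nw m wm) n2 (os.le.cr1 b2 fun z => t3 (c z))
        (os.lk.cr1 b2 fun z => t2 (c z))
    · have b1 : v ∈ S := by
        have := c i
        simp only [mem_insert, mem_singleton] at this
        rcases this with rfl | rfl
        exacts [i, absurd i b2]
      exact two_kp ov.nkf (by omega) (by omega) n1 (nw f wf) (ov.lk.cr1 b1 fun z => t1 (c z))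
        (ov.lf.cr1 b1 b2)
  have cv : L.Cov (insert e N) v := ⟨e, mem_insert_self .., ov.le.inc1⟩
  have cx : L.Cov (insert e N) x := ⟨e, mem_insert_self .., ov.le.inc2⟩
  refine ⟨insert e N, sol_of (fun u => u = v ∨ u = s ∨ u = x ∨ u = w) ag
    (a.nd.mono fun u z => ?_) (fun g c => ?_)
    (tw.lift (fun g => ?_) fun g _ _ => ⟨rfl, rfl⟩) (fun u _ z => al_cov z)
    fun g u u' wg l c _ o => ?_, mem_insert_self .., ?_⟩
  · simp only [mem_insert, mem_singleton] at z
    tauto
  · exact (mem_insert.1 c).elim (fun z => z ▸ ov.we) fun c => (al_free3 (a.fr g c).1).2.2.2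
  · rw [al_wt3, mem_insert]
    have := ox.wk
    have := ow.wk
    have := ox.ne.symm
    have := em.symm
    split_ifs with c1 c2 c3 <;> simp [*]
  · rcases c with rfl | rfl | rfl | rfl
    · exact Or.inl cv
    · exact Or.inr (os.part wg l ▸ cv)
    · exact Or.inl cx
    obtain rfl := ow.part wg l
    refine Or.inr ?_
    by_cases n3 : u' = v
    · exact n3 ▸ cv
    have n4 : u' ≠ s := pa.wsy hv
    exact al_cov (b (by simp [n3, n4]) ((ag u' (by
      have := pa.wsx hv.c4
      have := ow.nr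
      tauto)).isO o))
  · rintro ⟨g, z, i⟩
    rcases mem_insert.1 z with rfl | z
    · exact ((ov.le.inc s).1 i).elim ov.nr sx
    · have b := al_free3 (a.fr g z).1
      exact (os.free b.2.2.2 i).elim b.2.2.1 fun c => n2 (c ▸ z)

end Gr

open Gr

theorem antl (h : S_Anti) : S_AntL := by
  intro W E _ _ _ _ L hv ih e j f k fx m fw v x v' s w xs y ws pa tr f' s' wf lf o n
  obtain rfl := pa.ov.part wf lf
  by_cases n1 : s' = w
  · subst n1
    exact al_w h hv ih pa
  by_cases n2 : y = s'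
  · subst n2
    exact al_y h hv ih pa
  have fc := pa.sld_fc
  obtain ⟨N, a, b, c⟩ := (ih W E _ (pa.sld_valid hv tr n2) (Or.inl (by omega))).2.1 e v y f s'
    pa.sld_we pa.sld_lk pa.sld_v.wf pa.sld_v.lf
    ((pa.sld_agr pa.ov.nr n n1 (Ne.symm n2)).isO o) (Ne.symm n2)
  exact ⟨_, pa.sld_lift a b, mem_insert_of_mem b, fun z => c (pa.sld_cov' b n n1 z)⟩

end Pool.Agent.P.MP_92d394_lc.H
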