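import Pool.Agent.P.MP_92d394_lc.H.CSt

/-! Free cycles of length two and three. -/

set_option linter.unusedSectionVars false

namespace Pool.Agent.P.MP_92d394_lc.H

open Finset

variable {W E : Type} [Fintype W] [DecidableEq W] [Fintype E] [DecidableEq E]

namespace Gr

variable {L H : Gr W E} {e k m f fx fw c d g : E} {u v x w s xs ws p p₁ p₂ : W} {N : Finset E}

/-- Uncovering a vertex whose partner is not ordinary. -/
theorem c23_anti (h : S_Anti) {n c₀ : ℕ} (ih : IH n c₀) (hv : H.Valid) (hn : H.fc + 1 < n)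
    (o : H.Ord s c d f p₁ p₂ v) (nv : ¬ H.IsO v) (hp : p ≠ s → ¬ (H.Inc c p ∧ H.Inc d p)) :
    ∃ N, H.Sol N ∧ ¬ H.Cov N s ∧ (p ≠ s → H.IsO p → H.Cov N p) := by
  have c1 : H.Cr {s} c := o.le.cr1 (by simp) (by simpa using o.np)
  have c2 : H.Cr {s} d := o.lk.cr1 (by simp) (by simpa using o.nq)
  have c3 : H.Cr {s} f := o.lf.cr1 (by simp) (by simpa using o.nr)
  obtain ⟨N, a, n1, n2, b⟩ := h W E H n c₀ {s} c d f p ih hn hv.w2 (fun u _ => hv.deg u)
    (fun S u i j => hv.c4 S u s i fun z => disjoint_left.1 j z (mem_singleton_self s)) o.ne o.we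
    o.wk o.wf c1 c2 c3 (fun g z i => o.all g z (cr_single i)) fun z => hp (by simpa using z)
  refine ⟨N, ⟨fun g z => (a.fr g z).1, tw_glue (T := {s}) ?_ (fun S u i j => ?_) a.tw,
    fun g u u' wg l o1 o2 => ?_⟩, ?_, fun z => b (by simpa using z)⟩
  · refine (kp_le {c, d, f} fun g z _ i => ?_).trans card_le_three
    simpa using o.all g z (cr_single i)
  · have : S = {s} := (subset_singleton_iff.1 j).resolve_left (ne_empty_of_mem i)
    rw [this]
    exact two_kp o.ne (o.we ▸ one_ne_zero) (o.wk ▸ one_ne_zero) n1 n2 c1 c2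
  · refine a.nd g u u' wg l (fun z => ?_) (fun z => ?_) o1 o2
    · exact nv (o.part wg (mem_singleton.1 z ▸ l) ▸ o2)
    · exact nv (o.part wg (mem_singleton.1 z ▸ l.symm) ▸ o1)
  · rintro ⟨g, z, i⟩
    rcases o.free (a.fr g z).1 i with rfl | rfl
    exacts [n1 z, n2 z]

theorem c23_cov (a : L.Cov N u) : L.Cov (insert e N) u :=
  a.imp fun _ z => ⟨mem_insert_of_mem z.1, z.2⟩

theorem c23_ncov (l : L.Lk e v x) (n1 : s ≠ v) (n2 : s ≠ x) (a : ¬ L.Cov N s) :
    ¬ L.Cov (insert e N) s := by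
  rintro ⟨g, z, i⟩
  rcases mem_insert.1 z with rfl | z
  · exact ((l.inc s).1 i).elim n1 n2
  · exact a ⟨g, z, i⟩

/-- The ordinary partner of an ordinary vertex. -/
theorem c23_part {e' k' : E} {a b : W} (hv : L.Valid) (ov : L.Ord v e' k' f a b s) (o : L.IsO s) :
    ∃ c d p₁ p₂, L.Ord s c d f p₁ p₂ v := by
  obtain ⟨c, d, f', p₁, p₂, r, os⟩ := hv.ord' o
  obtain rfl := os.part ov.wf ov.lf.symm
  obtain rfl := os.forced ov.wf ov.lf.inc2
  exact ⟨c, d, p₁, p₂, os⟩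

section two

variable (ov : L.Ord v e k f x x s) (ox : L.Ord x e k fx v v xs)
include ov

theorem c2_wt (g : E) :
    ((L.sw e 0).sw k 2).wt g = if g = k then 2 else if g = e then 0 else L.wt g := by
  simp only [sw_wt]

theorem c2_om (S : Finset W) : ((L.sw e 0).sw k 2).om S = L.om S := by
  have a1 := sw_om ov.le 0 S
  have a2 := sw_om (L := L.sw e 0) ov.lk 2 S
  simp only [sw_wt, ov.we, ov.wk, if_neg ov.ne.symm] at a1 a2
  omega

theorem c2_fc : ((L.sw e 0).sw k 2).fc + 2 = L.fc := by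
  have a1 := sw_fc (L := L) e 0
  have a2 := sw_fc (L := L.sw e 0) k 2
  simp [sw_wt, ov.we, ov.wk, ov.ne.symm] at a1 a2
  omega

theorem c2_agr (n1 : u ≠ v) (n2 : u ≠ x) : L.Agr ((L.sw e 0).sw k 2) u :=
  (Agr.rfl'.sw ov.le n1 n2 0).sw ov.lk n1 n2 2

theorem c2_free (a : ((L.sw e 0).sw k 2).wt g = 1) : g ≠ e ∧ g ≠ k ∧ L.wt g = 1 := by
  rw [c2_wt ov] at a
  split_ifs at a with c1 c2 <;> first | omega | exact ⟨c2, c1, a⟩

theorem c2_v : ¬ ((L.sw e 0).sw k 2).IsO v := fun ⟨_, a, i⟩ =>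
  have b := c2_free ov a
  (ov.free b.2.2 i).elim b.1 b.2.1

include ox

theorem c2_valid (hv : L.Valid) : ((L.sw e 0).sw k 2).Valid := by
  refine ⟨sw_w2 (sw_w2 hv.w2 (Nat.zero_le 2)) le_rfl, fun u => ?_, fun S p q i j => ?_⟩
  · by_cases n1 : u = v
    · exact deg_of fun o => absurd (n1 ▸ o) (c2_v ov)
    by_cases n2 : u = x
    · exact deg_of fun o => absurd (n2 ▸ o) (c2_v ox)
    exact (c2_agr ov n1 n2).deg hv
  · rw [c2_om ov]
    exact hv.c4 S p q i j

omit ox in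
theorem c2_lift (a : ((L.sw e 0).sw k 2).Sol N) : L.Sol (insert e N) := by
  refine sol_of (fun u => u = v ∨ u = x) (fun u n => ?_) (a.nd' _) (fun g c => ?_)
    (a.tw.lift (fun g => ?_) fun g _ _ => ⟨rfl, rfl⟩) (fun u _ z => c23_cov z)
    fun g u _ _ _ c _ _ => Or.inl ?_
  · push Not at n
    exact c2_agr ov n.1 n.2
  · exact (mem_insert.1 c).elim (fun z => z ▸ ov.we) fun c => (c2_free ov (a.fr g c)).2.2
  · rw [c2_wt ov, mem_insert]
    have := ov.wk
    have := ov.ne.symm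
    split_ifs with c1 c2 <;> simp [*]
  · rcases c with rfl | rfl
    exacts [⟨e, mem_insert_self .., ov.le.inc1⟩, ⟨e, mem_insert_self .., ov.le.inc2⟩]

end two

section three

variable (ov : L.Ord v e m f x w s) (ox : L.Ord x e k fx v w xs) (ow : L.Ord w k m fw x v ws)
include ov

theorem c3_wt (g : E) : (((L.sw e 0).sw k 2).sw m 2).wt g =
    if g = m then 2 else if g = k then 2 else if g = e then 0 else L.wt g := by
  simp only [sw_wt]

theorem c3_free (a : (((L.sw e 0).sw k 2).sw m 2).wt g = 1) :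
    g ≠ e ∧ g ≠ k ∧ g ≠ m ∧ L.wt g = 1 := by
  rw [c3_wt ov] at a
  split_ifs at a with c1 c2 c3 <;> first | omega | exact ⟨c3, c2, c1, a⟩

include ox

theorem c3_agr (n1 : u ≠ v) (n2 : u ≠ x) (n3 : u ≠ w) : L.Agr (((L.sw e 0).sw k 2).sw m 2) u :=
  ((Agr.rfl'.sw ov.le n1 n2 0).sw ox.lk n2 n3 2).sw ov.lk n1 n3 2

include ow

theorem c3_om (S : Finset W) : L.om S ≤ (((L.sw e 0).sw k 2).sw m 2).om S := by
  have a1 := sw_om ov.le 0 S
  have a2 := sw_om (L := L.sw e 0) ox.lk 2 S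
  have a3 := sw_om (L := (L.sw e 0).sw k 2) ov.lk 2 S
  simp only [sw_wt, ov.we, ov.wk, ox.wk, if_neg ov.ne.symm, if_neg ox.ne.symm, if_neg ow.ne.symm,
    ch] at a1 a2 a3
  by_cases v ∈ S <;> by_cases x ∈ S <;> by_cases w ∈ S <;> simp [*] at a1 a2 a3 <;> omega

theorem c3_fc : (((L.sw e 0).sw k 2).sw m 2).fc + 3 = L.fc := by
  have a1 := sw_fc (L := L) e 0
  have a2 := sw_fc (L := L.sw e 0) k 2
  have a3 := sw_fc (L := (L.sw e 0).sw k 2) m 2
  simp [sw_wt, ov.we, ov.wk, ox.wk, ov.ne.symm, ox.ne.symm, ow.ne.symm] at a1 a2 a3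
  omega

/-- Any other free edge avoids the triangle. -/
theorem c3_out (a : L.wt g = 1) (i : L.Inc g u) (n1 : g ≠ e) (n2 : g ≠ k) (n3 : g ≠ m) :
    u ≠ v ∧ u ≠ x ∧ u ≠ w :=
  ⟨fun z => (ov.free a (z ▸ i)).elim n1 n3, fun z => (ox.free a (z ▸ i)).elim n1 n2,
    fun z => (ow.free a (z ▸ i)).elim n2 n3⟩

theorem c3_isO (o : (((L.sw e 0).sw k 2).sw m 2).IsO u) : u ≠ v ∧ u ≠ x ∧ u ≠ w := by
  obtain ⟨g, a, i⟩ := o
  have b := c3_free ov a
  exact c3_out ov ox ow b.2.2.2 i b.1 b.2.1 b.2.2.1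

theorem c3_valid (hv : L.Valid) : (((L.sw e 0).sw k 2).sw m 2).Valid := by
  refine ⟨sw_w2 (sw_w2 (sw_w2 hv.w2 (Nat.zero_le 2)) le_rfl) le_rfl, fun u => deg_of fun o => ?_,
    fun S p q i j => (hv.c4 S p q i j).trans (c3_om ov ox ow S)⟩
  obtain ⟨n1, n2, n3⟩ := c3_isO ov ox ow o
  have a := c3_agr ov ox n1 n2 n3
  obtain ⟨_, _, _, _, _, _, o⟩ := hv.ord' (a.symm.isO o)
  exact ⟨_, _, _, _, _, _, a.ord o⟩

theorem c3_lift (a : (((L.sw e 0).sw k 2).sw m 2).Sol N)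
    (b : (((L.sw e 0).sw k 2).sw m 2).IsO ws → L.Cov N ws) : L.Sol (insert e N) := by
  have cv : L.Cov (insert e N) v := ⟨e, mem_insert_self .., ov.le.inc1⟩
  have cx : L.Cov (insert e N) x := ⟨e, mem_insert_self .., ov.le.inc2⟩
  refine sol_of (fun u => u = v ∨ u = x ∨ u = w) (fun u n => ?_) (a.nd' _) (fun g c => ?_)
    (a.tw.lift (fun g => ?_) fun g _ _ => ⟨rfl, rfl⟩) (fun u _ z => c23_cov z)
    fun g u u' wg l c _ o => ?_
  · push Not at n
    exact c3_agr ov ox n.1 n.2.1 n.2.2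
  · exact (mem_insert.1 c).elim (fun z => z ▸ ov.we) fun c => (c3_free ov (a.fr g c)).2.2.2
  · rw [c3_wt ov, mem_insert]
    have := ov.wk
    have := ox.wk
    have := ov.ne.symm
    have := ox.ne.symm
    split_ifs with c1 c2 c3 <;> simp [*]
  · rcases c with rfl | rfl | rfl
    · exact Or.inl cv
    · exact Or.inl cx
    obtain rfl := ow.part wg l
    refine Or.inr ?_
    by_cases n1 : u' = v
    · exact n1 ▸ cv
    by_cases n2 : u' = x
    · exact n2 ▸ cx
    exact c23_cov (b ((c3_agr ov ox n1 n2 ow.nr).isO o))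

/-- An unblocked free edge is not in the triangle. -/
theorem c3_unb (a : L.wt g = 1) (b : ¬ L.Blk v x g) : g ≠ e ∧ g ≠ k ∧ g ≠ m :=
  ⟨fun z => b (ov.blk a (z ▸ ov.le.inc1)), fun z => b (ox.blk a (z ▸ ox.lk.inc1)).symm,
    fun z => b (ov.blk a (z ▸ ov.lk.inc1))⟩

/-- A second cut through the driving edge. -/
theorem c3_blk {e' : E} {z : W} (hv : L.Valid) (os : L.Ord s e' d f z ws v) (s2 : s ≠ x)
    (s3 : s ≠ w) (z3 : z ≠ w) (w2 : ws ≠ x) (n : ws ≠ z) : L.Blk v x e' := by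
  obtain ⟨t, z1, w1⟩ := ov.pair hv.c4 os ov.np s2.symm
  obtain ⟨d', f', q, r, o⟩ := hv.ord os.wk os.lk.symm
  obtain rfl := o.part ow.wf ow.lf.symm
  have := os.np
  have := os.nq
  have := ov.np
  have := ov.nq
  have := ox.nq.symm
  have := ow.nr
  have := s2.symm
  have := s3.symm
  have := w2.symm
  have := n.symm
  have a1 := ow.ins (S := {s, v}) (by simp [*])
  have a2 := o.ins (S := {w, s, v}) (by simp [*])
  have a3 := hv.c4 {ws, w, s, v} v x (by simp) (by simp [*])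
  rw [t] at a1
  simp [*] at a1
  have a4 : L.om {ws, w, s, v} = 4 := by
    simp only [mem_insert, true_or, or_true, if_true] at a2
    omega
  refine Or.inr ⟨{s, v}, {ws, w, s, v}, fun c => ?_, ⟨t, by simp, by simp [*]⟩,
    ⟨a4, by simp, by simp [*]⟩, os.le.cr1 (by simp) (by simp [*]),
    os.le.cr1 (by simp) (by simp [*])⟩
  have b : w ∈ ({s, v} : Finset W) := by rw [c]; simp
  exact (mem_insert.1 b).elim s3.symm fun b => ov.nq (mem_singleton.1 b)

/-- The two free edges at the partner do not both end at the partner of the third vertex. -/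
theorem c3_two (hv : L.Valid) (os : L.Ord s c d f p₁ p₂ v) (s2 : s ≠ x) (s3 : s ≠ w)
    (n : ws ≠ s) : ¬ (L.Inc c ws ∧ L.Inc d ws) := by
  rintro ⟨i, j⟩
  obtain rfl := ((os.le.inc ws).1 i).resolve_left n
  obtain rfl := ((os.lk.inc ws).1 j).resolve_left n
  obtain ⟨w1, w2, w3⟩ := c3_out ov ox ow os.we i (os.le.ne ov.le ov.nr s2)
    (os.le.ne ox.lk s2 s3) (os.le.ne ov.lk ov.nr s3)
  obtain ⟨d', f', q, r, o⟩ := hv.ord os.we os.le.symm
  obtain rfl := o.part ow.wf ow.lf.symm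
  obtain ⟨-, rfl⟩ := (o.nbr os.wk os.lk.symm).resolve_left fun z => os.ne z.1.symm
  have := ov.np
  have := ov.nq
  have := ov.nr.symm
  have := ox.nq.symm
  have := s2.symm
  have := s3.symm
  have := w1.symm
  have := w2.symm
  have := w3.symm
  have a1 : L.om {ws, s} = 4 := by
    have a := o.ins (S := {s}) (by simp [*])
    rw [os.single] at a
    simp [*] at a
    omega
  have a2 : L.om {v, ws, s} = 4 := by
    have a := ov.ins (S := {ws, s}) (by simp [*])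
    simp [*] at a
    omega
  have a3 := ow.ins (S := {v, ws, s}) (by simp [*])
  have a4 := hv.c4 {w, v, ws, s} v x (by simp) (by simp [*])
  simp [*] at a3
  omega

end three

end Gr

open Gr

theorem c2 (h : S_Anti) : S_C2 := by
  intro W E _ _ _ _ L hv ih e k f fx v x s xs ov ox
  have hH := c2_valid ov ox hv
  have fc := c2_fc ov
  have dem := (ih W E _ hH (Or.inl (by omega))).1
  refine ⟨fun q dq => ?_, fun f' s' wf lf o n => ?_, fun f' s' e' _ _ we i b => ?_⟩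
  · obtain ⟨N, a, b, -⟩ := dem.zero hH q q
    refine ⟨_, c2_lift ov a, mem_insert_self .., ?_⟩
    by_cases n1 : q = v
    · exact ⟨e, mem_insert_self .., n1 ▸ ov.le.inc1⟩
    by_cases n2 : q = x
    · exact ⟨e, mem_insert_self .., n2 ▸ ov.le.inc2⟩
    obtain ⟨g, wg, i, -⟩ := (dq.resolve_left n1).resolve_left n2
    exact c23_cov (b ((c2_agr ov n1 n2).isO ⟨g, wg, i⟩))
  · obtain rfl := ov.part wf lf
    obtain ⟨c, d, p₁, p₂, os⟩ := c23_part hv ov o
    obtain ⟨N, a, b, -⟩ := c23_anti (p := s') h ih hH (by omega) ((c2_agr ov ov.nr n).ord os)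
      (c2_v ov) fun z => absurd rfl z
    exact ⟨_, c2_lift ov a, mem_insert_self .., c23_ncov ov.le ov.nr n b⟩
  · have n1 : e' ≠ e := fun z => b (ov.blk we (z ▸ ov.le.inc1))
    have n2 : e' ≠ k := fun z => b (ov.blk we (z ▸ ov.lk.inc1))
    obtain ⟨z, l⟩ := i.lk
    obtain ⟨N, a, b, -⟩ := dem e' s' z s' (by rw [c2_wt ov, if_neg n2, if_neg n1, we]) l
      (Or.inl rfl)
    exact ⟨_, c2_lift ov a, mem_insert_self .., mem_insert_of_mem b⟩

theorem c3 (h : S_Anti) : S_C3 := by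
  intro W E _ _ _ _ L hv ih e k m f fx fw v x w s xs ws ov ox ow
  have hH := c3_valid ov ox ow hv
  have fc := c3_fc ov ox ow
  have dem := (ih W E _ hH (Or.inl (by omega))).1
  refine ⟨fun q dq => ?_, fun f' s' wf lf o n => ?_, fun f' s' e' wf lf we i b => ?_⟩
  · obtain ⟨N, a, b, c⟩ := dem.zero hH ws q
    refine ⟨_, c3_lift ov ox ow a b, mem_insert_self .., ?_⟩
    by_cases n1 : q = v
    · exact ⟨e, mem_insert_self .., n1 ▸ ov.le.inc1⟩
    by_cases n2 : q = x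
    · exact ⟨e, mem_insert_self .., n2 ▸ ov.le.inc2⟩
    obtain ⟨g, wg, i, u⟩ := (dq.resolve_left n1).resolve_left n2
    obtain ⟨u1, u2, u3⟩ := c3_unb ov ox ow wg u
    exact c23_cov (c ((c3_agr ov ox n1 n2 (c3_out ov ox ow wg i u1 u2 u3).2.2).isO ⟨g, wg, i⟩))
  · obtain rfl := ov.part wf lf
    have n3 : s' ≠ w := fun z => by
      subst z
      exact (ov.symm.pa hv.c4 ow.symm x).elim ov.np ox.nq.symm
    obtain ⟨c, d, p₁, p₂, os⟩ := c23_part hv ov o
    have n4 : ws ≠ s' := fun z => ov.nq (os.part ow.wf (z ▸ ow.lf.symm))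
    obtain ⟨N, a, b, c⟩ := c23_anti (p := ws) h ih hH (by omega)
      ((c3_agr ov ox ov.nr n n3).ord os) (fun z => (c3_isO ov ox ow z).1 rfl)
      (c3_two (L := L) ov ox ow hv os n n3)
    exact ⟨_, c3_lift ov ox ow a (c n4), mem_insert_self .., c23_ncov ov.le ov.nr n b⟩
  · obtain rfl := ov.part wf lf
    obtain ⟨u1, u2, u3⟩ := c3_unb ov ox ow we b
    obtain ⟨z, l⟩ := i.lk
    obtain ⟨s1, s2, s3⟩ := c3_out ov ox ow we l.inc1 u1 u2 u3
    obtain ⟨-, -, z3⟩ := c3_out ov ox ow we l.inc2 u1 u2 u3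
    obtain ⟨d, f₀, d₁, r, os⟩ := hv.ord we l
    obtain rfl := os.part ov.wf ov.lf.symm
    obtain rfl := os.forced ov.wf ov.lf.inc2
    have oh := (c3_agr ov ox s1 s2 s3).ord os
    by_cases o : (((L.sw e 0).sw k 2).sw m 2).IsO ws
    swap
    · obtain ⟨N, a, b, -⟩ := dem e' s' z s' oh.we l (Or.inl rfl)
      exact ⟨_, c3_lift ov ox ow a fun c => absurd c o, mem_insert_self .., mem_insert_of_mem b⟩
    have dk : (((L.sw e 0).sw k 2).sw m 2).Dok s' z ws := by
      by_cases n : ws = z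
      · exact Or.inr (Or.inl n)
      obtain ⟨w1, w2, w3⟩ := c3_isO ov ox ow o
      have ag := c3_agr ov ox w1 w2 w3
      obtain ⟨k₁, k₂, f₁, z₁, z₂, r, o'⟩ := hv.ord' (ag.symm.isO o)
      obtain rfl := o'.part ow.wf ow.lf.symm
      refine dok_path (f₂ := m) hH.c4 oh (ag.ord o') ov.nkf.symm (by simp [sw_wt]) ov.lk
        (fun g wg i => ?_) fun c => b (c3_blk ov ox ow hv (c ▸ os) s2 s3 z3 w2 n)
      rw [c3_wt ov] at wg
      split_ifs at wg with c1 c2 c3
      · exact Or.inr c1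
      · rw [c2] at i
        exact (((ox.lk.inc v).1 i).elim ov.np.symm ov.nq.symm).elim
      · exact absurd rfl wg
      · exact Or.inl (((ov.all g wg i).resolve_left c3).resolve_left c1)
    obtain ⟨N, a, b, c⟩ := dem e' s' z ws oh.we l dk
    exact ⟨_, c3_lift ov ox ow a fun _ => c, mem_insert_self .., mem_insert_of_mem b⟩

end Pool.Agent.P.MP_92d394_lc.H
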