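import Pool.Agent.P.MP_92d394_lc.H.G4

/-! Statements of the cases of the main induction. -/

namespace Pool.Agent.P.MP_92d394_lc.H

open Finset

/-- A property of all valid graphs below which the induction hypothesis holds. -/
def Step (P : ∀ (W E : Type) [Fintype W] [DecidableEq W] [Fintype E] [DecidableEq E],
    Gr W E → Prop) : Prop :=
  ∀ (W E : Type) [Fintype W] [DecidableEq W] [Fintype E] [DecidableEq E] (L : Gr W E), L.Valid →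
    IH L.fc (Fintype.card W) → P W E L

/-- The main statement. -/
def Main : Prop :=
  ∀ (W E : Type) [Fintype W] [DecidableEq W] [Fintype E] [DecidableEq E] (L : Gr W E), L.Valid →
    L.Dem ∧ L.Ant ∧ L.Drv

/-- Keeping two free legs of a set. -/
def S_Anti : Prop :=
  ∀ (W E : Type) [Fintype W] [DecidableEq W] [Fintype E] [DecidableEq E] (H : Gr W E) (n c₀ : ℕ)
    (T : Finset W) (c d f : E) (p : W), IH n c₀ → H.fc + 1 < n → (∀ g, H.wt g ≤ 2) →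
    (∀ u, u ∉ T → H.dg 1 u = 0 ∨ (H.dg 1 u = 2 ∧ H.dg 2 u = 1)) →
    (∀ S u, u ∈ S → Disjoint S T → 4 ≤ H.om S) → c ≠ d → H.wt c = 1 → H.wt d = 1 → H.wt f = 2 →
    H.Cr T c → H.Cr T d → H.Cr T f → (∀ g, H.wt g ≠ 0 → H.Cr T g → g = c ∨ g = d ∨ g = f) →
    (p ∉ T → ¬ (H.Inc c p ∧ H.Inc d p)) →
    ∃ N, H.Half T N ∧ c ∉ N ∧ d ∉ N ∧ (p ∉ T → H.IsO p → H.Cov N p)

/-- Keeping a path through two partners. -/
def S_Byp : Prop :=
  ∀ (W E : Type) [Fintype W] [DecidableEq W] [Fintype E] [DecidableEq E] (H : Gr W E) (n c₀ : ℕ)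
    (j d f : E) (v s t v' p : W), IH n c₀ → H.fc ≤ n → (∀ g, H.wt g ≤ 2) →
    (∀ u, u ≠ v → u ≠ s → H.dg 1 u = 0 ∨ (H.dg 1 u = 2 ∧ H.dg 2 u = 1)) →
    (∀ S u, u ∈ S → v ∉ S → s ∉ S → t ∉ S → 4 ≤ H.om S) → H.wt j = 1 → H.wt d = 1 → H.wt f = 2 →
    H.Lk j v v' → H.Lk d s t → H.Lk f v s → (∀ g, H.wt g ≠ 0 → H.Inc g v → g = j ∨ g = f) →
    (∀ g, H.wt g ≠ 0 → H.Inc g s → g = d ∨ g = f) → s ≠ v → t ≠ v → t ≠ s → v' ≠ v → v' ≠ s →
    v' ≠ t →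
    ∃ N, (∀ g ∈ N, H.wt g = 1 ∧ g ≠ j ∧ g ≠ d) ∧ H.Tw N ∧ H.Nd (fun u => u = v ∨ u = s) N ∧
      (p ≠ v → p ≠ s → H.IsO p → H.Cov N p)

/-- Free cycles of length two. -/
def S_C2 : Prop := Step fun W E _ _ _ _ L => ∀ (e k f fx : E) (v x s xs : W),
  L.Ord v e k f x x s → L.Ord x e k fx v v xs → L.DemE e v x ∧ L.AntE e v x ∧ L.DrvE e v x

/-- Free cycles of length three. -/
def S_C3 : Prop := Step fun W E _ _ _ _ L => ∀ (e k m f fx fw : E) (v x w s xs ws : W),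
  L.Ord v e m f x w s → L.Ord x e k fx v w xs → L.Ord w k m fw x v ws →
  L.DemE e v x ∧ L.AntE e v x ∧ L.DrvE e v x

/-- Uncovering along longer cycles. -/
def S_AntL : Prop := Step fun W E _ _ _ _ L => ∀ (e j f k fx m fw : E) (v x v' s w xs y ws : W),
  L.Pa e j f k fx m fw v x v' s w xs y ws → L.Tr v x s xs → L.AntE e v x

/-- The third vertex after the edge is the partner. -/
def S_O : Prop := Step fun W E _ _ _ _ L => ∀ (e j f k fx m fw : E) (v x v' s w xs ws q : W),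
  L.Pa e j f k fx m fw v x v' s w xs s ws → L.Tr v x s xs → L.IsO q →
  ∃ N, L.Sol N ∧ e ∈ N ∧ m ∈ N ∧ L.Cov N q

/-- One of the two slides serves a demand. -/
def S_U5 : Prop := Step fun W E _ _ _ _ L => ∀ (e j f k fx m fw m' fw' : E)
  (v x v' s w xs y ws y' ws' q : W), L.Pa e j f k fx m fw v x v' s w xs y ws →
  L.Pa e k fx j f m' fw' x v w xs v' s y' ws' → L.Tr v x s xs → y ≠ s → y' ≠ xs → L.IsO q →
  q ≠ s → q ≠ xs → ∃ N, L.Sol N ∧ e ∈ N ∧ L.Cov N q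

/-- The second edge continues the path. -/
def S_A2 : Prop := Step fun W E _ _ _ _ L => ∀ (e j f k fx m fw e' : E) (v x v' s w xs ws z : W),
  L.Pa e j f k fx m fw v x v' s w xs s ws → L.wt e' = 1 → L.Lk e' s z → e' ≠ m →
  ¬ L.Blk v x e' → ∃ N, L.Sol N ∧ e ∈ N ∧ e' ∈ N

/-- The second edge ends at the end of the path. -/
def S_B1 : Prop := Step fun W E _ _ _ _ L => ∀ (e j f k fx m fw e' : E) (v x v' s w xs y ws : W),
  L.Pa e j f k fx m fw v x v' s w xs y ws → L.wt e' = 1 → L.Lk e' s y → s ≠ w →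
  ¬ L.Blk v x e' → ∃ N, L.Sol N ∧ e ∈ N ∧ e' ∈ N

/-- One slide for two prescribed edges. -/
def S_DS : Prop := Step fun W E _ _ _ _ L => ∀ (e j f k fx m fw e' k' fz : E)
  (v x v' s w xs y ws z w' zs : W), L.Pa e j f k fx m fw v x v' s w xs y ws → L.Tr v x s xs →
  L.Ord z e' k' fz s w' zs → L.Tr s z v zs → ¬ L.Blk v x e' → y ≠ s → (s = w ∨ (y ≠ z ∧ y ≠ zs)) →
  ∃ N, L.Sol N ∧ e ∈ N ∧ e' ∈ N

/-- Two slides for two prescribed edges. -/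
def S_BB : Prop := Step fun W E _ _ _ _ L => ∀ (e j f k fx m fw e' d k' fz m' fw' : E)
  (v x v' s w y ws z t w' y' ws' : W), L.Pa e j f k fx m fw v x v' s w y' y ws →
  L.Pa e' d f k' fz m' fw' s z t v w' y y' ws' → L.Tr v x s y' → L.Tr s z v y → ¬ L.Blk v x e' →
  s ≠ w → y ≠ s → v ≠ w' → ∃ N, L.Sol N ∧ e ∈ N ∧ e' ∈ N

/-- A nontrivial tight cut with a forced edge. -/
def S_G3 : Prop := Step fun W E _ _ _ _ L => ∀ (e g : E) (v x u u' : W) (A : Finset W),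
  L.wt e = 1 → L.Lk e v x → L.Ct v x A → L.wt g = 2 → L.Cr A g → u ∈ A → u ≠ v → u' ∉ A → u' ≠ x →
  (∀ q ∈ A, L.Dok v x q → ∃ N, L.Sol N ∧ e ∈ N ∧ L.Cov N q) ∧ L.AntE e v x ∧ L.DrvE e v x

/-- A nontrivial tight cut without forced edges. -/
def S_G4 : Prop := Step fun W E _ _ _ _ L => ∀ (e : E) (v x : W) (A : Finset W),
  L.wt e = 1 → L.Lk e v x → L.Ct v x A → (∀ g, L.wt g = 2 → ¬ L.Cr A g) → 3 ≤ A.card →
  3 ≤ Aᶜ.card →
  (∀ q ∈ A, L.Dok v x q → ∃ N, L.Sol N ∧ e ∈ N ∧ L.Cov N q) ∧ L.AntE e v x ∧ L.DrvE e v x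

/-- Meeting every cut of a laminar family. -/
def S_Lam : Prop :=
  ∀ (W E : Type) [Fintype W] [DecidableEq W] [Fintype E] [DecidableEq E] (L : Gr W E)
    (𝓛 : Finset (Finset W)), L.Valid → (∀ X ∈ 𝓛, L.om X = 4 ∧ ∀ g, L.wt g = 2 → ¬ L.Cr X g) →
    (∀ X ∈ 𝓛, ∀ Y ∈ 𝓛, X ⊆ Y ∨ Y ⊆ X ∨ Disjoint X Y) →
    ∃ N, L.Sol N ∧ ∀ X ∈ 𝓛, ∃ g ∈ N, L.Cr X g

end Pool.Agent.P.MP_92d394_lc.H
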