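import Pool.Agent.P.MP_92d394_lc.H.St

/-! The certificate for a laminar family, from the one level certificate. -/

namespace Pool.Agent.P.MP_92d394_lc.H

open Finset

namespace Cert

variable {V E : Type} [DecidableEq V] [DecidableEq E]

/-- The largest member of the family containing `v` and strictly inside `Z`. -/
def ch (𝓛 : Finset (Finset V)) (Z : Finset V) (v : V) : Finset V :=
  (𝓛.filter fun X => v ∈ X ∧ X ⊆ Z ∧ X ≠ Z).biUnion id

/-- The standing assumptions on the family. -/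
structure Fam (𝓛 : Finset (Finset V)) (r : V) : Prop where
  lam : Lam 𝓛
  nr : ∀ X ∈ 𝓛, r ∉ X
  ne : ∀ X ∈ 𝓛, X.Nonempty
  sing : ∀ v, v ≠ r → {v} ∈ 𝓛

theorem ch_out (𝓛 : Finset (Finset V)) (Z : Finset V) (v : V) (hv : v ∉ Z) : ch 𝓛 Z v = ∅ := by
  ext u
  simp only [ch, mem_biUnion, mem_filter, id, notMem_empty, iff_false]
  rintro ⟨X, ⟨_, h1, h2, _⟩, _⟩
  exact hv (h2 h1)

theorem ch_max {𝓛 : Finset (Finset V)} {Z X : Finset V} {v : V} (hX : X ∈ 𝓛) (hv : v ∈ X)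
    (h1 : X ⊆ Z) (h2 : X ≠ Z) : X ⊆ ch 𝓛 Z v := by
  intro u hu
  simp only [ch, mem_biUnion, mem_filter, id]
  exact ⟨X, ⟨hX, hv, h1, h2⟩, hu⟩

theorem ch_spec {𝓛 : Finset (Finset V)} {r : V} (hF : Fam 𝓛 r) {Z : Finset V} (hZ : Z ∈ 𝓛)
    (hns : ∀ u, Z ≠ {u}) {v : V} (hv : v ∈ Z) :
    ch 𝓛 Z v ∈ 𝓛 ∧ v ∈ ch 𝓛 Z v ∧ ch 𝓛 Z v ⊆ Z ∧ ch 𝓛 Z v ≠ Z := by
  have hvr : v ≠ r := fun h => hF.nr Z hZ (h ▸ hv)
  have hne : (𝓛.filter fun X => v ∈ X ∧ X ⊆ Z ∧ X ≠ Z).Nonempty :=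
    ⟨{v}, mem_filter.2 ⟨hF.sing v hvr, mem_singleton_self v, singleton_subset_iff.2 hv,
      fun h => hns v h.symm⟩⟩
  obtain ⟨M, hM, hmax⟩ := exists_max_image _ card hne
  obtain ⟨hM1, hM2, hM3, hM4⟩ := mem_filter.1 hM
  have : ch 𝓛 Z v = M := by
    apply Subset.antisymm
    · intro u hu
      simp only [ch, mem_biUnion, id] at hu
      obtain ⟨X, hX, hu⟩ := hu
      obtain ⟨hX1, hX2, _, _⟩ := mem_filter.1 hX
      rcases hF.lam X hX1 M hM1 with h | h | h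
      · exact h hu
      · have := eq_of_subset_of_card_le h (hmax X hX)
        exact this ▸ hu
      · exact absurd hM2 (disjoint_left.1 h hX2)
    · exact ch_max hM1 hM2 hM3 hM4
  rw [this]
  exact ⟨hM1, hM2, hM3, hM4⟩

theorem ch_eq {𝓛 : Finset (Finset V)} {r : V} (hF : Fam 𝓛 r) {Z : Finset V} (hZ : Z ∈ 𝓛)
    (hns : ∀ u, Z ≠ {u}) {u v : V} (hv : v ∈ Z) (hu : u ∈ ch 𝓛 Z v) : ch 𝓛 Z u = ch 𝓛 Z v := by
  obtain ⟨a1, a2, a3, a4⟩ := ch_spec hF hZ hns hv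
  obtain ⟨b1, _, b3, b4⟩ := ch_spec hF hZ hns (a3 hu)
  have h1 := ch_max a1 hu a3 a4
  exact Subset.antisymm (ch_max b1 (h1 a2) b3 b4) h1

theorem ch_card {𝓛 : Finset (Finset V)} {r : V} (hF : Fam 𝓛 r) {Z : Finset V} (hZ : Z ∈ 𝓛)
    (hns : ∀ u, Z ≠ {u}) {v : V} (hv : v ∈ Z) : (ch 𝓛 Z v).card < Z.card := by
  obtain ⟨_, _, a3, a4⟩ := ch_spec hF hZ hns hv
  exact card_lt_card (ssubset_of_subset_of_ne a3 a4)

theorem mem_U {𝓛 : Finset (Finset V)} {r : V} (hF : Fam 𝓛 r) {Z : Finset V} (hZ : Z ∈ 𝓛)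
    (hns : ∀ u, Z ≠ {u}) {S : Finset (Finset V)} (hS : S ⊆ Z.image (ch 𝓛 Z)) (v : V) :
    ch 𝓛 Z v ∈ S ↔ v ∈ S.biUnion id := by
  constructor
  · intro h
    obtain ⟨u, hu, hu2⟩ := mem_image.1 (hS h)
    have hv : v ∈ Z := by
      by_contra hv
      have h3 := (ch_spec hF hZ hns hu).2.1
      rw [hu2, ch_out _ _ _ hv] at h3
      exact notMem_empty _ h3
    exact mem_biUnion.2 ⟨_, h, (ch_spec hF hZ hns hv).2.1⟩
  · intro h
    obtain ⟨Y, hY, hv⟩ := mem_biUnion.1 h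
    obtain ⟨u, hu, rfl⟩ := mem_image.1 (hS hY)
    rw [ch_eq hF hZ hns hu hv]
    exact hY

theorem U_union {𝓛 : Finset (Finset V)} {r : V} (hF : Fam 𝓛 r) {Z : Finset V} (hZ : Z ∈ 𝓛)
    (hns : ∀ u, Z ≠ {u}) : (Z.image (ch 𝓛 Z)).biUnion id = Z := by
  ext v
  constructor
  · intro h
    obtain ⟨Y, hY, hv⟩ := mem_biUnion.1 h
    obtain ⟨u, hu, rfl⟩ := mem_image.1 hY
    exact (ch_spec hF hZ hns hu).2.2.1 hv
  · intro h
    exact mem_biUnion.2 ⟨_, mem_image_of_mem _ h, (ch_spec hF hZ hns h).2.1⟩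

theorem ch_U {𝓛 : Finset (Finset V)} {r : V} (hF : Fam 𝓛 r) {Z : Finset V} (hZ : Z ∈ 𝓛)
    (hns : ∀ u, Z ≠ {u}) (v : V) : ch 𝓛 Z v ∈ Z.image (ch 𝓛 Z) ↔ v ∈ Z := by
  rw [mem_U hF hZ hns Subset.rfl, U_union hF hZ hns]

omit [DecidableEq E] in
theorem dl_U {𝓛 : Finset (Finset V)} {r : V} (hF : Fam 𝓛 r) {Z : Finset V} (hZ : Z ∈ 𝓛)
    (hns : ∀ u, Z ≠ {u}) (a b : E → V) (H : Finset E) {S : Finset (Finset V)}
    (hS : S ⊆ Z.image (ch 𝓛 Z)) :
    dl (fun e => ch 𝓛 Z (a e)) (fun e => ch 𝓛 Z (b e)) H S = dl a b H (S.biUnion id) := by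
  unfold dl
  apply filter_congr
  intro e _
  rw [mem_U hF hZ hns hS, mem_U hF hZ hns hS]

/-- The edge has its level at `Z`. -/
def Lev (𝓛 : Finset (Finset V)) (a b : E → V) (Z : Finset V) (e : E) : Prop :=
  a e ∈ Z ∧ b e ∈ Z ∧ ch 𝓛 Z (a e) ≠ ch 𝓛 Z (b e)

instance (𝓛 : Finset (Finset V)) (a b : E → V) (Z : Finset V) (e : E) :
    Decidable (Lev 𝓛 a b Z e) := by
  unfold Lev
  infer_instance

omit [DecidableEq E] in
theorem Lev.ns {𝓛 : Finset (Finset V)} {a b : E → V} {Z : Finset V} {e : E}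
    (h : Lev 𝓛 a b Z e) : ∀ u, Z ≠ {u} := by
  rintro u rfl
  apply h.2.2
  rw [mem_singleton.1 h.1, mem_singleton.1 h.2.1]

omit [DecidableEq E] in
theorem Lev.sub {𝓛 : Finset (Finset V)} {r : V} (hF : Fam 𝓛 r) {a b : E → V} {Z Z' : Finset V}
    {e : E} (hZ : Z ∈ 𝓛) (hZ' : Z' ∈ 𝓛) (h : Lev 𝓛 a b Z e) (h' : Lev 𝓛 a b Z' e)
    (hs : Z ⊆ Z') : Z = Z' := by
  by_contra hne
  have h1 := ch_max hZ h.1 hs hne
  exact h'.2.2 (ch_eq hF hZ' h'.ns h'.1 (h1 h.2.1)).symm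

omit [DecidableEq E] in
theorem Lev.uniq {𝓛 : Finset (Finset V)} {r : V} (hF : Fam 𝓛 r) {a b : E → V} {Z Z' : Finset V}
    {e : E} (hZ : Z ∈ 𝓛) (hZ' : Z' ∈ 𝓛) (h : Lev 𝓛 a b Z e) (h' : Lev 𝓛 a b Z' e) : Z = Z' := by
  rcases hF.lam Z hZ Z' hZ' with hs | hs | hs
  · exact Lev.sub hF hZ hZ' h h' hs
  · exact (Lev.sub hF hZ' hZ h' h hs).symm
  · exact absurd h'.1 (disjoint_left.1 hs h.1)

/-- The data of one level. -/
def Good (𝓛 : Finset (Finset V)) (a b : E → V) (H : Finset E) (Z : Finset V)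
    (D : Bool → Finset E) : Prop :=
  (∀ i, ∀ e ∈ H, Lev 𝓛 a b Z e → e ∉ D i → ∃ X, (dl a b H X).card = 3 ∧ e ∈ dl a b H X) ∧
  (∀ i, ∀ J : Finset E, (∀ X, (dl a b H X).card = 3 → (J ∩ dl a b H X).card ≤ 1) →
    ∀ S ⊆ Z.image (ch 𝓛 Z), S.Nonempty → S ≠ Z.image (ch 𝓛 Z) →
      ∃ e ∈ dl a b H (S.biUnion id), Lev 𝓛 a b Z e ∧ (e ∉ J ∨ e ∈ D i)) ∧
  ∀ F ⊆ Z.image (ch 𝓛 Z),
    ∑ e ∈ H.filter (fun e => Lev 𝓛 a b Z e ∧ (ch 𝓛 Z (a e) ∈ F ∨ ch 𝓛 Z (b e) ∈ F)),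
      pr D e + 4 ≤ 4 * F.card + 2 * (dl a b H ((Z.image (ch 𝓛 Z) \ F).biUnion id)).card

theorem good [Fintype V] [Fintype E] (h : S_Level) {𝓛 : Finset (Finset V)} {r : V}
    (hF : Fam 𝓛 r) (a b : E → V) (H : Finset E) (h2 : Two a b H)
    (h3 : ∀ X ∈ 𝓛, (dl a b H X).card ≤ 3) {Z : Finset V} (hZ : Z ∈ 𝓛) (hns : ∀ u, Z ≠ {u}) :
    ∃ D, Good 𝓛 a b H Z D := by
  have hs : ∀ u ∈ Z.image (ch 𝓛 Z),
      dl (fun e => ch 𝓛 Z (a e)) (fun e => ch 𝓛 Z (b e)) H {u} = dl a b H u := by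
    intro u hu
    rw [dl_U hF hZ hns a b H (singleton_subset_iff.2 hu), singleton_biUnion]
    rfl
  obtain ⟨D, d1, d2, d3⟩ := h (Finset V) E (fun e => ch 𝓛 Z (a e)) (fun e => ch 𝓛 Z (b e)) H
    (Z.image (ch 𝓛 Z)) ((hF.ne Z hZ).image _)
    (by
      intro S hS hne
      rw [dl_U hF hZ hns a b H hS]
      apply h2
      · obtain ⟨Y, hY⟩ := hne
        obtain ⟨u, hu, rfl⟩ := mem_image.1 (hS hY)
        exact ⟨u, mem_biUnion.2 ⟨_, hY, (ch_spec hF hZ hns hu).2.1⟩⟩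
      · refine ⟨r, mem_compl.2 fun hr => ?_⟩
        obtain ⟨Y, hY, hr⟩ := mem_biUnion.1 hr
        obtain ⟨u, hu, rfl⟩ := mem_image.1 (hS hY)
        exact hF.nr Z hZ ((ch_spec hF hZ hns hu).2.2.1 hr))
    (by
      intro u hu
      rw [hs u hu]
      obtain ⟨v, hv, rfl⟩ := mem_image.1 hu
      exact h3 _ (ch_spec hF hZ hns hv).1)
    (by
      rw [dl_U hF hZ hns a b H Subset.rfl, U_union hF hZ hns]
      exact h3 Z hZ)
  refine ⟨D, ?_, ?_, ?_⟩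
  · intro i e he hl hD
    obtain ⟨u, hu, k1, k2⟩ := d1 i e he ((ch_U hF hZ hns _).2 hl.1) ((ch_U hF hZ hns _).2 hl.2.1)
      hl.2.2 hD
    rw [hs u hu] at k1 k2
    exact ⟨u, k1, k2⟩
  · intro i J hJ S hS hne hne2
    obtain ⟨e, he, k1, k2, k3⟩ := d2 i J (by
      intro u hu hc
      rw [hs u hu] at hc ⊢
      exact hJ u hc) S hS hne hne2
    refine ⟨e, ?_, ⟨(ch_U hF hZ hns _).1 k1, (ch_U hF hZ hns _).1 k2, ?_⟩, k3⟩
    · rw [← dl_U hF hZ hns a b H hS]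
      exact he
    · intro heq
      apply (mem_filter.1 he).2
      simp only [heq]
  · intro F hFs
    have := d3 F hFs
    rw [dl_U hF hZ hns a b H sdiff_subset] at this
    refine le_trans (le_of_eq ?_) this
    congr 1
    apply sum_congr _ fun _ _ => rfl
    apply filter_congr
    intro e _
    rw [ch_U hF hZ hns, ch_U hF hZ hns]
    unfold Lev
    tauto

/-- The glued sets. -/
def gl [Fintype E] (𝓛 : Finset (Finset V)) (r : V) (a b : E → V)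
    (DZ : Finset V → Bool → Finset E) (i : Bool) : Finset E :=
  univ.filter fun e => a e = r ∨ b e = r ∨ ∃ Z ∈ 𝓛, Lev 𝓛 a b Z e ∧ e ∈ DZ Z i

theorem gl_iff [Fintype E] {𝓛 : Finset (Finset V)} {r : V} (hF : Fam 𝓛 r) {a b : E → V}
    (DZ : Finset V → Bool → Finset E) (i : Bool) {Z : Finset V} (hZ : Z ∈ 𝓛) {e : E}
    (hl : Lev 𝓛 a b Z e) : e ∈ gl 𝓛 r a b DZ i ↔ e ∈ DZ Z i := by
  simp only [gl, mem_filter, mem_univ, true_and]
  constructor
  · rintro (h | h | ⟨Z', hZ', h1, h2⟩)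
    · exact absurd (h ▸ hl.1) (hF.nr Z hZ)
    · exact absurd (h ▸ hl.2.1) (hF.nr Z hZ)
    · rw [Lev.uniq hF hZ hZ' hl h1]
      exact h2
  · intro h
    exact Or.inr (Or.inr ⟨Z, hZ, hl, h⟩)

theorem pr_gl [Fintype E] {𝓛 : Finset (Finset V)} {r : V} (hF : Fam 𝓛 r) {a b : E → V}
    (DZ : Finset V → Bool → Finset E) {Z : Finset V} (hZ : Z ∈ 𝓛) {e : E}
    (hl : Lev 𝓛 a b Z e) : pr (gl 𝓛 r a b DZ) e = pr (DZ Z) e := by
  simp only [pr, gl_iff hF DZ _ hZ hl]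

theorem pr_le (D : Bool → Finset E) (e : E) : pr D e ≤ 4 := by
  unfold pr
  split_ifs <;> omega

theorem crt [Fintype V] [Fintype E] {𝓛 : Finset (Finset V)} {r : V} (hF : Fam 𝓛 r)
    (a b : E → V) (H : Finset E) (h2 : Two a b H) (hr : {r}ᶜ ∈ 𝓛)
    (DZ : Finset V → Bool → Finset E)
    (hD : ∀ Z ∈ 𝓛, (∀ u, Z ≠ {u}) → Good 𝓛 a b H Z (DZ Z)) : Crt a b H (gl 𝓛 r a b DZ) := by
  constructor
  · intro i e he hab hn
    have har : a e ≠ r := fun h => hn (mem_filter.2 ⟨mem_univ _, Or.inl h⟩)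
    have hbr : b e ≠ r := fun h => hn (mem_filter.2 ⟨mem_univ _, Or.inr (Or.inl h)⟩)
    have hne : (𝓛.filter fun X => a e ∈ X ∧ b e ∈ X).Nonempty :=
      ⟨{r}ᶜ, mem_filter.2 ⟨hr, by simpa using har, by simpa using hbr⟩⟩
    obtain ⟨Z, hZ, hmin⟩ := exists_min_image _ card hne
    obtain ⟨hZ1, hZ2, hZ3⟩ := mem_filter.1 hZ
    have hns : ∀ u, Z ≠ {u} := by
      rintro u rfl
      exact hab ((mem_singleton.1 hZ2).trans (mem_singleton.1 hZ3).symm)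
    have hl : Lev 𝓛 a b Z e := by
      refine ⟨hZ2, hZ3, fun heq => ?_⟩
      have k1 := ch_spec hF hZ1 hns hZ2
      have k2 := ch_spec hF hZ1 hns hZ3
      have := hmin _ (mem_filter.2 ⟨k1.1, k1.2.1, heq ▸ k2.2.1⟩)
      have := ch_card hF hZ1 hns hZ2
      omega
    exact (hD Z hZ1 hns).1 i e he hl fun h => hn ((gl_iff hF DZ i hZ1 hl).2 h)
  · intro i J hJ S hS1 hS2
    have key : ∀ n, ∀ Z ∈ 𝓛, Z.card = n → (∃ u ∈ Z, u ∈ S) → (∃ u ∈ Z, u ∉ S) →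
        ∃ e ∈ dl a b H S, e ∉ J ∨ e ∈ gl 𝓛 r a b DZ i := by
      intro n
      induction n using Nat.strong_induction_on with
      | _ n ih =>
        rintro Z hZ rfl ⟨x, hx, hxS⟩ ⟨y, hy, hyS⟩
        have hns : ∀ u, Z ≠ {u} := by
          rintro u rfl
          rw [mem_singleton.1 hx] at hxS
          rw [mem_singleton.1 hy] at hyS
          exact hyS hxS
        by_cases hsp : ∃ v ∈ Z, (∃ u ∈ ch 𝓛 Z v, u ∈ S) ∧ ∃ u ∈ ch 𝓛 Z v, u ∉ S
        · obtain ⟨v, hv, k1, k2⟩ := hsp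
          exact ih _ (ch_card hF hZ hns hv) _ (ch_spec hF hZ hns hv).1 rfl k1 k2
        · have hin : ∀ v ∈ Z, ch 𝓛 Z v ⊆ S ↔ v ∈ S := by
            intro v hv
            refine ⟨fun h => h (ch_spec hF hZ hns hv).2.1, fun h u hu => ?_⟩
            by_contra hu2
            exact hsp ⟨v, hv, ⟨v, (ch_spec hF hZ hns hv).2.1, h⟩, u, hu, hu2⟩
          have hT : (Z.image (ch 𝓛 Z)).filter (· ⊆ S) ⊆ Z.image (ch 𝓛 Z) := filter_subset _ _
          obtain ⟨e, he, hl, hk⟩ := (hD Z hZ hns).2.1 i J hJ _ hT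
            ⟨_, mem_filter.2 ⟨mem_image_of_mem _ hx, (hin x hx).2 hxS⟩⟩
            (by
              intro heq
              have : ch 𝓛 Z y ∈ (Z.image (ch 𝓛 Z)).filter (· ⊆ S) := by
                rw [heq]
                exact mem_image_of_mem _ hy
              exact hyS ((hin y hy).1 (mem_filter.1 this).2))
          have hm : ∀ v ∈ Z, v ∈ ((Z.image (ch 𝓛 Z)).filter (· ⊆ S)).biUnion id ↔ v ∈ S := by
            intro v hv
            rw [← mem_U hF hZ hns hT, mem_filter, hin v hv]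
            exact ⟨fun h => h.2, fun h => ⟨mem_image_of_mem _ hv, h⟩⟩
          refine ⟨e, ?_, hk.imp id fun h => (gl_iff hF DZ i hZ hl).2 h⟩
          obtain ⟨k1, k2⟩ := mem_filter.1 he
          rw [hm _ hl.1, hm _ hl.2.1] at k2
          exact mem_filter.2 ⟨k1, k2⟩
    have hc := h2 S hS1 hS2
    obtain ⟨e, he⟩ : (dl a b H S).Nonempty := card_pos.1 (by omega)
    by_cases hre : a e = r ∨ b e = r
    · refine ⟨e, he, Or.inr (mem_filter.2 ⟨mem_univ _, ?_⟩)⟩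
      tauto
    · have k1 : a e ∈ ({r}ᶜ : Finset V) := by
        simp only [mem_compl, mem_singleton]
        tauto
      have k2 : b e ∈ ({r}ᶜ : Finset V) := by
        simp only [mem_compl, mem_singleton]
        tauto
      have k3 := (mem_filter.1 he).2
      by_cases ha : a e ∈ S
      · exact key _ _ hr rfl ⟨_, k1, ha⟩ ⟨_, k2, fun hb => k3 ⟨fun _ => hb, fun _ => ha⟩⟩
      · have hb : b e ∈ S := by
          by_contra hb
          exact k3 ⟨fun h => absurd h ha, fun h => absurd h hb⟩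
        exact key _ _ hr rfl ⟨_, k2, hb⟩ ⟨_, k1, ha⟩

omit [DecidableEq E] in
/-- Cuts of the classes inside a union of classes. -/
theorem cuts (a b : E → V) (H : Finset E) (ρ : V → Finset V) (h1 : ∀ v, v ∈ ρ v)
    (h2 : ∀ u v, u ∈ ρ v → ρ u = ρ v) (W : Finset V) (hW : ∀ v ∈ W, ρ v ⊆ W) :
    (dl a b H W).card + 2 * (H.filter fun e => a e ∈ W ∧ b e ∈ W ∧ ρ (a e) ≠ ρ (b e)).card ≤
      ∑ Y ∈ W.image ρ, (dl a b H Y).card := by
  simp only [dl, card_filter]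
  rw [sum_comm, mul_sum, ← sum_add_distrib]
  apply sum_le_sum
  intro e _
  rw [← card_filter]
  by_cases ha : a e ∈ W <;> by_cases hb : b e ∈ W
  · by_cases hr : ρ (a e) = ρ (b e)
    · simp [ha, hb, hr]
    · have : ({ρ (a e), ρ (b e)} : Finset (Finset V)) ⊆
          (W.image ρ).filter fun Y => ¬ (a e ∈ Y ↔ b e ∈ Y) := by
        intro Y hY
        rcases mem_insert.1 hY with rfl | hY
        · exact mem_filter.2 ⟨mem_image_of_mem _ ha, fun h => hr (h2 _ _ (h.1 (h1 _))).symm⟩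
        · rw [mem_singleton.1 hY]
          exact mem_filter.2 ⟨mem_image_of_mem _ hb, fun h => hr (h2 _ _ (h.2 (h1 _)))⟩
      have h3 := card_le_card this
      rw [card_pair hr] at h3
      simpa [ha, hb, hr] using h3
  · have : ((W.image ρ).filter fun Y => ¬ (a e ∈ Y ↔ b e ∈ Y)).Nonempty :=
      ⟨ρ (a e), mem_filter.2 ⟨mem_image_of_mem _ ha, fun h => hb (hW _ ha (h.1 (h1 _)))⟩⟩
    have h3 := card_pos.2 this
    simp only [ha, hb, iff_false, not_true, not_false_iff, if_true, false_and, and_false,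
      if_false]
    omega
  · have : ((W.image ρ).filter fun Y => ¬ (a e ∈ Y ↔ b e ∈ Y)).Nonempty :=
      ⟨ρ (b e), mem_filter.2 ⟨mem_image_of_mem _ hb, fun h => ha (hW _ hb (h.2 (h1 _)))⟩⟩
    have h3 := card_pos.2 this
    simp only [ha, hb, iff_true, not_false_iff, if_true, false_and, if_false]
    omega
  · simp [ha, hb]

theorem bound [Fintype E] {𝓛 : Finset (Finset V)} {r : V} (hF : Fam 𝓛 r)
    (a b : E → V) (H : Finset E) (DZ : Finset V → Bool → Finset E)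
    (hD : ∀ Z ∈ 𝓛, (∀ u, Z ≠ {u}) → Good 𝓛 a b H Z (DZ Z))
    (ρ : V → Finset V) (h1 : ∀ v, v ∈ ρ v) (h2 : ∀ u v, u ∈ ρ v → ρ u = ρ v)
    (h3 : ∀ X ∈ 𝓛, (∃ v, X ⊆ ρ v) ∨ ∀ v ∈ X, ρ v ⊆ X) :
    ∀ n, ∀ Z ∈ 𝓛, Z.card = n → (∀ v ∈ Z, ρ v ⊆ Z) →
      ∑ e ∈ H.filter (fun e => a e ∈ Z ∧ b e ∈ Z ∧ ρ (a e) ≠ ρ (b e)),
          pr (gl 𝓛 r a b DZ) e + 4 ≤
        ∑ Y ∈ Z.image ρ, if Y ∈ 𝓛 then 4 else 2 * (dl a b H Y).card := by
  intro n
  induction n using Nat.strong_induction_on with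
  | _ n ih =>
    rintro Z hZ rfl hZρ
    by_cases hcl : ∃ v, Z ⊆ ρ v
    · obtain ⟨v, hv⟩ := hcl
      have k : ∀ u ∈ Z, ρ u = Z := by
        intro u hu
        refine Subset.antisymm (hZρ u hu) ?_
        rw [h2 u v (hv hu)]
        exact hv
      have k1 : H.filter (fun e => a e ∈ Z ∧ b e ∈ Z ∧ ρ (a e) ≠ ρ (b e)) = ∅ := by
        apply filter_eq_empty_iff.2
        rintro e _ ⟨p, q, s⟩
        exact s ((k _ p).trans (k _ q).symm)
      have k2 : Z.image ρ = {Z} := by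
        obtain ⟨u, hu⟩ := hF.ne Z hZ
        apply eq_singleton_iff_unique_mem.2
        refine ⟨mem_image.2 ⟨u, hu, k u hu⟩, fun Y hY => ?_⟩
        obtain ⟨w, hw, rfl⟩ := mem_image.1 hY
        exact k w hw
      rw [k1, k2]
      simp [hZ]
    · have hns : ∀ u, Z ≠ {u} := by
        rintro u rfl
        exact hcl ⟨u, singleton_subset_iff.2 (h1 u)⟩
      obtain ⟨F, hFd⟩ : ∃ F, F = (Z.image (ch 𝓛 Z)).filter fun C => ∀ v ∈ C, ρ v ⊆ C := ⟨_, rfl⟩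
      obtain ⟨W, hWd⟩ : ∃ W, W = (Z.image (ch 𝓛 Z) \ F).biUnion id := ⟨_, rfl⟩
      have hFs : F ⊆ Z.image (ch 𝓛 Z) := hFd ▸ filter_subset _ _
      have hFm : ∀ C ∈ F, ∀ v ∈ C, ρ v ⊆ C := by
        intro C hC
        rw [hFd] at hC
        exact (mem_filter.1 hC).2
      have hW : ∀ v, v ∈ W ↔ v ∈ Z ∧ ch 𝓛 Z v ∉ F := by
        intro v
        rw [hWd, ← mem_U hF hZ hns sdiff_subset, mem_sdiff, ch_U hF hZ hns]
      have hWs : ∀ v ∈ W, ch 𝓛 Z v ⊆ ρ v ∧ ¬ ρ v ⊆ ch 𝓛 Z v := by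
        intro v hv
        obtain ⟨hv1, hv2⟩ := (hW v).1 hv
        have hn : ¬ ∀ u ∈ ch 𝓛 Z v, ρ u ⊆ ch 𝓛 Z v := by
          intro h
          apply hv2
          rw [hFd]
          exact mem_filter.2 ⟨mem_image_of_mem _ hv1, h⟩
        have k := ch_spec hF hZ hns hv1
        obtain ⟨w, hw⟩ := (h3 _ k.1).resolve_right hn
        have k1 : ch 𝓛 Z v ⊆ ρ v := by
          rw [h2 v w (hw k.2.1)]
          exact hw
        refine ⟨k1, fun h => hn fun u hu => ?_⟩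
        rw [h2 u v (k1 hu)]
        exact h
      have hWn : ∀ v ∈ W, ρ v ∉ 𝓛 := by
        intro v hv hm
        have hv1 := ((hW v).1 hv).1
        exact (hWs v hv).2 (ch_max hm (h1 v) (hZρ v hv1) fun h => hcl ⟨v, h ▸ Subset.rfl⟩)
      have hWc : ∀ v ∈ W, ρ v ⊆ W := by
        intro v hv u hu
        obtain ⟨hv1, hv2⟩ := (hW v).1 hv
        have hu1 := hZρ v hv1 hu
        refine (hW u).2 ⟨hu1, fun h => hv2 ?_⟩
        have k := hFm _ h u (ch_spec hF hZ hns hu1).2.1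
        rw [h2 u v hu] at k
        rw [ch_eq hF hZ hns hu1 (k (h1 v))]
        exact h
      have hFc : ∀ C ∈ F, ∀ v ∈ C, ch 𝓛 Z v = C ∧ v ∈ Z := by
        intro C hC v hv
        obtain ⟨u, hu, rfl⟩ := mem_image.1 (hFs hC)
        exact ⟨ch_eq hF hZ hns hu hv, (ch_spec hF hZ hns hu).2.2.1 hv⟩
      have e1 := (hD Z hZ hns).2.2 F hFs
      rw [← hWd] at e1
      have e2 := cuts a b H ρ h1 h2 W hWc
      have e3 : ∑ C ∈ F, (∑ e ∈ H.filter (fun e => a e ∈ C ∧ b e ∈ C ∧ ρ (a e) ≠ ρ (b e)),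
          pr (gl 𝓛 r a b DZ) e + 4) ≤
          ∑ C ∈ F, ∑ Y ∈ C.image ρ, if Y ∈ 𝓛 then 4 else 2 * (dl a b H Y).card := by
        apply sum_le_sum
        intro C hC
        have hm := hFm C hC
        obtain ⟨u, hu, rfl⟩ := mem_image.1 (hFs hC)
        exact ih _ (ch_card hF hZ hns hu) _ (ch_spec hF hZ hns hu).1 rfl hm
      rw [sum_add_distrib, sum_const, smul_eq_mul] at e3
      have e4 : ∑ C ∈ F, (∑ Y ∈ C.image ρ, if Y ∈ 𝓛 then 4 else 2 * (dl a b H Y).card) +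
          2 * ∑ Y ∈ W.image ρ, (dl a b H Y).card ≤
          ∑ Y ∈ Z.image ρ, if Y ∈ 𝓛 then 4 else 2 * (dl a b H Y).card := by
        have k1 : 2 * ∑ Y ∈ W.image ρ, (dl a b H Y).card =
            ∑ Y ∈ W.image ρ, if Y ∈ 𝓛 then 4 else 2 * (dl a b H Y).card := by
          rw [mul_sum]
          apply sum_congr rfl
          intro Y hY
          obtain ⟨v, hv, rfl⟩ := mem_image.1 hY
          rw [if_neg (hWn v hv)]
        have k2 : (F : Set (Finset V)).PairwiseDisjoint fun C => C.image ρ := by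
          intro C hC C' hC' hne
          apply disjoint_left.2
          intro Y hY hY'
          obtain ⟨v, hv, rfl⟩ := mem_image.1 hY
          obtain ⟨v', hv', hq⟩ := mem_image.1 hY'
          have k := hFm C' hC' v' hv'
          rw [hq] at k
          exact hne ((hFc C hC v hv).1.symm.trans (hFc C' hC' v (k (h1 v))).1)
        have k3 : Disjoint (F.biUnion fun C => C.image ρ) (W.image ρ) := by
          apply disjoint_left.2
          intro Y hY hY'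
          obtain ⟨C, hC, hY⟩ := mem_biUnion.1 hY
          obtain ⟨v, hv, rfl⟩ := mem_image.1 hY
          obtain ⟨v', hv', hq⟩ := mem_image.1 hY'
          have k := hWc v' hv'
          rw [hq] at k
          apply ((hW v).1 (k (h1 v))).2
          rw [(hFc C hC v hv).1]
          exact hC
        rw [k1, ← sum_biUnion k2, ← sum_union k3]
        apply sum_le_sum_of_subset
        apply union_subset
        · intro Y hY
          obtain ⟨C, hC, hY⟩ := mem_biUnion.1 hY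
          obtain ⟨v, hv, rfl⟩ := mem_image.1 hY
          exact mem_image_of_mem _ (hFc C hC v hv).2
        · exact image_subset_image fun v hv => ((hW v).1 hv).1
      have e5 : ∑ e ∈ H.filter (fun e => a e ∈ Z ∧ b e ∈ Z ∧ ρ (a e) ≠ ρ (b e)),
          pr (gl 𝓛 r a b DZ) e ≤
          ∑ C ∈ F, ∑ e ∈ H.filter (fun e => a e ∈ C ∧ b e ∈ C ∧ ρ (a e) ≠ ρ (b e)),
            pr (gl 𝓛 r a b DZ) e +
          ∑ e ∈ H.filter (fun e => Lev 𝓛 a b Z e ∧ (ch 𝓛 Z (a e) ∈ F ∨ ch 𝓛 Z (b e) ∈ F)),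
            pr (DZ Z) e +
          4 * (H.filter fun e => a e ∈ W ∧ b e ∈ W ∧ ρ (a e) ≠ ρ (b e)).card := by
        simp only [sum_filter, card_filter]
        rw [sum_comm, mul_sum, ← sum_add_distrib, ← sum_add_distrib]
        apply sum_le_sum
        intro e _
        by_cases hP : a e ∈ Z ∧ b e ∈ Z ∧ ρ (a e) ≠ ρ (b e)
        · rw [if_pos hP]
          obtain ⟨p, q, s⟩ := hP
          by_cases hw : a e ∈ W ∧ b e ∈ W ∧ ρ (a e) ≠ ρ (b e)
          · rw [if_pos hw]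
            have := pr_le (gl 𝓛 r a b DZ) e
            omega
          · have hor : ch 𝓛 Z (a e) ∈ F ∨ ch 𝓛 Z (b e) ∈ F := by
              by_contra hno
              exact hw ⟨(hW _).2 ⟨p, fun h => hno (Or.inl h)⟩,
                (hW _).2 ⟨q, fun h => hno (Or.inr h)⟩, s⟩
            by_cases hc : ch 𝓛 Z (a e) = ch 𝓛 Z (b e)
            · have hm : ch 𝓛 Z (a e) ∈ F := hor.elim id fun h => hc ▸ h
              have k := single_le_sum (f := fun C => if a e ∈ C ∧ b e ∈ C ∧ ρ (a e) ≠ ρ (b e)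
                then pr (gl 𝓛 r a b DZ) e else 0) (fun _ _ => Nat.zero_le _) hm
              rw [if_pos ⟨(ch_spec hF hZ hns p).2.1, hc ▸ (ch_spec hF hZ hns q).2.1, s⟩] at k
              omega
            · have hl : Lev 𝓛 a b Z e := ⟨p, q, hc⟩
              rw [if_pos ⟨hl, hor⟩, pr_gl hF DZ hZ hl]
              omega
        · rw [if_neg hP]
          exact Nat.zero_le _
      omega

end Cert

open Cert in
theorem cert (h : S_Level) : S_Cert := by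
  intro V E _ _ _ _ a b H r 𝓛 h2 hl hX hs hr
  have hF : Fam 𝓛 r := ⟨hl, fun X h => (hX X h).1, fun X h => (hX X h).2.1, hs⟩
  have hex : ∀ Z : Finset V, ∃ D : Bool → Finset E,
      Z ∈ 𝓛 → (∀ u, Z ≠ {u}) → Cert.Good 𝓛 a b H Z D := by
    intro Z
    by_cases hZ : Z ∈ 𝓛 ∧ ∀ u, Z ≠ {u}
    · obtain ⟨D, hD⟩ := good h hF a b H h2 (fun X h => (hX X h).2.2) hZ.1 hZ.2
      exact ⟨D, fun _ _ => hD⟩
    · exact ⟨fun _ => ∅, fun p q => absurd ⟨p, q⟩ hZ⟩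
  choose DZ hD using hex
  refine ⟨gl 𝓛 r a b DZ, crt hF a b H h2 hr DZ hD, fun ρ h1 h2' h3 h4 => ?_⟩
  have := bound hF a b H DZ hD ρ h1 h2' h4 _ _ hr rfl (by
    intro v hv u hu
    rw [mem_compl, mem_singleton] at hv ⊢
    rintro rfl
    have k := h1 v
    rw [← h2' _ _ hu, h3] at k
    exact hv (mem_singleton.1 k))
  simpa only [mem_compl, mem_singleton, ne_eq] using this

end Pool.Agent.P.MP_92d394_lc.H
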