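import Pool.Agent.P.MP_92d394_lc.H.CSt

/-! One slide and two slides for two prescribed edges. -/

set_option linter.unusedSectionVars false

namespace Pool.Agent.P.MP_92d394_lc.H

open Finset

variable {W E : Type} [Fintype W] [DecidableEq W] [Fintype E] [DecidableEq E]

namespace Gr

variable {L : Gr W E} {S : Finset W}

theorem cl (l : List E) (n : l.Nodup) (h : ∀ g ∈ l, L.Cr S g) : (l.map L.wt).sum ≤ L.om S := by
  rw [← List.sum_toFinset _ n]
  exact le_cw _ fun g i => h g (List.mem_toFinset.1 i)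

/-- An edge crossed only by the cut of the two partners is not blocked. -/
theorem unb {e j f e' d f' : E} {v y v' s p q r : W} (ov : L.Ord v e j f y v' s)
    (os : L.Ord s e' d f' p q r)
    (key : ∀ S, L.Ct v y S → L.Cr S e' → s ∈ S ∧ ∀ u ∈ S, u = v ∨ u = s) : ¬ L.Blk v y e' := by
  rintro (⟨S, g, a, b, c, i⟩ | ⟨S, T, n, a, b, i, i'⟩)
  · obtain ⟨k1, k2⟩ := key S a b
    obtain ⟨u, _, l, i1, -⟩ := i.lk
    have : g = f := by
      rcases k2 u i1 with rfl | rfl
      · exact ov.forced c l.inc1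
      · exact (os.forced c l.inc1).trans (os.forced ov.wf ov.lf.inc2).symm
    exact (ov.lf.cr S).1 (this ▸ i) (by simp [k1, a.2.1])
  · obtain ⟨k1, k2⟩ := key S a i
    obtain ⟨k3, k4⟩ := key T b i'
    refine n (Subset.antisymm (fun u z => ?_) fun u z => ?_)
    · rcases k2 u z with rfl | rfl
      exacts [b.2.1, k3]
    · rcases k4 u z with rfl | rfl
      exacts [a.2.1, k1]

end Gr

open Gr

theorem caseDS : S_DS := by
  intro W E _ _ _ _ L c ih e j f k fx m fw e' k' fz v x v' s w xs y ws z w' zs h tr oz tr' nb ys hc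
  have hv := h.sld_valid c tr ys
  have fc := h.sld_fc
  have iH := ih W E _ hv (Or.inl (by omega))
  have bv : ¬ L.Inc e' v := fun i => nb (h.ov.blk oz.we i)
  have bx : ¬ L.Inc e' x := fun i => nb (h.ox.blk oz.we i).symm
  have nk : e' ≠ k := fun z => bx (z ▸ h.ox.lk.inc1)
  by_cases sw : s = w
  · obtain ⟨N, a, i, -⟩ := iH.1 e v y v h.sld_we h.sld_lk (Or.inl rfl)
    have := (h.ow.free oz.we (sw ▸ oz.le.inc2)).resolve_left nk
    exact ⟨_, h.sld_lift a i, mem_insert_of_mem i, this ▸ mem_insert_self ..⟩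
  obtain ⟨yz, yz'⟩ := hc.resolve_left sw
  have ne : e' ≠ e := fun z => bv (z ▸ h.ov.le.inc1)
  obtain ⟨d, f', t, r, os⟩ := c.ord oz.we oz.le.symm
  have os' := (h.sld_agr h.ov.nr (h.sx c.c4) sw ys.symm).ord os
  obtain ⟨N, a, i, i'⟩ := iH.2.2 e v y f s e' h.sld_we h.sld_lk h.sld_v.wf h.sld_v.lf os'.we
    os'.le.inc1 (unb h.sld_v os' fun S a b => by
      have t := (h.sld_ct c.c4 a).1
      rw [os'.le.cr] at b
      by_cases i : s ∈ S
      · refine ⟨i, fun u z => ?_⟩
        exact (((tr'.t4 S ⟨t, i, by tauto⟩).resolve_right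
          fun q => (q y a.2.2).elim yz yz') u z).symm
      · exfalso
        have zS : z ∈ S := by tauto
        rcases tr'.t3 Sᶜ f ⟨(om_compl S).trans t, mem_compl.2 i, by simpa⟩ h.ov.wf
          (cr_compl.2 (h.ov.lf.cr1 a.2.1 i)) with q | q
        · exact ys (q y (mem_compl.2 a.2.2))
        · exact bv (q v (by simpa using a.2.1) ▸ oz.le.inc1))
  exact ⟨_, h.sld_lift a i, mem_insert_of_mem i, mem_insert_of_mem i'⟩

theorem caseBB : S_BB := by
  intro W E _ _ _ _ L c ih e j f k fx m fw e' d k' fz m' fw' v x v' s w y ws z t w' y' ws' h h' tr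
    tr' nb sw ys vw'
  have c4 := c.c4
  have bv : ¬ L.Inc e' v := fun i => nb (h.ov.blk h'.ov.we i)
  have bx : ¬ L.Inc e' x := fun i => nb (h.ox.blk h'.ov.we i).symm
  have le := h.ov.le
  have lj := h.ov.lk
  have lf := h.ov.lf
  have lm := h.ow.lk
  have lx := h.ox.lf
  have le' := h'.ov.le
  have lm' := h'.ow.lk
  have lz := h'.ox.lf
  have we := h.ov.we
  have wj := h.ov.wk
  have wf := h.ov.wf
  have wm := h.ow.wk
  have wx := h.ox.wf
  have we' := h'.ov.we
  have wm' := h'.ow.wk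
  have wz := h'.ox.wf
  have xv := h.ov.np
  have wv := h.wv
  have yv := h.yv
  have wx' := h.ox.nq
  have yx := h.yx
  have yw := h.ow.nq
  have sv := h.ov.nr
  have sx := h.sx c4
  have vz := h'.sx c4
  have zx : z ≠ x := fun q => bx (q ▸ le'.inc2)
  have yz := h'.ox.nr
  have zw : z ≠ w := fun q => by
    rcases h.ow.nbr we' (q ▸ le'.symm) with a | a
    exacts [sx a.2, ys a.2.symm]
  have w'x : w' ≠ x := fun q => h'.wsy c (h.ox.part h'.ow.wf (q ▸ h'.ow.lf))
  have w'w : w' ≠ w := fun q => by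
    rcases h.ow.nbr h'.ow.we (q ▸ h'.ow.le) with a | a
    exacts [zx a.2, yz a.2.symm]
  have yw' := h'.xsw c4
  have y'v := h.xsv c4
  have y'x := h.ox.nr
  have y'w := h.xsw c4
  have y'y : y' ≠ y := fun q => by
    obtain ⟨_, _, _, _, o⟩ := c.ord wm lm.symm
    exact zx ((o.part wz lz.symm).trans (o.part wx (q ▸ lx.symm)).symm)
  have zs := h'.ov.np
  have w's := h'.wv
  have y's := h'.yv
  have w'z := h'.ox.nq
  have y'z := h'.yx
  have y'w' := h'.ow.nq
  have n1 := h.em
  have n2 : e ≠ e' := le.ne le' sv.symm vz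
  have n3 : e ≠ m' := le.ne lm' vw' y'v.symm
  have n4 : m ≠ e' := lm.ne le' (Ne.symm sw) zw.symm
  have n5 : m ≠ m' := lm.ne lm' w'w.symm y'w.symm
  have n6 : e' ≠ m' := h'.em
  have n7 : fz ≠ fx := lz.ne lx zx y'z.symm
  have n8 : f ≠ fx := lf.ne lx xv.symm y'v.symm
  have n9 : f ≠ fz := lf.ne lz vz yv.symm
  have j1 := h.ov.ne
  have j2 := h.jm.symm
  have j3 : e' ≠ j := fun q => bv (q ▸ lj.inc1)
  have j4 : m' ≠ j := (lj.ne lm' vw' y'v.symm).symm
  have ne : ∀ {g g' : E}, L.wt g = 1 → L.wt g' = 2 → g ≠ g' := fun p q z => by rw [z] at p; omega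
  have hv := h.sld_valid c tr ys
  have h2 : (L.sld e k m v y).Pa e' d f k' fz m' fw' s z t v w' y y' ws' :=
    ⟨(h.sld_agr sv sx sw ys.symm).ord h'.ov, (h.sld_agr vz.symm zx zw yz.symm).ord h'.ox,
      (h.sld_agr vw'.symm w'x w'w yw'.symm).ord h'.ow, w's, y's⟩
  have both : ∀ S, v ∈ S → y ∈ S → x ∉ S → w ∉ S → (s ∈ S ↔ y' ∈ S) → (z ∈ S ↔ w' ∈ S) →
      ¬ (s ∈ S ↔ z ∈ S) → 8 ≤ L.om S := fun S i1 i2 i3 i4 i5 i6 i7 => by
    by_cases a : s ∈ S
    · have := cl (L := L) (S := S) [e, m, e', m', fz, fx] (by simp [*]) (by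
        simp only [List.mem_cons, List.not_mem_nil, or_false]
        rintro _ (rfl | rfl | rfl | rfl | rfl | rfl)
        exacts [le.cr1 i1 i3, lm.cr2 i4 i2, le'.cr1 a (by tauto), lm'.cr2 (by tauto) (by tauto),
          lz.cr2 (by tauto) i2, lx.cr2 i3 (by tauto)])
      simp [*] at this
      omega
    have b1 : z ∈ S := by tauto
    have b2 : w' ∈ S := by tauto
    have b3 : y' ∉ S := by tauto
    have ev := c.even S
    by_cases b : v' ∈ S
    · have := cl (L := L) (S := S) [e, m, e', m', f] (by simp [*]) (by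
        simp only [List.mem_cons, List.not_mem_nil, or_false]
        rintro _ (rfl | rfl | rfl | rfl | rfl)
        exacts [le.cr1 i1 i3, lm.cr2 i4 i2, le'.cr2 a b1, lm'.cr1 b2 b3, lf.cr1 i1 a])
      have er := h.ov.ers i1
      simp [*] at this er
      by_contra q
      rcases tr'.t4 (S.erase v)ᶜ ⟨(om_compl _).trans (by omega), by simp [a], by simp [b1, vz.symm]⟩
        with r | r
      · exact (r x (by simp [i3])).elim sx.symm xv
      · exact (r w' (by simp [b2, vw'.symm])).elim w'z yw'.symm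
    · have := cl (L := L) (S := S) [e, m, e', m', j, f] (by simp [*]) (by
        simp only [List.mem_cons, List.not_mem_nil, or_false]
        rintro _ (rfl | rfl | rfl | rfl | rfl | rfl)
        exacts [le.cr1 i1 i3, lm.cr2 i4 i2, le'.cr2 a b1, lm'.cr1 b2 b3, lj.cr1 i1 b, lf.cr1 i1 a])
      simp [*] at this
      omega
  have hv2 := h2.sld_valid' hv fun S p q i o => by
    have a1 := h.sld_om S
    have a2 := h2.sld_om S
    have a3 := c4 S p q i o
    have a4 := hv.c4 S p q i o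
    have a5 := c.even S
    have a6 := h'.no_mid (S := S) c4 tr' y'v
    have a7 := h'.no_mid (S := Sᶜ) c4 tr' y'v
    have a8 := both S
    have a9 := both Sᶜ
    simp only [om_compl, mem_compl, not_not, ch] at a1 a2 a7 a9
    by_cases b1 : s ∈ S <;> by_cases b2 : z ∈ S <;> by_cases b3 : w' ∈ S <;>
      by_cases b4 : y' ∈ S <;> simp [b1, b2, b3, b4] at a2 a6 a7 a8 a9 <;> try omega
    all_goals
      by_cases b5 : v ∈ S <;> by_cases b6 : x ∈ S <;> by_cases b7 : w ∈ S <;>
        by_cases b8 : y ∈ S <;> simp [b5, b6, b7, b8] at a1 a8 a9 <;> omega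
  have fc := h.sld_fc
  have fc2 := h2.sld_fc
  have ov := (h2.sld_agr sv.symm vz vw' y'v.symm).ord h.sld_v
  have os := h2.sld_v
  obtain ⟨N, a, i, i'⟩ := (ih W E _ hv2 (Or.inl (by omega))).2.2 e v y f s e' ov.we ov.le ov.wf
    ov.lf os.we os.le.inc1 (unb ov os fun S a b => by
      obtain ⟨a0, i1, i2⟩ := a
      rw [os.le.cr] at b
      by_cases i : s ∈ S
      · have i3 : y' ∉ S := by tauto
        obtain ⟨t1, p1⟩ := h2.sld_ct hv.c4 ⟨a0, i, i3⟩
        obtain ⟨t0, p0⟩ := h.sld_ct c4 ⟨t1, i1, i2⟩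
        refine ⟨i, ?_⟩
        by_cases i4 : x ∈ S
        · by_cases i5 : z ∈ S
          · have := cl (L := L) (S := S) [m, m', fz, fx] (by simp [*]) (by
              simp only [List.mem_cons, List.not_mem_nil, or_false]
              rintro _ (rfl | rfl | rfl | rfl)
              exacts [lm.cr1 (p0 i4) i2, lm'.cr1 (p1 i5) i3, lz.cr1 i5 i2, lx.cr1 i4 i3])
            simp [*] at this
          · exact fun u q => (((tr'.t4 S ⟨t0, i, i5⟩).resolve_right
              fun r => (r y' i3).elim y'z y'y) u q).symm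
        · exact (tr.t4 S ⟨t0, i1, i4⟩).resolve_right fun r => (r y i2).elim yx y'y.symm
      · exfalso
        have i3 : y' ∈ S := by tauto
        obtain ⟨t1, p1⟩ := h2.sld_ct (S := Sᶜ) hv.c4 ⟨(om_compl S).trans a0, mem_compl.2 i, by simpa⟩
        obtain ⟨t0, p0⟩ := h.sld_ct c4 ⟨(om_compl S).symm.trans t1, i1, i2⟩
        have cf := lf.cr1 i1 i
        by_cases i4 : x ∈ S
        · have er := h.ov.ers i1
          have a1 := c4 (S.erase v) x v (by simp [*]) (by simp)
          simp only [i, i4, if_true, if_false] at er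
          rcases tr.t4 (S.erase v)ᶜ ⟨(om_compl _).trans (by split_ifs at er <;> omega), by simp,
            by simp [*]⟩ with r | r
          · exact (r y (by simp [i2])).elim yv ys
          · exact (r w (by simp [p0 i4, wv])).elim wx' y'w.symm
        · have := c3 (ne we wf) (ne we wx) n8 (le.cr1 i1 i4) cf (lx.cr2 i4 i3)
          omega)
  exact ⟨_, h.sld_lift (h2.sld_lift a i') (mem_insert_of_mem i),
    mem_insert_of_mem (mem_insert_of_mem i), mem_insert_of_mem (mem_insert_of_mem i')⟩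

end Pool.Agent.P.MP_92d394_lc.H
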