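import Pool.Agent.P.MP_92d394_lc.H.St

/-! From four regular multigraphs to half integral points. -/

namespace Pool.Agent.P.MP_92d394_lc.H

open Finset

namespace Fin22

/-- The edges of the multigraph of twice `y`. -/
def Ed {n : ℕ} (y : Fin n → Fin n → ℝ) : Type :=
  {p : Fin n × Fin n × Fin 2 // p.1 < p.2.1 ∧ ((p.2.2 : ℕ) : ℝ) < 2 * y p.1 p.2.1}

noncomputable instance {n : ℕ} (y : Fin n → Fin n → ℝ) : Fintype (Ed y) := by
  classical
  exact Subtype.fintype _

noncomputable instance {n : ℕ} (y : Fin n → Fin n → ℝ) : DecidableEq (Ed y) :=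
  Classical.decEq _

theorem sum_ed {n : ℕ} {y : Fin n → Fin n → ℝ} (hs : ∀ u v, y u v = y v u) (h0 : ∀ u, y u u = 0)
    (hy : ∀ u v, y u v = 0 ∨ y u v = 1 / 2 ∨ y u v = 1) {g : Fin n → Fin n → ℝ}
    (hg : ∀ u v, g u v = g v u) : ∑ e : Ed y, g e.1.1 e.1.2.1 = 2 * dot g y := by
  classical
  have e1 : ∑ e : Ed y, g e.1.1 e.1.2.1 = ∑ p : Fin n × Fin n × Fin 2,
      if p.1 < p.2.1 ∧ ((p.2.2 : ℕ) : ℝ) < 2 * y p.1 p.2.1 then g p.1 p.2.1 else 0 := by
    rw [← sum_filter]
    exact (sum_subtype _ (fun p => by simp) fun p : Fin n × Fin n × Fin 2 => g p.1 p.2.1).symm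
  have e2 : ∀ u v : Fin n, (∑ j : Fin 2,
      if u < v ∧ ((j : ℕ) : ℝ) < 2 * y u v then g u v else 0) =
        2 * if u < v then g u v * y u v else 0 := fun u v => by
    rw [Fin.sum_univ_two]
    by_cases k : u < v
    · rcases hy u v with h | h | h <;> simp [k, h] <;> ring
    · simp [k]
  have e3 : ∀ u v : Fin n, g u v * y u v =
      (if u < v then g u v * y u v else 0) + if v < u then g v u * y v u else 0 := fun u v => by
    rcases lt_trichotomy u v with k | k | k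
    · simp [k, k.not_gt]
    · simp [k, h0]
    · simp [k, k.not_gt, hs u v, hg u v]
  rw [e1, Fintype.sum_prod_type]
  simp only [Fintype.sum_prod_type, e2, ← mul_sum]
  rw [dot, sum_congr rfl fun u _ => sum_congr rfl fun v _ => e3 u v]
  simp only [sum_add_distrib]
  rw [sum_comm (f := fun u v : Fin n => if v < u then g v u * y v u else 0)]
  ring

theorem sum_dl {V E : Type} [DecidableEq V] [Fintype E] (a b : E → V) (S : Finset V)
    (z : E → ℝ) : ∑ e ∈ dl a b univ S, z e = ∑ e, z e * cutm S (a e) (b e) := by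
  rw [dl, sum_filter]
  refine sum_congr rfl fun e _ => ?_
  by_cases k : a e ∈ S ↔ b e ∈ S <;> simp only [cutm, k] <;> simp

theorem dot_z {V E : Type} [Fintype V] [DecidableEq V] [Fintype E] (a b : E → V) (z : E → ℝ)
    {g : V → V → ℝ} (h1 : ∀ u v, g u v = g v u) (h2 : ∀ u, g u u = 0) :
    dot g (∑ e, z e • ed (a e) (b e)) = ∑ e, z e * g (a e) (b e) := by
  rw [dot_sum]
  exact sum_congr rfl fun e _ => by rw [dot_smul, dot_ed h1 h2]

theorem ed_nat {V : Type} [DecidableEq V] (p q s t : V) : ∃ k : ℕ, ed p q s t = k :=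
  ⟨if p = q then 0 else (if s = p ∧ t = q then 1 else 0) + if s = q ∧ t = p then 1 else 0, by
    unfold ed; push_cast; rfl⟩

theorem eul {V E : Type} [Fintype V] [DecidableEq V] [Fintype E] (a b : E → V) (z : E → ℕ)
    (h1 : ∀ S, Even (∑ e ∈ dl a b univ S, z e))
    (h2 : ∀ S : Finset V, S.Nonempty → Sᶜ.Nonempty → 0 < ∑ e ∈ dl a b univ S, z e) :
    Eul (∑ e, (z e : ℝ) • ed (a e) (b e)) := by
  have ct : ∀ S, dot (cutm S) (∑ e, (z e : ℝ) • ed (a e) (b e)) =
      ((∑ e ∈ dl a b univ S, z e : ℕ) : ℝ) := fun S => by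
    rw [dot_z a b _ (cutm_symm S) (cutm_self S), Nat.cast_sum, sum_dl]
  refine ⟨fun u v => ?_, fun u => ?_, fun u v => ?_, fun S => ?_, fun S p q => ?_⟩
  · simp only [Finset.sum_apply, Pi.smul_apply, ed_symm _ _ u v]
  · simp only [Finset.sum_apply, Pi.smul_apply, ed_self, smul_zero, sum_const_zero]
  · choose k hk using fun e => ed_nat (a e) (b e) u v
    refine ⟨∑ e, z e * k e, ?_⟩
    simp only [Finset.sum_apply, Pi.smul_apply, hk, smul_eq_mul]
    push_cast
    rfl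
  · obtain ⟨k, hk⟩ := h1 S
    refine ⟨k, ?_⟩
    rw [ct, hk]
    push_cast
    ring
  · rw [ct]
    exact_mod_cast h2 S p q

end Fin22

open Fin22 in
theorem fin22 (h : S_Mid) : S_Fin := by
  intro n hn y hy hh c hc
  have cd : ∀ S : Finset (Fin n),
      ((dl (fun e : Ed y => e.1.1) (fun e => e.1.2.1) univ S).card : ℝ) =
        2 * dot (cutm S) y := fun S => by
    rw [← sum_ed hy.1 hy.2.1 hh (cutm_symm S), card_eq_sum_ones, Nat.cast_sum, sum_dl]
    simp
  have hR : Reg (fun e : Ed y => e.1.1) (fun e => e.1.2.1) := by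
    refine ⟨fun e => e.2.1.ne, fun v => ?_, fun S p q => ?_⟩
    · have e := cd {v}
      rw [dot_single hy.1 hy.2.1, hy.2.2.2.1 v] at e
      exact_mod_cast e.trans (by norm_num : (2 : ℝ) * 2 = 4)
    · have e := cd S
      have := cut_two hy p q
      exact_mod_cast (by linarith :
        (4 : ℝ) ≤ (dl (fun e : Ed y => e.1.1) (fun e => e.1.2.1) univ S).card)
  obtain ⟨z, z1, z2, z3⟩ := h (Fin n) (Ed y) _ _ (fun e => c e.1.1 e.1.2.1) hR
    (by rw [Fintype.card_fin]; omega) fun e => hc.2.2.1 _ _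
  obtain ⟨x, x1, x2⟩ := (eul _ _ z z1 z2).tour hc (by rwa [Fintype.card_fin])
  refine ⟨x, x1.1, x1.2, x2.trans ?_⟩
  rw [dot_z _ _ _ hc.1 hc.2.1]
  rw [sum_ed hy.1 hy.2.1 hh hc.1] at z3
  simp only [mul_comm (c _ _)] at z3
  linarith

end Pool.Agent.P.MP_92d394_lc.H
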