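import Mathlib

/-! Weighted multigraphs and uncrossing of cuts of weight four. -/

set_option linter.unusedSectionVars false

namespace Pool.Agent.P.MP_92d394_lc.H

open Finset

variable {W E : Type} [Fintype W] [DecidableEq W] [Fintype E] [DecidableEq E]

/-- Separation indicator. -/
def ch (S : Finset W) (u v : W) : ℕ := if (u ∈ S ↔ v ∈ S) then 0 else 1

/-- Weight of a cut. -/
def cw (a b : E → W) (ω : E → ℕ) (S : Finset W) : ℕ := ∑ g, ω g * ch S (a g) (b g)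

/-- Weight of the edges in two cuts. -/
def sh (a b : E → W) (ω : E → ℕ) (S T : Finset W) : ℕ :=
  ∑ g, ω g * (ch S (a g) (b g) * ch T (a g) (b g))

theorem ch_comm (S : Finset W) (u v : W) : ch S u v = ch S v u := by simp only [ch, iff_comm]

theorem ch_compl (S : Finset W) (u v : W) : ch Sᶜ u v = ch S u v := by
  simp only [ch, mem_compl, not_iff_not]

theorem ch_self (S : Finset W) (u : W) : ch S u u = 0 := by simp [ch]

theorem ch_one {S : Finset W} {u v : W} (h : ¬ (u ∈ S ↔ v ∈ S)) : ch S u v = 1 := if_neg h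

theorem ch_zero {S : Finset W} {u v : W} (h : u ∈ S ↔ v ∈ S) : ch S u v = 0 := if_pos h

section
variable {a b : E → W} {ω : E → ℕ} {S T R : Finset W}

theorem cw_compl (S : Finset W) : cw a b ω Sᶜ = cw a b ω S := by simp only [cw, ch_compl]

theorem cw_empty : cw a b ω ∅ = 0 := by simp [cw, ch]

theorem sum_pt (g₀ : E) (n : ℕ) (F G : E → ℕ) (h : ∀ g, F g ≤ G g) (k : F g₀ + n ≤ G g₀) :
    ∑ g, F g + n ≤ ∑ g, G g := by
  rw [← add_sum_erase _ F (mem_univ g₀), ← add_sum_erase _ G (mem_univ g₀)]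
  have := sum_le_sum (s := univ.erase g₀) fun g _ => h g
  omega

theorem ch_iu (S T : Finset W) (u v : W) :
    ch (S ∩ T) u v + ch (S ∪ T) u v ≤ ch S u v + ch T u v := by
  simp only [ch, mem_inter, mem_union]
  by_cases u ∈ S <;> by_cases v ∈ S <;> by_cases u ∈ T <;> by_cases v ∈ T <;> simp [*]

theorem ch_dd (S T : Finset W) (u v : W) :
    ch (S \ T) u v + ch (T \ S) u v ≤ ch S u v + ch T u v := by
  simp only [ch, mem_sdiff]
  by_cases u ∈ S <;> by_cases v ∈ S <;> by_cases u ∈ T <;> by_cases v ∈ T <;> simp [*]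

theorem cw_iu (S T : Finset W) : cw a b ω (S ∩ T) + cw a b ω (S ∪ T) ≤ cw a b ω S + cw a b ω T := by
  simp only [cw, ← sum_add_distrib, ← mul_add]
  exact sum_le_sum fun g _ => Nat.mul_le_mul_left _ (ch_iu ..)

theorem cw_dd (S T : Finset W) : cw a b ω (S \ T) + cw a b ω (T \ S) ≤ cw a b ω S + cw a b ω T := by
  simp only [cw, ← sum_add_distrib, ← mul_add]
  exact sum_le_sum fun g _ => Nat.mul_le_mul_left _ (ch_dd ..)

theorem cw_iu' (g : E) (h : ch (S ∩ T) (a g) (b g) + ch (S ∪ T) (a g) (b g) + 2 ≤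
    ch S (a g) (b g) + ch T (a g) (b g)) :
    cw a b ω (S ∩ T) + cw a b ω (S ∪ T) + ω g * 2 ≤ cw a b ω S + cw a b ω T := by
  simp only [cw, ← sum_add_distrib, ← mul_add]
  exact sum_pt g _ _ _ (fun g => Nat.mul_le_mul_left _ (ch_iu ..))
    (by rw [← mul_add]; exact Nat.mul_le_mul_left _ h)

theorem cw_dd' (g : E) (h : ch (S \ T) (a g) (b g) + ch (T \ S) (a g) (b g) + 2 ≤
    ch S (a g) (b g) + ch T (a g) (b g)) :
    cw a b ω (S \ T) + cw a b ω (T \ S) + ω g * 2 ≤ cw a b ω S + cw a b ω T := by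
  simp only [cw, ← sum_add_distrib, ← mul_add]
  exact sum_pt g _ _ _ (fun g => Nat.mul_le_mul_left _ (ch_dd ..))
    (by rw [← mul_add]; exact Nat.mul_le_mul_left _ h)

theorem cw_sh (h : S ⊆ T) : cw a b ω S + cw a b ω T = cw a b ω (T \ S) + 2 * sh a b ω S T := by
  simp only [cw, sh, mul_sum, ← sum_add_distrib]
  refine sum_congr rfl fun g _ => ?_
  have h1 := @h (a g)
  have h2 := @h (b g)
  simp only [ch, mem_sdiff]
  by_cases a g ∈ S <;> by_cases b g ∈ S <;> by_cases a g ∈ T <;> by_cases b g ∈ T <;>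
    simp_all <;> ring

theorem cw_par (S T : Finset W) :
    (cw a b ω (S ∩ T) + cw a b ω (S \ T)) % 2 = cw a b ω S % 2 := by
  have := cw_sh (a := a) (b := b) (ω := ω) (inter_subset_left (s₁ := S) (s₂ := T))
  rw [sdiff_inter_self_left] at this
  omega

theorem le_cw (X : Finset E) (h : ∀ g ∈ X, ¬ (a g ∈ S ↔ b g ∈ S)) : ∑ g ∈ X, ω g ≤ cw a b ω S :=
  (sum_le_sum fun g hg => by rw [ch_one (h g hg), mul_one]).trans
    (sum_le_sum_of_subset (f := fun g => ω g * ch S (a g) (b g)) (subset_univ X))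

theorem le_sh (X : Finset E) (h : ∀ g ∈ X, ¬ (a g ∈ S ↔ b g ∈ S) ∧ ¬ (a g ∈ T ↔ b g ∈ T)) :
    ∑ g ∈ X, ω g ≤ sh a b ω S T :=
  (sum_le_sum fun g hg => by rw [ch_one (h g hg).1, ch_one (h g hg).2]; simp).trans
    (sum_le_sum_of_subset (f := fun g => ω g * (ch S (a g) (b g) * ch T (a g) (b g)))
      (subset_univ X))

theorem cw_eq (X : Finset E) (h : ∀ g, ω g ≠ 0 → ¬ (a g ∈ S ↔ b g ∈ S) → g ∈ X) :
    cw a b ω S = ∑ g ∈ X, ω g * ch S (a g) (b g) := by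
  refine (sum_subset (subset_univ X) fun g _ hg => ?_).symm
  by_contra k
  exact hg (h g (left_ne_zero_of_mul k) fun q => right_ne_zero_of_mul k (ch_zero q))

theorem sh_mono (h1 : S ⊆ T) (h2 : T ⊆ R) (g : E) (k1 : ¬ (a g ∈ S ↔ b g ∈ S))
    (k2 : ¬ (a g ∈ T ↔ b g ∈ T)) (k3 : a g ∈ R ↔ b g ∈ R) :
    sh a b ω S R + ω g ≤ sh a b ω S T := by
  refine sum_pt g _ _ _ (fun g => Nat.mul_le_mul_left _ ?_) (by simp [ch_one k1, ch_one k2, ch_zero k3])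
  have := @h1 (a g)
  have := @h1 (b g)
  have := @h2 (a g)
  have := @h2 (b g)
  simp only [ch]
  by_cases a g ∈ S <;> by_cases b g ∈ S <;> by_cases a g ∈ T <;> by_cases b g ∈ T <;>
    by_cases a g ∈ R <;> by_cases b g ∈ R <;> simp_all

/-- Gluing along a cut with at most three edges. -/
theorem glue (h3 : cw a b ω T ≤ 3) (h1 : ∀ S, S ⊆ T → S.Nonempty → 2 ≤ cw a b ω S)
    (h2 : ∀ S, S ⊆ Tᶜ → S.Nonempty → 2 ≤ cw a b ω S) (S : Finset W) (p : S.Nonempty)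
    (q : Sᶜ.Nonempty) : 2 ≤ cw a b ω S := by
  by_cases c1 : S ⊆ T
  · exact h1 S c1 p
  by_cases c2 : S ⊆ Tᶜ
  · exact h2 S c2 p
  by_cases c3 : Sᶜ ⊆ T
  · rw [← cw_compl]; exact h1 _ c3 q
  by_cases c4 : Sᶜ ⊆ Tᶜ
  · rw [← cw_compl]; exact h2 _ c4 q
  obtain ⟨u1, i1, j1⟩ := not_subset.1 c1
  obtain ⟨u2, i2, j2⟩ := not_subset.1 c2
  obtain ⟨u3, i3, j3⟩ := not_subset.1 c3
  obtain ⟨u4, i4, j4⟩ := not_subset.1 c4
  simp only [mem_compl, not_not] at *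
  have a1 := h1 (S ∩ T) inter_subset_right ⟨u2, by simp [*]⟩
  have a2 := h2 (S ∪ T)ᶜ (compl_subset_compl.2 subset_union_right) ⟨u3, by simp [*]⟩
  have a3 := h2 (S \ T) (fun z hz => mem_compl.2 (mem_sdiff.1 hz).2) ⟨u1, by simp [*]⟩
  have a4 := h1 (T \ S) sdiff_subset ⟨u4, by simp [*]⟩
  rw [cw_compl] at a2
  have := cw_iu (a := a) (b := b) (ω := ω) S T
  have := cw_dd (a := a) (b := b) (ω := ω) S T
  have := cw_par (a := a) (b := b) (ω := ω) S T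
  omega

end

/-- Multigraphs with edge weights. -/
structure Gr (W E : Type) where
  a : E → W
  b : E → W
  wt : E → ℕ

namespace Gr

variable (L : Gr W E)

/-- The edge crosses the cut. -/
def Cr (S : Finset W) (g : E) : Prop := ¬ (L.a g ∈ S ↔ L.b g ∈ S)

/-- Weight of a cut. -/
def om (S : Finset W) : ℕ := cw L.a L.b L.wt S

/-- The edge joins the two vertices. -/
def Lk (g : E) (u v : W) : Prop := (L.a g = u ∧ L.b g = v) ∨ (L.a g = v ∧ L.b g = u)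

/-- The vertex is an end of the edge. -/
def Inc (g : E) (u : W) : Prop := L.a g = u ∨ L.b g = u

/-- All cuts have weight at least four. -/
def C4 : Prop := ∀ (S : Finset W) (u v : W), u ∈ S → v ∉ S → 4 ≤ L.om S

variable {L} {g g₁ g₂ g₃ g₄ : E} {u v i o z : W} {S T R : Finset W}

theorem Lk.symm (h : L.Lk g u v) : L.Lk g v u := Or.symm h

theorem Lk.cr (h : L.Lk g u v) (S : Finset W) : L.Cr S g ↔ ¬ (u ∈ S ↔ v ∈ S) := by
  rcases h with ⟨rfl, rfl⟩ | ⟨rfl, rfl⟩ <;> simp only [Cr, iff_comm]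

theorem Lk.cr1 (h : L.Lk g u v) (p : u ∈ S) (q : v ∉ S) : L.Cr S g := (h.cr S).2 (by simp [*])

theorem Lk.cr2 (h : L.Lk g u v) (p : u ∉ S) (q : v ∈ S) : L.Cr S g := h.symm.cr1 q p

theorem Lk.ch (h : L.Lk g u v) (S : Finset W) : ch S (L.a g) (L.b g) = ch S u v := by
  rcases h with ⟨rfl, rfl⟩ | ⟨rfl, rfl⟩
  · rfl
  · exact ch_comm ..

theorem Lk.inc (h : L.Lk g u v) (z : W) : L.Inc g z ↔ z = u ∨ z = v := by
  rcases h with ⟨rfl, rfl⟩ | ⟨rfl, rfl⟩ <;> simp only [Inc] <;> tauto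

theorem Lk.inc1 (h : L.Lk g u v) : L.Inc g u := (h.inc u).2 (Or.inl rfl)

theorem Lk.inc2 (h : L.Lk g u v) : L.Inc g v := (h.inc v).2 (Or.inr rfl)

theorem Inc.lk (h : L.Inc g u) : ∃ v, L.Lk g u v :=
  h.elim (fun p => ⟨_, Or.inl ⟨p, rfl⟩⟩) fun p => ⟨_, Or.inr ⟨rfl, p⟩⟩

theorem Lk.uniq (h : L.Lk g u v) (k : L.Lk g u z) : v = z := by
  rcases h with ⟨p, q⟩ | ⟨p, q⟩ <;> rcases k with ⟨r, s⟩ | ⟨r, s⟩ <;> simp_all

theorem Lk.ends (h : L.Lk g u v) (k : L.Lk g i o) : (u = i ∧ v = o) ∨ (u = o ∧ v = i) := by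
  rcases h with ⟨p, q⟩ | ⟨p, q⟩ <;> rcases k with ⟨r, s⟩ | ⟨r, s⟩ <;> simp_all

theorem Lk.ne (h : L.Lk g₁ u v) (k : L.Lk g₂ i o) (p : u ≠ i) (q : u ≠ o) : g₁ ≠ g₂ := by
  rintro rfl
  rcases h.ends k with r | r
  exacts [p r.1, q r.1]

theorem lk_ab (g : E) : L.Lk g (L.a g) (L.b g) := Or.inl ⟨rfl, rfl⟩

theorem Cr.lk (h : L.Cr S g) : ∃ u v, L.Lk g u v ∧ u ∈ S ∧ v ∉ S := by
  by_cases p : L.a g ∈ S
  · exact ⟨_, _, lk_ab g, p, fun q => h (by simp [*])⟩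
  · exact ⟨_, _, (lk_ab g).symm, by by_contra q; exact h (by simp [*]), p⟩

theorem cr_compl : L.Cr Sᶜ g ↔ L.Cr S g := by simp only [Cr, mem_compl, not_iff_not]

theorem om_compl (S : Finset W) : L.om Sᶜ = L.om S := cw_compl S

theorem c2 (n : g₁ ≠ g₂) (h1 : L.Cr S g₁) (h2 : L.Cr S g₂) : L.wt g₁ + L.wt g₂ ≤ L.om S := by
  have := le_cw (a := L.a) (b := L.b) (ω := L.wt) (S := S) {g₁, g₂} (by
    simp only [mem_insert, mem_singleton]; rintro _ (rfl | rfl) <;> assumption)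
  rwa [sum_pair n] at this

theorem c3 (n1 : g₁ ≠ g₂) (n2 : g₁ ≠ g₃) (n3 : g₂ ≠ g₃) (h1 : L.Cr S g₁) (h2 : L.Cr S g₂)
    (h3 : L.Cr S g₃) : L.wt g₁ + L.wt g₂ + L.wt g₃ ≤ L.om S := by
  have := le_cw (a := L.a) (b := L.b) (ω := L.wt) (S := S) {g₁, g₂, g₃} (by
    simp only [mem_insert, mem_singleton]; rintro _ (rfl | rfl | rfl) <;> assumption)
  rwa [sum_insert (by simp [*]), sum_pair n3, ← add_assoc] at this

theorem c4 (n1 : g₁ ≠ g₂) (n2 : g₁ ≠ g₃) (n3 : g₂ ≠ g₃) (n4 : g₁ ≠ g₄) (n5 : g₂ ≠ g₄)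
    (n6 : g₃ ≠ g₄) (h1 : L.Cr S g₁) (h2 : L.Cr S g₂) (h3 : L.Cr S g₃) (h4 : L.Cr S g₄) :
    L.wt g₁ + L.wt g₂ + L.wt g₃ + L.wt g₄ ≤ L.om S := by
  have := le_cw (a := L.a) (b := L.b) (ω := L.wt) (S := S) {g₁, g₂, g₃, g₄} (by
    simp only [mem_insert, mem_singleton]; rintro _ (rfl | rfl | rfl | rfl) <;> assumption)
  rwa [sum_insert (by simp [*]), sum_insert (by simp [*]), sum_pair n6, ← add_assoc,
    ← add_assoc] at this

/-- Three free edges and a forced edge do not fit into a tight cut. -/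
theorem no3f (t : L.om S = 4) (w1 : L.wt g₁ = 1) (w2 : L.wt g₂ = 1) (w3 : L.wt g₃ = 1)
    (w4 : L.wt g₄ = 2) (n1 : g₁ ≠ g₂) (n2 : g₁ ≠ g₃) (n3 : g₂ ≠ g₃) (h1 : L.Cr S g₁)
    (h2 : L.Cr S g₂) (h3 : L.Cr S g₃) (h4 : L.Cr S g₄) : False := by
  have := c4 n1 n2 n3 (by rintro rfl; omega) (by rintro rfl; omega) (by rintro rfl; omega)
    h1 h2 h3 h4
  omega

theorem C4.nest (h : L.C4) (s : L.om S = 4) (t : L.om T = 4) (l : L.Lk g u v) (w : L.wt g ≠ 0)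
    (p1 : u ∈ S) (p2 : u ∈ T) (q1 : v ∉ S) (q2 : v ∉ T) : S ⊆ T ∨ T ⊆ S := by
  by_contra k
  obtain ⟨k1, k2⟩ := not_or.1 k
  obtain ⟨x, x1, x2⟩ := not_subset.1 k1
  obtain ⟨y, y1, y2⟩ := not_subset.1 k2
  have a1 := h (S \ T) x v (by simp [*]) (by simp [*])
  have a2 := h (T \ S) y v (by simp [*]) (by simp [*])
  have := cw_dd' (a := L.a) (b := L.b) (ω := L.wt) (S := S) (T := T) g (by
    simp only [l.ch]; simp [ch, *])
  simp only [om] at *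
  omega

theorem C4.nodiag (h : L.C4) (s : L.om S = 4) (t : L.om T = 4) (i1 : i ∈ S) (i2 : i ∈ T)
    (o1 : o ∉ S) (o2 : o ∉ T) (l : L.Lk g u v) (w : L.wt g ≠ 0)
    (p1 : u ∈ S) (p2 : u ∉ T) (q1 : v ∉ S) (q2 : v ∈ T) : False := by
  have a1 := h (S ∩ T) i o (by simp [*]) (by simp [*])
  have a2 := h (S ∪ T) i o (by simp [*]) (by simp [*])
  have := cw_iu' (a := L.a) (b := L.b) (ω := L.wt) (S := S) (T := T) g (by
    simp only [l.ch]; simp [ch, *])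
  simp only [om] at *
  omega

theorem C4.t_inter (h : L.C4) (s : L.om S = 4) (t : L.om T = 4) (i1 : i ∈ S) (i2 : i ∈ T)
    (o1 : o ∉ S) (o2 : o ∉ T) : L.om (S ∩ T) = 4 := by
  have a1 := h (S ∩ T) i o (by simp [*]) (by simp [*])
  have a2 := h (S ∪ T) i o (by simp [*]) (by simp [*])
  have := cw_iu (a := L.a) (b := L.b) (ω := L.wt) S T
  simp only [om] at *
  omega

theorem C4.t_sdiff (h : L.C4) (s : L.om S = 4) (t : L.om T = 4) (i1 : i ∈ S) (i2 : i ∉ T)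
    (o1 : o ∉ S) (o2 : o ∈ T) : L.om (S \ T) = 4 := by
  have a1 := h (S \ T) i o (by simp [*]) (by simp [*])
  have a2 := h (T \ S) o i (by simp [*]) (by simp [*])
  have := cw_dd (a := L.a) (b := L.b) (ω := L.wt) S T
  simp only [om] at *
  omega

theorem C4.sh_le (h : L.C4) (s : L.om S = 4) (t : L.om T = 4) (c : S ⊆ T) (n : S ≠ T)
    (o1 : o ∉ T) : sh L.a L.b L.wt S T ≤ 2 := by
  obtain ⟨z, z1, z2⟩ := not_subset.1 fun k => n (Subset.antisymm c k)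
  have a1 := h (T \ S) z o (by simp [*]) (by simp [*])
  have := cw_sh (a := L.a) (b := L.b) (ω := L.wt) c
  simp only [om] at *
  omega

theorem s2 (n : g₁ ≠ g₂) (h1 : L.Cr S g₁) (k1 : L.Cr T g₁) (h2 : L.Cr S g₂) (k2 : L.Cr T g₂) :
    L.wt g₁ + L.wt g₂ ≤ sh L.a L.b L.wt S T := by
  have := le_sh (a := L.a) (b := L.b) (ω := L.wt) (S := S) (T := T) {g₁, g₂} (by
    simp only [mem_insert, mem_singleton]; rintro _ (rfl | rfl) <;> exact ⟨‹_›, ‹_›⟩)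
  rwa [sum_pair n] at this

/-- Two nested tight cuts do not share three edges. -/
theorem C4.sh3 (h : L.C4) (s : L.om S = 4) (t : L.om T = 4) (c : S ⊆ T) (n : S ≠ T)
    (w1 : L.wt g₁ ≠ 0) (w2 : L.wt g₂ ≠ 0) (w3 : L.wt g₃ ≠ 0) (n1 : g₁ ≠ g₂) (n2 : g₁ ≠ g₃)
    (n3 : g₂ ≠ g₃) (h1 : L.Cr S g₁) (k1 : L.Cr T g₁) (h2 : L.Cr S g₂) (k2 : L.Cr T g₂)
    (h3 : L.Cr S g₃) (k3 : L.Cr T g₃) : False := by
  obtain ⟨-, o, -, -, o1⟩ := k1.lk
  have a1 := h.sh_le s t c n o1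
  have := le_sh (a := L.a) (b := L.b) (ω := L.wt) (S := S) (T := T) {g₁, g₂, g₃} (by
    simp only [mem_insert, mem_singleton]; rintro _ (rfl | rfl | rfl) <;> exact ⟨‹_›, ‹_›⟩)
  rw [sum_insert (by simp [*]), sum_pair n3] at this
  omega

theorem sh_two (s : L.om S = 4) (t : L.om T = 4) (c : S ⊆ T) (d : L.om (T \ S) = 4) :
    sh L.a L.b L.wt S T = 2 := by
  have := cw_sh (a := L.a) (b := L.b) (ω := L.wt) c
  simp only [om] at *
  omega

end Gr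

end Pool.Agent.P.MP_92d394_lc.H
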