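import Pool.Agent.P.MP_92d394_lc.H.G0

/-! Valid weighted graphs, solutions and blocked edges. -/

set_option linter.unusedSectionVars false

namespace Pool.Agent.P.MP_92d394_lc.H

open Finset

variable {W E : Type} [Fintype W] [DecidableEq W] [Fintype E] [DecidableEq E]

theorem sum_chg (X : Finset E) (F G : E → ℕ) (h : ∀ g, g ∉ X → F g = G g) :
    ∑ g, F g + ∑ g ∈ X, G g = ∑ g, G g + ∑ g ∈ X, F g := by
  have e : ∑ g ∈ Xᶜ, F g = ∑ g ∈ Xᶜ, G g := sum_congr rfl fun g hg => h g (mem_compl.1 hg)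
  rw [← sum_add_sum_compl X F, ← sum_add_sum_compl X G, e]
  omega

theorem sum_one {F : E → ℕ} {X : Finset E} (h : ∑ g ∈ X, F g = 1) :
    ∃ g ∈ X, F g = 1 ∧ ∀ k ∈ X, k ≠ g → F k = 0 := by
  obtain ⟨g, hg, k⟩ := exists_ne_zero_of_sum_ne_zero (h ▸ one_ne_zero : ∑ g ∈ X, F g ≠ 0)
  rw [← add_sum_erase _ _ hg] at h
  refine ⟨g, hg, by omega, fun z hz n => ?_⟩
  have := single_le_sum (f := F) (fun _ _ => Nat.zero_le _) (mem_erase.2 ⟨n, hz⟩)
  omega

namespace Gr

variable (L : Gr W E)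

/-- Number of ends of an edge at a vertex. -/
def en (g : E) (u : W) : ℕ := (if L.a g = u then 1 else 0) + (if L.b g = u then 1 else 0)

/-- Degree in the edges of a given weight. -/
def dg (n : ℕ) (u : W) : ℕ := ∑ g, if L.wt g = n then L.en g u else 0

/-- Valid graphs. -/
structure Valid : Prop where
  w2 : ∀ g, L.wt g ≤ 2
  deg : ∀ u, L.dg 1 u = 0 ∨ (L.dg 1 u = 2 ∧ L.dg 2 u = 1)
  c4 : L.C4

/-- The three edges at an ordinary vertex. -/
structure Ord (u : W) (e k f : E) (p q r : W) : Prop where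
  ne : e ≠ k
  we : L.wt e = 1
  wk : L.wt k = 1
  wf : L.wt f = 2
  le : L.Lk e u p
  lk : L.Lk k u q
  lf : L.Lk f u r
  np : p ≠ u
  nq : q ≠ u
  nr : r ≠ u
  all : ∀ g, L.wt g ≠ 0 → L.Inc g u → g = e ∨ g = k ∨ g = f

/-- The graph of kept edges. -/
def kp (N : Finset E) : Gr W E := ⟨L.a, L.b, fun g => if L.wt g ≠ 0 ∧ g ∉ N then 1 else 0⟩

/-- The kept edges form a two edge connected graph. -/
def Tw (N : Finset E) : Prop := ∀ (S : Finset W) (u v : W), u ∈ S → v ∉ S → 2 ≤ (L.kp N).om S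

/-- Ordinary vertices. -/
def IsO (u : W) : Prop := ∃ e, L.wt e = 1 ∧ L.Inc e u

/-- Covered vertices. -/
def Cov (N : Finset E) (u : W) : Prop := ∃ g ∈ N, L.Inc g u

/-- Solutions. -/
structure Sol (N : Finset E) : Prop where
  fr : ∀ g ∈ N, L.wt g = 1
  tw : L.Tw N
  nd : ∀ g u v, L.wt g = 2 → L.Lk g u v → L.IsO u → L.IsO v → L.Cov N u ∨ L.Cov N v

/-- Tight cuts separating two vertices. -/
def Ct (v x : W) (S : Finset W) : Prop := L.om S = 4 ∧ v ∈ S ∧ x ∉ S

/-- Blocked edges. -/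
def Blk (v x : W) (k : E) : Prop :=
  (∃ S g, L.Ct v x S ∧ L.Cr S k ∧ L.wt g = 2 ∧ L.Cr S g) ∨
    ∃ S T, S ≠ T ∧ L.Ct v x S ∧ L.Ct v x T ∧ L.Cr S k ∧ L.Cr T k

/-- Admissible demands. -/
def Dok (v x q : W) : Prop := q = v ∨ q = x ∨ ∃ k, L.wt k = 1 ∧ L.Inc k q ∧ ¬ L.Blk v x k

/-- A prescribed edge and a vertex to be covered. -/
def Dem : Prop := ∀ e v x q, L.wt e = 1 → L.Lk e v x → L.Dok v x q →
  ∃ N, L.Sol N ∧ e ∈ N ∧ L.Cov N q

/-- A prescribed edge and the partner of its end uncovered. -/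
def Ant : Prop := ∀ e v x f s, L.wt e = 1 → L.Lk e v x → L.wt f = 2 → L.Lk f v s → L.IsO s →
  s ≠ x → ∃ N, L.Sol N ∧ e ∈ N ∧ ¬ L.Cov N s

/-- Two prescribed edges at partners. -/
def Drv : Prop := ∀ e v x f s e', L.wt e = 1 → L.Lk e v x → L.wt f = 2 → L.Lk f v s →
  L.wt e' = 1 → L.Inc e' s → ¬ L.Blk v x e' → ∃ N, L.Sol N ∧ e ∈ N ∧ e' ∈ N

/-- Number of free edges. -/
def fc : ℕ := ∑ g, if L.wt g = 1 then 1 else 0

/-- Only trivial tight cuts separate the two vertices. -/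
structure Tr (v x s t : W) : Prop where
  t4 : ∀ S, L.Ct v x S → (∀ u ∈ S, u = v ∨ u = s) ∨ ∀ u, u ∉ S → u = x ∨ u = t
  t3 : ∀ S g, L.Ct v x S → L.wt g = 2 → L.Cr S g → (∀ u ∈ S, u = v) ∨ ∀ u, u ∉ S → u = x

variable {L} {e k f g g₁ g₂ : E} {u v x p q r s t : W} {S : Finset W} {N : Finset E}

theorem en_ne : L.en g u ≠ 0 ↔ L.Inc g u := by
  simp only [en, Inc]
  by_cases L.a g = u <;> by_cases L.b g = u <;> simp [*]

theorem Lk.en (h : L.Lk g u v) (z : W) :
    L.en g z = (if u = z then 1 else 0) + (if v = z then 1 else 0) := by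
  rcases h with ⟨rfl, rfl⟩ | ⟨rfl, rfl⟩
  · rfl
  · exact add_comm _ _

theorem isO_iff : L.IsO u ↔ L.dg 1 u ≠ 0 := by
  simp only [IsO, dg, ne_eq, sum_eq_zero_iff, mem_univ, true_imp_iff, not_forall, ← en_ne]
  refine exists_congr fun g => ?_
  by_cases L.wt g = 1 <;> simp [*]

theorem lk_of_en (h : L.en g u = 1) : ∃ v, L.Lk g u v ∧ v ≠ u := by
  obtain ⟨v, l⟩ := (en_ne.1 (h ▸ one_ne_zero : L.en g u ≠ 0)).lk
  refine ⟨v, l, fun z => ?_⟩
  rw [l.en, z] at h
  simp at h

theorem cr_single (h : L.Cr {u} g) : L.Inc g u := by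
  obtain ⟨p, q, l, i, -⟩ := h.lk
  exact mem_singleton.1 i ▸ l.inc1

theorem Valid.ord (h : L.Valid) (w : L.wt e = 1) (l : L.Lk e u p) :
    ∃ k f q r, L.Ord u e k f p q r := by
  obtain ⟨d1, d2⟩ := (h.deg u).resolve_left (isO_iff.1 ⟨e, w, l.inc1⟩)
  obtain ⟨f, -, f1, f2⟩ := sum_one d2
  have wf : L.wt f = 2 := by by_contra z; simp [z] at f1
  rw [if_pos wf] at f1
  obtain ⟨r, lf, nr⟩ := lk_of_en f1
  have a2 : ∀ g, L.wt g = 2 → L.Inc g u → g = f := fun g z i => by
    by_contra n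
    have := f2 g (mem_univ _) n
    rw [if_pos z] at this
    exact en_ne.2 i this
  rw [dg, ← add_sum_erase _ _ (mem_univ e), if_pos w] at d1
  have np : p ≠ u := fun z => by
    have e2 : L.en e u = 2 := by rw [l.en, z]; simp
    have c := h.c4 {u} u r (mem_singleton_self u) (by simpa using nr)
    rw [om, cw_eq {f} fun g z1 z2 => ?_, sum_singleton, wf] at c
    · simp only [ch] at c; split_ifs at c <;> omega
    · have i := cr_single (L := L) z2
      have := h.w2 g
      by_cases w1 : L.wt g = 1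
      · by_cases n : g = e
        · subst n
          exact absurd ((l.cr _).1 z2) (by simp [z])
        · have := single_le_sum (f := fun g => if L.wt g = 1 then L.en g u else 0)
            (fun _ _ => Nat.zero_le _) (mem_erase.2 ⟨n, mem_univ g⟩)
          simp only [if_pos w1] at this
          have := en_ne.2 i
          omega
      · exact mem_singleton.2 (a2 g (by omega) i)
  have e1 : L.en e u = 1 := by rw [l.en]; simp [np]
  obtain ⟨k, k0, k1, k2⟩ := sum_one (show ∑ g ∈ univ.erase e,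
    (if L.wt g = 1 then L.en g u else 0) = 1 by omega)
  have wk : L.wt k = 1 := by by_contra z; simp [z] at k1
  rw [if_pos wk] at k1
  obtain ⟨q, lk, nq⟩ := lk_of_en k1
  refine ⟨k, f, q, r, (mem_erase.1 k0).1.symm, w, wk, wf, l, lk, lf, np, nq, nr, fun g z i => ?_⟩
  have := h.w2 g
  by_cases w1 : L.wt g = 1
  · by_contra n
    push Not at n
    have := k2 g (mem_erase.2 ⟨n.1, mem_univ g⟩) n.2.1
    rw [if_pos w1] at this
    exact en_ne.2 i this
  · exact Or.inr (Or.inr (a2 g (by omega) i))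

theorem Valid.ord' (h : L.Valid) (o : L.IsO u) : ∃ e k f p q r, L.Ord u e k f p q r := by
  obtain ⟨e, w, i⟩ := o
  obtain ⟨p, l⟩ := i.lk
  obtain ⟨k, f, q, r, o⟩ := h.ord w l
  exact ⟨e, k, f, p, q, r, o⟩

theorem Ord.symm (h : L.Ord u e k f p q r) : L.Ord u k e f q p r :=
  ⟨h.ne.symm, h.wk, h.we, h.wf, h.lk, h.le, h.lf, h.nq, h.np, h.nr, fun g w i => by
    have := h.all g w i; tauto⟩

theorem Ord.nef (h : L.Ord u e k f p q r) : e ≠ f := fun z => by
  have := h.we; have := h.wf; rw [z] at *; omega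

theorem Ord.nkf (h : L.Ord u e k f p q r) : k ≠ f := h.symm.nef

theorem Ord.isO (h : L.Ord u e k f p q r) : L.IsO u := ⟨e, h.we, h.le.inc1⟩

theorem Ord.free (h : L.Ord u e k f p q r) (w : L.wt g = 1) (i : L.Inc g u) : g = e ∨ g = k := by
  rcases h.all g (by omega) i with z | z | z
  exacts [Or.inl z, Or.inr z, by have := h.wf; rw [← z] at this; omega]

theorem Ord.forced (h : L.Ord u e k f p q r) (w : L.wt g = 2) (i : L.Inc g u) : g = f := by
  rcases h.all g (by omega) i with z | z | z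
  exacts [by have := h.we; rw [← z] at this; omega, by have := h.wk; rw [← z] at this; omega, z]

theorem Ord.part (h : L.Ord u e k f p q r) (w : L.wt g = 2) (l : L.Lk g u v) : v = r :=
  l.uniq (h.forced w l.inc1 ▸ h.lf)

theorem Ord.nbr (h : L.Ord u e k f p q r) (w : L.wt g = 1) (l : L.Lk g u v) :
    (g = e ∧ v = p) ∨ (g = k ∧ v = q) :=
  (h.free w l.inc1).imp (fun z => ⟨z, l.uniq (z ▸ h.le)⟩) fun z => ⟨z, l.uniq (z ▸ h.lk)⟩

theorem ins_other (i : ¬ L.Inc g u) (S : Finset W) :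
    ch (insert u S) (L.a g) (L.b g) = ch S (L.a g) (L.b g) := by
  simp only [Inc, not_or] at i
  simp [ch, i]

theorem Ord.ins (h : L.Ord u e k f p q r) (n : u ∉ S) :
    L.om (insert u S) + 2 * (if p ∈ S then 1 else 0) + 2 * (if q ∈ S then 1 else 0) +
      4 * (if r ∈ S then 1 else 0) = L.om S + 4 := by
  have := sum_chg {e, k, f} (fun g => L.wt g * ch (insert u S) (L.a g) (L.b g))
    (fun g => L.wt g * ch S (L.a g) (L.b g)) fun g hg => by
      by_cases w : L.wt g = 0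
      · simp [w]
      · rw [ins_other fun i => hg (by simpa using h.all g w i)]
  simp only [sum_insert (show e ∉ ({k, f} : Finset E) by simp [h.ne, h.nef]), sum_pair h.nkf,
    h.le.ch, h.lk.ch, h.lf.ch, h.we, h.wk, h.wf] at this
  simp only [ch, mem_insert, n, h.np, h.nq, h.nr] at this
  simp only [om, cw, ch, mem_insert]
  by_cases p ∈ S <;> by_cases q ∈ S <;> by_cases r ∈ S <;> simp [*] at this ⊢ <;> omega

theorem Ord.ers (h : L.Ord u e k f p q r) (n : u ∈ S) :
    L.om S + 2 * (if p ∈ S then 1 else 0) + 2 * (if q ∈ S then 1 else 0) +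
      4 * (if r ∈ S then 1 else 0) = L.om (S.erase u) + 4 := by
  have := h.ins (notMem_erase u S)
  simpa only [insert_erase n, mem_erase, ne_eq, h.np, h.nq, h.nr, not_false_eq_true,
    true_and] using this

/-- Removing a vertex with two forced edges. -/
theorem ers2 (n : g₁ ≠ g₂) (w1 : L.wt g₁ = 2) (w2 : L.wt g₂ = 2) (l1 : L.Lk g₁ u p)
    (l2 : L.Lk g₂ u q) (al : ∀ g, L.wt g ≠ 0 → L.Inc g u → g = g₁ ∨ g = g₂) (i : u ∈ S)
    (j1 : p ∈ S) (np : p ≠ u) (j2 : q ∉ S) : L.om (S.erase u) = L.om S := by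
  have := sum_chg {g₁, g₂} (fun g => L.wt g * ch (insert u (S.erase u)) (L.a g) (L.b g))
    (fun g => L.wt g * ch (S.erase u) (L.a g) (L.b g)) fun g hg => by
      by_cases w : L.wt g = 0
      · simp [w]
      · rw [ins_other fun i => hg (by simpa using al g w i)]
  simp only [sum_pair n, l1.ch, l2.ch, w1, w2, insert_erase i] at this
  simp only [om, cw]
  simp [ch, *] at this ⊢
  omega

theorem Ord.single (h : L.Ord u e k f p q r) : L.om {u} = 4 := by
  have := h.ins (notMem_empty u)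
  simpa [om, cw_empty] using this

theorem Valid.even (h : L.Valid) (S : Finset W) : L.om S % 2 = 0 := by
  induction S using Finset.induction_on with
  | empty => simp [om, cw_empty]
  | insert u S n ih =>
    have e1 := cw_sh (a := L.a) (b := L.b) (ω := L.wt) (subset_insert u S)
    rw [insert_sdiff_of_notMem _ n, sdiff_self, bot_eq_empty] at e1
    have e2 : L.om {u} % 2 = 0 := by
      by_cases o : L.IsO u
      · obtain ⟨e, k, f, p, q, r, o⟩ := h.ord' o
        rw [o.single]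
      · refine Nat.even_iff.1 (even_sum _ fun g _ => ?_)
        by_cases c : L.Cr {u} g
        · have := h.w2 g
          have : L.wt g ≠ 1 := fun w => o ⟨g, w, cr_single c⟩
          exact Even.mul_right (Nat.even_iff.2 (by omega)) _
        · rw [ch_zero (not_not.1 c)]; simp
    simp only [om, insert_empty_eq] at *
    omega

theorem two_kp (n : g₁ ≠ g₂) (w1 : L.wt g₁ ≠ 0) (w2 : L.wt g₂ ≠ 0) (n1 : g₁ ∉ N) (n2 : g₂ ∉ N)
    (h1 : L.Cr S g₁) (h2 : L.Cr S g₂) : 2 ≤ (L.kp N).om S := by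
  have := c2 (L := L.kp N) n h1 h2
  simpa [kp, *] using this

theorem kp_le (X : Finset E) (h : ∀ g, L.wt g ≠ 0 → g ∉ N → L.Cr S g → g ∈ X) :
    (L.kp N).om S ≤ X.card := by
  rw [om, cw_eq X fun g z1 z2 => ?_, card_eq_sum_ones]
  · refine sum_le_sum fun g _ => ?_
    simp only [kp, ch]
    split_ifs <;> simp
  · simp only [kp, ne_eq, ite_eq_right_iff, one_ne_zero, imp_false, not_not] at z1
    exact h g z1.1 z1.2 z2

theorem Ord.mat (h : L.Ord u e k f p q r) (t : L.Tw N) (i : e ∈ N) : k ∉ N := fun j => by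
  have a1 := t {u} u r (mem_singleton_self u) (by simpa using h.nr)
  have := kp_le (L := L) (N := N) (S := {u}) {f} fun g w n c => by
    rcases h.all g w (cr_single c) with z | z | z
    exacts [absurd (z ▸ i) n, absurd (z ▸ j) n, mem_singleton.2 z]
  simp at this
  omega

theorem Ct.compl (h : L.Ct v x S) : L.Ct x v Sᶜ :=
  ⟨(om_compl S).trans h.1, mem_compl.2 h.2.2, by simpa using h.2.1⟩

theorem Blk.symm (h : L.Blk v x k) : L.Blk x v k := by
  rcases h with ⟨S, g, a, b, c, d⟩ | ⟨S, T, n, a, b, c, d⟩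
  · exact Or.inl ⟨Sᶜ, g, a.compl, cr_compl.2 b, c, cr_compl.2 d⟩
  · exact Or.inr ⟨Sᶜ, Tᶜ, fun z => n (compl_injective z), a.compl, b.compl, cr_compl.2 c,
      cr_compl.2 d⟩

theorem Dok.symm (h : L.Dok v x q) : L.Dok x v q := by
  rcases h with h | h | ⟨k, a, b, c⟩
  exacts [Or.inr (Or.inl h), Or.inl h, Or.inr (Or.inr ⟨k, a, b, fun z => c z.symm⟩)]

theorem Tr.symm (h : L.Tr v x s t) : L.Tr x v t s :=
  ⟨fun S c => (h.t4 _ c.compl).symm.imp (fun z u i => z u (by simpa using i))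
    fun z u i => z u (mem_compl.2 i), fun S g c w i =>
    (h.t3 _ g c.compl w (cr_compl.2 i)).symm.imp (fun z u i => z u (by simpa using i))
    fun z u i => z u (mem_compl.2 i)⟩

theorem Ord.blk (h : L.Ord v e k f x q r) (w : L.wt g = 1) (i : L.Inc g v) : L.Blk v x g := by
  refine Or.inl ⟨{v}, f, ⟨h.single, by simp, by simpa using h.np⟩, ?_, h.wf,
    h.lf.cr1 (by simp) (by simpa using h.nr)⟩
  rcases h.free w i with rfl | rfl
  exacts [h.le.cr1 (by simp) (by simpa using h.np), h.lk.cr1 (by simp) (by simpa using h.nq)]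

/-- Partners joined by a free edge form the whole graph. -/
theorem Ord.pa {k' f' : E} {q' r' : W} (c : L.C4) (h : L.Ord u e k f p q p)
    (h' : L.Ord p e k' f' u q' r') (z : W) : z = u ∨ z = p := by
  by_contra n
  have a1 := c (insert p {u}) u z (by simp) (by simpa [or_comm] using n)
  have a2 := h'.ins (S := {u}) (by simpa using h.np)
  rw [h.single, ← h'.part h.wf h.lf.symm] at a2
  simp at a2
  omega

/-- The cut of a pair of ordinary partners. -/
theorem Ord.pair {e' k' f' : E} {p' q' r' z : W} (c : L.C4) (h : L.Ord u e k f p q s)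
    (h' : L.Ord s e' k' f' p' q' r') (n1 : z ≠ u) (n2 : z ≠ s) :
    L.om {s, u} = 4 ∧ p' ≠ u ∧ q' ≠ u := by
  have a1 := c (insert s {u}) u z (by simp) (by simp [*])
  have a2 := h'.ins (S := {u}) (by simpa using h.nr)
  rw [h.single, ← h'.part h.wf h.lf.symm] at a2
  simp only [mem_singleton, if_true] at a2
  split_ifs at a2 <;> first | omega | exact ⟨by omega, ‹_›, ‹_›⟩

end Gr

/-- The induction hypothesis. -/
def IH (n c : ℕ) : Prop :=
  ∀ (W E : Type) [Fintype W] [DecidableEq W] [Fintype E] [DecidableEq E] (L : Gr W E), L.Valid →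
    (L.fc < n ∨ (L.fc ≤ n ∧ Fintype.card W < c)) → L.Dem ∧ L.Ant ∧ L.Drv

end Pool.Agent.P.MP_92d394_lc.H
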