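import Pool.Agent.P.MP_92d394_lc.H.G1

/-! The structure of a killed vertex and the main uncrossing argument. -/

set_option linter.unusedSectionVars false

namespace Pool.Agent.P.MP_92d394_lc.H

open Finset

variable {W E : Type} [Fintype W] [DecidableEq W] [Fintype E] [DecidableEq E]

namespace Gr

variable {L : Gr W E} {e k f g k₁ k₂ m m' : E} {u v x p q r s t w y w' y' z z₁ z₂ c₁ c₂ : W}
  {S Ru Rl Ru' Rl' : Finset W} {N : Finset E}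

/-- An edge blocked towards the first end. -/
def DB (L : Gr W E) (v x q z : W) : Prop :=
  ∃ U, L.Ct v x U ∧ q ∉ U ∧ z ∈ U ∧
    ((∃ g, L.wt g = 2 ∧ L.Cr U g) ∨ ∃ U₀, L.Ct v x U₀ ∧ U₀ ⊆ U ∧ U₀ ≠ U ∧ z ∈ U₀)

theorem C4.chain (h : L.C4) (w : L.wt e = 1) (l : L.Lk e v x) {S T : Finset W} (s : L.Ct v x S)
    (t : L.Ct v x T) : S ⊆ T ∨ T ⊆ S :=
  h.nest s.1 t.1 l (by omega) s.2.1 t.2.1 s.2.2 t.2.2

theorem Blk.db (h : L.C4) (w : L.wt e = 1) (l : L.Lk e v x) (lk : L.Lk k q z)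
    (b : L.Blk v x k) : L.DB v x q z ∨ L.DB x v q z := by
  have two : ∀ S T, S ≠ T → S ⊆ T → L.Ct v x S → L.Ct v x T → L.Cr S k → L.Cr T k →
      L.DB v x q z ∨ L.DB x v q z := fun S T n c s t i j => by
    rw [lk.cr] at i j
    have := @c q
    have := @c z
    by_cases a : q ∈ T
    · exact Or.inr ⟨Sᶜ, s.compl, by simp; tauto, by simp; tauto, Or.inr ⟨Tᶜ, t.compl,
        compl_subset_compl.2 c, fun z => n (compl_injective z).symm, by simp; tauto⟩⟩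
    · exact Or.inl ⟨T, t, a, by tauto, Or.inr ⟨S, s, c, n, by tauto⟩⟩
  rcases b with ⟨S, g, s, i, wg, j⟩ | ⟨S, T, n, s, t, i, j⟩
  · rw [lk.cr] at i
    by_cases a : q ∈ S
    · exact Or.inr ⟨Sᶜ, s.compl, by simpa, by simp; tauto, Or.inl ⟨g, wg, cr_compl.2 j⟩⟩
    · exact Or.inl ⟨S, s, a, by tauto, Or.inl ⟨g, wg, j⟩⟩
  · rcases h.chain w l s t with c | c
    exacts [two S T n c s t i j, two T S n.symm c t s j i]

theorem db_both (h : L.C4) (w : L.wt e = 1) (l : L.Lk e v x) (o : L.Ord q k₁ k₂ f z₁ z₂ r)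
    (n1 : q ≠ v) (n2 : q ≠ x) (d1 : L.DB v x q z₁) (d2 : L.DB v x q z₂) : False := by
  have key : ∀ {k₁ k₂ z₁ z₂}, L.Ord q k₁ k₂ f z₁ z₂ r → ∀ U, L.Ct v x U → q ∉ U → z₂ ∈ U →
      ((∃ g, L.wt g = 2 ∧ L.Cr U g) ∨ ∃ U₀, L.Ct v x U₀ ∧ U₀ ⊆ U ∧ U₀ ≠ U ∧ z₂ ∈ U₀) →
      z₁ ∈ U → ∃ U₀, L.Ct v x U₀ ∧ q ∉ U₀ ∧ z₂ ∈ U₀ ∧ z₁ ∉ U₀ := fun o U u a b c d => by
    have e1 := (o.le.ne l n1 n2).symm
    have e2 := (o.lk.ne l n1 n2).symm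
    rcases c with ⟨g, wg, j⟩ | ⟨U₀, u₀, c, n, i⟩
    · exact (no3f u.1 w o.we o.wk wg e1 e2 o.ne (l.cr1 u.2.1 u.2.2) (o.le.cr2 a d)
        (o.lk.cr2 a b) j).elim
    · exact ⟨U₀, u₀, fun j => a (c j), i, fun j => h.sh3 u₀.1 u.1 c n (by omega)
        (o.we ▸ one_ne_zero) (o.wk ▸ one_ne_zero) e1 e2 o.ne (l.cr1 u₀.2.1 u₀.2.2)
        (l.cr1 u.2.1 u.2.2) (o.le.cr2 (fun j => a (c j)) j) (o.le.cr2 a d)
        (o.lk.cr2 (fun j => a (c j)) i) (o.lk.cr2 a b)⟩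
  have fin : ∀ {k₁ k₂ z₁ z₂}, L.Ord q k₁ k₂ f z₁ z₂ r → L.DB v x q z₁ → ∀ U₀, L.Ct v x U₀ →
      z₂ ∈ U₀ → z₁ ∉ U₀ → False := fun o ⟨U, u, a, b, c⟩ U₀ u₀ i j => by
    have i' := ((h.chain w l u u₀).resolve_left fun s => j (s b)) i
    obtain ⟨U₁, u₁, -, i₁, j₁⟩ := key o.symm U u a b c i'
    exact (h.chain w l u₀ u₁).elim (fun s => j₁ (s i)) fun s => j (s i₁)
  obtain ⟨U, u, a, b, c⟩ := id d1
  obtain ⟨U', u', a', b', c'⟩ := id d2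
  rcases h.chain w l u u' with s | s
  · obtain ⟨U₀, u₀, -, i, j⟩ := key o U' u' a' b' c' (s b)
    exact fin o d1 U₀ u₀ i j
  · obtain ⟨U₀, u₀, -, i, j⟩ := key o.symm U u a b c (s b')
    exact fin o.symm d2 U₀ u₀ i j

theorem kill (h : L.C4) (w : L.wt e = 1) (l : L.Lk e v x) (o : L.Ord q k₁ k₂ f z₁ z₂ r)
    (d : ¬ L.Dok v x q) : q ≠ v ∧ q ≠ x ∧
    ((L.DB v x q z₁ ∧ L.DB x v q z₂) ∨ (L.DB v x q z₂ ∧ L.DB x v q z₁)) := by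
  simp only [Dok, not_or, not_exists, not_and, not_not] at d
  obtain ⟨n1, n2, d⟩ := d
  have a1 := (d k₁ o.we o.le.inc1).db h w l o.le
  have a2 := (d k₂ o.wk o.lk.inc1).db h w l o.lk
  have := db_both h w l o n1 n2
  have := db_both h w l.symm o n2 n1
  tauto

theorem Ord.part_not (h : L.C4) (o : L.Ord q k₁ k₂ f z₁ z₂ r) (n : q ≠ x) (u : L.Ct v x S)
    (a : q ∉ S) (b : z₁ ∈ S) : r ∉ S := fun c => by
  have a1 := o.ins a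
  have a2 := h (insert q S) q x (by simp) (by simp [u.2.2, n.symm])
  have := u.1
  simp only [b, c, if_true] at a1
  omega

theorem dok_part (h : L.C4) (w : L.wt e = 1) (l : L.Lk e v x) (o : L.Ord q k₁ k₂ f z₁ z₂ v) :
    L.Dok v x q := by
  by_contra d
  obtain ⟨-, n2, ⟨⟨U, u, a, b, -⟩, -⟩ | ⟨⟨U, u, a, b, -⟩, -⟩⟩ := kill h w l o d
  exacts [o.part_not h n2 u a b u.2.1, o.symm.part_not h n2 u a b u.2.1]

theorem dok_path {d f₁ f₂ : E} {d₁ : W} (h : L.C4) (ov : L.Ord v e d f₁ x d₁ t)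
    (o : L.Ord q k₁ k₂ f z₁ z₂ r) (n : f₁ ≠ f₂) (w2 : L.wt f₂ = 2) (l2 : L.Lk f₂ t r)
    (al : ∀ g, L.wt g ≠ 0 → L.Inc g t → g = f₁ ∨ g = f₂) (nq : q ≠ d₁) : L.Dok v x q := by
  by_contra dk
  have fr : ∀ g z, L.wt g = 1 → L.Inc g z → z ≠ t := fun g z w i c => by
    have := ov.wf
    rcases al g (by omega) (c ▸ i) with rfl | rfl <;> omega
  have key : ∀ {k₁ k₂ z₁ z₂}, L.Ord q k₁ k₂ f z₁ z₂ r → q ≠ v → q ≠ x → L.DB v x q z₁ → False :=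
    fun {k₁ k₂ z₁ z₂} o n1 n2 ⟨U, u, a, b, _⟩ => by
    have c := o.part_not h n2 u a b
    have e1 : L.om (U.erase t) = 4 := by
      by_cases i : t ∈ U
      · rw [ers2 n ov.wf w2 ov.lf.symm l2 al i u.2.1 ov.nr.symm c, u.1]
      · rw [erase_eq_of_notMem i, u.1]
    have v1 : v ∈ U.erase t := mem_erase.2 ⟨ov.nr.symm, u.2.1⟩
    have x1 : x ∉ U.erase t := fun i => u.2.2 (mem_erase.1 i).2
    by_cases i : d₁ ∈ U.erase t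
    · have a1 := ov.ers v1
      have a2 := h ((U.erase t).erase v) d₁ x (mem_erase.2 ⟨ov.nq, i⟩) (by simp [u.2.2])
      simp only [x1, i, notMem_erase, if_true, if_false] at a1
      omega
    · exact no3f e1 ov.we ov.wk o.we ov.wf ov.ne (o.le.ne ov.le n1 n2).symm
        (o.le.ne ov.lk n1 nq).symm (ov.le.cr1 v1 x1) (ov.lk.cr1 v1 i)
        (o.le.cr2 (fun i => a (mem_erase.1 i).2) (mem_erase.2 ⟨fr _ _ o.we o.le.inc2, b⟩))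
        (ov.lf.cr1 v1 (notMem_erase _ _))
  obtain ⟨n1, n2, ⟨d, -⟩ | ⟨d, -⟩⟩ := kill h ov.we ov.le o dk
  exacts [key o n1 n2 d, key o.symm n1 n2 d]

/-- The two tight sets around a killed vertex. -/
structure Sd (L : Gr W E) (q w y za zb c₁ c₂ : W) (Ru Rl : Finset W) : Prop where
  tu : L.om Ru = 4
  tl : L.om Rl = 4
  sub : Ru ⊆ Rl
  yu : y ∈ Ru
  bu : zb ∈ Ru
  qu : q ∉ Ru
  ql : q ∈ Rl
  al : za ∉ Rl
  wl : w ∉ Rl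
  c1 : c₁ ∉ Rl
  c2 : c₂ ∉ Rl
  up : (∃ g, L.wt g = 2 ∧ L.Cr Ru g) ∨
    ∃ R, L.om R = 4 ∧ R ⊆ Ru ∧ R ≠ Ru ∧ y ∈ R ∧ zb ∈ R
  lo : (∃ g, L.wt g = 2 ∧ L.Cr Rl g) ∨
    (∃ R, L.om R = 4 ∧ Rl ⊆ R ∧ Rl ≠ R ∧ za ∉ R ∧ w ∉ R) ∨
    ∃ g c, L.wt g = 2 ∧ L.Lk g za c ∧ (c = c₁ ∨ c = c₂)

theorem Sd.third (h : L.C4) (d : L.Sd q w y z₁ z₂ c₁ c₂ Ru Rl) (wm : L.wt m = 1)
    (wk : L.wt k₂ = 1) (wg : L.wt g = 1) (lm : L.Lk m w y) (lk : L.Lk k₂ q z₂) (lg : L.Lk g u v)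
    (n1 : m ≠ k₂) (n2 : m ≠ g) (n3 : k₂ ≠ g) (i : u ∈ Ru) (j : v ∉ Ru) :
    ∃ R, L.om R = 4 ∧ R ⊆ Ru ∧ y ∈ R ∧ z₂ ∈ R ∧ u ∉ R := by
  have a : w ∉ Ru := fun i => d.wl (d.sub i)
  rcases d.up with ⟨g', wg', c⟩ | ⟨R, t, c, n, y1, z1⟩
  · exact (no3f d.tu wm wk wg wg' n1 n2 n3 (lm.cr2 a d.yu) (lk.cr2 d.qu d.bu) (lg.cr1 i j) c).elim
  · exact ⟨R, t, c, y1, z1, fun i' => h.sh3 t d.tu c n (by omega) (by omega) (by omega) n1 n2 n3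
      (lm.cr2 (fun i => a (c i)) y1) (lm.cr2 a d.yu) (lk.cr2 (fun i => d.qu (c i)) z1)
      (lk.cr2 d.qu d.bu) (lg.cr1 i' fun i => j (c i)) (lg.cr1 i j)⟩

theorem core_same (h : L.C4) (wm : L.wt m = 1) (wm' : L.wt m' = 1) (w1 : L.wt k₁ = 1)
    (w2 : L.wt k₂ = 1) (lm : L.Lk m w y) (lm' : L.Lk m' w' y') (l1 : L.Lk k₁ q z₁)
    (l2 : L.Lk k₂ q z₂) (n0 : m ≠ m') (n1 : m ≠ k₂) (n2 : m' ≠ k₂)
    (es : w = c₁ ∨ w = c₂ ∨ ∃ k c, L.wt k = 1 ∧ L.Lk k w c ∧ (c = c₁ ∨ c = c₂) ∧ m' ≠ k ∧ k₂ ≠ k)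
    (d : L.Sd q w y z₁ z₂ c₁ c₂ Ru Rl) (d' : L.Sd q w' y' z₁ z₂ c₁ c₂ Ru' Rl') (c : Ru ⊆ Ru') :
    False := by
  have a' : w' ∉ Ru' := fun i => d'.wl (d'.sub i)
  have fin : ∀ R, L.om R = 4 → R ⊆ Ru' → y' ∈ R → z₂ ∈ R → y ∉ R → False := fun R t s i j n => by
    have q1 : q ∉ R := fun i => d'.qu (s i)
    have s1 := (h.nest t d.tu l2.symm (by omega) j d.bu q1 d.qu).resolve_right fun s => n (s d.yu)
    obtain ⟨R₀, t₀, s₀, i₀, j₀, n₀⟩ := d.third h wm w2 wm' lm l2 lm'.symm n1 n0 n2.symm (s1 i)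
      fun i => a' (c i)
    exact (h.nest t t₀ l2.symm (by omega) j j₀ q1 fun i => d.qu (s₀ i)).elim
      (fun s => n₀ (s i)) fun s => n (s i₀)
  by_cases a : w ∈ Ru'
  · obtain ⟨k, c', wk, lk, hc, n3, n4⟩ := (es.resolve_left fun z => d'.c1 (d'.sub (z ▸ a))).resolve_left
      fun z => d'.c2 (d'.sub (z ▸ a))
    obtain ⟨R, t, s, i, j, n⟩ := d'.third h wm' w2 wk lm' l2 lk n2 n3 n4 a fun i => by
      rcases hc with rfl | rfl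
      exacts [d'.c1 (d'.sub i), d'.c2 (d'.sub i)]
    by_cases b : y ∈ R
    · have s1 := (h.nest d.tl d'.tl l1 (by omega) d.ql d'.ql d.al d'.al).resolve_right
        fun s => d.wl (s (d'.sub a))
      have b1 : w' ∉ Rl := fun i => d'.wl (s1 i)
      have b2 : y' ∉ Rl := fun i => (h.nest d.tl d'.tu lm'.symm (by omega) i d'.yu b1 a').elim
        (fun s => d'.qu (s d.ql)) fun s => d.wl (s a)
      have t1 := h.t_sdiff d'.tu d.tl a d.wl d'.qu d.ql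
      exact (h.nest t1 t lm'.symm (by omega) (mem_sdiff.2 ⟨d'.yu, b2⟩) i
        (fun i => a' (mem_sdiff.1 i).1) fun i => a' (s i)).elim
        (fun s => n (s (mem_sdiff.2 ⟨a, d.wl⟩))) fun s => (mem_sdiff.1 (s b)).2 (d.sub d.yu)
    · exact fin R t s i j b
  · obtain ⟨R, t, s, i, j, n⟩ := d'.third h wm' w2 wm lm' l2 lm.symm n2 n0.symm n1.symm (c d.yu) a
    exact fin R t s i j n

theorem diff_out (h : L.C4) (wm : L.wt m = 1) (w2 : L.wt k₂ = 1) (lm : L.Lk m w y)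
    (l2 : L.Lk k₂ q z₂) (d : L.Sd q w y z₁ z₂ c₁ c₂ Ru Rl) (d' : L.Sd q w' y' z₂ z₁ c₁ c₂ Ru' Rl') :
    w ∉ Rl' ∧ y ∉ Rl' := by
  have a : w ∉ Rl' := fun a => by
    by_cases b : y ∈ Rl'
    · exact h.nodiag d.tu d'.tl d.yu b (fun i => d.c1 (d.sub i)) d'.c1 l2.symm (by omega) d.bu d'.al
        d.qu d'.ql
    · exact h.nodiag d.tl d'.tl d.ql d'.ql d.c1 d'.c1 lm.symm (by omega) (d.sub d.yu) b d.wl a
  exact ⟨a, fun b => (h.nest d.tl d'.tl lm.symm (by omega) (d.sub d.yu) b d.wl a).elim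
    (fun s => d'.al (s (d.sub d.bu))) fun s => d.al (s (d'.sub d'.bu))⟩

theorem core_diff (h : L.C4) (wm : L.wt m = 1) (wm' : L.wt m' = 1) (w1 : L.wt k₁ = 1)
    (w2 : L.wt k₂ = 1) (lm : L.Lk m w y) (lm' : L.Lk m' w' y') (l1 : L.Lk k₁ q z₁)
    (l2 : L.Lk k₂ q z₂)
    (d : L.Sd q w y z₁ z₂ c₁ c₂ Ru Rl) (d' : L.Sd q w' y' z₂ z₁ c₁ c₂ Ru' Rl') : False := by
  obtain ⟨a1, a2⟩ := diff_out h wm w2 lm l2 d d'
  obtain ⟨b1, b2⟩ := diff_out h wm' w1 lm' l1 d' d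
  have z1 := d'.sub d'.bu
  have z2 := d.sub d.bu
  have y1 := d.sub d.yu
  have y2 := d'.sub d'.yu
  have q1 := d.ql
  have q2 := d'.ql
  have z3 := d.al
  have z4 := d'.al
  have w3 := d.wl
  have w4 := d'.wl
  have tA := h.t_inter d.tl d'.tl q1 q2 d.c1 d'.c1
  have tB := h.t_sdiff d.tl d'.tl z2 z4 z3 z1
  have tC := h.t_sdiff d'.tl d.tl z1 z3 z4 z2
  have ne : ∀ {g g' : E}, L.wt g = 1 → L.wt g' = 2 → g ≠ g' := fun p q z => by rw [z] at p; omega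
  rcases d.lo with ⟨g, wg, c⟩ | ⟨R, t, s, n, i, j⟩ | ⟨g, c, wg, l, hc⟩
  · obtain ⟨u, v, l, i, j⟩ := c.lk
    by_cases a : u ∈ Rl'
    · have := sh_two tA d.tl inter_subset_left (by rwa [sdiff_inter_self_left])
      have := s2 (S := Rl ∩ Rl') (T := Rl) (ne w1 wg) (l1.cr1 (by simp [*]) (by simp [*]))
        (l1.cr1 q1 z3) (l.cr1 (by simp [*]) (by simp [*])) c
      omega
    · have := sh_two tB d.tl sdiff_subset (by rwa [sdiff_sdiff_self_left])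
      have := s2 (S := Rl \ Rl') (T := Rl) (ne wm wg) (lm.cr2 (by simp [*]) (by simp [*]))
        (lm.cr2 w3 y1) (l.cr1 (by simp [*]) (by simp [*])) c
      omega
  · have eA : Rl ∩ Rl' = R ∩ Rl' := by
      by_contra n
      have s1 := inter_subset_inter_right (u := Rl') s
      have := h.sh_le tA (h.t_inter t d'.tl (s q1) q2 j a1) s1 n (o := w) (by simp [*])
      have := sh_two tA d'.tl inter_subset_right (by rwa [sdiff_inter_self_right])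
      have := sh_mono (a := L.a) (b := L.b) (ω := L.wt) s1 inter_subset_right k₁
        (l1.cr1 (by simp [*]) (by simp [*])) (l1.cr1 (by simp [s q1, *]) (by simp [*]))
        (not_not.1 fun c => (l1.cr _).1 c (by simp [*]))
      omega
    have eB : Rl \ Rl' = R \ Rl' := by
      by_contra n
      have s1 := sdiff_subset_sdiff s (Subset.refl Rl')
      have s2 : R \ Rl' ⊆ Rl'ᶜ := fun z hz => mem_compl.2 (mem_sdiff.1 hz).2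
      have := h.sh_le tB (h.t_sdiff t d'.tl (s z2) z4 i z1) s1 n (o := w) (by simp [*])
      have := sh_two tB ((om_compl _).trans d'.tl) (s1.trans s2) (by
        have := h.t_inter ((om_compl _).trans d'.tl) ((om_compl _).trans d.tl) (mem_compl.2 a1)
          (mem_compl.2 w3) (o := q) (by simp [*]) (by simp [*])
        rw [← this]
        congr 1
        ext z
        simp only [mem_sdiff, mem_compl, mem_inter]
        tauto)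
      have := sh_mono (a := L.a) (b := L.b) (ω := L.wt) s1 s2 m
        (lm.cr2 (by simp [*]) (by simp [*])) (lm.cr2 (by simp [*]) (by simp [s y1, *]))
        (not_not.1 fun c => (lm.cr _).1 c (by simp [*]))
      omega
    exact n (by rw [← sdiff_union_inter Rl Rl', eA, eB, sdiff_union_inter])
  · have c1 : c ∉ Rl' := by
      rcases hc with rfl | rfl
      exacts [d'.c1, d'.c2]
    have := sh_two tC d'.tl sdiff_subset (by rwa [sdiff_sdiff_self_left, inter_comm])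
    have := s2 (S := Rl' \ Rl) (T := Rl') (ne wm' wg) (lm'.cr2 (by simp [*]) (by simp [*]))
      (lm'.cr2 w4 y2) (l.cr1 (by simp [*]) (by simp [*])) (l.cr1 z1 c1)
    omega

/-- One of the two orientations of the structure. -/
def Sde (L : Gr W E) (q w y z₁ z₂ c₁ c₂ : W) : Prop :=
  (∃ Ru Rl, L.Sd q w y z₁ z₂ c₁ c₂ Ru Rl) ∨ ∃ Ru Rl, L.Sd q w y z₂ z₁ c₁ c₂ Ru Rl

theorem core (h : L.C4) (wm : L.wt m = 1) (wm' : L.wt m' = 1) (o : L.Ord q k₁ k₂ f z₁ z₂ r)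
    (lm : L.Lk m w y) (lm' : L.Lk m' w' y') (n0 : m ≠ m') (q1 : q ≠ w) (q2 : q ≠ y) (q3 : q ≠ w')
    (q4 : q ≠ y') (q5 : q ≠ c₁) (q6 : q ≠ c₂)
    (es : w = c₁ ∨ w = c₂ ∨ ∃ k c, L.wt k = 1 ∧ L.Lk k w c ∧ (c = c₁ ∨ c = c₂) ∧ m' ≠ k)
    (es' : w' = c₁ ∨ w' = c₂ ∨ ∃ k c, L.wt k = 1 ∧ L.Lk k w' c ∧ (c = c₁ ∨ c = c₂) ∧ m ≠ k)
    (d : L.Sde q w y z₁ z₂ c₁ c₂) (d' : L.Sde q w' y' z₁ z₂ c₁ c₂) : False := by
  have same : ∀ {k₁ k₂ z₁ z₂ Ru Rl Ru' Rl'}, L.Ord q k₁ k₂ f z₁ z₂ r →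
      L.Sd q w y z₁ z₂ c₁ c₂ Ru Rl → L.Sd q w' y' z₁ z₂ c₁ c₂ Ru' Rl' → False := fun o d d' => by
    have n1 := (o.lk.ne lm q1 q2).symm
    have n2 := (o.lk.ne lm' q3 q4).symm
    rcases h.nest d.tu d'.tu o.lk.symm (o.wk ▸ one_ne_zero) d.bu d'.bu d.qu d'.qu with c | c
    · exact core_same h wm wm' o.we o.wk lm lm' o.le o.lk n0 n1 n2 (es.imp_right (Or.imp_right
        fun ⟨k, c, a1, a2, a3, a4⟩ => ⟨k, c, a1, a2, a3, a4, o.lk.ne a2 q1 (by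
          rcases a3 with rfl | rfl <;> assumption)⟩)) d d' c
    · exact core_same h wm' wm o.we o.wk lm' lm o.le o.lk n0.symm n2 n1 (es'.imp_right (Or.imp_right
        fun ⟨k, c, a1, a2, a3, a4⟩ => ⟨k, c, a1, a2, a3, a4, o.lk.ne a2 q3 (by
          rcases a3 with rfl | rfl <;> assumption)⟩)) d' d c
  rcases d with ⟨_, _, d⟩ | ⟨_, _, d⟩ <;> rcases d' with ⟨_, _, d'⟩ | ⟨_, _, d'⟩
  · exact same o d d'
  · exact core_diff h wm wm' o.we o.wk lm lm' o.le o.lk d d'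
  · exact core_diff h wm wm' o.wk o.we lm lm' o.lk o.le d d'
  · exact same o.symm d d'

theorem sd_of_db (h : L.C4) (w : L.wt e = 1) (l : L.Lk e v x) (d1 : L.DB v x q z₁)
    (d2 : L.DB x v q z₂) (hc : ∀ U, L.Ct v x U → q ∉ U → z₁ ∈ U → ((∃ g, L.wt g = 2 ∧ L.Cr U g) ∨
      ∃ U₀, L.Ct v x U₀ ∧ U₀ ⊆ U ∧ U₀ ≠ U ∧ z₁ ∈ U₀) → c₁ ∈ U ∧ c₂ ∈ U) :
    ∃ Ru Rl, L.Sd q v x z₁ z₂ c₁ c₂ Ru Rl := by
  obtain ⟨U, u, a, b, c⟩ := d1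
  obtain ⟨R, r, a', b', c'⟩ := d2
  obtain ⟨i, j⟩ := hc U u a b c
  refine ⟨R, Uᶜ, r.1, u.compl.1, (h.chain w l.symm r u.compl).resolve_right
    fun s => a' (s (mem_compl.2 a)), r.2.1, b', a', mem_compl.2 a, by simpa, by simpa using u.2.1,
    by simpa, by simpa, c'.imp_right fun ⟨R₀, r₀, s, n, i⟩ => ⟨R₀, r₀.1, s, n, r₀.2.1, i⟩,
    c.imp (fun ⟨g, p, q⟩ => ⟨g, p, cr_compl.2 q⟩) fun ⟨U₀, u₀, s, n, i⟩ => Or.inl ⟨U₀ᶜ, u₀.compl.1,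
      compl_subset_compl.2 s, fun z => n (compl_injective z).symm, by simpa, by simpa using u₀.2.1⟩⟩

/-- Two free edges at a vertex, or next to a common free edge, do not both kill a vertex. -/
theorem dok_two {e₁ e₂ : E} {a₁ a₂ : W} (h : L.Valid) (w1 : L.wt e₁ = 1) (w2 : L.wt e₂ = 1)
    (l1 : L.Lk e₁ s a₁) (l2 : L.Lk e₂ t a₂) (o : L.IsO p)
    (hc : (s = t ∧ e₁ ≠ e₂) ∨ ∃ j, L.wt j = 1 ∧ L.Lk j s t ∧ e₁ ≠ j ∧ e₂ ≠ j) :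
    L.Dok s a₁ p ∨ L.Dok t a₂ p := by
  by_contra d
  obtain ⟨d1, d2⟩ := not_or.1 d
  obtain ⟨k₁, k₂, f, z₁, z₂, r, o⟩ := h.ord' o
  obtain ⟨n1, n2, b1⟩ := kill h.c4 w1 l1 o d1
  obtain ⟨n3, n4, b2⟩ := kill h.c4 w2 l2 o d2
  have key : ∀ {e₁ : E} {s t a₁ z : W} {k : E}, L.wt e₁ = 1 → L.Lk e₁ s a₁ → L.wt k = 1 → L.Lk k p z →
      p ≠ s → p ≠ a₁ → p ≠ t → (s = t ∨ ∃ j, L.wt j = 1 ∧ L.Lk j s t ∧ e₁ ≠ j) →
      ∀ U, L.Ct s a₁ U → p ∉ U → z ∈ U → ((∃ g, L.wt g = 2 ∧ L.Cr U g) ∨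
      ∃ U₀, L.Ct s a₁ U₀ ∧ U₀ ⊆ U ∧ U₀ ≠ U ∧ z ∈ U₀) → t ∈ U :=
    fun w1 l1 wk lk n1 n2 n3 hc U u a b c => by
    by_contra i
    obtain ⟨j, wj, lj, nj⟩ := hc.resolve_left fun z => i (z ▸ u.2.1)
    have e1 := (lk.ne l1 n1 n2).symm
    have e2 := (lk.ne lj n1 n3).symm
    rcases c with ⟨g, wg, c⟩ | ⟨U₀, u₀, c, n, i₀⟩
    · exact no3f u.1 w1 wj wk wg nj e1 e2 (l1.cr1 u.2.1 u.2.2) (lj.cr1 u.2.1 i) (lk.cr2 a b) c
    · exact h.c4.sh3 u₀.1 u.1 c n (by omega) (by omega) (by omega) nj e1 e2 (l1.cr1 u₀.2.1 u₀.2.2)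
        (l1.cr1 u.2.1 u.2.2) (lj.cr1 u₀.2.1 fun z => i (c z)) (lj.cr1 u.2.1 i)
        (lk.cr2 (fun z => a (c z)) i₀) (lk.cr2 a b)
  have h1 : s = t ∨ ∃ j, L.wt j = 1 ∧ L.Lk j s t ∧ e₁ ≠ j :=
    hc.imp And.left fun ⟨j, a, b, c, _⟩ => ⟨j, a, b, c⟩
  have h2 : t = s ∨ ∃ j, L.wt j = 1 ∧ L.Lk j t s ∧ e₂ ≠ j :=
    hc.imp (fun z => z.1.symm) fun ⟨j, a, b, _, c⟩ => ⟨j, a, b.symm, c⟩
  have s1 : L.Sde p s a₁ z₁ z₂ s t := b1.imp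
    (fun b => sd_of_db h.c4 w1 l1 b.1 b.2 fun U u a b c =>
      ⟨u.2.1, key w1 l1 o.we o.le n1 n2 n3 h1 U u a b c⟩)
    fun b => sd_of_db h.c4 w1 l1 b.1 b.2 fun U u a b c =>
      ⟨u.2.1, key w1 l1 o.wk o.lk n1 n2 n3 h1 U u a b c⟩
  have s2 : L.Sde p t a₂ z₁ z₂ s t := b2.imp
    (fun b => sd_of_db h.c4 w2 l2 b.1 b.2 fun U u a b c =>
      ⟨key w2 l2 o.we o.le n3 n4 n1 h2 U u a b c, u.2.1⟩)
    fun b => sd_of_db h.c4 w2 l2 b.1 b.2 fun U u a b c =>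
      ⟨key w2 l2 o.wk o.lk n3 n4 n1 h2 U u a b c, u.2.1⟩
  refine core h.c4 w1 w2 o l1 l2 (fun z => ?_) n1 n2 n3 n4 n1 n3 (Or.inl rfl) (Or.inr (Or.inl rfl))
    s1 s2
  have : a₁ ≠ t := by
    rcases s1 with ⟨_, _, d⟩ | ⟨_, _, d⟩ <;> exact fun z => d.c2 (z ▸ d.sub d.yu)
  subst z
  rcases l1.ends l2 with z | z
  · obtain ⟨j, wj, lj, -⟩ := hc.resolve_left fun c => c.2 rfl
    obtain ⟨_, _, _, _, oj⟩ := h.ord wj lj
    exact oj.np z.1.symm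
  · exact this z.2

/-- Any two ordinary vertices can be covered. -/
theorem Dem.zero (d : L.Dem) (h : L.Valid) (p q : W) :
    ∃ N, L.Sol N ∧ (L.IsO p → L.Cov N p) ∧ (L.IsO q → L.Cov N q) := by
  have one : ∀ p, L.IsO p → ∃ N, L.Sol N ∧ L.Cov N p := fun p ⟨e, w, i⟩ => by
    obtain ⟨x, l⟩ := i.lk
    obtain ⟨N, a, -, b⟩ := d e p x p w l (Or.inl rfl)
    exact ⟨N, a, b⟩
  by_cases op : L.IsO p
  · by_cases oq : L.IsO q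
    · obtain ⟨e, k, f, a, b, r, o⟩ := h.ord' op
      rcases dok_two h o.we o.wk o.le o.lk oq (Or.inl ⟨rfl, o.ne⟩) with c | c
      · obtain ⟨N, a1, a2, a3⟩ := d e p a q o.we o.le c
        exact ⟨N, a1, fun _ => ⟨e, a2, o.le.inc1⟩, fun _ => a3⟩
      · obtain ⟨N, a1, a2, a3⟩ := d k p b q o.wk o.lk c
        exact ⟨N, a1, fun _ => ⟨k, a2, o.lk.inc1⟩, fun _ => a3⟩
    · obtain ⟨N, a, b⟩ := one p op
      exact ⟨N, a, fun _ => b, fun z => absurd z oq⟩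
  by_cases oq : L.IsO q
  · obtain ⟨N, a, b⟩ := one q oq
    exact ⟨N, a, fun z => absurd z op, fun _ => b⟩
  by_cases ou : ∃ u, L.IsO u
  · obtain ⟨u, ou⟩ := ou
    obtain ⟨N, a, -⟩ := one u ou
    exact ⟨N, a, fun z => absurd z op, fun z => absurd z oq⟩
  refine ⟨∅, ⟨by simp, fun S u v i j => ?_, fun g u v _ _ o => absurd ⟨u, o⟩ ou⟩,
    fun z => absurd z op, fun z => absurd z oq⟩
  have a1 := h.c4 S u v i j
  have a2 : L.om S ≤ 2 * (L.kp ∅).om S := by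
    simp only [om, cw, mul_sum, kp]
    refine sum_le_sum fun g _ => ?_
    have := h.w2 g
    rw [← mul_assoc]
    refine Nat.mul_le_mul_right _ ?_
    split_ifs with c
    · omega
    · simp at c; omega
  omega

end Gr

end Pool.Agent.P.MP_92d394_lc.H
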