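import Pool.Agent.P.MP_92d394_lc.H.G2

/-! Local moves, lifting of solutions and the slide. -/

set_option linter.unusedSectionVars false

namespace Pool.Agent.P.MP_92d394_lc.H

open Finset

variable {W E : Type} [Fintype W] [DecidableEq W] [Fintype E] [DecidableEq E]

namespace Gr

variable (L : Gr W E)

/-- A new weight for one edge. -/
def sw (g : E) (n : ℕ) : Gr W E := ⟨L.a, L.b, Function.update L.wt g n⟩

/-- New ends for one edge. -/
def mv (g : E) (u v : W) : Gr W E := ⟨Function.update L.a g u, Function.update L.b g v, L.wt⟩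

/-- The two graphs agree at a vertex. -/
def Agr (H : Gr W E) (u : W) : Prop :=
  ∀ g, (L.wt g ≠ 0 ∧ L.Inc g u) ∨ (H.wt g ≠ 0 ∧ H.Inc g u) →
    H.a g = L.a g ∧ H.b g = L.b g ∧ H.wt g = L.wt g

/-- Needs away from a set of vertices. -/
def Nd (D : W → Prop) (N : Finset E) : Prop :=
  ∀ g u v, L.wt g = 2 → L.Lk g u v → ¬ D u → ¬ D v → L.IsO u → L.IsO v → L.Cov N u ∨ L.Cov N v

/-- Solutions outside a set of vertices. -/
structure Half (T : Finset W) (N : Finset E) : Prop where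
  fr : ∀ g ∈ N, L.wt g = 1 ∧ ¬ (L.a g ∈ T ∧ L.b g ∈ T)
  tw : ∀ S u, u ∈ S → Disjoint S T → 2 ≤ (L.kp N).om S
  nd : L.Nd (· ∈ T) N

/-- The demand statement for one edge. -/
def DemE (e : E) (v x : W) : Prop := ∀ q, L.Dok v x q → ∃ N, L.Sol N ∧ e ∈ N ∧ L.Cov N q

/-- The uncovering statement for one edge. -/
def AntE (e : E) (v x : W) : Prop := ∀ f s, L.wt f = 2 → L.Lk f v s → L.IsO s → s ≠ x →
  ∃ N, L.Sol N ∧ e ∈ N ∧ ¬ L.Cov N s

/-- The two edge statement for one edge. -/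
def DrvE (e : E) (v x : W) : Prop := ∀ f s e', L.wt f = 2 → L.Lk f v s → L.wt e' = 1 →
  L.Inc e' s → ¬ L.Blk v x e' → ∃ N, L.Sol N ∧ e ∈ N ∧ e' ∈ N

/-- The slide. -/
def sld (e k m : E) (v y : W) : Gr W E := ((L.sw k 2).sw m 0).mv e v y

/-- A path of three free edges. -/
structure Pa (e j f k fx m fw : E) (v x v' s w xs y ws : W) : Prop where
  ov : L.Ord v e j f x v' s
  ox : L.Ord x e k fx v w xs
  ow : L.Ord w k m fw x y ws
  wv : w ≠ v
  yv : y ≠ v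

variable {L} {H K : Gr W E} {e j f k fx m fw g g' e' : E} {u v x v' s w xs y ws p q r z : W}
  {S T : Finset W} {N N' : Finset E} {n i : ℕ}

@[simp] theorem sw_a : (L.sw g n).a = L.a := rfl
@[simp] theorem sw_b : (L.sw g n).b = L.b := rfl
@[simp] theorem mv_wt : (L.mv g u v).wt = L.wt := rfl
@[simp] theorem sw_lk : (L.sw g n).Lk k u v ↔ L.Lk k u v := Iff.rfl
@[simp] theorem sw_inc : (L.sw g n).Inc k u ↔ L.Inc k u := Iff.rfl
@[simp] theorem sw_cr : (L.sw g n).Cr S k ↔ L.Cr S k := Iff.rfl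
@[simp] theorem sw_cov : (L.sw g n).Cov N u ↔ L.Cov N u := Iff.rfl
theorem sw_wt (k : E) : (L.sw g n).wt k = if k = g then n else L.wt k := Function.update_apply ..
theorem mv_a (k : E) : (L.mv g u v).a k = if k = g then u else L.a k := Function.update_apply ..
theorem mv_b (k : E) : (L.mv g u v).b k = if k = g then v else L.b k := Function.update_apply ..

theorem mv_lk : (L.mv g u v).Lk g u v := Or.inl ⟨by simp [mv_a], by simp [mv_b]⟩

theorem mv_lk' (h : k ≠ g) : (L.mv g u v).Lk k p q ↔ L.Lk k p q := by simp [Lk, mv_a, mv_b, h]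

theorem mv_inc' (h : k ≠ g) : (L.mv g u v).Inc k p ↔ L.Inc k p := by simp [Inc, mv_a, mv_b, h]

theorem mv_cr' (h : k ≠ g) : (L.mv g u v).Cr S k ↔ L.Cr S k := by simp [Cr, mv_a, mv_b, h]

theorem sw_om (l : L.Lk g p q) (n : ℕ) (S : Finset W) :
    (L.sw g n).om S + L.wt g * ch S p q = L.om S + n * ch S p q := by
  have := sum_chg {g} (fun k => (L.sw g n).wt k * ch S (L.a k) (L.b k))
    (fun k => L.wt k * ch S (L.a k) (L.b k)) fun k hk => by rw [sw_wt, if_neg (by simpa using hk)]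
  rw [sum_singleton, sum_singleton, sw_wt, if_pos rfl, l.ch] at this
  exact this

theorem mv_om (l : L.Lk g p q) (u v : W) (S : Finset W) :
    (L.mv g u v).om S + L.wt g * ch S p q = L.om S + L.wt g * ch S u v := by
  have := sum_chg {g} (fun k => L.wt k * ch S ((L.mv g u v).a k) ((L.mv g u v).b k))
    (fun k => L.wt k * ch S (L.a k) (L.b k)) fun k hk => by
      rw [mv_a, mv_b, if_neg (by simpa using hk), if_neg (by simpa using hk)]
  rw [sum_singleton, sum_singleton, mv_a, mv_b, if_pos rfl, if_pos rfl, l.ch] at this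
  exact this

theorem sw_fc (g : E) (n : ℕ) :
    (L.sw g n).fc + (if L.wt g = 1 then 1 else 0) = L.fc + if n = 1 then 1 else 0 := by
  have := sum_chg {g} (fun k => if (L.sw g n).wt k = 1 then 1 else 0)
    (fun k => if L.wt k = 1 then 1 else 0) fun k hk => by
      rw [sw_wt, if_neg (show k ≠ g by simpa using hk)]
  rw [sum_singleton, sum_singleton, sw_wt, if_pos (rfl : g = g)] at this
  exact this

@[simp] theorem mv_fc : (L.mv g u v).fc = L.fc := rfl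

theorem sw_w2 (h : ∀ k, L.wt k ≤ 2) (c : n ≤ 2) (k : E) : (L.sw g n).wt k ≤ 2 := by
  rw [sw_wt]; split_ifs
  exacts [c, h k]

theorem Agr.rfl' : L.Agr L u := fun _ _ => ⟨rfl, rfl, rfl⟩

theorem Agr.symm (h : L.Agr H u) : H.Agr L u := fun g c =>
  have := h g c.symm; ⟨this.1.symm, this.2.1.symm, this.2.2.symm⟩

theorem Agr.trans (h : L.Agr H u) (k : H.Agr K u) : L.Agr K u := fun g c => by
  have key : ∀ {L H : Gr W E}, L.Agr H u → L.wt g ≠ 0 ∧ L.Inc g u → H.wt g ≠ 0 ∧ H.Inc g u :=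
    fun h c => by
    obtain ⟨a1, a2, a3⟩ := h g (Or.inl c)
    simpa only [Inc, a1, a2, a3] using c
  have c' : H.wt g ≠ 0 ∧ H.Inc g u := c.elim (key h) (key k.symm)
  obtain ⟨a1, a2, a3⟩ := h g (Or.inr c')
  obtain ⟨b1, b2, b3⟩ := k g (Or.inl c')
  exact ⟨b1.trans a1, b2.trans a2, b3.trans a3⟩

theorem Agr.sw (h : L.Agr H u) (l : H.Lk g p q) (n1 : u ≠ p) (n2 : u ≠ q) (n : ℕ) :
    L.Agr (H.sw g n) u := h.trans fun k c => ⟨rfl, rfl, by
  rw [sw_wt, if_neg]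
  rintro rfl
  have := (l.inc u).1 (c.elim And.right And.right)
  tauto⟩

theorem Agr.mv (h : L.Agr H u) (l : H.Lk g p q) (n1 : u ≠ p) (n2 : u ≠ q) (n3 : u ≠ v)
    (n4 : u ≠ z) : L.Agr (H.mv g v z) u := h.trans fun k c => by
  have : k ≠ g := by
    rintro rfl
    rcases c with c | c
    · have := (l.inc u).1 c.2; tauto
    · have := (mv_lk.inc u).1 c.2; tauto
  simp [mv_a, mv_b, this]

theorem Agr.lk (h : L.Agr H u) (w : L.wt g ≠ 0) (l : L.Lk g u v) :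
    H.Lk g u v ∧ H.wt g = L.wt g := by
  obtain ⟨a1, a2, a3⟩ := h g (Or.inl ⟨w, l.inc1⟩)
  exact ⟨by simpa only [Lk, a1, a2] using l, a3⟩

theorem Agr.inc (h : L.Agr H u) (w : L.wt g ≠ 0) (l : L.Inc g u) :
    H.Inc g u ∧ H.wt g = L.wt g := by
  obtain ⟨v, l⟩ := l.lk
  exact ⟨(h.lk w l).1.inc1, (h.lk w l).2⟩

theorem Agr.isO (h : L.Agr H u) (o : L.IsO u) : H.IsO u := by
  obtain ⟨e, w, i⟩ := o
  have := h.inc (by omega) i
  exact ⟨e, this.2.trans w, this.1⟩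

theorem Agr.ord (h : L.Agr H u) (o : L.Ord u e k f p q r) : H.Ord u e k f p q r := by
  have a1 := h.lk (o.we ▸ one_ne_zero) o.le
  have a2 := h.lk (o.wk ▸ one_ne_zero) o.lk
  have a3 := h.lk (o.wf ▸ two_ne_zero) o.lf
  refine ⟨o.ne, a1.2.trans o.we, a2.2.trans o.wk, a3.2.trans o.wf, a1.1, a2.1, a3.1, o.np, o.nq,
    o.nr, fun g w i => ?_⟩
  have := h.symm.inc w i
  exact o.all g (this.2 ▸ w) this.1

theorem Ord.dg (o : L.Ord u e k f p q r) : L.dg 1 u = 2 ∧ L.dg 2 u = 1 := by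
  have key : ∀ i, i ≠ 0 → L.dg i u = ∑ g ∈ {e, k, f}, if L.wt g = i then L.en g u else 0 :=
    fun i n => (sum_subset (subset_univ _) fun g _ hg => by
      split_ifs with c
      · by_contra z
        exact hg (by simpa using o.all g (by omega) (en_ne.1 z))
      · rfl).symm
  rw [key 1 one_ne_zero, key 2 two_ne_zero]
  simp [sum_insert (show e ∉ ({k, f} : Finset E) by simp [o.ne, o.nef]), sum_pair o.nkf, o.we,
    o.wk, o.wf, o.le.en, o.lk.en, o.lf.en, o.np, o.nq, o.nr]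

theorem deg_of (h : L.IsO u → ∃ e k f p q r, L.Ord u e k f p q r) :
    L.dg 1 u = 0 ∨ (L.dg 1 u = 2 ∧ L.dg 2 u = 1) := by
  by_cases o : L.IsO u
  · obtain ⟨_, _, _, _, _, _, o⟩ := h o
    exact Or.inr o.dg
  · exact Or.inl (by simpa [isO_iff] using o)

theorem Agr.deg (h : L.Agr H u) (c : L.Valid) :
    H.dg 1 u = 0 ∨ (H.dg 1 u = 2 ∧ H.dg 2 u = 1) := deg_of fun o => by
  obtain ⟨e, k, f, p, q, r, o⟩ := c.ord' (h.symm.isO o)
  exact ⟨e, k, f, p, q, r, h.ord o⟩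

theorem kp_om (h1 : ∀ g, (L.wt g ≠ 0 ∧ g ∉ N) → L.Cr S g → H.wt g ≠ 0 ∧ g ∉ N' ∧ H.Cr S g)
    (h2 : ∀ g, (H.wt g ≠ 0 ∧ g ∉ N') → H.Cr S g → L.wt g ≠ 0 ∧ g ∉ N ∧ L.Cr S g) :
    (L.kp N).om S = (H.kp N').om S := by
  refine sum_congr rfl fun g _ => ?_
  have e : ∀ (L : Gr W E) N, (L.kp N).wt g * ch S ((L.kp N).a g) ((L.kp N).b g) =
      if (L.wt g ≠ 0 ∧ g ∉ N) ∧ ¬ (L.a g ∈ S ↔ L.b g ∈ S) then 1 else 0 := fun L N => by
    simp only [kp, ch]
    by_cases (L.wt g ≠ 0 ∧ g ∉ N) <;> by_cases (L.a g ∈ S ↔ L.b g ∈ S) <;> simp [*]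
  rw [e, e]
  exact if_congr ⟨fun c => by have := h1 g c.1 c.2; exact ⟨⟨this.1, this.2.1⟩, this.2.2⟩,
    fun c => by have := h2 g c.1 c.2; exact ⟨⟨this.1, this.2.1⟩, this.2.2⟩⟩ rfl rfl

/-- Equal kept graphs. -/
theorem Tw.lift (t : H.Tw N') (h1 : ∀ g, (L.wt g ≠ 0 ∧ g ∉ N) ↔ (H.wt g ≠ 0 ∧ g ∉ N'))
    (h2 : ∀ g, H.wt g ≠ 0 → g ∉ N' → H.a g = L.a g ∧ H.b g = L.b g) : L.Tw N := fun S u v i j => by
  rw [kp_om (H := H) (N' := N')]
  · exact t S u v i j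
  · intro g a c
    have b := (h1 g).1 a
    exact ⟨b.1, b.2, by simpa only [Cr, h2 g b.1 b.2] using c⟩
  · intro g a c
    have b := (h1 g).2 a
    exact ⟨b.1, b.2, by simpa only [Cr, h2 g a.1 a.2] using c⟩

theorem Sol.nd' (h : L.Sol N) (D : W → Prop) : L.Nd D N := fun g u v a b _ _ => h.nd g u v a b

theorem Nd.mono {D D' : W → Prop} (h : L.Nd D N) (c : ∀ u, D u → D' u) : L.Nd D' N :=
  fun g u v a b i j => h g u v a b (fun z => i (c u z)) fun z => j (c v z)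

/-- Lifting a solution along a local move. -/
theorem sol_of (D : W → Prop) (ag : ∀ u, ¬ D u → L.Agr H u) (nd : H.Nd D N')
    (fr : ∀ g ∈ N, L.wt g = 1) (tw : L.Tw N) (cv : ∀ u, ¬ D u → H.Cov N' u → L.Cov N u)
    (lo : ∀ g u v, L.wt g = 2 → L.Lk g u v → D u → L.IsO u → L.IsO v → L.Cov N u ∨ L.Cov N v) :
    L.Sol N := by
  refine ⟨fr, tw, fun g u v w l o1 o2 => ?_⟩
  by_cases d1 : D u
  · exact lo g u v w l d1 o1 o2
  by_cases d2 : D v
  · exact (lo g v u w l.symm d2 o2 o1).symm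
  have := (ag u d1).lk (by omega) l
  exact (nd g u v (this.2.trans w) this.1 d1 d2 ((ag u d1).isO o1) ((ag v d2).isO o2)).imp
    (cv u d1) (cv v d2)

theorem tw_glue (h3 : (L.kp N).om T ≤ 3) (h1 : ∀ S u, u ∈ S → S ⊆ T → 2 ≤ (L.kp N).om S)
    (h2 : ∀ S u, u ∈ S → Disjoint S T → 2 ≤ (L.kp N).om S) : L.Tw N := fun S u v i j =>
  glue h3 (fun S c ⟨u, i⟩ => h1 S u i c)
    (fun S c ⟨u, i⟩ => h2 S u i (le_compl_iff_disjoint_right.1 c)) S ⟨u, i⟩ ⟨v, mem_compl.2 j⟩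

/-- Joining the solutions on the two sides of a cut. -/
theorem Half.glue (h : L.Half T N) (h' : L.Half Tᶜ N') (eq : ∀ g, L.Cr T g → (g ∈ N ↔ g ∈ N'))
    (h3 : (L.kp N).om T ≤ 3) (lo : ∀ g u v, L.wt g = 2 → L.Lk g u v → u ∈ T → v ∉ T → L.IsO u →
      L.IsO v → L.Cov N' u ∨ L.Cov N v) : L.Sol (N ∪ N') := by
  have cv : ∀ {u}, L.Cov N u ∨ L.Cov N' u → L.Cov (N ∪ N') u := fun c => c.elim
    (fun ⟨g, a, b⟩ => ⟨g, mem_union_left _ a, b⟩) fun ⟨g, a, b⟩ => ⟨g, mem_union_right _ a, b⟩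
  have key : ∀ {T N N'}, L.Half T N' → (∀ g, L.Cr T g → g ∈ N' → g ∈ N) → ∀ S, S ⊆ T →
      (L.kp (N ∪ N')).om S = (L.kp N).om S := fun {T N N'} h eq S c => by
    refine kp_om (fun g a b => ⟨a.1, fun z => a.2 (mem_union_left _ z), b⟩)
      fun g a b => ⟨a.1, fun z => (mem_union.1 z).elim a.2 fun z => a.2 (eq g ?_ z), b⟩
    have := (h.fr g z).2
    have := @c (L.a g)
    have := @c (L.b g)
    simp only [Cr] at *
    tauto
  refine ⟨fun g c => (mem_union.1 c).elim (fun c => (h.fr g c).1) fun c => (h'.fr g c).1,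
    tw_glue (T := T) ?_ (fun S u i c => ?_) fun S u i c => ?_, fun g u v w l o1 o2 => ?_⟩
  · rwa [← om_compl, key h' (fun g c => (eq g (cr_compl.1 c)).2) _ Subset.rfl, om_compl]
  · rw [union_comm, key h (fun g c => (eq g c).1) S c]
    exact h'.tw S u i (disjoint_compl_right_iff.2 c)
  · rw [key h' (fun g c => (eq g (cr_compl.1 c)).2) S (le_compl_iff_disjoint_right.2 c)]
    exact h.tw S u i c
  by_cases a : u ∈ T <;> by_cases b : v ∈ T
  · exact (h'.nd g u v w l (by simpa) (by simpa) o1 o2).imp (fun z => cv (Or.inr z))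
      fun z => cv (Or.inr z)
  · exact (lo g u v w l a b o1 o2).imp (fun z => cv (Or.inr z)) fun z => cv (Or.inl z)
  · exact (lo g v u w l.symm b a o2 o1).symm.imp (fun z => cv (Or.inl z)) fun z => cv (Or.inr z)
  · exact (h.nd g u v w l a b o1 o2).imp (fun z => cv (Or.inl z)) fun z => cv (Or.inl z)

/-- Being blocked is a symmetric relation. -/
theorem Blk.swap (le : L.Lk e v x) (le' : L.Lk e' s z) (wf : L.wt f = 2) (lf : L.Lk f v s)
    (h : L.Blk s z e) : L.Blk v x e' := by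
  have key : ∀ S, L.Ct s z S → L.Cr S e → L.Blk v x e' ∨ (L.Ct v x S ∧ L.Cr S e') := fun S c i => by
    have j := le'.cr1 c.2.1 c.2.2
    rw [le.cr] at i
    by_cases a : v ∈ S
    · exact Or.inr ⟨⟨c.1, a, by tauto⟩, j⟩
    · exact Or.inl (Or.inl ⟨Sᶜ, f, ⟨c.compl.1, mem_compl.2 a, by simp; tauto⟩, cr_compl.2 j, wf,
        cr_compl.2 (lf.cr2 a c.2.1)⟩)
  rcases h with ⟨S, g, a, b, c, d⟩ | ⟨S, T, n, a, b, c, d⟩
  · exact (key S a b).elim id fun z => Or.inl ⟨S, g, z.1, z.2, c, d⟩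
  · exact (key S a c).elim id fun z => (key T b d).elim id fun z' =>
      Or.inr ⟨S, T, n, z.1, z'.1, z.2, z'.2⟩

end Gr

end Pool.Agent.P.MP_92d394_lc.H
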