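import Pool.Agent.P.MP_92d394_lc.H.G3

/-! The slide along a path of three free edges. -/

set_option linter.unusedSectionVars false

namespace Pool.Agent.P.MP_92d394_lc.H

open Finset

variable {W E : Type} [Fintype W] [DecidableEq W] [Fintype E] [DecidableEq E]

namespace Gr

variable {L : Gr W E} {e j f k fx m fw g d fy : E} {u v x v' s w xs y ws t r : W}
  {S : Finset W} {N : Finset E}

namespace Pa

variable (h : L.Pa e j f k fx m fw v x v' s w xs y ws)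
include h

theorem em : e ≠ m := (h.ow.lk.ne h.ov.le h.wv h.ox.nq).symm

theorem jk : j ≠ k := h.ov.lk.ne h.ox.lk h.ov.np.symm h.wv.symm

theorem jm : j ≠ m := h.ov.lk.ne h.ow.lk h.wv.symm h.yv.symm

theorem yx : y ≠ x := fun z =>
  (h.ox.free h.ow.wk (z ▸ h.ow.lk.inc2)).elim h.em.symm h.ow.ne.symm

theorem vx' : v' ≠ x := fun z =>
  (h.ox.free h.ov.wk (z ▸ h.ov.lk.inc2)).elim h.ov.ne.symm h.jk

theorem vw' : v' ≠ w := fun z =>
  (h.ow.free h.ov.wk (z ▸ h.ov.lk.inc2)).elim h.jk h.jm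

theorem sx (c : L.C4) : s ≠ x := fun z => by
  subst z
  exact (h.ov.pa c h.ox w).elim h.wv h.ox.nq

theorem xsv (c : L.C4) : xs ≠ v := fun z => h.sx c (h.ov.part h.ox.wf (z ▸ h.ox.lf.symm)).symm

theorem xsw (c : L.C4) : xs ≠ w := fun z => by
  subst z
  exact (h.ox.symm.pa c h.ow v).elim h.ov.np.symm h.wv.symm

theorem wsx (c : L.C4) : ws ≠ x := fun z => h.xsw c (h.ox.part h.ow.wf (z ▸ h.ow.lf.symm)).symm

theorem wsy (c : L.Valid) : ws ≠ y := fun z => by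
  subst z
  obtain ⟨_, _, _, _, o⟩ := c.ord h.ow.wk h.ow.lk.symm
  exact (h.ow.symm.pa c.c4 o x).elim h.ow.np h.yx.symm

theorem vs' (c : L.Valid) : v' ≠ s := fun z => by
  subst z
  obtain ⟨_, _, _, _, o⟩ := c.ord h.ov.wk h.ov.lk.symm
  exact (h.ov.symm.pa c.c4 o x).elim h.ov.np h.vx'.symm

theorem sld_wt (g : E) :
    (L.sld e k m v y).wt g = if g = m then 0 else if g = k then 2 else L.wt g := by
  simp only [sld, mv_wt, sw_wt]

theorem sld_lk : (L.sld e k m v y).Lk e v y := mv_lk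

theorem sld_lk' {p q : W} (n : g ≠ e) : (L.sld e k m v y).Lk g p q ↔ L.Lk g p q := mv_lk' n

theorem sld_inc' (n : g ≠ e) : (L.sld e k m v y).Inc g u ↔ L.Inc g u := mv_inc' n

theorem sld_cr' (n : g ≠ e) : (L.sld e k m v y).Cr S g ↔ L.Cr S g := mv_cr' n

theorem sld_we : (L.sld e k m v y).wt e = 1 := by simp [h.sld_wt, h.em, h.ox.ne, h.ov.we]

theorem sld_om (S : Finset W) :
    (L.sld e k m v y).om S + ch S v x + ch S w y = L.om S + ch S x w + ch S v y := by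
  have a1 := sw_om h.ox.lk 2 S
  have a2 := sw_om (L := L.sw k 2) h.ow.lk 0 S
  have a3 := mv_om (L := (L.sw k 2).sw m 0) h.ov.le v y S
  simp only [sw_wt, h.ox.wk, h.ow.wk, h.ov.we, if_neg h.ow.ne.symm, if_neg h.em, if_neg h.ox.ne]
    at a1 a2 a3
  simp only [sld]
  omega

theorem sld_fc : (L.sld e k m v y).fc + 2 = L.fc := by
  have a1 := sw_fc (L := L) k 2
  have a2 := sw_fc (L := L.sw k 2) m 0
  simp [sw_wt, h.ox.wk, h.ow.wk, h.ow.ne.symm] at a1 a2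
  simp only [sld, mv_fc]
  omega

theorem sld_agr (n1 : u ≠ v) (n2 : u ≠ x) (n3 : u ≠ w) (n4 : u ≠ y) : L.Agr (L.sld e k m v y) u :=
  ((Agr.rfl'.sw h.ox.lk n2 n3 2).sw h.ow.lk n3 n4 0).mv h.ov.le n1 n2 n1 n4

theorem sld_v : (L.sld e k m v y).Ord v e j f y v' s := by
  have a1 : f ≠ m := fun z => by have := h.ov.wf; have := h.ow.wk; rw [z] at *; omega
  refine ⟨h.ov.ne, h.sld_we, by simp [h.sld_wt, h.jm, h.jk, h.ov.wk],
    by simp [h.sld_wt, a1, h.ov.wf], h.sld_lk, (h.sld_lk' h.ov.ne.symm).2 h.ov.lk,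
    (h.sld_lk' h.ov.nef.symm).2 h.ov.lf, h.yv, h.ov.nq, h.ov.nr, fun g a i => ?_⟩
  by_cases n : g = e
  · exact Or.inl n
  · refine h.ov.all g (fun z => ?_) ((h.sld_inc' n).1 i)
    rw [h.sld_wt] at a
    split_ifs at a with c1 c2
    · exact a rfl
    · have := h.ox.wk; rw [← c2] at this; omega
    · exact a z

theorem sld_y (o : L.Ord y m d fy w t r) : (L.sld e k m v y).Ord y e d fy v t r := by
  have a1 : d ≠ e := o.lk.ne h.ov.le h.yv h.yx
  have a2 : d ≠ k := o.lk.ne h.ox.lk h.yx h.ow.nq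
  have a3 : fy ≠ e := o.lf.ne h.ov.le h.yv h.yx
  refine ⟨a1.symm, h.sld_we, by simp [h.sld_wt, o.ne.symm, a2, o.wk],
    by simp [h.sld_wt, o.nef.symm, o.wf], h.sld_lk.symm, (h.sld_lk' a1).2 o.lk,
    (h.sld_lk' a3).2 o.lf, h.yv.symm, o.nq, o.nr, fun g a i => ?_⟩
  by_cases n : g = e
  · exact Or.inl n
  · rw [h.sld_wt] at a
    have i := (h.sld_inc' n).1 i
    split_ifs at a with c1 c2
    · exact absurd rfl a
    · rw [c2, h.ox.lk.inc] at i
      exact (i.elim h.yx h.ow.nq).elim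
    · exact Or.inr ((o.all g a i).resolve_left c1)

theorem sld_free (a : (L.sld e k m v y).wt g = 1) : g ≠ m ∧ g ≠ k ∧ L.wt g = 1 := by
  rw [h.sld_wt] at a
  split_ifs at a with c1 c2 <;> first | omega | exact ⟨c1, c2, a⟩

theorem sld_x : ¬ (L.sld e k m v y).IsO x := fun ⟨g, a, i⟩ => by
  have b := h.sld_free a
  by_cases n : g = e
  · rw [n, h.sld_lk.inc] at i
    exact i.elim h.ov.np h.yx.symm
  · exact (h.ox.free b.2.2 ((h.sld_inc' n).1 i)).elim n b.2.1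

theorem sld_w : ¬ (L.sld e k m v y).IsO w := fun ⟨g, a, i⟩ => by
  have b := h.sld_free a
  by_cases n : g = e
  · rw [n, h.sld_lk.inc] at i
    exact i.elim h.wv h.ow.nq.symm
  · exact (h.ow.free b.2.2 ((h.sld_inc' n).1 i)).elim b.2.1 b.1

theorem sld_valid' (c : L.Valid) (c4 : (L.sld e k m v y).C4) : (L.sld e k m v y).Valid := by
  refine ⟨fun g => sw_w2 (sw_w2 c.w2 le_rfl) (Nat.zero_le 2) g, fun u => ?_, c4⟩
  by_cases n1 : u = v
  · exact Or.inr (n1 ▸ h.sld_v.dg)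
  by_cases n2 : u = x
  · exact deg_of fun o => absurd (n2 ▸ o) h.sld_x
  by_cases n3 : u = w
  · exact deg_of fun o => absurd (n3 ▸ o) h.sld_w
  by_cases n4 : u = y
  · obtain ⟨_, _, _, _, o⟩ := c.ord h.ow.wk h.ow.lk.symm
    exact Or.inr (n4 ▸ (h.sld_y o).dg)
  exact (h.sld_agr n1 n2 n3 n4).deg c

/-- No tight cut has the two inner vertices of the path alone on one side. -/
theorem no_mid (c : L.C4) (tr : L.Tr v x s xs) (n : y ≠ s) (t : L.om S = 4) (i1 : v ∈ S)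
    (i2 : y ∈ S) (j1 : x ∉ S) (j2 : w ∉ S) : False :=
  (tr.t4 S ⟨t, i1, j1⟩).elim (fun a => (a y i2).elim h.yv n)
    fun a => (a w j2).elim h.ox.nq (h.xsw c).symm

theorem sld_valid (c : L.Valid) (tr : L.Tr v x s xs) (n : y ≠ s) : (L.sld e k m v y).Valid := by
  refine h.sld_valid' c fun S p q i j => ?_
  have a1 := h.sld_om S
  have a2 := c.c4 S p q i j
  have a3 := c.even S
  have a4 := h.no_mid (S := S) c.c4 tr n
  have a5 := h.no_mid (S := Sᶜ) c.c4 tr n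
  simp only [om_compl, mem_compl, not_not, ch] at a1 a5
  by_cases v ∈ S <;> by_cases x ∈ S <;> by_cases w ∈ S <;> by_cases y ∈ S <;>
    simp [*] at a1 a4 a5 <;> omega

theorem sld_ct (c : L.C4) (t : (L.sld e k m v y).Ct v y S) : L.om S = 4 ∧ (x ∈ S → w ∈ S) := by
  obtain ⟨t, i, j⟩ := t
  have a1 := h.sld_om S
  have a2 := c S v y i j
  simp only [ch] at a1
  by_cases x ∈ S <;> by_cases w ∈ S <;> simp [*] at a1 ⊢ <;> omega

theorem sld_cov (i : e ∈ N) (a : (L.sld e k m v y).Cov N u) : L.Cov (insert m N) u := by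
  obtain ⟨g, a, b⟩ := a
  by_cases n : g = e
  · rw [n, h.sld_lk.inc] at b
    rcases b with rfl | rfl
    exacts [⟨e, mem_insert_of_mem i, h.ov.le.inc1⟩, ⟨m, mem_insert_self .., h.ow.lk.inc2⟩]
  · exact ⟨g, mem_insert_of_mem a, (h.sld_inc' n).1 b⟩

theorem sld_cov' (i : e ∈ N) (n1 : u ≠ x) (n2 : u ≠ w) (a : L.Cov (insert m N) u) :
    (L.sld e k m v y).Cov N u := by
  obtain ⟨g, a, b⟩ := a
  rcases mem_insert.1 a with rfl | a
  · rw [h.ow.lk.inc] at b
    exact ⟨e, i, b.resolve_left n2 ▸ h.sld_lk.inc2⟩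
  by_cases n : g = e
  · rw [n, h.ov.le.inc] at b
    exact ⟨e, i, b.resolve_right n1 ▸ h.sld_lk.inc1⟩
  · exact ⟨g, a, (h.sld_inc' n).2 b⟩

theorem sld_lift (a : (L.sld e k m v y).Sol N) (i : e ∈ N) : L.Sol (insert m N) := by
  refine sol_of (fun u => u = v ∨ u = x ∨ u = w ∨ u = y) (fun u n => ?_) (a.nd' _) (fun g c => ?_)
    (a.tw.lift (fun g => ?_) fun g _ c => ?_) (fun u _ => h.sld_cov i) fun g u _ _ _ c _ _ => ?_
  · push Not at n
    exact h.sld_agr n.1 n.2.1 n.2.2.1 n.2.2.2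
  · exact (mem_insert.1 c).elim (fun z => z ▸ h.ow.wk) fun c => (h.sld_free (a.fr g c)).2.2
  · rw [h.sld_wt, mem_insert]
    have := h.ox.wk
    have := h.ow.ne
    split_ifs with c1 c2 <;> simp [*]
  · have : g ≠ e := fun z => c (z ▸ i)
    simp [sld, mv_a, mv_b, this]
  · refine Or.inl ?_
    rcases c with rfl | rfl | rfl | rfl
    exacts [⟨e, mem_insert_of_mem i, h.ov.le.inc1⟩, ⟨e, mem_insert_of_mem i, h.ov.le.inc2⟩,
      ⟨m, mem_insert_self .., h.ow.lk.inc1⟩, ⟨m, mem_insert_self .., h.ow.lk.inc2⟩]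

end Pa

end Gr

end Pool.Agent.P.MP_92d394_lc.H
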