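import Pool.Agent.P.MP_92d394_lc.H.CSt

/-! Replacing a set of vertices by a gadget. -/

set_option linter.unusedSectionVars false

namespace Pool.Agent.P.MP_92d394_lc.H

open Finset Sum

variable {W E G D : Type} [Fintype W] [DecidableEq W] [Fintype E] [DecidableEq E]
  [Fintype G] [DecidableEq G] [Fintype D] [DecidableEq D]

/-- The image of a vertex. -/
def pj (T : Finset W) (i : G) (u : W) : {w // w ∉ T} ⊕ G := if h : u ∈ T then inr i else inl ⟨u, h⟩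

/-- The preimage of a set of vertices. -/
def pb (T : Finset W) (i : G) (S : Finset ({w // w ∉ T} ⊕ G)) : Finset W :=
  univ.filter fun u => pj T i u ∈ S

/-- The preimage of a set of edges. -/
def pe (N : Finset (E ⊕ D)) : Finset E := univ.filter fun g => inl g ∈ N

/-- Sets not splitting the gadget. -/
def Aon {X : Type} (S : Finset (X ⊕ G)) : Prop := ∀ i j : G, inr i ∈ S ↔ inr j ∈ S

section
variable {T : Finset W} {i j : G} {u v : W} {S R : Finset ({w // w ∉ T} ⊕ G)}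

theorem pj_in (h : u ∈ T) : pj T i u = inr i := dif_pos h

theorem pj_out (h : u ∉ T) : pj T i u = inl ⟨u, h⟩ := dif_neg h

@[simp] theorem mem_pb : u ∈ pb T i S ↔ pj T i u ∈ S := by simp [pb]

@[simp] theorem mem_pe {N : Finset (E ⊕ D)} {g : E} : g ∈ pe N ↔ inl g ∈ N := by simp [pe]

theorem pj_mem (h : inr i ∈ S ↔ inr j ∈ S) : pj T i u ∈ S ↔ pj T j u ∈ S := by
  by_cases c : u ∈ T
  · rwa [pj_in c, pj_in c]
  · rw [pj_out c, pj_out c]

theorem pj_inl (h : u ∉ T) : pj T i v = inl ⟨u, h⟩ ↔ v = u := by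
  by_cases c : v ∈ T
  · simp only [pj_in c, reduceCtorEq, false_iff]
    rintro rfl
    exact h c
  · simp [pj_out c]

theorem pj_inr : pj T i v = inr j ↔ v ∈ T ∧ i = j := by
  by_cases c : v ∈ T
  · simp [pj_in c, c]
  · simp [pj_out c, c]

theorem pb_inj (h : u ∈ T) (a : Aon S) (b : Aon R) (e : pb T i S = pb T i R) : S = R := by
  ext z
  rcases z with ⟨z, hz⟩ | z
  · simpa only [mem_pb, pj_out hz] using Finset.ext_iff.1 e z
  · rw [a z i, b z i]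
    simpa only [mem_pb, pj_in h] using Finset.ext_iff.1 e u

theorem pb_disj (h : inr i ∉ S) : Disjoint (pb T i S) T :=
  disjoint_left.2 fun z a b => h (by simpa [pj_in b] using a)

theorem card_rep (T : Finset W) :
    Fintype.card ({w // w ∉ T} ⊕ G) + T.card = Fintype.card W + Fintype.card G := by
  have := card_le_univ T
  simp only [Fintype.card_sum, Fintype.card_subtype_compl, Fintype.card_coe]
  omega

end

namespace Gr

/-- Replacing a set of vertices by a gadget. -/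
def rep (L : Gr W E) (T : Finset W) (σ : E → G) (Γ : Gr G D) : Gr ({w // w ∉ T} ⊕ G) (E ⊕ D) where
  a := Sum.elim (fun g => pj T (σ g) (L.a g)) fun d => inr (Γ.a d)
  b := Sum.elim (fun g => pj T (σ g) (L.b g)) fun d => inr (Γ.b d)
  wt := Sum.elim (fun g => if L.a g ∈ T ∧ L.b g ∈ T then 0 else L.wt g) Γ.wt

variable {L : Gr W E} {T : Finset W} {σ : E → G} {Γ : Gr G D} {e k f g : E} {d : D} {i j : G}
  {u v x p q r : W} {S R : Finset ({w // w ∉ T} ⊕ G)} {N : Finset (E ⊕ D)}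

theorem rep_lk (l : L.Lk g u v) : (L.rep T σ Γ).Lk (inl g) (pj T (σ g) u) (pj T (σ g) v) := by
  rcases l with ⟨rfl, rfl⟩ | ⟨rfl, rfl⟩
  exacts [Or.inl ⟨rfl, rfl⟩, Or.inr ⟨rfl, rfl⟩]

theorem rep_lk2 (l : Γ.Lk d i j) : (L.rep T σ Γ).Lk (inr d) (inr i) (inr j) := by
  rcases l with ⟨rfl, rfl⟩ | ⟨rfl, rfl⟩
  exacts [Or.inl ⟨rfl, rfl⟩, Or.inr ⟨rfl, rfl⟩]

theorem rep_lk_out (l : L.Lk g u v) (h : u ∉ T) :
    (L.rep T σ Γ).Lk (inl g) (inl ⟨u, h⟩) (pj T (σ g) v) := by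
  have := rep_lk (T := T) (σ := σ) (Γ := Γ) l
  rwa [pj_out h] at this

theorem rep_lk_cr (l : L.Lk g u v) (h : u ∈ T) (h' : v ∉ T) :
    (L.rep T σ Γ).Lk (inl g) (inr (σ g)) (inl ⟨v, h'⟩) := by
  have := rep_lk (T := T) (σ := σ) (Γ := Γ) l
  rwa [pj_in h, pj_out h'] at this

@[simp] theorem rep_wt2 : (L.rep T σ Γ).wt (inr d) = Γ.wt d := rfl

theorem rep_wt0 (h : (L.rep T σ Γ).wt (inl g) ≠ 0) :
    (L.rep T σ Γ).wt (inl g) = L.wt g ∧ ¬ (L.a g ∈ T ∧ L.b g ∈ T) := by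
  simp only [rep, elim_inl] at *
  split_ifs at * with c
  exacts [absurd rfl h, ⟨rfl, c⟩]

theorem rep_wt (l : L.Inc g u) (h : u ∉ T) : (L.rep T σ Γ).wt (inl g) = L.wt g :=
  if_neg fun c => by rcases l with rfl | rfl; exacts [h c.1, h c.2]

theorem rep_wt_cr (c : L.Cr T g) : (L.rep T σ Γ).wt (inl g) = L.wt g := by
  obtain ⟨_, _, l, -, j⟩ := c.lk
  exact rep_wt l.inc2 j

theorem rep_wt_in (l : L.Lk g u v) (h : u ∈ T) (h' : v ∈ T) : (L.rep T σ Γ).wt (inl g) = 0 := by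
  rcases l with ⟨rfl, rfl⟩ | ⟨rfl, rfl⟩ <;> exact if_pos ⟨‹_›, ‹_›⟩

theorem rep_inc (h : u ∉ T) : (L.rep T σ Γ).Inc (inl g) (inl ⟨u, h⟩) ↔ L.Inc g u := by
  simp only [Inc, rep, elim_inl, pj_inl]

theorem rep_inc2 (z : {w // w ∉ T}) : ¬ (L.rep T σ Γ).Inc (inr d) (inl z) := by simp [Inc, rep]

theorem rep_inc3 : (L.rep T σ Γ).Inc (inr d) (inr i) ↔ Γ.Inc d i := by simp [Inc, rep]

theorem rep_inc4 (w : (L.rep T σ Γ).wt (inl g) ≠ 0) (h : (L.rep T σ Γ).Inc (inl g) (inr i)) :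
    L.wt g ≠ 0 ∧ L.Cr T g ∧ σ g = i := by
  have a := rep_wt0 w
  simp only [Inc, rep, elim_inl, pj_inr] at h
  refine ⟨a.1 ▸ w, ?_, h.elim And.right And.right⟩
  simp only [Cr]
  tauto

theorem rep_w2 (h : ∀ g, L.wt g ≤ 2) (h' : ∀ d, Γ.wt d ≤ 2) (g : E ⊕ D) :
    (L.rep T σ Γ).wt g ≤ 2 := by
  rcases g with g | d
  · by_cases w : (L.rep T σ Γ).wt (inl g) = 0
    · omega
    · exact (rep_wt0 w).1 ▸ h g
  · exact h' d

theorem rep_dg (h : u ∉ T) (n : ℕ) : (L.rep T σ Γ).dg n (inl ⟨u, h⟩) = L.dg n u := by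
  simp only [dg, Fintype.sum_sum_type]
  rw [sum_eq_zero (s := (univ : Finset D)) fun d _ => by simp [en, rep], add_zero]
  refine sum_congr rfl fun g _ => ?_
  have e : (L.rep T σ Γ).en (inl g) (inl ⟨u, h⟩) = L.en g u := by
    simp only [en, rep, elim_inl, pj_inl]
  rw [e]
  by_cases c : L.Inc g u
  · rw [rep_wt c h]
  · simp [not_not.1 (mt en_ne.1 c)]

theorem rep_isO (h : u ∉ T) : (L.rep T σ Γ).IsO (inl ⟨u, h⟩) ↔ L.IsO u := by
  rw [isO_iff, isO_iff, rep_dg]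

theorem rep_cov (h : u ∉ T) : (L.rep T σ Γ).Cov N (inl ⟨u, h⟩) ↔ L.Cov (pe N) u :=
  ⟨fun ⟨g, a, b⟩ => by
    rcases g with g | d
    exacts [⟨g, mem_pe.2 a, (rep_inc h).1 b⟩, absurd b (rep_inc2 _)],
   fun ⟨g, a, b⟩ => ⟨inl g, mem_pe.1 a, (rep_inc h).2 b⟩⟩

theorem rep_ord (o : L.Ord u e k f p q r) (h : u ∉ T) : (L.rep T σ Γ).Ord (inl ⟨u, h⟩) (inl e)
    (inl k) (inl f) (pj T (σ e) p) (pj T (σ k) q) (pj T (σ f) r) :=
  ⟨by simpa using o.ne, (rep_wt o.le.inc1 h).trans o.we, (rep_wt o.lk.inc1 h).trans o.wk,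
    (rep_wt o.lf.inc1 h).trans o.wf, rep_lk_out o.le h, rep_lk_out o.lk h, rep_lk_out o.lf h,
    mt (pj_inl h).1 o.np, mt (pj_inl h).1 o.nq, mt (pj_inl h).1 o.nr, fun g w i => by
      rcases g with g | d
      · simpa using o.all g ((rep_wt0 w).1 ▸ w) ((rep_inc h).1 i)
      · exact absurd i (rep_inc2 _)⟩

theorem rep_fc (X : Finset E) (h : ∀ g ∈ X, L.wt g = 1 ∧ L.a g ∈ T ∧ L.b g ∈ T) :
    (L.rep T σ Γ).fc + X.card ≤ L.fc + Γ.fc := by
  simp only [fc, Fintype.sum_sum_type]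
  have a1 : ∑ g ∈ X, (if (L.rep T σ Γ).wt (inl g) = 1 then 1 else 0) = 0 :=
    sum_eq_zero fun g c => by simp [rep, h g c]
  have a2 : ∑ g ∈ X, (if L.wt g = 1 then 1 else 0) = X.card := by
    rw [card_eq_sum_ones]; exact sum_congr rfl fun g c => if_pos (h g c).1
  have a3 : ∑ g ∈ Xᶜ, (if (L.rep T σ Γ).wt (inl g) = 1 then 1 else 0) ≤
      ∑ g ∈ Xᶜ, if L.wt g = 1 then 1 else 0 := sum_le_sum fun g _ => by
    split_ifs with c1 c2 <;>
      first | omega | exact absurd ((rep_wt0 (c1 ▸ one_ne_zero)).1.symm.trans c1) c2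
  rw [← sum_add_sum_compl X, ← sum_add_sum_compl X fun g => if L.wt g = 1 then 1 else 0]
  have a4 : ∑ d, (if (L.rep T σ Γ).wt (inr d) = 1 then 1 else 0) =
    ∑ d, if Γ.wt d = 1 then 1 else 0 := rfl
  omega

theorem rep_cr (h : inr (σ g) ∈ S ↔ inr i ∈ S) : (L.rep T σ Γ).Cr S (inl g) ↔ L.Cr (pb T i S) g := by
  simp only [Cr, rep, elim_inl, mem_pb, pj_mem h]

theorem rep_om (i : G) (X : Finset E)
    (h : ∀ g, L.wt g ≠ 0 → L.Cr T g → g ∉ X → (inr (σ g) ∈ S ↔ inr i ∈ S)) :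
    (L.rep T σ Γ).om S + ∑ g ∈ X, L.wt g * ch (pb T i S) (L.a g) (L.b g) = L.om (pb T i S) +
      ∑ g ∈ X, (L.rep T σ Γ).wt (inl g) * ch S ((L.rep T σ Γ).a (inl g)) ((L.rep T σ Γ).b (inl g)) +
      ∑ d, Γ.wt d * ch S (inr (Γ.a d)) (inr (Γ.b d)) := by
  have := sum_chg X (fun g => (L.rep T σ Γ).wt (inl g) * ch S ((L.rep T σ Γ).a (inl g))
    ((L.rep T σ Γ).b (inl g))) (fun g => L.wt g * ch (pb T i S) (L.a g) (L.b g)) fun g c => by
      by_cases w : L.wt g = 0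
      · simp [rep, w]
      have := h g w
      simp only [Cr, rep, elim_inl, ch, mem_pb] at *
      by_cases c1 : L.a g ∈ T <;> by_cases c2 : L.b g ∈ T <;> simp_all [pj_in, pj_out]
  simp only [om, cw, Fintype.sum_sum_type]
  simp only [rep, elim_inr, elim_inl] at *
  omega

theorem rep_om' (a : Aon S) (i : G) : (L.rep T σ Γ).om S = L.om (pb T i S) := by
  have := rep_om (L := L) (σ := σ) (Γ := Γ) (S := S) i ∅ fun _ _ _ _ => a ..
  rwa [sum_empty, sum_empty, sum_eq_zero fun d _ => by rw [ch_zero (a ..), mul_zero]] at this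

theorem rep_c4 (i : G) (h : ∀ S u, u ∈ S → Disjoint S T → 4 ≤ L.om S)
    (h2 : ∀ S i j, inr i ∈ S → inr j ∉ S → 4 ≤ (L.rep T σ Γ).om S) : (L.rep T σ Γ).C4 := by
  have key : ∀ (S : Finset ({w // w ∉ T} ⊕ G)) z, z ∈ S → (∀ j, inr j ∉ S) →
      4 ≤ (L.rep T σ Γ).om S := fun S z a b => by
    rw [rep_om' (fun i j => by simp [b]) i]
    rcases z with ⟨z, hz⟩ | z
    · exact h _ z (by simpa [pj_out hz] using a) (pb_disj (b i))
    · exact absurd a (b z)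
  intro S u v a b
  by_cases c : ∃ j, inr j ∈ S
  · by_cases c' : ∃ j, inr j ∉ S
    · exact h2 S _ _ c.choose_spec c'.choose_spec
    · rw [← om_compl]
      exact key _ v (mem_compl.2 b) fun j z => c' ⟨j, mem_compl.1 z⟩
  · exact key S u a fun j z => c ⟨j, z⟩

theorem rep_valid (w : ∀ g, L.wt g ≤ 2) (w' : ∀ d, Γ.wt d ≤ 2)
    (dg : ∀ u, u ∉ T → L.dg 1 u = 0 ∨ (L.dg 1 u = 2 ∧ L.dg 2 u = 1))
    (dg' : ∀ i, (L.rep T σ Γ).IsO (inr i) → ∃ e k f p q r, (L.rep T σ Γ).Ord (inr i) e k f p q r)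
    (c : (L.rep T σ Γ).C4) : (L.rep T σ Γ).Valid :=
  ⟨rep_w2 w w', fun u => by
    rcases u with ⟨u, h⟩ | i
    · simpa only [rep_dg] using dg u h
    · exact deg_of (dg' i), c⟩

/-- A solution of the new graph gives a solution outside the replaced set. -/
theorem Sol.half (i : G) (h : (L.rep T σ Γ).Sol N) : L.Half T (pe N) := by
  refine ⟨fun g c => ?_, fun S u a b => ?_, fun g u v w l n1 n2 o1 o2 => ?_⟩
  · have a := h.fr _ (mem_pe.1 c)
    have b := rep_wt0 (L := L) (T := T) (σ := σ) (Γ := Γ) (g := g) (by omega)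
    exact ⟨b.1 ▸ a, b.2⟩
  · let S' : Finset ({w // w ∉ T} ⊕ G) := (S.subtype (· ∉ T)).disjSum ∅
    have n : u ∉ T := disjoint_left.1 b a
    have e : pb T i S' = S := by
      ext z
      by_cases c : z ∈ T
      · simp [S', pj_in c, disjoint_right.1 b c]
      · simp [S', pj_out c]
    have e2 : (L.rep T σ Γ).kp N = (L.kp (pe N)).rep T σ (Γ.kp (univ.filter fun d => inr d ∈ N)) := by
      simp only [kp, rep, Gr.mk.injEq, true_and]
      funext g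
      rcases g with g | d
      · by_cases c : L.a g ∈ T ∧ L.b g ∈ T <;> simp [c]
      · simp
    have := h.tw S' (inl ⟨u, n⟩) (inr i) (by simp [S', a]) (by simp [S'])
    rwa [e2, rep_om' (fun i j => by simp [S']) i, e] at this
  · have l' := rep_lk_out (σ := σ) (Γ := Γ) l n1
    rw [pj_out n2] at l'
    have := h.nd (inl g) _ _ ((rep_wt l.inc1 n1).trans w) l' ((rep_isO n1).2 o1) ((rep_isO n2).2 o2)
    rwa [rep_cov, rep_cov] at this

/-- Blocked edges of the new graph are blocked. -/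
theorem rep_blk (h : u ∈ T) (b : (L.rep T σ Γ).Blk (pj T i v) (pj T j x) (inl k))
    (a : ∀ S, (L.rep T σ Γ).Ct (pj T i v) (pj T j x) S → (L.rep T σ Γ).Cr S (inl k) → Aon S) :
    L.Blk v x k := by
  have key : ∀ S, Aon S → (L.rep T σ Γ).Ct (pj T i v) (pj T j x) S → L.Ct v x (pb T i S) :=
    fun S a c => ⟨(rep_om' a i).symm.trans c.1, mem_pb.2 c.2.1,
      fun z => c.2.2 ((pj_mem (a ..)).1 (mem_pb.1 z))⟩
  rcases b with ⟨S, g, c, c1, w, c2⟩ | ⟨S, R, n, c, c', c1, c2⟩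
  · have a := a S c c1
    rcases g with g | d
    · exact Or.inl ⟨_, g, key S a c, (rep_cr (a ..)).1 c1, (rep_wt0 (w ▸ two_ne_zero)).1.symm.trans w,
        (rep_cr (a ..)).1 c2⟩
    · exact absurd (a ..) c2
  · exact Or.inr ⟨_, _, fun z => n (pb_inj h (a S c c1) (a R c' c2) z), key S (a S c c1) c,
      key R (a R c' c2) c', (rep_cr (a S c c1 ..)).1 c1, (rep_cr (a R c' c2 ..)).1 c2⟩

end Gr

end Pool.Agent.P.MP_92d394_lc.H
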