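import Pool.Agent.P.MP_92d394_lc.H.G5

/-! Contraction and the pair gadget. -/

set_option linter.unusedSectionVars false

namespace Pool.Agent.P.MP_92d394_lc.H

open Finset Sum

variable {W E : Type} [Fintype W] [DecidableEq W] [Fintype E] [DecidableEq E]

namespace Gr

/-- The one vertex gadget. -/
def emp : Gr Unit Empty := ⟨Empty.elim, Empty.elim, Empty.elim⟩

/-- The pair gadget. -/
def pr2 : Gr Bool Unit := ⟨fun _ => true, fun _ => false, fun _ => 2⟩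

/-- Contraction of a set. -/
abbrev con (L : Gr W E) (T : Finset W) := L.rep T (fun _ => ()) emp

/-- Three legs, one of them forced. -/
structure Leg (L : Gr W E) (T : Finset W) (c d f : E) : Prop where
  ne : c ≠ d
  wc : L.wt c = 1
  wd : L.wt d = 1
  wf : L.wt f = 2
  cc : L.Cr T c
  cd : L.Cr T d
  cf : L.Cr T f
  all : ∀ g, L.wt g ≠ 0 → L.Cr T g → g = c ∨ g = d ∨ g = f

/-- The two legs at one vertex of the pair. -/
structure Duo (L : Gr W E) (T : Finset W) (σ : E → Bool) (i : Bool) (e m : E) : Prop where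
  ne : e ≠ m
  we : L.wt e = 1
  wm : L.wt m = 1
  ce : L.Cr T e
  cm : L.Cr T m
  se : σ e = i
  sm : σ m = i
  all : ∀ g, L.wt g ≠ 0 → L.Cr T g → σ g = i → g = e ∨ g = m

/-- Two edges in a larger tight cut. -/
def Rel (L : Gr W E) (T : Finset W) (e g : E) : Prop :=
  ∃ S, L.om S = 4 ∧ T ⊆ S ∧ T ≠ S ∧ L.Cr S e ∧ L.Cr S g

variable {L : Gr W E} {T : Finset W} {σ : E → Bool} {i : Bool} {c d e f g h k m g₁ g₂ : E}
  {u v x p q r : W}

theorem aon_unit {X : Type} (S : Finset (X ⊕ Unit)) : Aon S := fun _ _ => Iff.rfl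

theorem emp_fc : emp.fc = 0 := by simp [fc]

theorem pr2_fc : pr2.fc = 0 := by simp [fc, pr2]

theorem Leg.symm (h : L.Leg T c d f) : L.Leg T d c f :=
  ⟨h.ne.symm, h.wd, h.wc, h.wf, h.cd, h.cc, h.cf, fun g a b => by have := h.all g a b; tauto⟩

theorem Leg.compl (h : L.Leg T c d f) : L.Leg Tᶜ c d f :=
  ⟨h.ne, h.wc, h.wd, h.wf, cr_compl.2 h.cc, cr_compl.2 h.cd, cr_compl.2 h.cf,
    fun g a b => h.all g a (cr_compl.1 b)⟩

theorem Leg.ord (h : L.Leg T c d f) (l : L.Lk c u p) (a : u ∈ T) (b : p ∉ T) :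
    ∃ q r, (L.con T).Ord (inr ()) (inl c) (inl d) (inl f) (inl ⟨p, b⟩) q r := by
  obtain ⟨_, q, l2, a2, b2⟩ := h.cd.lk
  obtain ⟨_, r, l3, a3, b3⟩ := h.cf.lk
  refine ⟨_, _, by simpa using h.ne, (rep_wt_cr h.cc).trans h.wc, (rep_wt_cr h.cd).trans h.wd,
    (rep_wt_cr h.cf).trans h.wf, rep_lk_cr l a b, rep_lk_cr l2 a2 b2, rep_lk_cr l3 a3 b3, by simp,
    by simp, by simp, fun g w j => ?_⟩
  rcases g with g | g
  · simpa using h.all g (rep_inc4 w j).1 (rep_inc4 w j).2.1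
  · exact g.elim

theorem Leg.valid (h : L.Leg T c d f) (w : ∀ g, L.wt g ≤ 2)
    (dg : ∀ u, u ∉ T → L.dg 1 u = 0 ∨ (L.dg 1 u = 2 ∧ L.dg 2 u = 1))
    (c4 : ∀ S u, u ∈ S → Disjoint S T → 4 ≤ L.om S) : (L.con T).Valid := by
  obtain ⟨_, _, l, a, b⟩ := h.cc.lk
  obtain ⟨_, _, o⟩ := h.ord l a b
  exact rep_valid w (fun d => d.elim) dg (fun _ _ => ⟨_, _, _, _, _, _, o⟩)
    (rep_c4 () c4 fun S _ _ a b => absurd a b)

theorem C4.out (c : L.C4) (a : u ∈ T) (S : Finset W) (z : W) (i : z ∈ S) (j : Disjoint S T) :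
    4 ≤ L.om S := c S z u i (disjoint_right.1 j a)

theorem Duo.symm (h : L.Duo T σ i e m) : L.Duo T σ i m e :=
  ⟨h.ne.symm, h.wm, h.we, h.cm, h.ce, h.sm, h.se, fun g a b c => (h.all g a b c).symm⟩

theorem Duo.compl (h : L.Duo T σ i e m) : L.Duo Tᶜ σ i e m :=
  ⟨h.ne, h.we, h.wm, cr_compl.2 h.ce, cr_compl.2 h.cm, h.se, h.sm,
    fun g a b => h.all g a (cr_compl.1 b)⟩

theorem Duo.ord (h : L.Duo T σ i e m) (l : L.Lk e u p) (a : u ∈ T) (b : p ∉ T) :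
    ∃ q, (L.rep T σ pr2).Ord (inr i) (inl e) (inl m) (inr ()) (inl ⟨p, b⟩) q (inr !i) := by
  obtain ⟨_, q, l2, a2, b2⟩ := h.cm.lk
  have l' := rep_lk_cr (σ := σ) (Γ := pr2) l a b
  have l2' := rep_lk_cr (σ := σ) (Γ := pr2) l2 a2 b2
  rw [h.se] at l'
  rw [h.sm] at l2'
  refine ⟨_, by simpa using h.ne, (rep_wt_cr h.ce).trans h.we, (rep_wt_cr h.cm).trans h.wm, rfl,
    l', l2', rep_lk2 (by cases i <;> simp [Lk, pr2]), by simp, by simp, by simp, fun g w j => ?_⟩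
  rcases g with g | g
  · have := rep_inc4 w j
    have := h.all g this.1 this.2.1 this.2.2
    simpa using this
  · simp

theorem Duo.split (h : L.Duo T σ i e m) (c4 : ∀ S u, u ∈ S → Disjoint S T → 4 ≤ L.om S)
    (l : L.Lk e u p) (a : u ∈ T) (b : p ∉ T) {S : Finset ({w // w ∉ T} ⊕ Bool)} (s1 : inr i ∈ S)
    (s2 : inr (!i) ∉ S) : 4 ≤ (L.rep T σ pr2).om S ∧
      ((L.rep T σ pr2).om S = 4 → inl ⟨p, b⟩ ∉ S → ∀ z, inl z ∉ S) := by
  obtain ⟨u2, q, l2, a2, b2⟩ := h.cm.lk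
  have a1 := rep_om (L := L) (σ := σ) (Γ := pr2) (S := S) (!i) {e, m} fun g w c n => by
    have : σ g ≠ i := fun z => n (by simpa using h.all g w c z)
    rw [Bool.eq_not_iff.2 this]
  have l' := rep_lk_cr (σ := σ) (Γ := pr2) l a b
  have l2' := rep_lk_cr (σ := σ) (Γ := pr2) l2 a2 b2
  have e2 : ∑ d, pr2.wt d * ch S (inr (pr2.a d)) (inr (pr2.b d)) = 2 := by
    have : ch S (inr true) (inr false) = 1 := ch_one (by cases i <;> simp_all)
    simp [pr2, this]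
  simp only [sum_pair h.ne, l.ch, l2.ch, l'.ch, l2'.ch, rep_wt_cr h.ce, rep_wt_cr h.cm, h.we, h.wm,
    h.se, h.sm, e2] at a1
  simp only [ch, mem_pb, pj_in a, pj_in a2, pj_out b, pj_out b2, s1, s2] at a1
  have a3 : ∀ z, inl z ∈ S → 4 ≤ L.om (pb T (!i) S) := fun z j =>
    c4 _ z.1 (by simpa [pj_out z.2] using j) (pb_disj s2)
  have a4 := a3 ⟨p, b⟩
  have a5 := a3 ⟨q, b2⟩
  refine ⟨?_, fun t n z j => ?_⟩
  · by_cases c1 : inl ⟨p, b⟩ ∈ S <;> by_cases c2 : inl ⟨q, b2⟩ ∈ S <;>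
      simp [c1, c2] at a1 a4 a5 <;> omega
  · have := a3 z j
    by_cases c2 : inl ⟨q, b2⟩ ∈ S <;> simp [*] at a1 <;> omega

theorem duo_valid (c : L.Valid) (h : ∀ i, ∃ e m, L.Duo T σ i e m) : (L.rep T σ pr2).Valid := by
  refine rep_valid c.w2 (fun _ => le_rfl) (fun u _ => c.deg u) (fun i _ => ?_) ?_
  · obtain ⟨e, m, h⟩ := h i
    obtain ⟨_, _, l, a, b⟩ := h.ce.lk
    obtain ⟨_, o⟩ := h.ord l a b
    exact ⟨_, _, _, _, _, _, o⟩
  · obtain ⟨_, _, h0⟩ := h true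
    obtain ⟨_, _, -, a0, -⟩ := h0.ce.lk
    refine rep_c4 true (c.c4.out a0) fun S i j s1 s2 => ?_
    obtain ⟨e, m, h⟩ := h i
    obtain ⟨_, _, l, a, b⟩ := h.ce.lk
    have : j = !i := Bool.eq_not_iff.2 fun z => s2 (z ▸ s1)
    exact (h.split (c.c4.out a) l a b s1 (this ▸ s2)).1

theorem Duo.aon (h : L.Duo T σ i e m) (c : L.C4) (l : L.Lk e u p) (a : u ∈ T) (b : p ∉ T)
    (w : (L.rep T σ pr2).wt (inl k) ≠ 0) (n1 : k ≠ e) (n2 : k ≠ m) (S : Finset ({w // w ∉ T} ⊕ Bool))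
    (t : (L.rep T σ pr2).Ct (inr i) (inl ⟨p, b⟩) S) (j : (L.rep T σ pr2).Cr S (inl k)) : Aon S := by
  by_cases s2 : inr (!i) ∈ S
  · have := t.2.1
    intro x y
    cases i <;> cases x <;> cases y <;> simp_all
  have a1 := (h.split (c.out a) l a b t.2.1 s2).2 t.1 t.2.2
  obtain ⟨z, _, lk, z1, -⟩ := j.lk
  rcases z with z | z
  · exact absurd z1 (a1 z)
  · have e1 : z = i := by
      by_contra n
      exact s2 (Bool.eq_not_iff.2 n ▸ z1)
    have := rep_inc4 w lk.inc1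
    exact ((h.all k this.1 this.2.1 (this.2.2.trans e1)).elim n1 n2).elim

theorem Rel.symm (h : L.Rel T e g) : L.Rel T g e :=
  let ⟨S, a, b, c, d, e⟩ := h; ⟨S, a, b, c, e, d⟩

theorem rel_uniq (c : L.C4) (t : L.om T = 4) (w : L.wt e ≠ 0) (w1 : L.wt g₁ ≠ 0) (w2 : L.wt g₂ ≠ 0)
    (c0 : L.Cr T e) (c1 : L.Cr T g₁) (c2 : L.Cr T g₂) (n1 : e ≠ g₁) (n2 : e ≠ g₂)
    (r1 : L.Rel T e g₁) (r2 : L.Rel T e g₂) : g₁ = g₂ := by
  by_contra n
  have sub : ∀ {S R g}, T ⊆ S → S ⊆ R → L.Cr T g → L.Cr R g → L.Cr S g := fun {S R g} a b p q => by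
    obtain ⟨u, v, l, i, j⟩ := p.lk
    exact l.cr1 (a i) fun z => (l.cr _).1 q (iff_of_true (b (a i)) (b z))
  obtain ⟨S, s, a1, b1, d1, e1⟩ := r1
  obtain ⟨R, r, a2, b2, d2, e2⟩ := r2
  obtain ⟨u, v, l, i, j⟩ := c0.lk
  have o : ∀ {S}, T ⊆ S → L.Cr S e → v ∉ S := fun a d z => (l.cr _).1 d (by simp [z, a i])
  rcases c.nest s r l w (a1 i) (a2 i) (o a1 d1) (o a2 d2) with z | z
  · exact c.sh3 t s a1 b1 w w1 w2 n1 n2 n c0 d1 c1 e1 c2 (sub a1 z c2 e2)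
  · exact c.sh3 t r a2 b2 w w1 w2 n1 n2 n c0 d2 c1 (sub a2 z c1 e1) c2 e2

theorem Duo.rel (h : L.Duo T σ i e m) (h' : L.Duo T σ (!i) g k) (c : L.C4) (l : L.Lk e u p)
    (a : u ∈ T) (b : p ∉ T) (bl : (L.rep T σ pr2).Blk (inr i) (inl ⟨p, b⟩) (inl g)) : L.Rel T e g := by
  have n : ∀ {e}, σ e = i → g ≠ e := fun s z => by
    have := h'.se
    rw [z, s] at this
    simp at this
  have ao := h.aon c l a b (k := g) (by rw [rep_wt_cr h'.ce, h'.we]; simp) (n h.se) (n h.sm)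
  have key : ∀ S, (L.rep T σ pr2).Ct (inr i) (inl ⟨p, b⟩) S → (L.rep T σ pr2).Cr S (inl g) →
      T ≠ pb T i S → L.Rel T e g := fun S t j n =>
    ⟨_, (rep_om' (ao S t j) i).symm.trans t.1, fun z hz => by simpa [pj_in hz] using t.2.1, n,
      l.cr1 (by simpa [pj_in a] using t.2.1) (by simpa [pj_out b] using t.2.2),
      (rep_cr (ao S t j ..)).1 j⟩
  rcases bl with ⟨S, f, t, j, w, j'⟩ | ⟨S, R, n, t, t', j, j'⟩
  · refine key S t j fun z => ?_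
    rcases f with f | f
    · have c1 : L.Cr T f := z ▸ (rep_cr (ao S t j ..)).1 j'
      rw [rep_wt_cr c1] at w
      have := h.we
      have := h.wm
      have := h'.we
      have := h'.wm
      by_cases s : σ f = i
      · rcases h.all f (by omega) c1 s with rfl | rfl <;> omega
      · rcases h'.all f (by omega) c1 (Bool.eq_not_iff.2 s) with rfl | rfl <;> omega
    · exact j' (ao S t j ..)
  · by_cases z : T = pb T i S
    · exact key R t' j' fun z' => n (pb_inj a (ao S t j) (ao R t' j') (z.symm.trans z'))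
    · exact key S t j z

theorem Duo.kp_le (h : L.Duo T σ i e m) (h' : L.Duo T σ (!i) g k) {N : Finset E} (a : e ∈ N) :
    (L.kp N).om T ≤ 3 :=
  (Gr.kp_le {m, g, k} fun z w n c => by
    by_cases s : σ z = i
    · simp [(h.all z w c s).resolve_left fun y => n (y ▸ a)]
    · rcases h'.all z w c (Bool.eq_not_iff.2 s) with y | y <;> simp [y]).trans card_le_three

/-- A solution inside a set is completed by an exact solution outside. -/
theorem Duo.fill (h : L.Duo T σ i e m) (h' : L.Duo T σ (!i) g k) (c : L.C4)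
    (an : (L.rep T σ pr2).Ant) (dr : (L.rep T σ pr2).Drv) (r1 : ¬ L.Rel T e g) (r2 : ¬ L.Rel T e k)
    {N₀ : Finset E} (s : L.Half Tᶜ N₀) (i1 : e ∈ N₀) (i2 : m ∉ N₀) (i3 : ¬ (g ∈ N₀ ∧ k ∈ N₀)) :
    ∃ N, L.Sol N ∧ N₀ ⊆ N ∧ ∀ u ∈ T, L.Cov N u → L.Cov N₀ u := by
  obtain ⟨u, p, l, a, b⟩ := h.ce.lk
  obtain ⟨q, o⟩ := h.ord l a b
  have fin : ∀ N, (L.rep T σ pr2).Sol N → inl e ∈ N → (inl g ∈ N ↔ g ∈ N₀) → (inl k ∈ N ↔ k ∈ N₀) →
      ∃ N, L.Sol N ∧ N₀ ⊆ N ∧ ∀ u ∈ T, L.Cov N u → L.Cov N₀ u := fun N t j1 j2 j3 => by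
    have t' := t.half i
    have eq : ∀ z, L.Cr T z → (z ∈ pe N ↔ z ∈ N₀) := fun z cz => by
      by_cases w : L.wt z = 0
      · exact iff_of_false (fun y => by have := (t'.fr z y).1; omega)
          fun y => by have := (s.fr z y).1; omega
      rw [mem_pe]
      by_cases y : σ z = i
      · rcases h.all z w cz y with rfl | rfl
        exacts [iff_of_true j1 i1, iff_of_false (o.mat t.tw j1) i2]
      · rcases h'.all z w cz (Bool.eq_not_iff.2 y) with rfl | rfl <;> assumption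
    refine ⟨_, t'.glue s eq (h.kp_le h' (mem_pe.2 j1)) fun z x y w lz a b => ?_,
      subset_union_right, fun x hx ⟨z, z1, z2⟩ => ⟨z, (mem_union.1 z1).elim (fun y => ?_) id, z2⟩⟩
    · have := h.we
      have := h.wm
      have := h'.we
      have := h'.wm
      by_cases y : σ z = i
      · rcases h.all z (by omega) (lz.cr1 a b) y with rfl | rfl <;> omega
      · rcases h'.all z (by omega) (lz.cr1 a b) (Bool.eq_not_iff.2 y) with rfl | rfl <;> omega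
    · refine (eq z ?_).1 y
      have := (t'.fr z y).2
      rcases z2 with rfl | rfl <;> simp only [Cr] <;> tauto
  have two : ∀ {g k}, L.Duo T σ (!i) g k → ¬ L.Rel T e g → ∃ N, (L.rep T σ pr2).Sol N ∧ inl e ∈ N ∧
      inl g ∈ N ∧ inl k ∉ N := fun h' r => by
    obtain ⟨_, _, l', a', b'⟩ := h'.ce.lk
    obtain ⟨_, o'⟩ := h'.ord l' a' b'
    obtain ⟨N, t, j1, j2⟩ := dr _ _ _ _ _ _ o.we o.le o.wf o.lf o'.we o'.le.inc1
      fun z => r (h.rel h' c l a b z)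
    exact ⟨N, t, j1, j2, o'.mat t.tw j2⟩
  by_cases c1 : g ∈ N₀
  · obtain ⟨N, t, j1, j2, j3⟩ := two h' r1
    exact fin N t j1 (iff_of_true j2 c1) (iff_of_false j3 fun z => i3 ⟨c1, z⟩)
  by_cases c2 : k ∈ N₀
  · obtain ⟨N, t, j1, j2, j3⟩ := two h'.symm r2
    exact fin N t j1 (iff_of_false j3 c1) (iff_of_true j2 c2)
  obtain ⟨_, _, l', a', b'⟩ := h'.ce.lk
  obtain ⟨_, o'⟩ := h'.ord l' a' b'
  obtain ⟨N, t, j1, j2⟩ := an _ _ _ _ _ o.we o.le o.wf o.lf o'.isO (by simp)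
  exact fin N t j1 (iff_of_false (fun z => j2 ⟨_, z, o'.le.inc1⟩) c1)
    (iff_of_false (fun z => j2 ⟨_, z, o'.lk.inc1⟩) c2)

end Gr

end Pool.Agent.P.MP_92d394_lc.H
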