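import Pool.Agent.P.MP_92d394_lc.H.G6

/-! Gluing along nontrivial tight cuts. -/

set_option linter.unusedSectionVars false

namespace Pool.Agent.P.MP_92d394_lc.H

open Finset Sum

variable {W E : Type} [Fintype W] [DecidableEq W] [Fintype E] [DecidableEq E]

namespace Gr

variable {L : Gr W E} {T A : Finset W} {e g h m : E} {u v x : W} {X : Finset E}

theorem leg_of (t : L.om T = 4) (we : L.wt e = 1) (wg : L.wt g = 2) (ce : L.Cr T e)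
    (cg : L.Cr T g) : ∃ h, L.Leg T e h g := by
  have n : g ≠ e := fun z => by rw [z] at wg; omega
  rw [om, cw, ← add_sum_erase _ _ (mem_univ e), ← add_sum_erase _ _ (mem_erase.2 ⟨n, mem_univ g⟩),
    we, wg, ch_one ce, ch_one cg] at t
  obtain ⟨h, h0, h1, h2⟩ := sum_one (show ∑ k ∈ (univ.erase e).erase g,
    L.wt k * ch T (L.a k) (L.b k) = 1 by omega)
  have c : L.Cr T h := fun z => by simp [ch_zero z] at h1
  rw [ch_one c, mul_one] at h1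
  simp only [mem_erase] at h0 h2
  refine ⟨h, h0.2.1.symm, we, h1, wg, ce, c, cg, fun k w ck => ?_⟩
  by_contra z
  push Not at z
  have := h2 k ⟨z.2.2, z.1, mem_univ k⟩ z.2.1
  rw [ch_one ck, mul_one] at this
  exact w this

theorem four (w2 : ∀ g, L.wt g ≤ 2) (t : L.om T = 4) (nf : ∀ g, L.wt g = 2 → ¬ L.Cr T g) :
    ∃ X : Finset E, X.card = 4 ∧ (∀ g ∈ X, L.wt g = 1 ∧ L.Cr T g) ∧
      ∀ g, L.wt g ≠ 0 → L.Cr T g → g ∈ X := by
  classical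
  have a : ∀ g ∈ univ.filter fun g => L.wt g ≠ 0 ∧ L.Cr T g, L.wt g = 1 ∧ L.Cr T g := fun g c => by
    have c := (mem_filter.1 c).2
    have := w2 g
    have : L.wt g ≠ 2 := fun z => nf g z c.2
    have := c.1
    exact ⟨by omega, c.2⟩
  refine ⟨_, ?_, a, fun g w c => by simp [*]⟩
  rw [← t, om, cw_eq (univ.filter fun g => L.wt g ≠ 0 ∧ L.Cr T g)
    fun g w c => mem_filter.2 ⟨mem_univ g, w, c⟩, card_eq_sum_ones]
  exact sum_congr rfl fun g c => by rw [(a g c).1, ch_one (a g c).2]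

theorem duo_mk (c : X.card = 4) (a : ∀ g ∈ X, L.wt g = 1 ∧ L.Cr T g)
    (b : ∀ g, L.wt g ≠ 0 → L.Cr T g → g ∈ X) (ie : e ∈ X) (im : m ∈ X) (n : e ≠ m) :
    ∃ σ g h, L.Duo T σ true e m ∧ L.Duo T σ false g h ∧ (g ∈ X ∧ g ≠ e ∧ g ≠ m) ∧
      h ∈ X ∧ h ≠ e ∧ h ≠ m := by
  obtain ⟨g, h, n', z⟩ := card_eq_two.1 (show ((X.erase e).erase m).card = 2 by
    rw [card_erase_of_mem (mem_erase.2 ⟨n.symm, im⟩), card_erase_of_mem ie, c])
  have k : ∀ y, y ≠ m ∧ y ≠ e ∧ y ∈ X ↔ y = g ∨ y = h := fun y => by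
    simpa using Finset.ext_iff.1 z y
  have kg := (k g).2 (Or.inl rfl)
  have kh := (k h).2 (Or.inr rfl)
  exact ⟨fun y => decide (y = e ∨ y = m), g, h, ⟨n, (a e ie).1, (a m im).1, (a e ie).2, (a m im).2,
    by simp, by simp, fun y _ _ s => by simpa using s⟩, ⟨n', (a g kg.2.2).1, (a h kh.2.2).1,
    (a g kg.2.2).2, (a h kh.2.2).2, by simp [kg], by simp [kh], fun y w c s => (k y).1
      ⟨fun z => by simp [z] at s, fun z => by simp [z] at s, b y w c⟩⟩,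
    ⟨kg.2.2, kg.2.1, kg.1⟩, kh.2.2, kh.2.1, kh.1⟩

theorem Leg.fill (l : L.Leg T e h g) (c : L.Valid) (dem : (L.con T).Dem) {N₀ : Finset E}
    (s : L.Half Tᶜ N₀) (i1 : e ∈ N₀) (i2 : h ∉ N₀) :
    ∃ N, L.Sol N ∧ N₀ ⊆ N ∧ ∀ u ∈ T, L.Cov N u → L.Cov N₀ u := by
  obtain ⟨u, p, le, a, b⟩ := l.cc.lk
  obtain ⟨u', p', lg, a', b'⟩ := l.cf.lk
  obtain ⟨_, _, o⟩ := l.ord le a b
  have hv := l.valid c.w2 (fun u _ => c.deg u) (c.c4.out a)
  obtain ⟨N, t, j1, j2⟩ : ∃ N, (L.con T).Sol N ∧ inl e ∈ N ∧ (L.IsO p' → L.Cov (pe N) p') := by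
    by_cases op : L.IsO p'
    · obtain ⟨_, _, _, _, _, _, o'⟩ := hv.ord' ((rep_isO b').2 op)
      obtain rfl := o'.part o.wf (rep_lk_cr lg a' b').symm
      obtain ⟨N, t, j1, j2⟩ := dem _ _ _ _ o.we o.le (dok_part hv.c4 o.we o.le o')
      exact ⟨N, t, j1, fun _ => (rep_cov b').1 j2⟩
    · obtain ⟨N, t, j1, -⟩ := dem _ _ _ _ o.we o.le (Or.inl rfl)
      exact ⟨N, t, j1, fun z => absurd z op⟩
  have t' := t.half ()
  have wf := l.wf
  have eq : ∀ z, L.Cr T z → (z ∈ pe N ↔ z ∈ N₀) := fun z cz => by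
    by_cases w : L.wt z = 1
    · rcases l.all z (by omega) cz with rfl | rfl | rfl
      exacts [iff_of_true (mem_pe.2 j1) i1,
        iff_of_false (fun y => o.mat t.tw j1 (mem_pe.1 y)) i2, by omega]
    · exact iff_of_false (fun y => w (t'.fr z y).1) fun y => w (s.fr z y).1
  refine ⟨_, t'.glue s eq ((kp_le {e, h, g} fun z w _ c => by simpa using l.all z w c).trans
    card_le_three) fun z x y w lz a b _ oy => Or.inr ?_, subset_union_right,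
    fun x hx ⟨z, z1, z2⟩ => ⟨z, (mem_union.1 z1).elim (fun y => ?_) id, z2⟩⟩
  · have := l.wc
    have := l.wd
    rcases l.all z (by omega) (lz.cr1 a b) with rfl | rfl | rfl
    · omega
    · omega
    · rcases lz.ends lg with y | y
      exacts [y.2 ▸ j2 (y.2 ▸ oy), absurd (y.2 ▸ a') b]
  · refine (eq z ?_).1 y
    have := (t'.fr z y).2
    rcases z2 with rfl | rfl <;> simp only [Cr] <;> tauto

/-- The side that carries the prescribed data. -/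
theorem side {G D : Type} [Fintype G] [DecidableEq G] [Fintype D] [DecidableEq D] {σ : E → G}
    {Γ : Gr G D} (r : (L.rep Aᶜ σ Γ).Dem ∧ (L.rep Aᶜ σ Γ).Ant ∧ (L.rep Aᶜ σ Γ).Drv)
    (we : L.wt e = 1) (le : L.Lk e v x) (iv : v ∈ A) (ix : x ∉ A)
    (fill : ∀ N, (L.rep Aᶜ σ Γ).Sol N → inl e ∈ N →
      ∃ N', L.Sol N' ∧ pe N ⊆ N' ∧ ∀ u ∈ A, L.Cov N' u → L.Cov (pe N) u) :
    (∃ N, L.Sol N ∧ e ∈ N) ∧ (∀ f s, L.wt f = 2 → L.Lk f v s → s ∈ A → L.IsO s →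
      ∃ N, L.Sol N ∧ e ∈ N ∧ ¬ L.Cov N s) ∧ ∀ k q, L.wt k = 1 → L.Inc k q → q ∈ A →
      ¬ (L.rep Aᶜ σ Γ).Blk (pj Aᶜ (σ e) v) (pj Aᶜ (σ e) x) (inl k) →
      (∃ N, L.Sol N ∧ e ∈ N ∧ L.Cov N q) ∧
        ∀ f, L.wt f = 2 → L.Lk f v q → ∃ N, L.Sol N ∧ e ∈ N ∧ k ∈ N := by
  have nv : ∀ {u}, u ∈ A → u ∉ Aᶜ := fun a => by simpa using a
  have w := (rep_wt (σ := σ) (Γ := Γ) le.inc1 (nv iv)).trans we
  have l := rep_lk (T := Aᶜ) (σ := σ) (Γ := Γ) le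
  have lf : ∀ {f s} (is : s ∈ A), L.Lk f v s →
      (L.rep Aᶜ σ Γ).Lk (inl f) (pj Aᶜ (σ e) v) (inl ⟨s, nv is⟩) := fun is l => by
    have := (rep_lk_out (σ := σ) (Γ := Γ) l.symm (nv is)).symm
    rwa [pj_out (nv iv)] at this ⊢
  refine ⟨?_, fun f s wf l' is o => ?_, fun k q wk i iq nb => ⟨?_, fun f wf l' => ?_⟩⟩
  · obtain ⟨N, t, j, -⟩ := r.1 _ _ _ _ w l (Or.inl rfl)
    obtain ⟨N', a, b, -⟩ := fill N t j
    exact ⟨N', a, b (mem_pe.2 j)⟩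
  · obtain ⟨N, t, j, j'⟩ := r.2.1 _ _ _ _ _ w l ((rep_wt l'.inc1 (nv iv)).trans wf) (lf is l')
      ((rep_isO _).2 o) (by rw [pj_in (mem_compl.2 ix)]; simp)
    obtain ⟨N', a, b, c⟩ := fill N t j
    exact ⟨N', a, b (mem_pe.2 j), fun z => j' ((rep_cov _).2 (c s is z))⟩
  · obtain ⟨N, t, j, j'⟩ := r.1 _ _ _ (inl ⟨q, nv iq⟩) w l
      (Or.inr (Or.inr ⟨_, (rep_wt i (nv iq)).trans wk, (rep_inc _).2 i, nb⟩))
    obtain ⟨N', a, b, -⟩ := fill N t j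
    obtain ⟨g, g1, g2⟩ := (rep_cov _).1 j'
    exact ⟨N', a, b (mem_pe.2 j), g, b g1, g2⟩
  · obtain ⟨N, t, j, j'⟩ := r.2.2 _ _ _ _ _ _ w l ((rep_wt l'.inc1 (nv iv)).trans wf) (lf iq l')
      ((rep_wt i (nv iq)).trans wk) ((rep_inc _).2 i) nb
    obtain ⟨N', a, b, -⟩ := fill N t j
    exact ⟨N', a, b (mem_pe.2 j), b (mem_pe.2 j')⟩

end Gr

open Gr

theorem glue3 : S_G3 := by
  intro W E _ _ _ _ L c ih e g v x u u' A we le t wg cg iu nu iu' nu'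
  obtain ⟨h, l⟩ := leg_of t.1 we wg (le.cr1 t.2.1 t.2.2) cg
  have r : ∀ {T a b}, L.Leg T e h g → a ∈ T → b ∈ T → a ≠ b →
      (L.con T).Dem ∧ (L.con T).Ant ∧ (L.con T).Drv := fun {T a b} l i j n => by
    have a1 := rep_fc (L := L) (T := T) (σ := fun _ => ()) (Γ := emp) ∅ (by simp)
    have a2 := card_rep (G := Unit) T
    have a3 := one_lt_card.2 ⟨a, i, b, j, n⟩
    rw [emp_fc] at a1
    rw [Fintype.card_unit] at a2
    exact ih _ _ _ (l.valid c.w2 (fun u _ => c.deg u) (c.c4.out i)) (Or.inr ⟨a1, by omega⟩)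
  have ix := mem_compl.2 t.2.2
  obtain ⟨_, _, o⟩ := l.compl.ord le.symm ix (by simpa using t.2.1)
  obtain ⟨s0, s1, s2⟩ := side (r l.compl (mem_compl.2 iu') ix nu') we le t.2.1 t.2.2 fun N a b =>
    l.fill c (r l iu t.2.1 nu).1 (a.half ()) (mem_pe.2 b) fun z => o.mat a.tw b (mem_pe.1 z)
  have s3 := fun k q wk i iq (nb : ¬ L.Blk v x k) =>
    s2 k q wk i iq fun z => nb (rep_blk ix z fun S _ _ => aon_unit S)
  have is : ∀ f s, L.wt f = 2 → L.Lk f v s → s ∈ A := fun f s wf lf => by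
    obtain ⟨_, _, _, _, ov⟩ := c.ord we le
    obtain rfl := ov.part wf lf
    by_contra n
    have a1 := ov.ers t.2.1
    have a2 := c.c4 (A.erase v) u v (mem_erase.2 ⟨nu, iu⟩) (notMem_erase _ _)
    rw [t.1, if_neg t.2.2, if_neg n] at a1
    split_ifs at a1 <;> omega
  refine ⟨fun q iq dk => ?_, fun f s wf lf o _ => s1 f s wf lf (is f s wf lf) o,
    fun f s k wf lf wk i nb => (s3 k s wk i (is f s wf lf) nb).2 f wf lf⟩
  rcases dk with rfl | rfl | ⟨k, wk, i, nb⟩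
  · obtain ⟨N, a, b⟩ := s0
    exact ⟨N, a, b, e, b, le.inc1⟩
  · exact absurd iq t.2.2
  · exact (s3 k q wk i iq nb).1

theorem glue4 : S_G4 := by
  intro W E _ _ _ _ L c ih e v x A we le t nf c1 c2
  have ce := le.cr1 t.2.1 t.2.2
  obtain ⟨X, x4, xa, xb⟩ := four c.w2 t.1 nf
  have ie := xb e (by omega) ce
  have ix := mem_compl.2 t.2.2
  have iv : v ∉ Aᶜ := by simpa using t.2.1
  obtain ⟨_, _, _, _, ov⟩ := c.ord we le
  have r : ∀ {T σ}, (∀ i, ∃ e m, L.Duo T σ i e m) → 3 ≤ T.card →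
      (L.rep T σ pr2).Dem ∧ (L.rep T σ pr2).Ant ∧ (L.rep T σ pr2).Drv := fun {T σ} l n => by
    have a1 := rep_fc (L := L) (T := T) (σ := σ) (Γ := pr2) ∅ (by simp)
    have a2 := card_rep (G := Bool) T
    rw [pr2_fc] at a1
    rw [Fintype.card_bool] at a2
    exact ih _ _ _ (duo_valid c l) (Or.inr ⟨a1, by omega⟩)
  have key : ∀ k, k = e ∨ ¬ L.Blk v x k → (∃ N, L.Sol N ∧ e ∈ N) ∧ (∀ f s, L.wt f = 2 → L.Lk f v s →
      s ∈ A → L.IsO s → ∃ N, L.Sol N ∧ e ∈ N ∧ ¬ L.Cov N s) ∧ ∀ q, L.wt k = 1 → L.Inc k q → q ∈ A →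
      ¬ L.Blk v x k → (∃ N, L.Sol N ∧ e ∈ N ∧ L.Cov N q) ∧
        ∀ f, L.wt f = 2 → L.Lk f v q → ∃ N, L.Sol N ∧ e ∈ N ∧ k ∈ N := fun k hk => by
    obtain ⟨m, im, n1, n2, nr⟩ : ∃ m ∈ X, e ≠ m ∧ k ≠ m ∧ ∀ z ∈ X, z ≠ e → z ≠ m → ¬ L.Rel A e z := by
      by_cases h : ∃ m ∈ X, e ≠ m ∧ L.Rel A e m
      · obtain ⟨m, im, n, rm⟩ := h
        refine ⟨m, im, n, fun z => hk.elim (fun y => n (y.symm.trans z)) fun y => y ?_,
          fun z iz n1 n2 rz => n2 (rel_uniq c.c4 t.1 (by omega) (by rw [(xa z iz).1]; simp)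
            (by rw [(xa m im).1]; simp) ce (xa z iz).2 (xa m im).2 n1.symm n rz rm)⟩
        obtain ⟨S, s, a, b, p, q⟩ := rm
        exact Or.inr ⟨A, S, b, t, ⟨s, a t.2.1, fun y => (le.cr _).1 p (iff_of_true (a t.2.1) y)⟩,
          z ▸ (xa m im).2, z ▸ q⟩
      · obtain ⟨m, im⟩ : ((X.erase e).erase k).Nonempty := card_pos.1 (by
          have := pred_card_le_card_erase (s := X.erase e) (a := k)
          rw [card_erase_of_mem ie] at this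
          omega)
        simp only [mem_erase] at im
        exact ⟨m, im.2.2, im.2.1.symm, im.1.symm, fun z iz n _ rz => h ⟨z, iz, n.symm, rz⟩⟩
    obtain ⟨σ, g, h, d1, d2, ⟨g1, g2, g3⟩, h1, h2, h3⟩ := duo_mk x4 xa xb ie im n1
    have rA := r (T := A) (σ := σ) (by rintro (_ | _); exacts [⟨_, _, d2⟩, ⟨_, _, d1⟩]) c1
    obtain ⟨_, o⟩ := d1.compl.ord le.symm ix iv
    obtain ⟨_, _, lg, a', b'⟩ := d2.compl.ce.lk
    obtain ⟨_, o'⟩ := d2.compl.ord lg a' b'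
    obtain ⟨s0, s1, s2⟩ := side (r (T := Aᶜ) (σ := σ)
      (by rintro (_ | _); exacts [⟨_, _, d2.compl⟩, ⟨_, _, d1.compl⟩]) c2) we le t.2.1 t.2.2
      fun N a b => d1.fill d2 c.c4 rA.2.1 rA.2.2 (nr g g1 g2 g3) (nr h h1 h2 h3) (a.half true)
        (mem_pe.2 b) (fun z => o.mat a.tw b (mem_pe.1 z))
        fun z => o'.mat a.tw (mem_pe.1 z.1) (mem_pe.1 z.2)
    refine ⟨s0, s1, fun q wk i iq nb => s2 k q wk i iq fun z => nb (rep_blk ix z fun S p j => ?_)⟩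
    rw [pj_out iv, pj_in ix, d1.se] at p
    have := d1.compl.aon c.c4 le.symm ix iv (k := k)
      (by rw [rep_wt i (by simpa using iq), wk]; simp)
      (fun z => nb (z ▸ ov.blk we le.inc1)) n2 Sᶜ p.compl (cr_compl.2 j)
    exact fun a b => by simpa only [mem_compl, not_iff_not] using this a b
  have is : ∀ f s, L.wt f = 2 → L.Lk f v s → s ∈ A := fun f s wf lf => by
    by_contra n
    exact nf f wf (lf.cr1 t.2.1 n)
  refine ⟨fun q iq dk => ?_, fun f s wf lf o _ => (key e (Or.inl rfl)).2.1 f s wf lf (is f s wf lf) o,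
    fun f s k wf lf wk i nb => ((key k (Or.inr nb)).2.2 s wk i (is f s wf lf) nb).2 f wf lf⟩
  rcases dk with rfl | rfl | ⟨k, wk, i, nb⟩
  · obtain ⟨N, a, b⟩ := (key e (Or.inl rfl)).1
    exact ⟨N, a, b, e, b, le.inc1⟩
  · exact absurd iq t.2.2
  · exact ((key k (Or.inr nb)).2.2 q wk i iq nb).1

end Pool.Agent.P.MP_92d394_lc.H
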