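import Pool.Agent.P.MP_92d394_lc.H.St

/-! One level of the certificate. -/

namespace Pool.Agent.P.MP_92d394_lc.H

open Finset

namespace Level

variable {V E : Type} [DecidableEq V] [DecidableEq E] {a b : E → V} {H : Finset E}

/-- The edges of `H` between two sets. -/
def bt (a b : E → V) (H : Finset E) (S T : Finset V) : Finset E :=
  H.filter fun e => (a e ∈ S ∧ b e ∈ T) ∨ (a e ∈ T ∧ b e ∈ S)

/-- The edge `e` joins `u` and `v`. -/
def Jn (a b : E → V) (e : E) (u v : V) : Prop := (a e = u ∧ b e = v) ∨ (a e = v ∧ b e = u)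

/-- Every split of `R` is crossed by an edge inside `R`. -/
def Conn (a b : E → V) (H : Finset E) (R : Finset V) : Prop :=
  ∀ S ⊆ R, S.Nonempty → S ≠ R → (bt a b H S (R \ S)).Nonempty

omit [DecidableEq E] in
theorem mem_dl {S : Finset V} {e : E} : e ∈ dl a b H S ↔ e ∈ H ∧ ¬ (a e ∈ S ↔ b e ∈ S) :=
  mem_filter

omit [DecidableEq E] in
theorem mem_bt {S T : Finset V} {e : E} :
    e ∈ bt a b H S T ↔ e ∈ H ∧ ((a e ∈ S ∧ b e ∈ T) ∨ (a e ∈ T ∧ b e ∈ S)) := mem_filter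

omit [DecidableEq E] in
theorem mem_bt' {S T : Finset V} {e : E} :
    e ∈ bt a b H S T ↔ e ∈ H ∧ ∃ u ∈ T, ∃ v ∈ S, Jn a b e u v := by
  rw [mem_bt]
  refine and_congr_right fun _ => ⟨?_, ?_⟩
  · rintro (⟨h1, h2⟩ | ⟨h1, h2⟩)
    exacts [⟨_, h2, _, h1, Or.inr ⟨rfl, rfl⟩⟩, ⟨_, h1, _, h2, Or.inl ⟨rfl, rfl⟩⟩]
  · rintro ⟨u, hu, v, hv, ⟨rfl, rfl⟩ | ⟨rfl, rfl⟩⟩
    exacts [Or.inr ⟨hu, hv⟩, Or.inl ⟨hv, hu⟩]

omit [DecidableEq V] [DecidableEq E] in
theorem Jn.symm {e : E} {u v : V} (h : Jn a b e u v) : Jn a b e v u := Or.symm h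

omit [DecidableEq V] [DecidableEq E] in
theorem Jn.eq {e : E} {u v u' v' : V} (h : Jn a b e u v) (h' : Jn a b e u' v') :
    (u = u' ∧ v = v') ∨ (u = v' ∧ v = u') := by
  rcases h with ⟨rfl, rfl⟩ | ⟨rfl, rfl⟩ <;> rcases h' with ⟨rfl, rfl⟩ | ⟨rfl, rfl⟩ <;> simp

omit [DecidableEq E] in
theorem Jn.dl {e : E} {u v : V} {S : Finset V} (h : Jn a b e u v) (he : e ∈ H) (hu : u ∉ S)
    (hv : v ∈ S) : e ∈ dl a b H S := by
  rw [mem_dl]
  rcases h with ⟨rfl, rfl⟩ | ⟨rfl, rfl⟩ <;> simp [he, hu, hv]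

omit [DecidableEq E] in
theorem jn_of_dl {e : E} {S : Finset V} (h : e ∈ dl a b H S) :
    ∃ u, u ∉ S ∧ ∃ v ∈ S, Jn a b e u v := by
  have h1 := (mem_dl.1 h).2
  by_cases h2 : a e ∈ S
  · exact ⟨b e, fun h3 => h1 (by simp [h2, h3]), a e, h2, Or.inr ⟨rfl, rfl⟩⟩
  · have h3 : b e ∈ S := by
      by_contra h3
      exact h1 (by simp [h2, h3])
    exact ⟨a e, h2, b e, h3, Or.inl ⟨rfl, rfl⟩⟩

omit [DecidableEq E] in
theorem dl_union {S T : Finset V} (h : Disjoint S T) :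
    (dl a b H S).card + (dl a b H T).card =
      (dl a b H (S ∪ T)).card + 2 * (bt a b H S T).card := by
  simp only [dl, bt, card_filter, mul_sum, ← sum_add_distrib]
  refine sum_congr rfl fun e _ => ?_
  have h1 : ¬ (a e ∈ S ∧ a e ∈ T) := fun x => disjoint_left.1 h x.1 x.2
  have h2 : ¬ (b e ∈ S ∧ b e ∈ T) := fun x => disjoint_left.1 h x.1 x.2
  simp only [mem_union]
  by_cases h3 : a e ∈ S <;> by_cases h4 : a e ∈ T <;> by_cases h5 : b e ∈ S <;>
    by_cases h6 : b e ∈ T <;> simp_all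

theorem four {v : V} (h3 : (dl a b H {v}).card ≤ 3) {X Y : Finset E} (hX : X ⊆ dl a b H {v})
    (hY : Y ⊆ dl a b H {v}) (hd : Disjoint X Y) (h1 : 2 ≤ X.card) (h2 : 2 ≤ Y.card) : False := by
  have := card_le_card (union_subset hX hY)
  rw [card_union_of_disjoint hd] at this
  omega

omit [DecidableEq E] in
theorem conn_single (t : V) : Conn a b H {t} := fun _ hS h1 h2 =>
  (h2 ((subset_singleton_iff.1 hS).resolve_left h1.ne_empty)).elim

omit [DecidableEq E] in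
theorem conn_insert {T : Finset V} (hT : Conn a b H T) {c d : V} {e : E} (he : e ∈ H)
    (hd : d ∈ T) (hj : Jn a b e d c) : Conn a b H (insert c T) := by
  intro S hS h1 h2
  by_cases h3 : (S ∩ T).Nonempty ∧ S ∩ T ≠ T
  · obtain ⟨g, hg⟩ := hT _ inter_subset_right h3.1 h3.2
    obtain ⟨hg, u, hu, v, hv, h4⟩ := mem_bt'.1 hg
    refine ⟨g, mem_bt'.2 ⟨hg, u, ?_, v, (mem_inter.1 hv).1, h4⟩⟩
    simp only [mem_sdiff, mem_inter, mem_insert] at hu ⊢
    tauto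
  · by_cases h4 : d ∈ S
    · have h5 : S ∩ T = T := by
        by_contra h5
        exact h3 ⟨⟨d, mem_inter.2 ⟨h4, hd⟩⟩, h5⟩
      have h6 : c ∉ S := fun h6 => h2 (Subset.antisymm hS
        (insert_subset h6 (h5 ▸ inter_subset_left)))
      exact ⟨e, mem_bt'.2 ⟨he, c, by simp [h6], d, h4, hj.symm⟩⟩
    · have h5 : ¬ (S ∩ T).Nonempty := fun h5 => h3 ⟨h5, fun h6 => h4 (mem_inter.1 (h6.symm ▸ hd)).1⟩
      obtain ⟨x, hx⟩ := h1
      have h6 : x = c := (mem_insert.1 (hS hx)).resolve_right fun h6 =>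
        h5 ⟨x, mem_inter.2 ⟨hx, h6⟩⟩
      exact ⟨e, mem_bt'.2 ⟨he, d, by simp [hd, h4], c, h6 ▸ hx, hj⟩⟩

/-- the next vertex of the order -/
theorem pick {U R : Finset V} {s t : V} (h3 : ∀ u ∈ U, (dl a b H {u}).card ≤ 3)
    (h2 : ∀ S ⊆ U, S.Nonempty → S ≠ U → 2 ≤ (bt a b H S (U \ S)).card)
    (hR : R ⊆ U) (ht : t ∈ R) (hs : s ∈ U) (hsR : s ∉ R) (hc : Conn a b H R) (hne : R ≠ {t}) :
    ∃ v ∈ R, v ≠ t ∧ Conn a b H (R.erase v) ∧ (bt a b H {v} (U \ R)).Nonempty := by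
  have hU : ∀ A ⊆ R, A ≠ U := fun A hA e1 => hsR (hA (e1 ▸ hs))
  have key : ∀ n, ∀ A : Finset V, A.card = n → A ⊆ R → t ∉ A → Conn a b H (R \ A) →
      (bt a b H A (U \ R)).Nonempty →
      ∃ v ∈ R, v ≠ t ∧ Conn a b H (R.erase v) ∧ (bt a b H {v} (U \ R)).Nonempty := by
    intro n
    induction n using Nat.strong_induction_on with
    | _ n ih =>
    intro A hn hA htA hcA hP
    by_contra hno
    have h4 : ∀ c ∈ A, ∀ e ∈ H, ∀ d ∈ R \ A, Jn a b e d c →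
        ¬ (bt a b H (A.erase c) (U \ R)).Nonempty := by
      intro c hc e he d hd hj h5
      refine hno (ih _ (hn ▸ card_erase_lt_of_mem hc) _ rfl ((erase_subset _ _).trans hA)
        (fun h6 => htA (mem_of_mem_erase h6)) ?_ h5)
      have h6 : R \ A.erase c = insert c (R \ A) := by
        ext x
        simp only [mem_sdiff, mem_erase, mem_insert]
        by_cases h7 : x = c
        · simp [h7, hA hc]
        · simp [h7]
      rw [h6]
      exact conn_insert hcA he hd hj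
    obtain ⟨e1, he1⟩ := hP
    obtain ⟨he1, p, hp, c, hcA', hj1⟩ := mem_bt'.1 he1
    have h5 : ∀ c' ∈ A, ∀ e ∈ H, ∀ d ∈ R \ A, Jn a b e d c' → c' = c := by
      intro c' hc' e he d hd hj
      by_contra h6
      exact h4 c' hc' e he d hd hj
        ⟨e1, mem_bt'.2 ⟨he1, p, hp, c, mem_erase.2 ⟨fun h7 => h6 h7.symm, hcA'⟩, hj1⟩⟩
    obtain ⟨e2, he2⟩ := hc A hA ⟨c, hcA'⟩ (fun h6 => htA (h6 ▸ ht))
    obtain ⟨he2, d, hd, c', hc', hj2⟩ := mem_bt'.1 he2
    obtain rfl := h5 c' hc' e2 he2 d hd hj2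
    have hpR := (mem_sdiff.1 hp).2
    have hdA := (mem_sdiff.1 hd).2
    by_cases h6 : (A.erase c').Nonempty
    · have h7 : ∀ e ∈ bt a b H (A.erase c') (U \ A.erase c'),
          e ∈ H ∧ ∃ v ∈ A.erase c', Jn a b e v c' := by
        intro e he
        obtain ⟨he, u, hu, v, hv, hj⟩ := mem_bt'.1 he
        refine ⟨he, v, hv, ?_⟩
        by_cases h8 : u = c'
        · exact h8 ▸ hj.symm
        exfalso
        have h9 : u ∉ A := fun h9 => (mem_sdiff.1 hu).2 (mem_erase.2 ⟨h8, h9⟩)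
        by_cases h10 : u ∈ R
        · exact (mem_erase.1 hv).1 (h5 v (mem_of_mem_erase hv) e he u (mem_sdiff.2 ⟨h10, h9⟩) hj)
        · exact h4 c' hc' e2 he2 d hd hj2
            ⟨e, mem_bt'.2 ⟨he, u, mem_sdiff.2 ⟨(mem_sdiff.1 hu).1, h10⟩, v, hv, hj⟩⟩
      have hpc : p ≠ c' := fun h8 => hpR (h8 ▸ hA hc')
      have hdc : d ≠ c' := fun h8 => hdA (h8 ▸ hc')
      refine four (h3 c' (hR (hA hc'))) (X := bt a b H (A.erase c') (U \ A.erase c'))
        (Y := {e1, e2}) ?_ ?_ ?_ (h2 _ ((erase_subset _ _).trans (hA.trans hR)) h6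
          (hU _ ((erase_subset _ _).trans hA))) ?_
      · intro e he
        obtain ⟨he, v, hv, hj⟩ := h7 e he
        exact hj.dl he (by simpa using (mem_erase.1 hv).1) (mem_singleton_self _)
      · intro e he
        rcases mem_insert.1 he with rfl | he
        · exact hj1.dl he1 (by simpa using hpc) (mem_singleton_self _)
        · rw [mem_singleton.1 he]
          exact hj2.dl he2 (by simpa using hdc) (mem_singleton_self _)
      · refine disjoint_left.2 fun e he he' => ?_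
        obtain ⟨-, v, hv, hj⟩ := h7 e he
        have hvA := mem_of_mem_erase hv
        rcases mem_insert.1 he' with rfl | he'
        · rcases hj.eq hj1 with ⟨rfl, -⟩ | ⟨-, h8⟩
          exacts [hpR (hA hvA), hpc h8.symm]
        · rw [mem_singleton.1 he'] at hj
          rcases hj.eq hj2 with ⟨rfl, -⟩ | ⟨-, h8⟩
          exacts [hdA hvA, hdc h8.symm]
      · rw [card_pair]
        rintro rfl
        rcases hj1.eq hj2 with ⟨rfl, -⟩ | ⟨h8, -⟩
        exacts [hpR (mem_sdiff.1 hd).1, hpc h8]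
    · have h7 : A = {c'} := by
        refine Subset.antisymm (fun x hx => ?_) (singleton_subset_iff.2 hc')
        by_contra h8
        exact h6 ⟨x, mem_erase.2 ⟨by simpa using h8, hx⟩⟩
      refine hno ⟨c', hA hc', fun h8 => htA (h8 ▸ hc'), ?_,
        e1, mem_bt'.2 ⟨he1, p, hp, c', mem_singleton_self _, hj1⟩⟩
      rwa [h7, sdiff_singleton_eq_erase] at hcA
  refine key _ (R.erase t) rfl (erase_subset _ _) (notMem_erase _ _) ?_ ?_
  · have : R \ R.erase t = {t} := by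
      ext x
      by_cases h4 : x = t
      · simp [h4, ht]
      · simp [h4]
    rw [this]
    exact conn_single t
  by_contra hno
  have h4 : (R.erase t).Nonempty := by
    by_contra h4
    refine hne (Subset.antisymm (fun x hx => ?_) (singleton_subset_iff.2 ht))
    by_contra h5
    exact h4 ⟨x, mem_erase.2 ⟨by simpa using h5, hx⟩⟩
  have h5 : ∀ e ∈ bt a b H (R.erase t) (U \ R.erase t), e ∈ H ∧ ∃ v ∈ R.erase t, Jn a b e v t := by
    intro e he
    obtain ⟨he, u, hu, v, hv, hj⟩ := mem_bt'.1 he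
    refine ⟨he, v, hv, ?_⟩
    by_cases h8 : u = t
    · exact h8 ▸ hj.symm
    · exact (hno ⟨e, mem_bt'.2 ⟨he, u, mem_sdiff.2 ⟨(mem_sdiff.1 hu).1, fun h9 =>
        (mem_sdiff.1 hu).2 (mem_erase.2 ⟨h8, h9⟩)⟩, v, hv, hj⟩⟩).elim
  have h6 : ∀ e ∈ bt a b H R (U \ R), e ∈ H ∧ ∃ u, u ∉ R ∧ Jn a b e u t := by
    intro e he
    obtain ⟨he, u, hu, v, hv, hj⟩ := mem_bt'.1 he
    refine ⟨he, u, (mem_sdiff.1 hu).2, ?_⟩
    by_cases h8 : v = t
    · exact h8 ▸ hj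
    · exact (hno ⟨e, mem_bt'.2 ⟨he, u, hu, v, mem_erase.2 ⟨h8, hv⟩, hj⟩⟩).elim
  refine four (h3 t (hR ht)) (X := bt a b H (R.erase t) (U \ R.erase t))
    (Y := bt a b H R (U \ R)) ?_ ?_ ?_
    (h2 _ ((erase_subset _ _).trans hR) h4 (hU _ (erase_subset _ _)))
    (h2 _ hR ⟨t, ht⟩ (hU _ Subset.rfl))
  · intro e he
    obtain ⟨he, v, hv, hj⟩ := h5 e he
    exact hj.dl he (by simpa using (mem_erase.1 hv).1) (mem_singleton_self _)
  · intro e he
    obtain ⟨he, u, hu, hj⟩ := h6 e he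
    exact hj.dl he (fun h7 => hu (mem_singleton.1 h7 ▸ ht)) (mem_singleton_self _)
  · refine disjoint_left.2 fun e he he' => ?_
    obtain ⟨-, v, hv, hj⟩ := h5 e he
    obtain ⟨-, u, hu, hj'⟩ := h6 e he'
    rcases hj.eq hj' with ⟨rfl, -⟩ | ⟨h7, -⟩
    exacts [hu (mem_of_mem_erase hv), (mem_erase.1 hv).1 h7]

/-- an order of the final segment `R` -/
def Good (a b : E → V) (H : Finset E) (U : Finset V) (s t : V) (R : Finset V) (f : V → ℕ) : Prop :=
  Set.InjOn f R ∧ ∀ v ∈ R,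
    (v ≠ s → ∃ e ∈ H, ∃ u ∈ U, Jn a b e u v ∧ (u ∉ R ∨ f u < f v)) ∧
      (v ≠ t → ∃ e ∈ H, ∃ u ∈ R, Jn a b e u v ∧ f v < f u)

omit [DecidableEq E] in
theorem Good.ext {U R : Finset V} {s t v : V} {f : V → ℕ} (h : Good a b H U s t (R.erase v) f)
    (h1 : (bt a b H {v} (R.erase v)).Nonempty)
    (h2 : v ≠ s → (bt a b H {v} (U \ R)).Nonempty) :
    Good a b H U s t R fun x => if x = v then 0 else f x + 1 := by
  refine ⟨fun x hx y hy e1 => ?_, fun x hx => ?_⟩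
  · by_cases h3 : x = v <;> by_cases h4 : y = v <;> simp only [h3, h4, if_true, if_false] at e1
    · rw [h3, h4]
    · omega
    · omega
    · exact h.1 (mem_erase.2 ⟨h3, hx⟩) (mem_erase.2 ⟨h4, hy⟩) (by omega)
  by_cases h3 : x = v
  · subst h3
    refine ⟨fun h4 => ?_, fun _ => ?_⟩
    · obtain ⟨e, he⟩ := h2 h4
      obtain ⟨he, u, hu, y, hy, hj⟩ := mem_bt'.1 he
      exact ⟨e, he, u, (mem_sdiff.1 hu).1, mem_singleton.1 hy ▸ hj, Or.inl (mem_sdiff.1 hu).2⟩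
    · obtain ⟨e, he⟩ := h1
      obtain ⟨he, u, hu, y, hy, hj⟩ := mem_bt'.1 he
      exact ⟨e, he, u, mem_of_mem_erase hu, mem_singleton.1 hy ▸ hj,
        by simp [(mem_erase.1 hu).1]⟩
  · obtain ⟨h4, h5⟩ := h.2 x (mem_erase.2 ⟨h3, hx⟩)
    refine ⟨fun h6 => ?_, fun h6 => ?_⟩
    · obtain ⟨e, he, u, hu, hj, h7⟩ := h4 h6
      refine ⟨e, he, u, hu, hj, ?_⟩
      by_cases h8 : u = v
      · exact Or.inr (by simp [h3, h8])
      · rcases h7 with h7 | h7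
        · exact Or.inl fun h9 => h7 (mem_erase.2 ⟨h8, h9⟩)
        · exact Or.inr (by simp [h3, h8, h7])
    · obtain ⟨e, he, u, hu, hj, h7⟩ := h5 h6
      exact ⟨e, he, u, mem_of_mem_erase hu, hj, by simp [h3, (mem_erase.1 hu).1, h7]⟩

theorem order {U : Finset V} {s t : V} (h3 : ∀ u ∈ U, (dl a b H {u}).card ≤ 3)
    (h2 : ∀ S ⊆ U, S.Nonempty → S ≠ U → 2 ≤ (bt a b H S (U \ S)).card)
    (hs : s ∈ U) (ht : t ∈ U) (hst : s ≠ t) : ∃ f, Good a b H U s t U f := by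
  have key : ∀ n, ∀ R : Finset V, R.card = n → R ⊆ U → t ∈ R → s ∉ R → Conn a b H R →
      ∃ f, Good a b H U s t R f := by
    intro n
    induction n using Nat.strong_induction_on with
    | _ n ih =>
    intro R hn hR htR hsR hc
    by_cases h4 : R = {t}
    · subst h4
      refine ⟨fun _ => 0, fun x hx y hy _ => ?_, fun v hv => ⟨fun _ => ?_, fun h5 => ?_⟩⟩
      · rw [mem_singleton.1 (mem_coe.1 hx), mem_singleton.1 (mem_coe.1 hy)]
      · obtain ⟨e, he⟩ := card_pos.1 (lt_of_lt_of_le two_pos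
          (h2 _ hR ⟨t, htR⟩ fun h5 => hsR (h5 ▸ hs)))
        obtain ⟨he, u, hu, y, hy, hj⟩ := mem_bt'.1 he
        refine ⟨e, he, u, (mem_sdiff.1 hu).1, ?_, Or.inl (mem_sdiff.1 hu).2⟩
        rw [mem_singleton.1 hv, ← mem_singleton.1 hy]
        exact hj
      · exact (h5 (mem_singleton.1 hv)).elim
    obtain ⟨v, hv, hvt, h5, h6⟩ := pick h3 h2 hR htR hs hsR hc h4
    obtain ⟨f, hf⟩ := ih _ (hn ▸ card_erase_lt_of_mem hv) _ rfl ((erase_subset _ _).trans hR)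
      (mem_erase.2 ⟨hvt.symm, htR⟩) (fun h7 => hsR (mem_of_mem_erase h7)) h5
    refine ⟨_, hf.ext ?_ fun _ => h6⟩
    rw [← sdiff_singleton_eq_erase]
    refine hc _ (singleton_subset_iff.2 hv) (singleton_nonempty _) fun h7 => hvt ?_
    exact (mem_singleton.1 (h7 ▸ htR)).symm
  have hc : Conn a b H (U.erase s) := by
    intro S hS h4 h5
    by_contra hno
    have h6 : ∀ A B : Finset V, A ⊆ U.erase s → (∀ x ∈ U, x ≠ s → x ∉ A → x ∈ B) →
        (∀ e ∈ H, ∀ u ∈ B, ∀ v ∈ A, ¬ Jn a b e u v) →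
        ∀ e ∈ bt a b H A (U \ A), e ∈ dl a b H {s} ∧ ∃ v ∈ A, Jn a b e v s := by
      intro A B hA hB h7 e he
      obtain ⟨he, u, hu, v, hv, hj⟩ := mem_bt'.1 he
      have h8 : u = s := by
        by_contra h8
        exact h7 e he u (hB u (mem_sdiff.1 hu).1 h8 (mem_sdiff.1 hu).2) v hv hj
      subst h8
      exact ⟨hj.symm.dl he (by simpa using (mem_erase.1 (hA hv)).1) (mem_singleton_self _),
        v, hv, hj.symm⟩
    have h7 := h6 S (U.erase s \ S) hS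
      (fun x h7 h8 h9 => mem_sdiff.2 ⟨mem_erase.2 ⟨h8, h7⟩, h9⟩)
      (fun e he u hu v hv hj => hno ⟨e, mem_bt'.2 ⟨he, u, hu, v, hv, hj⟩⟩)
    have h8 := h6 (U.erase s \ S) S sdiff_subset
      (fun x h7 h8 h9 => by
        by_contra h10
        exact h9 (mem_sdiff.2 ⟨mem_erase.2 ⟨h8, h7⟩, h10⟩))
      (fun e he u hu v hv hj => hno ⟨e, mem_bt'.2 ⟨he, v, hv, u, hu, hj.symm⟩⟩)
    have hU : ∀ A ⊆ U.erase s, A ≠ U := fun A hA e1 => notMem_erase s U (hA (e1 ▸ hs))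
    refine four (h3 s hs) (fun e he => (h7 e he).1) (fun e he => (h8 e he).1) ?_
      (h2 _ (hS.trans (erase_subset _ _)) h4 (hU _ hS))
      (h2 _ (sdiff_subset.trans (erase_subset _ _))
        (sdiff_nonempty.2 fun h9 => h5 (Subset.antisymm hS h9)) (hU _ sdiff_subset))
    refine disjoint_left.2 fun e he he' => ?_
    obtain ⟨-, v, hv, hj⟩ := h7 e he
    obtain ⟨-, u, hu, hj'⟩ := h8 e he'
    rcases hj.eq hj' with ⟨rfl, -⟩ | ⟨h9, -⟩
    exacts [(mem_sdiff.1 hu).2 hv, (mem_erase.1 (hS hv)).1 h9]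
  obtain ⟨f, hf⟩ := key _ (U.erase s) rfl (erase_subset _ _) (mem_erase.2 ⟨hst.symm, ht⟩)
    (notMem_erase _ _) hc
  refine ⟨_, hf.ext ?_ fun h4 => (h4 rfl).elim⟩
  rw [← sdiff_singleton_eq_erase]
  refine card_pos.1 (lt_of_lt_of_le two_pos (h2 _ (singleton_subset_iff.2 hs)
    (singleton_nonempty _) fun h7 => hst ?_))
  exact (mem_singleton.1 (h7 ▸ ht)).symm

omit [DecidableEq V] in
theorem sum_biUnion_le (F : Finset V) (d : V → Finset E) (c : E → ℕ) :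
    ∑ e ∈ F.biUnion d, c e ≤ ∑ v ∈ F, ∑ e ∈ d v, c e := by
  classical
  induction F using Finset.induction_on with
  | empty => simp
  | insert v F hv ih =>
    rw [biUnion_insert, sum_insert hv]
    have := sum_union_inter (s₁ := d v) (s₂ := F.biUnion d) (f := c)
    omega

/-- the statement for one order -/
theorem side {U : Finset V} {s : V} {g : V → ℤ} {os : E} (h3 : ∀ u ∈ U, (dl a b H {u}).card ≤ 3)
    (hg : Set.InjOn g U) (hs : s ∈ U) (hos : os ∈ H) (hos' : ∃ x, x ∉ U ∧ Jn a b os x s)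
    (hdn : ∀ v ∈ U, v ≠ s → ∃ e ∈ H, ∃ u ∈ U, Jn a b e u v ∧ g u < g v)
    (hup : ∀ v ∈ U, ∃ e ∈ H, ∃ u, Jn a b e u v ∧ (u ∉ U ∨ g v < g u)) :
    ∃ D : Finset E,
      (∀ e ∈ H, a e ∈ U → b e ∈ U → a e ≠ b e → e ∉ D →
        ∃ u ∈ U, (dl a b H {u}).card = 3 ∧ e ∈ dl a b H {u}) ∧
      (∀ J : Finset E, (∀ u ∈ U, (dl a b H {u}).card = 3 → (J ∩ dl a b H {u}).card ≤ 1) →
        ∀ S ⊆ U, S.Nonempty → S ≠ U →
          ∃ e ∈ dl a b H S, a e ∈ U ∧ b e ∈ U ∧ (e ∉ J ∨ e ∈ D)) ∧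
      ∀ F ⊆ U, ∃ Y ⊆ dl a b H (U \ F),
        (∀ e ∈ Y, e = os ∨ ∃ u ∈ F, ∃ v ∈ U, v ∉ F ∧ Jn a b e u v ∧ g u < g v) ∧
        ∑ e ∈ H.filter (fun e => a e ∈ U ∧ b e ∈ U ∧ a e ≠ b e ∧ (a e ∈ F ∨ b e ∈ F)),
          (1 + if e ∈ D then 1 else 0) + 2 ≤ 2 * F.card + 2 * Y.card := by
  classical
  obtain ⟨dn, hd⟩ : ∃ dn : V → Finset E, ∀ v e,
      e ∈ dn v ↔ e ∈ H ∧ ∃ u ∈ U, Jn a b e u v ∧ g u < g v :=
    ⟨fun v => H.filter fun e => ∃ u ∈ U, Jn a b e u v ∧ g u < g v, fun v e => mem_filter⟩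
  obtain ⟨D, hD⟩ : ∃ D : Finset E, ∀ e, e ∈ D ↔ ∃ v, e ∈ dn v ∧ (dn v).card = 1 :=
    ⟨H.filter fun e => ∃ v, e ∈ dn v ∧ (dn v).card = 1, fun e => by
      rw [mem_filter]
      exact ⟨fun h => h.2, fun h => ⟨((hd _ _).1 h.choose_spec.1).1, h⟩⟩⟩
  have hD' : ∀ v, ∀ e ∈ dn v, e ∈ D ↔ (dn v).card = 1 := by
    intro v e he
    refine ⟨fun h => ?_, fun h => (hD e).2 ⟨v, he, h⟩⟩
    obtain ⟨v', h1, h2⟩ := (hD e).1 h
    obtain ⟨-, u, -, hj, hl⟩ := (hd _ _).1 he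
    obtain ⟨-, u', -, hj', hl'⟩ := (hd _ _).1 h1
    rcases hj.eq hj' with ⟨-, rfl⟩ | ⟨rfl, rfl⟩
    · exact h2
    · omega
  have hsub : ∀ v, dn v ⊆ dl a b H {v} := by
    intro v e he
    obtain ⟨he, u, -, hj, hl⟩ := (hd _ _).1 he
    exact hj.dl he (fun h => by rw [mem_singleton.1 h] at hl; omega) (mem_singleton_self _)
  have hcard : ∀ v ∈ U, (dn v).card + 1 ≤ (dl a b H {v}).card := by
    intro v hv
    obtain ⟨e, he, u, hj, hl⟩ := hup v hv
    have h1 : u ≠ v := by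
      rintro rfl
      rcases hl with hl | hl
      exacts [hl hv, by omega]
    have h2 : e ∉ dn v := fun h2 => by
      obtain ⟨-, u', hu', hj', hl'⟩ := (hd _ _).1 h2
      rcases hj.eq hj' with ⟨rfl, -⟩ | ⟨h4, -⟩
      · rcases hl with hl | hl
        exacts [hl hu', by omega]
      · exact h1 h4
    rw [← card_insert_of_notMem h2]
    exact card_le_card (insert_subset (hj.dl he (by simpa using h1) (mem_singleton_self _)) (hsub v))
  have hmin : ∀ u ∈ U, g s ≤ g u := by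
    obtain ⟨m, hm, h1⟩ := exists_min_image U g ⟨s, hs⟩
    by_cases h2 : m = s
    · exact h2 ▸ h1
    · obtain ⟨e, -, u, hu, -, hl⟩ := hdn m hm h2
      have := h1 u hu
      omega
  have hin : ∀ e ∈ H, a e ∈ U → b e ∈ U → a e ≠ b e →
      ∃ u ∈ U, ∃ v ∈ U, Jn a b e u v ∧ g u < g v := by
    intro e _ ha hb hne
    rcases lt_trichotomy (g (a e)) (g (b e)) with h | h | h
    · exact ⟨_, ha, _, hb, Or.inl ⟨rfl, rfl⟩, h⟩
    · exact (hne (hg ha hb h)).elim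
    · exact ⟨_, hb, _, ha, Or.inr ⟨rfl, rfl⟩, h⟩
  refine ⟨D, fun e he ha hb hne hn => ?_, fun J hJ S hS h1 h2 => ?_, fun F hF => ?_⟩
  · obtain ⟨u, hu, v, hv, hj, hl⟩ := hin e he ha hb hne
    have h1 : e ∈ dn v := (hd _ _).2 ⟨he, u, hu, hj, hl⟩
    have h2 := card_pos.2 ⟨e, h1⟩
    have h4 := mt (hD' v e h1).2 hn
    have h5 := hcard v hv
    have h6 := h3 v hv
    exact ⟨v, hv, by omega, hsub v h1⟩
  · have key : ∀ T ⊆ U, T.Nonempty → s ∉ T →
        ∃ e ∈ H, ∃ u ∈ U, u ∉ T ∧ ∃ v ∈ T, Jn a b e u v ∧ (e ∉ J ∨ e ∈ D) := by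
      intro T hT h4 h5
      obtain ⟨v, hv, h6⟩ := exists_min_image T g h4
      obtain ⟨e0, he0⟩ := hdn v (hT hv) fun h7 => h5 (h7 ▸ hv)
      have h7 : e0 ∈ dn v := (hd _ _).2 he0
      obtain ⟨e, he, h8⟩ : ∃ e ∈ dn v, e ∉ J ∨ e ∈ D := by
        by_contra h8
        have h9 : dn v ⊆ J ∩ dl a b H {v} := fun e he => mem_inter.2
          ⟨by_contra fun h10 => h8 ⟨e, he, Or.inl h10⟩, hsub v he⟩
        have h10 := mt (hD' v e0 h7).2 fun h10 => h8 ⟨e0, h7, Or.inr h10⟩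
        have h11 := card_pos.2 ⟨e0, h7⟩
        have h12 := hcard v (hT hv)
        have h13 := h3 v (hT hv)
        have h14 := hJ v (hT hv) (by omega)
        have h15 := card_le_card h9
        omega
      obtain ⟨he, u, hu, hj, hl⟩ := (hd _ _).1 he
      refine ⟨e, he, u, hu, fun h9 => ?_, v, hv, hj, h8⟩
      have := h6 u h9
      omega
    have hends : ∀ e u v, Jn a b e u v → u ∈ U → v ∈ U → a e ∈ U ∧ b e ∈ U := by
      rintro e u v (⟨rfl, rfl⟩ | ⟨rfl, rfl⟩) hu hv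
      exacts [⟨hu, hv⟩, ⟨hv, hu⟩]
    by_cases h4 : s ∈ S
    · obtain ⟨e, he, u, hu, h5, v, hv, hj, h6⟩ := key (U \ S) sdiff_subset
        (sdiff_nonempty.2 fun h9 => h2 (Subset.antisymm hS h9)) (by simp [h4])
      have h7 := hends e u v hj hu (mem_sdiff.1 hv).1
      refine ⟨e, hj.symm.dl he (mem_sdiff.1 hv).2 ?_, h7.1, h7.2, h6⟩
      by_contra h8
      exact h5 (mem_sdiff.2 ⟨hu, h8⟩)
    · obtain ⟨e, he, u, hu, h5, v, hv, hj, h6⟩ := key S hS h1 h4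
      have h7 := hends e u v hj hu (hS hv)
      exact ⟨e, hj.dl he h5 hv, h7.1, h7.2, h6⟩
  · obtain ⟨X, hX⟩ : ∃ X : Finset E, ∀ e,
        e ∈ X ↔ e ∈ H ∧ ∃ u ∈ F, ∃ v ∈ U, v ∉ F ∧ Jn a b e u v ∧ g u < g v :=
      ⟨H.filter fun e => ∃ u ∈ F, ∃ v ∈ U, v ∉ F ∧ Jn a b e u v ∧ g u < g v, fun e => mem_filter⟩
    have hX1 : X ⊆ dl a b H (U \ F) := fun e he => by
      obtain ⟨he, u, hu, v, hv, h1, hj, -⟩ := (hX e).1 he
      exact hj.dl he (by simp [hu]) (mem_sdiff.2 ⟨hv, h1⟩)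
    have h1 : H.filter (fun e => a e ∈ U ∧ b e ∈ U ∧ a e ≠ b e ∧ (a e ∈ F ∨ b e ∈ F)) ⊆
        (F.erase s).biUnion dn ∪ X := by
      intro e he
      obtain ⟨he, ha, hb, hne, hm⟩ := mem_filter.1 he
      obtain ⟨u, hu, v, hv, hj, hl⟩ := hin e he ha hb hne
      by_cases h2 : v ∈ F
      · refine mem_union_left _ (mem_biUnion.2 ⟨v, mem_erase.2 ⟨?_, h2⟩,
          (hd _ _).2 ⟨he, u, hu, hj, hl⟩⟩)
        rintro rfl
        have := hmin u hu
        omega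
      · refine mem_union_right _ ((hX e).2 ⟨he, u, ?_, v, hv, h2, hj, hl⟩)
        rcases hj with ⟨rfl, rfl⟩ | ⟨rfl, rfl⟩
        exacts [hm.resolve_right h2, hm.resolve_left h2]
    have h2 := sum_le_sum_of_subset (f := fun e => 1 + if e ∈ D then 1 else 0) h1
    have h4 := sum_union_inter (s₁ := (F.erase s).biUnion dn) (s₂ := X)
      (f := fun e => 1 + if e ∈ D then 1 else 0)
    have h5 := sum_biUnion_le (F.erase s) dn fun e => 1 + if e ∈ D then 1 else 0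
    have h6 : ∑ v ∈ F.erase s, ∑ e ∈ dn v, (1 + if e ∈ D then 1 else 0) ≤
        (F.erase s).card • 2 := by
      refine sum_le_card_nsmul _ _ _ fun v hv => ?_
      have h7 := hcard v (hF (mem_of_mem_erase hv))
      have h8 := h3 v (hF (mem_of_mem_erase hv))
      by_cases h9 : (dn v).card = 1
      · have := sum_le_card_nsmul (dn v) (fun e => 1 + if e ∈ D then 1 else 0) 2
          fun e _ => by split_ifs <;> omega
        rwa [h9, one_smul] at this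
      · have := sum_le_card_nsmul (dn v) (fun e => 1 + if e ∈ D then 1 else 0) 1
          fun e he => by rw [if_neg (mt (hD' v e he).1 h9)]
        rw [smul_eq_mul] at this
        omega
    have h7 := sum_le_card_nsmul X (fun e => 1 + if e ∈ D then 1 else 0) 2
      fun e _ => by split_ifs <;> omega
    rw [smul_eq_mul] at h6 h7
    by_cases h8 : s ∈ F
    · have h9 := card_erase_add_one h8
      exact ⟨X, hX1, fun e he => Or.inr ((hX e).1 he).2, by omega⟩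
    · obtain ⟨x, hx, hj⟩ := hos'
      have h9 : os ∉ X := fun h9 => by
        obtain ⟨-, u, hu, v, hv, -, hj', -⟩ := (hX _).1 h9
        rcases hj.eq hj' with ⟨rfl, -⟩ | ⟨rfl, -⟩
        exacts [hx (hF hu), hx hv]
      refine ⟨insert os X, insert_subset (hj.dl hos (by simp [hx]) (mem_sdiff.2 ⟨hs, h8⟩)) hX1,
        fun e he => (mem_insert.1 he).imp id fun he => ((hX e).1 he).2, ?_⟩
      rw [erase_eq_of_notMem h8] at h6 h5 h4 h2
      rw [card_insert_of_notMem h9]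
      omega

/-- the conclusion of the level statement -/
def Out (a b : E → V) (H : Finset E) (U : Finset V) (D : Bool → Finset E) : Prop :=
  (∀ i, ∀ e ∈ H, a e ∈ U → b e ∈ U → a e ≠ b e → e ∉ D i →
    ∃ u ∈ U, (dl a b H {u}).card = 3 ∧ e ∈ dl a b H {u}) ∧
  (∀ i, ∀ J : Finset E, (∀ u ∈ U, (dl a b H {u}).card = 3 → (J ∩ dl a b H {u}).card ≤ 1) →
    ∀ S ⊆ U, S.Nonempty → S ≠ U →
      ∃ e ∈ dl a b H S, a e ∈ U ∧ b e ∈ U ∧ (e ∉ J ∨ e ∈ D i)) ∧
  ∀ F ⊆ U, ∑ e ∈ H.filter (fun e => a e ∈ U ∧ b e ∈ U ∧ a e ≠ b e ∧ (a e ∈ F ∨ b e ∈ F)),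
    pr D e + 4 ≤ 4 * F.card + 2 * (dl a b H (U \ F)).card

theorem out_single (u : V) (h2 : 2 ≤ (dl a b H {u}).card) : Out a b H {u} fun _ => ∅ := by
  refine ⟨fun _ e _ ha hb hne _ => ?_, fun _ _ _ S hS h1 h4 => ?_, fun F hF => ?_⟩
  · exact (hne ((mem_singleton.1 ha).trans (mem_singleton.1 hb).symm)).elim
  · exact (h4 ((subset_singleton_iff.1 hS).resolve_left h1.ne_empty)).elim
  · rw [filter_false_of_mem fun e _ h =>
      h.2.2.1 ((mem_singleton.1 h.1).trans (mem_singleton.1 h.2.1).symm), sum_empty]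
    rcases subset_singleton_iff.1 hF with rfl | rfl
    · rw [sdiff_empty]
      omega
    · rw [card_singleton]
      omega

theorem out_two {U : Finset V} (h3 : ∀ u ∈ U, (dl a b H {u}).card ≤ 3)
    (h2 : ∀ S ⊆ U, S.Nonempty → S ≠ U → 2 ≤ (bt a b H S (U \ S)).card)
    (hU : 2 ≤ (dl a b H U).card) (hne : ∀ u, U ≠ {u}) : ∃ D, Out a b H U D := by
  obtain ⟨os, hos, ot, hot, hoo⟩ := one_lt_card.1 hU
  obtain ⟨x, hx, s, hs, hjs⟩ := jn_of_dl hos
  obtain ⟨y, hy, t, ht, hjt⟩ := jn_of_dl hot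
  have hos1 := (mem_dl.1 hos).1
  have hot1 := (mem_dl.1 hot).1
  have hst : s ≠ t := by
    rintro rfl
    refine four (h3 s hs) (X := {os, ot}) (Y := bt a b H {s} (U \ {s})) ?_ ?_ ?_
      (card_pair hoo).ge (h2 _ (singleton_subset_iff.2 hs) (singleton_nonempty _) (hne s).symm)
    · intro e he
      rcases mem_insert.1 he with rfl | he
      · exact hjs.dl hos1 (fun h => hx (mem_singleton.1 h ▸ hs)) (mem_singleton_self _)
      · rw [mem_singleton.1 he]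
        exact hjt.dl hot1 (fun h => hy (mem_singleton.1 h ▸ hs)) (mem_singleton_self _)
    · intro e he
      obtain ⟨he, u, hu, v, hv, hj⟩ := mem_bt'.1 he
      exact hj.dl he (mem_sdiff.1 hu).2 hv
    · refine disjoint_left.2 fun e he he' => ?_
      obtain ⟨-, u, hu, v, hv, hj⟩ := mem_bt'.1 he'
      have hv' : v ∈ U := mem_singleton.1 hv ▸ hs
      rcases mem_insert.1 he with rfl | he
      · rcases hjs.eq hj with ⟨rfl, -⟩ | ⟨rfl, -⟩
        exacts [hx (mem_sdiff.1 hu).1, hx hv']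
      · rw [mem_singleton.1 he] at hj
        rcases hjt.eq hj with ⟨rfl, -⟩ | ⟨rfl, -⟩
        exacts [hy (mem_sdiff.1 hu).1, hy hv']
  obtain ⟨f, hf, hf'⟩ := order h3 h2 hs ht hst
  have hd : ∀ v ∈ U, v ≠ s → ∃ e ∈ H, ∃ u ∈ U, Jn a b e u v ∧ f u < f v := fun v hv h => by
    obtain ⟨e, he, u, hu, hj, hl⟩ := (hf' v hv).1 h
    exact ⟨e, he, u, hu, hj, hl.resolve_left fun h1 => h1 hu⟩
  obtain ⟨D1, A1, B1, C1⟩ := side (g := fun v => (f v : ℤ)) h3
    (fun u hu v hv h => hf hu hv (by simpa using h)) hs hos1 ⟨x, hx, hjs⟩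
    (fun v hv h => by
      obtain ⟨e, he, u, hu, hj, hl⟩ := hd v hv h
      exact ⟨e, he, u, hu, hj, by omega⟩)
    (fun v hv => by
      by_cases h : v = t
      · exact ⟨ot, hot1, y, h ▸ hjt, Or.inl hy⟩
      · obtain ⟨e, he, u, -, hj, hl⟩ := (hf' v hv).2 h
        exact ⟨e, he, u, hj, Or.inr (by omega)⟩)
  obtain ⟨D2, A2, B2, C2⟩ := side (g := fun v => -(f v : ℤ)) h3
    (fun u hu v hv h => hf hu hv (by simpa using h)) ht hot1 ⟨y, hy, hjt⟩
    (fun v hv h => by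
      obtain ⟨e, he, u, hu, hj, hl⟩ := (hf' v hv).2 h
      exact ⟨e, he, u, hu, hj, by omega⟩)
    (fun v hv => by
      by_cases h : v = s
      · exact ⟨os, hos1, x, h ▸ hjs, Or.inl hx⟩
      · obtain ⟨e, he, u, -, hj, hl⟩ := hd v hv h
        exact ⟨e, he, u, hj, Or.inr (by omega)⟩)
  refine ⟨fun i => cond i D1 D2, fun i => ?_, fun i => ?_, fun F hF => ?_⟩
  · cases i
    exacts [A2, A1]
  · cases i
    exacts [B2, B1]
  obtain ⟨Y1, s1, p1, q1⟩ := C1 F hF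
  obtain ⟨Y2, s2, p2, q2⟩ := C2 F hF
  have hdis : Disjoint Y1 Y2 := disjoint_left.2 fun e h1 h4 => by
    rcases p1 e h1 with rfl | ⟨u, hu, v, hv, hvF, hj, hl⟩ <;>
      rcases p2 _ h4 with h5 | ⟨u', hu', v', hv', hvF', hj', hl'⟩
    · exact hoo h5
    · rcases hjs.eq hj' with ⟨rfl, -⟩ | ⟨rfl, -⟩
      exacts [hx (hF hu'), hx hv']
    · subst h5
      rcases hjt.eq hj with ⟨rfl, -⟩ | ⟨rfl, -⟩
      exacts [hy (hF hu), hy hv]
    · rcases hj.eq hj' with ⟨rfl, rfl⟩ | ⟨rfl, rfl⟩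
      exacts [by omega, hvF hu']
  have h5 := card_le_card (union_subset s1 s2)
  rw [card_union_of_disjoint hdis] at h5
  have h6 : ∀ I : Finset E, ∑ e ∈ I, pr (fun i => cond i D1 D2) e =
      ∑ e ∈ I, (1 + if e ∈ D1 then 1 else 0) + ∑ e ∈ I, (1 + if e ∈ D2 then 1 else 0) := by
    intro I
    rw [← sum_add_distrib]
    refine sum_congr rfl fun e _ => ?_
    simp only [pr, cond_true, cond_false]
    omega
  rw [h6]
  omega

theorem out_split {U1 U2 : Finset V} (hd : Disjoint U1 U2) {g : E} (hg : bt a b H U1 U2 = {g})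
    {D1 D2 : Bool → Finset E} (o1 : Out a b H U1 D1) (o2 : Out a b H U2 D2) :
    ∃ D, Out a b H (U1 ∪ U2) D := by
  obtain ⟨D, hD⟩ : ∃ D : Bool → Finset E, ∀ i e, e ∈ D i ↔
      (e ∈ D1 i ∧ a e ∈ U1 ∧ b e ∈ U1) ∨ (e ∈ D2 i ∧ a e ∈ U2 ∧ b e ∈ U2) ∨ e = g :=
    ⟨fun i => (D1 i).filter (fun e => a e ∈ U1 ∧ b e ∈ U1) ∪
      ((D2 i).filter (fun e => a e ∈ U2 ∧ b e ∈ U2) ∪ {g}), fun i e => by
        simp only [mem_union, mem_filter, mem_singleton]⟩
  have hg1 : ∀ e, e = g ↔ e ∈ H ∧ ((a e ∈ U1 ∧ b e ∈ U2) ∨ (a e ∈ U2 ∧ b e ∈ U1)) := fun e => by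
    rw [← mem_bt, hg, mem_singleton]
  have hg2 := (hg1 g).1 rfl
  have hd' : ∀ x, x ∈ U1 → x ∈ U2 → False := fun x h1 h2 => disjoint_left.1 hd h1 h2
  refine ⟨D, fun i e he ha hb hne hn => ?_, fun i J hJ S hS h1 h2 => ?_, fun F hF => ?_⟩
  · rw [hD] at hn
    rcases mem_union.1 ha with ha | ha <;> rcases mem_union.1 hb with hb | hb
    · obtain ⟨u, hu, h⟩ := o1.1 i e he ha hb hne fun h => hn (Or.inl ⟨h, ha, hb⟩)
      exact ⟨u, mem_union_left _ hu, h⟩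
    · exact (hn (Or.inr (Or.inr ((hg1 e).2 ⟨he, Or.inl ⟨ha, hb⟩⟩)))).elim
    · exact (hn (Or.inr (Or.inr ((hg1 e).2 ⟨he, Or.inr ⟨ha, hb⟩⟩)))).elim
    · obtain ⟨u, hu, h⟩ := o2.1 i e he ha hb hne fun h => hn (Or.inr (Or.inl ⟨h, ha, hb⟩))
      exact ⟨u, mem_union_right _ hu, h⟩
  · by_cases h3 : (S ∩ U1).Nonempty ∧ S ∩ U1 ≠ U1
    · obtain ⟨e, he, ha, hb, h⟩ := o1.2.1 i J (fun u hu => hJ u (mem_union_left _ hu)) _
        inter_subset_right h3.1 h3.2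
      refine ⟨e, ?_, mem_union_left _ ha, mem_union_left _ hb,
        h.imp id fun h => (hD i e).2 (Or.inl ⟨h, ha, hb⟩)⟩
      simpa only [mem_dl, mem_inter, ha, hb, and_true] using he
    by_cases h4 : (S ∩ U2).Nonempty ∧ S ∩ U2 ≠ U2
    · obtain ⟨e, he, ha, hb, h⟩ := o2.2.1 i J (fun u hu => hJ u (mem_union_right _ hu)) _
        inter_subset_right h4.1 h4.2
      refine ⟨e, ?_, mem_union_right _ ha, mem_union_right _ hb,
        h.imp id fun h => (hD i e).2 (Or.inr (Or.inl ⟨h, ha, hb⟩))⟩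
      simpa only [mem_dl, mem_inter, ha, hb, and_true] using he
    have h5 : ∀ W : Finset V, ¬ ((S ∩ W).Nonempty ∧ S ∩ W ≠ W) → ∀ x ∈ W, x ∈ S → W ⊆ S := by
      intro W h x hx hx'
      have h6 : S ∩ W = W := by
        by_contra h6
        exact h ⟨⟨x, mem_inter.2 ⟨hx', hx⟩⟩, h6⟩
      exact h6 ▸ inter_subset_left
    have h6 : ∀ x ∈ U1, ∀ y ∈ U2, ¬ (x ∈ S ↔ y ∈ S) := by
      intro x hx y hy h
      have h7 : x ∈ S ∨ y ∈ S := by
        obtain ⟨z, hz⟩ := h1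
        rcases mem_union.1 (hS hz) with h7 | h7
        exacts [Or.inl (h5 U1 h3 z h7 hz hx), Or.inr (h5 U2 h4 z h7 hz hy)]
      exact h2 (Subset.antisymm hS (union_subset (h5 U1 h3 x hx (by tauto))
        (h5 U2 h4 y hy (by tauto))))
    refine ⟨g, mem_dl.2 ⟨hg2.1, ?_⟩, ?_, ?_, Or.inr ((hD i g).2 (Or.inr (Or.inr rfl)))⟩
    · rcases hg2.2 with h | h
      exacts [h6 _ h.1 _ h.2, fun h7 => h6 _ h.2 _ h.1 h7.symm]
    · rcases hg2.2 with h | h
      exacts [mem_union_left _ h.1, mem_union_right _ h.1]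
    · rcases hg2.2 with h | h
      exacts [mem_union_right _ h.2, mem_union_left _ h.2]
  · have q1 := o1.2.2 (F ∩ U1) inter_subset_right
    have q2 := o2.2.2 (F ∩ U2) inter_subset_right
    have h1 : (F ∩ U1).card + (F ∩ U2).card = F.card := by
      rw [← card_union_of_disjoint (hd.mono inter_subset_right inter_subset_right),
        ← inter_union_distrib_left, inter_eq_left.2 hF]
    have h2 := dl_union (a := a) (b := b) (H := H) (S := U1 \ (F ∩ U1)) (T := U2 \ (F ∩ U2))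
      (hd.mono sdiff_subset sdiff_subset)
    have h3 : U1 \ (F ∩ U1) ∪ U2 \ (F ∩ U2) = (U1 ∪ U2) \ F := by
      ext x
      simp only [mem_union, mem_sdiff, mem_inter]
      tauto
    rw [h3] at h2
    have h4 : ∑ e ∈ H.filter (fun e => a e ∈ U1 ∪ U2 ∧ b e ∈ U1 ∪ U2 ∧ a e ≠ b e ∧
          (a e ∈ F ∨ b e ∈ F)), pr D e +
        4 * (bt a b H (U1 \ (F ∩ U1)) (U2 \ (F ∩ U2))).card ≤
        ∑ e ∈ H.filter (fun e => a e ∈ U1 ∧ b e ∈ U1 ∧ a e ≠ b e ∧
          (a e ∈ F ∩ U1 ∨ b e ∈ F ∩ U1)), pr D1 e +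
        ∑ e ∈ H.filter (fun e => a e ∈ U2 ∧ b e ∈ U2 ∧ a e ≠ b e ∧
          (a e ∈ F ∩ U2 ∨ b e ∈ F ∩ U2)), pr D2 e + 4 * (bt a b H U1 U2).card := by
      simp only [bt, card_filter, sum_filter, mul_sum, ← sum_add_distrib]
      refine sum_le_sum fun e he => ?_
      have h5 : pr D e ≤ 4 := by
        rw [pr]
        split_ifs <;> omega
      have h6 := hd' (a e)
      have h7 := hd' (b e)
      have h8 : a e ∈ U1 → b e ∈ U1 → pr D e = pr D1 e := fun ha hb => by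
        have h9 : ∀ i, e ∈ D i ↔ e ∈ D1 i := fun i => by
          rw [hD, hg1]
          tauto
        simp only [pr, h9]
      have h9 : a e ∈ U2 → b e ∈ U2 → pr D e = pr D2 e := fun ha hb => by
        have h9 : ∀ i, e ∈ D i ↔ e ∈ D2 i := fun i => by
          rw [hD, hg1]
          tauto
        simp only [pr, h9]
      simp only [mem_union, mem_inter, mem_sdiff]
      clear * - h5 h6 h7 h8 h9
      by_cases c1 : a e ∈ U1 <;> by_cases c2 : a e ∈ U2 <;> by_cases c3 : b e ∈ U1 <;>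
        by_cases c4 : b e ∈ U2 <;> by_cases c5 : a e ∈ F <;> by_cases c6 : b e ∈ F <;>
        by_cases c7 : a e = b e <;> simp_all
    rw [hg, card_singleton] at h4
    omega

theorem out {n : ℕ} : ∀ U : Finset V, U.card = n → U.Nonempty →
    (∀ S ⊆ U, S.Nonempty → 2 ≤ (dl a b H S).card) → (∀ u ∈ U, (dl a b H {u}).card ≤ 3) →
    (dl a b H U).card ≤ 3 → ∃ D, Out a b H U D := by
  induction n using Nat.strong_induction_on with
  | _ n ih =>
  intro U hn hne h2 h3 hU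
  by_cases h4 : ∀ S ⊆ U, S.Nonempty → S ≠ U → 2 ≤ (bt a b H S (U \ S)).card
  · by_cases h5 : ∃ u, U = {u}
    · obtain ⟨u, rfl⟩ := h5
      exact ⟨_, out_single u (h2 _ Subset.rfl hne)⟩
    · exact out_two h3 h4 (h2 _ Subset.rfl hne) fun u h => h5 ⟨u, h⟩
  push Not at h4
  obtain ⟨S, hS, h5, h6, h7⟩ := h4
  have h8 : (U \ S).Nonempty := sdiff_nonempty.2 fun h9 => h6 (Subset.antisymm hS h9)
  have h9 := dl_union (a := a) (b := b) (H := H) (S := S) (T := U \ S) disjoint_sdiff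
  rw [union_sdiff_of_subset hS] at h9
  have h10 := h2 S hS h5
  have h11 := h2 _ sdiff_subset h8
  have h12 := card_sdiff_add_card_eq_card hS
  have h13 := card_pos.2 h5
  have h14 := card_pos.2 h8
  obtain ⟨g, hg⟩ := card_eq_one.1 (show (bt a b H S (U \ S)).card = 1 by omega)
  obtain ⟨D1, o1⟩ := ih S.card (by omega) S rfl h5 (fun T hT => h2 T (hT.trans hS))
    (fun u hu => h3 u (hS hu)) (by omega)
  obtain ⟨D2, o2⟩ := ih (U \ S).card (by omega) _ rfl h8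
    (fun T hT => h2 T (hT.trans sdiff_subset)) (fun u hu => h3 u (sdiff_subset hu)) (by omega)
  have := out_split disjoint_sdiff hg o1 o2
  rwa [union_sdiff_of_subset hS] at this

end Level

theorem level : S_Level := fun _ _ _ _ _ _ _ _ _ U hne h2 h3 hU => Level.out U rfl hne h2 h3 hU

end Pool.Agent.P.MP_92d394_lc.H
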