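import Pool.Agent.P.MP_92d394_lc.H.St

/-! From the threshold inequality to a cheap connected even multigraph. -/

namespace Pool.Agent.P.MP_92d394_lc.H

open Finset

namespace Mid

variable {V E : Type} [Fintype V] [DecidableEq V] [Fintype E] [DecidableEq E]

omit [DecidableEq E] in
/-- Layer cake. -/
theorem cake (g : E → ℝ) (n : ℕ) : ∀ w : E → ℝ, (univ.filter fun e => 0 < w e).card ≤ n →
    (∀ e, 0 ≤ w e) → (∀ t, 0 ≤ t → ∑ e ∈ univ.filter (fun e => t < w e), g e ≤ 0) →
    ∑ e, w e * g e ≤ 0 := by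
  classical
  induction n with
  | zero =>
    intro w hc h0 _
    refine le_of_eq (sum_eq_zero fun e _ => ?_)
    have : ¬ 0 < w e := fun h => by
      have : 0 < (univ.filter fun e => 0 < w e).card :=
        card_pos.2 ⟨e, mem_filter.2 ⟨mem_univ e, h⟩⟩
      omega
    rw [le_antisymm (not_lt.1 this) (h0 e), zero_mul]
  | succ n ih =>
    intro w hc h0 ht
    rcases (univ.filter fun e => 0 < w e).eq_empty_or_nonempty with he | hne
    · exact ih w (by rw [he]; simp) h0 ht
    obtain ⟨f, hf, hmin⟩ := exists_min_image _ w hne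
    have hm : 0 < w f := (mem_filter.1 hf).2
    have h1 := ih (fun e => max (w e - w f) 0) ?_ (fun e => le_max_right _ _) fun t t0 => ?_
    · have h2 : ∑ e, w e * g e = ∑ e, max (w e - w f) 0 * g e
          + w f * ∑ e ∈ univ.filter (fun e => 0 < w e), g e := by
        rw [sum_filter, mul_sum, ← sum_add_distrib]
        refine sum_congr rfl fun e _ => ?_
        split_ifs with h
        · rw [max_eq_left (sub_nonneg.2 (hmin e (mem_filter.2 ⟨mem_univ e, h⟩)))]; ring
        · have h3 : w e = 0 := le_antisymm (not_lt.1 h) (h0 e)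
          rw [h3, max_eq_right (by linarith)]; ring
      have h3 := mul_nonpos_of_nonneg_of_nonpos hm.le (ht 0 le_rfl)
      linarith
    · have hs : (univ.filter fun e => 0 < max (w e - w f) 0) ⊆
          (univ.filter fun e => 0 < w e).erase f := fun e he => by
        have h2 : 0 < w e - w f := (lt_max_iff.1 (mem_filter.1 he).2).resolve_right (lt_irrefl _)
        exact mem_erase.2 ⟨fun h => by rw [h] at h2; linarith,
          mem_filter.2 ⟨mem_univ e, by linarith⟩⟩
      have h2 := card_le_card hs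
      have h3 := card_erase_add_one hf
      omega
    · refine le_of_eq_of_le (sum_congr (filter_congr fun e _ => ?_) fun _ _ => rfl)
        (ht (t + w f) (by linarith))
      rw [lt_max_iff]
      exact ⟨fun h => h.elim (fun h => by linarith) fun h => absurd h (not_lt.2 t0),
        fun h => Or.inl (by linarith)⟩

/-- Edges outside `H` become loops. -/
def rs (H : Finset E) (v : V) (a : E → V) : E → V := fun e => if e ∈ H then a e else v

/-- The colouring of a set. -/
def col (S : Finset V) : V → ZMod 2 := fun v => if v ∈ S then 1 else 0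

theorem cut_col (a b : E → V) (S : Finset V) : cut a b (col S) = dl a b univ S := by
  ext e
  simp only [mem_cut, col, dl, mem_filter, mem_univ, true_and]
  by_cases h1 : a e ∈ S <;> by_cases h2 : b e ∈ S <;> simp [h1, h2]

theorem cut_rs (a b : E → V) (H : Finset E) (v : V) (S : Finset V) :
    cut (rs H v a) (rs H v b) (col S) = dl a b H S := by
  rw [cut_col]
  ext e
  simp only [dl, rs, mem_filter, mem_univ, true_and]
  by_cases h : e ∈ H <;> simp [h]

theorem ex_col (φ : V → ZMod 2) : ∃ S, φ = col S :=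
  ⟨univ.filter fun v => φ v = 1, funext fun v => by
    rcases z2 (φ v) with h | h <;> simp [col, h]⟩

omit [Fintype E] [DecidableEq E] in
theorem proper {a b : E → V} {H : Finset E} {S : Finset V} (h : (dl a b H S).Nonempty) :
    S.Nonempty ∧ Sᶜ.Nonempty := by
  obtain ⟨e, he⟩ := h
  have h1 := (mem_filter.1 he).2
  by_cases h2 : a e ∈ S
  · exact ⟨⟨_, h2⟩, b e, mem_compl.2 fun h3 => h1 (iff_of_true h2 h3)⟩
  · exact ⟨⟨b e, by_contra fun h3 => h1 (iff_of_false h2 h3)⟩, a e, mem_compl.2 h2⟩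

omit [Fintype V] in
theorem sum_ind (a b : E → V) (H : Finset E) (S : Finset V) :
    ∑ e ∈ dl a b univ S, (if e ∈ H then 1 else 0) = (dl a b H S).card := by
  rw [← card_filter]
  refine congrArg card ?_
  ext e
  simp [dl, and_comm]

omit [Fintype V] in
theorem dl_eq (a b : E → V) (H : Finset E) (S : Finset V) :
    H ∩ dl a b univ S = dl a b H S := by
  ext e
  simp [dl]

theorem sum_w (w : E → ℝ) (H : Finset E) :
    ∑ e, w e * ((if e ∈ H then 1 else 0 : ℕ) : ℝ) = ∑ e ∈ H, w e := by
  simp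

/-- A spanning connected subgraph plus a join. -/
theorem first {a b : E → V} {w : E → ℝ} (hr : Reg a b) (v : V) (h0 : ∀ e, 0 ≤ w e)
    {B : Finset E} (hB : ∀ S : Finset V, S.Nonempty → Sᶜ.Nonempty → (dl a b B S).Nonempty) :
    ∃ z : E → ℕ, (∀ S, Even (∑ e ∈ dl a b univ S, z e)) ∧
      (∀ S : Finset V, S.Nonempty → Sᶜ.Nonempty → 0 < ∑ e ∈ dl a b univ S, z e) ∧
      4 * ∑ e, w e * z e ≤ 4 * ∑ e ∈ B, w e + ∑ e, w e := by
  have pr : ∀ S, par (Sum.elim (rs B v a) (rs B v b)) (col S) = ((dl a b B S).card : ZMod 2) :=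
    fun S => by
      rw [par, Fintype.sum_sum_type, ← sum_add_distrib, ← cut_rs a b B v S]
      simpa using sum_card (rs B v a) (rs B v b) univ (col S)
  have fe : Feas a b (Sum.elim (rs B v a) (rs B v b)) fun _ => 1 / 4 :=
    ⟨fun _ => by norm_num, fun φ p => by
      obtain ⟨S, rfl⟩ := ex_col φ
      rw [pr] at p
      obtain ⟨p1, p2⟩ := proper (card_pos.1 ((ZMod.natCast_eq_one_iff_odd).1 p).pos)
      have p3 : (4 : ℝ) ≤ (dl a b univ S).card := by exact_mod_cast hr.2.2 S p1 p2
      rw [cut_col, sum_const, nsmul_eq_mul]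
      linarith⟩
  obtain ⟨J, -, jo, co⟩ := tj _ _ _ _ fe w h0
  refine ⟨fun e => (if e ∈ B then 1 else 0) + if e ∈ J then 1 else 0, fun S => ?_,
    fun S p1 p2 => ?_, ?_⟩
  · have := jo (col S)
    rw [pr, sum_card, cut_col, dl_eq, ZMod.natCast_eq_natCast_iff'] at this
    rw [sum_add_distrib, sum_ind, sum_ind, Nat.even_iff]
    omega
  · rw [sum_add_distrib, sum_ind]
    exact Nat.add_pos_left (card_pos.2 (hB S p1 p2)) _
  · have := co.trans (sum_le_univ_sum_of_nonneg fun e => mul_nonneg (h0 e) (fe.1 e))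
    rw [← sum_mul] at this
    simp only [Nat.cast_add, mul_add, sum_add_distrib, sum_w]
    linarith

/-- A join for signed weights. -/
theorem signed {a b : E → V} (v : V) {H : Finset E} (hH : Two a b H) (g : E → ℝ)
    (hg : ∀ e ∈ H, g e < 0 → ∃ X, (dl a b H X).card = 3 ∧ e ∈ dl a b H X) :
    ∃ J ⊆ H, (∀ S, (J ∩ dl a b H S).card % 2 = (dl a b H S).card % 2) ∧
      (∀ S, (dl a b H S).card = 3 → (J ∩ dl a b H S).card = 1) ∧
      3 * ∑ e ∈ J, g e ≤ ∑ e ∈ H, g e := by
  have br : Br (rs H v a) (rs H v b) := fun φ p => by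
    obtain ⟨S, rfl⟩ := ex_col φ
    rw [cut_rs] at p
    obtain ⟨p1, p2⟩ := proper (card_pos.1 (p ▸ one_pos))
    have := hH S p1 p2
    omega
  set T := univ.filter fun X : Finset V => (dl a b H X).card = 3 with hT
  set c : E → ℝ := fun e => ∑ X ∈ T, if e ∈ dl a b H X then 1 else 0 with hc
  set M := ∑ e, |g e| with hM
  have M0 : 0 ≤ M := sum_nonneg fun _ _ => abs_nonneg _
  have c0 : ∀ e, 0 ≤ c e := fun e => sum_nonneg fun _ _ => by split_ifs <;> norm_num
  have cs : ∀ J : Finset E, ∑ e ∈ J, c e = ∑ X ∈ T, ((J ∩ dl a b H X).card : ℝ) := fun J => by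
    rw [sum_comm]
    exact sum_congr rfl fun X _ => by rw [sum_boole, filter_mem_eq_inter]
  obtain ⟨J, hJ, co⟩ := exJ br (fun e => if e ∈ H then g e + M * c e else 0) fun e => by
    split_ifs with he
    · by_cases hn : g e < 0
      · obtain ⟨X, h3, hX⟩ := hg e he hn
        have h1 : 1 ≤ c e := by
          have := single_le_sum (f := fun X => if e ∈ dl a b H X then (1 : ℝ) else 0)
            (fun _ _ => by split_ifs <;> norm_num) (show X ∈ T from mem_filter.2 ⟨mem_univ _, h3⟩)
          rwa [if_pos hX] at this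
        have h2 : |g e| ≤ M :=
          single_le_sum (f := fun e => |g e|) (fun _ _ => abs_nonneg _) (mem_univ e)
        have h4 := le_mul_of_one_le_right M0 h1
        linarith [neg_abs_le (g e)]
      · linarith [mul_nonneg M0 (c0 e)]
    · exact le_rfl
  have hh : ∀ S, H ∩ dl a b H S = dl a b H S := fun S => inter_eq_right.2 (filter_subset _ _)
  have hi : ∀ S, J ∩ H ∩ dl a b H S = J ∩ dl a b H S := fun S => by rw [inter_assoc, hh]
  have k := fun S => hJ (col S)
  simp only [cut_rs] at k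
  refine ⟨J ∩ H, inter_subset_right, fun S => hi S ▸ (k S).1, fun S p => hi S ▸ (k S).2 p, ?_⟩
  rw [sum_ite_mem, sum_ite_mem, univ_inter, sum_add_distrib, sum_add_distrib, ← mul_sum, ← mul_sum,
    cs, cs] at co
  have e1 : ∑ X ∈ T, ((J ∩ H ∩ dl a b H X).card : ℝ) = ∑ _X ∈ T, (1 : ℝ) :=
    sum_congr rfl fun X hX => by rw [hi, (k X).2 (mem_filter.1 hX).2]; norm_num
  have e2 : ∑ X ∈ T, ((H ∩ dl a b H X).card : ℝ) = 3 * ∑ _X ∈ T, (1 : ℝ) := by
    rw [mul_sum]
    exact sum_congr rfl fun X hX => by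
      rw [hh, (mem_filter.1 hX).2]; norm_num
  rw [e1, e2] at co
  linarith

/-- The subgraph `H` corrected along a join. -/
theorem second {a b : E → V} {w : E → ℝ} (hr : Reg a b) (v : V) (h0 : ∀ e, 0 ≤ w e)
    {H : Finset E} {D : Bool → Finset E} (hH : Two a b H) (hc : Crt a b H D) (i : Bool) :
    ∃ z : E → ℕ, (∀ S, Even (∑ e ∈ dl a b univ S, z e)) ∧
      (∀ S : Finset V, S.Nonempty → Sᶜ.Nonempty → 0 < ∑ e ∈ dl a b univ S, z e) ∧
      3 * ∑ e, w e * z e ≤ ∑ e ∈ H, w e * (2 + 2 * if e ∈ D i then 1 else 0) := by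
  obtain ⟨J, hJH, j1, j2, co⟩ := signed v hH (fun e => if e ∈ D i then w e else -w e)
    fun e he hn => hc.1 i e he (hr.1 e) fun hD => by
      rw [if_pos hD] at hn; exact absurd hn (not_lt.2 (h0 e))
  set z : E → ℕ := fun e => if e ∈ J then (if e ∈ D i then 2 else 0) else if e ∈ H then 1 else 0
    with hz
  refine ⟨z, fun S => ?_, fun S p1 p2 => ?_, ?_⟩
  · have h1 : Even (∑ e ∈ dl a b univ S,
        (z e + ((if e ∈ H then 1 else 0) + if e ∈ J then 1 else 0))) := by
      refine even_sum _ fun e _ => ?_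
      simp only [hz]
      by_cases p : e ∈ J
      · simp only [if_pos p, if_pos (hJH p)]
        split_ifs <;> decide
      · simp only [if_neg p]
        split_ifs <;> decide
    have h2 : J ∩ dl a b H S = dl a b J S := by
      ext e
      simp only [dl, mem_inter, mem_filter]
      exact ⟨fun h => ⟨h.1, h.2.2⟩, fun h => ⟨h.1, hJH h.1, h.2⟩⟩
    have h3 := j1 S
    rw [h2] at h3
    rw [sum_add_distrib, sum_add_distrib, sum_ind, sum_ind, Nat.even_iff] at h1
    rw [Nat.even_iff]
    omega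
  · obtain ⟨e, he, h1⟩ := hc.2 i J (fun X p => (j2 X p).le) S p1 p2
    obtain ⟨he1, he2⟩ := mem_filter.1 he
    refine lt_of_lt_of_le ?_ (single_le_sum (f := z) (fun _ _ => Nat.zero_le _)
      (show e ∈ dl a b univ S from mem_filter.2 ⟨mem_univ _, he2⟩))
    simp only [hz]
    by_cases p : e ∈ J
    · simp [p, h1.resolve_left (not_not.2 p)]
    · simp [p, he1]
  · have h1 : ∑ e, w e * z e = ∑ e, ((if e ∈ H then w e else 0)
        + if e ∈ J then (if e ∈ D i then w e else -w e) else 0) := by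
      refine sum_congr rfl fun e _ => ?_
      simp only [hz]
      by_cases p : e ∈ J
      · simp only [if_pos p, if_pos (hJH p)]
        split_ifs <;> push_cast <;> ring
      · simp only [if_neg p]
        split_ifs <;> simp
    have h2 : ∑ e ∈ H, w e * (2 + 2 * if e ∈ D i then 1 else 0)
        = 3 * ∑ e ∈ H, w e + ∑ e ∈ H, if e ∈ D i then w e else -w e := by
      rw [mul_sum, ← sum_add_distrib]
      refine sum_congr rfl fun e _ => ?_
      split_ifs <;> ring
    rw [h1, h2, sum_add_distrib, sum_ite_mem, sum_ite_mem, univ_inter, univ_inter]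
    linarith

end Mid

theorem mid (h : S_Thr) : S_Mid := by
  intro V E _ _ _ _ a b w hr h2 h0
  obtain ⟨B, H, D, hB, hH, hc, ht⟩ := h V E a b w hr h2
  obtain ⟨v⟩ : Nonempty V := Fintype.card_pos_iff.1 (by omega)
  have key := Mid.cake (fun e => 12 * (if e ∈ B then 1 else 0)
    + (if e ∈ H then (pr D e : ℝ) else 0) - 8) _ w le_rfl h0 fun t _ => by
      have h1 : (12 * (B.filter fun e => t < w e).card
          + ∑ e ∈ H.filter (fun e => t < w e), (pr D e : ℝ)) ≤
          8 * (univ.filter fun e => t < w e).card := by exact_mod_cast ht t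
      have e1 : ∀ A : Finset E, (univ.filter fun e => t < w e) ∩ A = A.filter fun e => t < w e :=
        fun A => by ext e; simp [and_comm]
      rw [sum_sub_distrib, sum_add_distrib, ← mul_sum, sum_ite_mem, sum_ite_mem, e1, e1,
        sum_const, sum_const, nsmul_eq_mul, nsmul_eq_mul]
      linarith
  have k2 : ∑ e, w e * (12 * (if e ∈ B then 1 else 0) + (if e ∈ H then (pr D e : ℝ) else 0) - 8)
      = 12 * ∑ e ∈ B, w e + ∑ e ∈ H, w e * pr D e - 8 * ∑ e, w e := by
    rw [← univ_inter B, ← sum_ite_mem, ← univ_inter H, ← sum_ite_mem, mul_sum, mul_sum,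
      ← sum_add_distrib, ← sum_sub_distrib]
    refine sum_congr rfl fun e _ => ?_
    simp only [univ_inter]
    split_ifs <;> ring
  rw [k2] at key
  obtain ⟨z₁, a₁, b₁, c₁⟩ := Mid.first hr v h0 hB
  obtain ⟨z₂, a₂, b₂, c₂⟩ := Mid.second hr v h0 hH hc true
  obtain ⟨z₃, a₃, b₃, c₃⟩ := Mid.second hr v h0 hH hc false
  have k3 : ∑ e ∈ H, w e * (2 + 2 * if e ∈ D true then 1 else 0)
      + ∑ e ∈ H, w e * (2 + 2 * if e ∈ D false then 1 else 0) = 2 * ∑ e ∈ H, w e * pr D e := by
    rw [mul_sum, ← sum_add_distrib]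
    refine sum_congr rfl fun e _ => ?_
    unfold pr
    split_ifs <;> push_cast <;> ring
  by_contra hno
  push Not at hno
  have n1 := hno z₁ a₁ b₁
  have n2 := hno z₂ a₂ b₂
  have n3 := hno z₃ a₃ b₃
  linarith

end Pool.Agent.P.MP_92d394_lc.H
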