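import Pool.Agent.P.MP_92d394_lc.H.Mn
import Pool.Agent.P.MP_92d394_lc.H.Level
import Pool.Agent.P.MP_92d394_lc.H.Cert
import Pool.Agent.P.MP_92d394_lc.H.Kru
import Pool.Agent.P.MP_92d394_lc.H.Thr
import Pool.Agent.P.MP_92d394_lc.H.Mid
import Pool.Agent.P.MP_92d394_lc.H.Fin22

/-! Laminar families of tight cuts and the final bound. -/

namespace Pool.Agent.P.MP_92d394_lc.H

open Finset Gr Sum

theorem lam : S_Lam := by
  intro W E _ _ _ _ L 𝓛
  induction hn : 𝓛.card using Nat.strong_induction_on generalizing W E with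
  | _ n ih =>
  intro c ht hl
  rcases 𝓛.eq_empty_or_nonempty with rfl | ne
  · by_cases h : Nonempty W
    · obtain ⟨u⟩ := h
      obtain ⟨N, a, -⟩ := (main W E L c).1.zero c u u
      exact ⟨N, a, by simp⟩
    · exact ⟨∅, ⟨by simp, fun _ u => absurd ⟨u⟩ h, fun _ u => absurd ⟨u⟩ h⟩, by simp⟩
  obtain ⟨X, hX, mn⟩ := exists_min_image 𝓛 card ne
  obtain ⟨Z, z4, za, zb⟩ := four c.w2 (ht X hX).1 (ht X hX).2
  have tc : L.om Xᶜ = 4 := (om_compl X).trans (ht X hX).1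
  have un : ∀ a ∈ Z, ∀ b ∈ Z, ∀ z ∈ Z, a ≠ b → a ≠ z → L.Rel Xᶜ a b → L.Rel Xᶜ a z → z = b :=
    fun a i b j z k n1 n2 r1 r2 => rel_uniq c.c4 tc (by rw [(za a i).1]; simp)
      (by rw [(za z k).1]; simp) (by rw [(za b j).1]; simp) (cr_compl.2 (za a i).2)
      (cr_compl.2 (za z k).2) (cr_compl.2 (za b j).2) n2 n1 r2 r1
  obtain ⟨a, ia, b, ib, nab, nr⟩ : ∃ a ∈ Z, ∃ b ∈ Z, a ≠ b ∧ ∀ z ∈ Z, z ≠ a → z ≠ b →
      ¬ L.Rel Xᶜ a z ∧ ¬ L.Rel Xᶜ b z := by
    by_cases h : ∃ a ∈ Z, ∃ b ∈ Z, a ≠ b ∧ L.Rel Xᶜ a b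
    · obtain ⟨a, ia, b, ib, n, r⟩ := h
      exact ⟨a, ia, b, ib, n, fun z iz n1 n2 => ⟨fun q => n2 (un a ia b ib z iz n n1.symm r q),
        fun q => n1 (un b ib a ia z iz n.symm n2.symm r.symm q)⟩⟩
    · obtain ⟨a, ia, b, ib, n⟩ := one_lt_card.1 (show 1 < Z.card by omega)
      exact ⟨a, ia, b, ib, n, fun z iz n1 n2 => ⟨fun q => h ⟨a, ia, z, iz, n1.symm, q⟩,
        fun q => h ⟨b, ib, z, iz, n2.symm, q⟩⟩⟩
  obtain ⟨σ, g, h, d1, d2, ⟨g1, g2, g3⟩, h1, h2, h3⟩ := duo_mk z4 za zb ia ib nab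
  have hd : ∀ i, ∃ e m, L.Duo X σ i e m := by
    rintro (_ | _)
    exacts [⟨_, _, d2⟩, ⟨_, _, d1⟩]
  have mi := main _ _ _ (duo_valid (T := Xᶜ) c fun i => let ⟨_, _, d⟩ := hd i; ⟨_, _, d.compl⟩)
  obtain ⟨u, p, la, iu, ip⟩ := d1.ce.lk
  let pf : Finset W → Finset ({w // w ∉ X} ⊕ Bool) := fun Y =>
    (Y.subtype (· ∉ X)).disjSum (if u ∈ Y then univ else ∅)
  have ao : ∀ Y, Aon (pf Y) := fun Y i j => by by_cases u ∈ Y <;> simp [pf, *]
  have bp : ∀ Y ∈ 𝓛, pb X true (pf Y) = Y := fun Y hY => by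
    ext z
    by_cases i : z ∈ X
    · have : u ∈ Y ↔ z ∈ Y := by
        rcases hl X hX Y hY with s | s | s
        · exact iff_of_true (s iu) (s i)
        · rw [eq_of_subset_of_card_le s (mn Y hY)]
          exact iff_of_true iu i
        · exact iff_of_false (disjoint_left.1 s iu) (disjoint_left.1 s i)
      by_cases u ∈ Y <;> simp_all [pf, pj_in i]
    · simp [pf, pj_out i]
  have mono : ∀ Y Y', Y ⊆ Y' → pf Y ⊆ pf Y' := fun Y Y' s => by
    rintro (z | z) i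
    · simpa [pf] using s (by simpa [pf] using i)
    · have := @s u
      by_cases u ∈ Y <;> simp_all [pf]
  obtain ⟨N, sN, hN⟩ := ih _ ((card_image_le.trans_lt (card_erase_lt_of_mem hX)).trans_eq hn) _ _
    (L.rep X σ pr2) ((𝓛.erase X).image pf) rfl (duo_valid c hd) (by
      simp only [mem_image, mem_erase]
      rintro _ ⟨Y, hY, rfl⟩
      refine ⟨by rw [rep_om' (ao Y) true, bp Y hY.2, (ht Y hY.2).1], ?_⟩
      rintro (k | k) w j
      · rw [rep_cr (ao Y _ true), bp Y hY.2] at j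
        exact (ht Y hY.2).2 k ((rep_wt0 (w ▸ two_ne_zero)).1.symm.trans w) j
      · exact j (ao Y ..)) (by
      simp only [mem_image, mem_erase]
      rintro _ ⟨Y, hY, rfl⟩ _ ⟨Y', hY', rfl⟩
      refine (hl Y hY.2 Y' hY'.2).imp (mono _ _) (Or.imp (mono _ _) fun s => disjoint_left.2 ?_)
      rintro (z | z) i j
      · exact disjoint_left.1 s (by simpa [pf] using i) (by simpa [pf] using j)
      · have : u ∈ Y → u ∉ Y' := fun a => disjoint_left.1 s a
        by_cases u ∈ Y <;> by_cases u ∈ Y' <;> simp_all [pf])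
  have fin : ∀ {i e m g k}, L.Duo X σ i e m → L.Duo X σ (!i) g k → ¬ L.Rel Xᶜ e g → ¬ L.Rel Xᶜ e k →
      inl e ∈ N → ∃ N, L.Sol N ∧ ∀ X ∈ 𝓛, ∃ g ∈ N, L.Cr X g := fun {i e m g k} d d' r1 r2 j => by
    obtain ⟨_, _, l, a, b⟩ := d.ce.lk
    obtain ⟨_, o⟩ := d.ord l a b
    obtain ⟨_, _, l', a', b'⟩ := d'.ce.lk
    obtain ⟨_, o'⟩ := d'.ord l' a' b'
    obtain ⟨N', s, sub, -⟩ := d.compl.fill d'.compl c.c4 mi.2.1 mi.2.2 r1 r2 (N₀ := pe N)
      (by rw [compl_compl]; exact sN.half true) (mem_pe.2 j) (fun z => o.mat sN.tw j (mem_pe.1 z))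
      fun z => o'.mat sN.tw (mem_pe.1 z.1) (mem_pe.1 z.2)
    refine ⟨N', s, fun Y hY => ?_⟩
    by_cases y : Y = X
    · exact ⟨e, sub (mem_pe.2 j), y ▸ d.ce⟩
    obtain ⟨z | z, z1, z2⟩ := hN _ (mem_image_of_mem pf (mem_erase.2 ⟨y, hY⟩))
    · rw [rep_cr (ao Y _ true), bp Y hY] at z2
      exact ⟨z, sub (mem_pe.2 z1), z2⟩
    · exact absurd (ao Y ..) z2
  obtain ⟨_, o1⟩ := d1.ord la iu ip
  obtain ⟨_, _, l', a', b'⟩ := d2.ce.lk
  obtain ⟨_, o2⟩ := d2.ord l' a' b'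
  have rg := nr g g1 g2 g3
  have rh := nr h h1 h2 h3
  rcases sN.nd _ _ _ o1.wf o1.lf o1.isO o2.isO with ⟨z, z1, z2⟩ | ⟨z, z1, z2⟩
  · rcases o1.free (sN.fr z z1) z2 with rfl | rfl
    exacts [fin d1 d2 rg.1 rh.1 z1, fin d1.symm d2 rg.2 rh.2 z1]
  · rcases o2.free (sN.fr z z1) z2 with rfl | rfl
    exacts [fin d2 d1 (fun r => rg.1 r.symm) (fun r => rg.2 r.symm) z1,
      fin d2.symm d1 (fun r => rh.1 r.symm) (fun r => rh.2 r.symm) z1]

section
variable {V E : Type} [Fintype V] [DecidableEq V] [Fintype E] [DecidableEq E] {a b : E → V}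

/-- Splitting every vertex into a pair. -/
def spl (a b : E → V) (σ : V → E → Bool) : Gr (V × Bool) (E ⊕ V) where
  a := Sum.elim (fun e => (a e, σ (a e) e)) fun v => (v, true)
  b := Sum.elim (fun e => (b e, σ (b e) e)) fun v => (v, false)
  wt := Sum.elim (fun _ => 1) fun _ => 2

theorem spl_cw (σ : V → E → Bool) (ω : E ⊕ V → ℕ) (H : Finset E)
    (h : ∀ e, ω (inl e) = if e ∈ H then 1 else 0) (X : Finset V) :
    cw (spl a b σ).a (spl a b σ).b ω (X ×ˢ univ) = (dl a b H X).card := by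
  simp only [cw, Fintype.sum_sum_type, spl, elim_inl, elim_inr, ch, mem_product, mem_univ,
    and_true, if_true, mul_zero, sum_const_zero, add_zero, h, dl, card_filter]
  rw [← sum_filter_add_sum_filter_not univ (· ∈ H), sum_eq_zero (s := filter (· ∉ H) univ)
    fun e c => by simp [(mem_filter.1 c).2], add_zero, filter_mem_eq_inter, univ_inter]
  refine sum_congr rfl fun e c => ?_
  by_cases a e ∈ X ↔ b e ∈ X <;> simp [*]

theorem spl_valid (r : Reg a b) : ∃ σ, (spl a b σ).Valid := by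
  have h : ∀ v, ∃ Y ⊆ dl a b univ {v}, Y.card = 2 := fun v =>
    exists_subset_card_eq (by rw [r.2.1]; omega)
  choose Y y1 y2 using h
  let σ : V → E → Bool := fun v e => decide (e ∈ Y v)
  have md : ∀ v e, e ∈ dl a b univ {v} ↔ a e = v ∨ b e = v := fun v e => by
    have := r.1 e
    simp only [dl, mem_filter, mem_univ, true_and, mem_singleton]
    by_cases c1 : a e = v <;> by_cases c2 : b e = v <;> simp_all
  have two : ∀ v i, ∃ e k, e ≠ k ∧ ∀ g, ((a g = v ∨ b g = v) ∧ σ v g = i) ↔ g = e ∨ g = k := by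
    rintro v (_ | _)
    · obtain ⟨e, k, n, z⟩ := card_eq_two.1 (show (dl a b univ {v} \ Y v).card = 2 by
        rw [card_sdiff_of_subset (y1 v), r.2.1, y2])
      exact ⟨e, k, n, fun g => by simpa [md, σ] using Finset.ext_iff.1 z g⟩
    · obtain ⟨e, k, n, z⟩ := card_eq_two.1 (y2 v)
      refine ⟨e, k, n, fun g => ?_⟩
      have := (md v g).1 ∘ @y1 v g
      have := Finset.ext_iff.1 z g
      simp only [σ, decide_eq_true_eq, mem_insert, mem_singleton] at *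
      tauto
  have inc : ∀ v i g, (spl a b σ).Inc (inl g) (v, i) ↔ (a g = v ∨ b g = v) ∧ σ v g = i :=
    fun v i g => by
    simp only [Inc, spl, elim_inl, Prod.mk.injEq]
    constructor
    · rintro (⟨rfl, z⟩ | ⟨rfl, z⟩) <;> simp [z]
    · rintro ⟨rfl | rfl, z⟩ <;> simp [z]
  have lk : ∀ v i g, (spl a b σ).Inc (inl g) (v, i) →
      ∃ p, (spl a b σ).Lk (inl g) (v, i) p ∧ p ≠ (v, i) := fun v i g c => by
    obtain ⟨p, l⟩ := c.lk
    refine ⟨p, l, fun z => r.1 g ?_⟩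
    rw [z] at l
    simp only [Lk, spl, elim_inl, Prod.mk.injEq, or_self] at l
    exact l.1.1.trans l.2.1.symm
  have ord : ∀ v i, ∃ e k p q, (spl a b σ).Ord (v, i) e k (inr v) p q (v, !i) := fun v i => by
    obtain ⟨e, k, n, z⟩ := two v i
    obtain ⟨p, l1, n1⟩ := lk v i e ((inc ..).2 ((z e).2 (Or.inl rfl)))
    obtain ⟨q, l2, n2⟩ := lk v i k ((inc ..).2 ((z k).2 (Or.inr rfl)))
    refine ⟨inl e, inl k, p, q, by simpa, rfl, rfl, rfl, l1, l2, by cases i <;> simp [Lk, spl], n1, n2,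
      by simp, ?_⟩
    rintro (g | g) - c
    · have := (z g).1 ((inc ..).1 c)
      simpa using this
    · simp only [Inc, spl, elim_inr, Prod.mk.injEq] at c
      simp [show g = v by tauto]
  refine ⟨σ, by rintro (_ | _) <;> simp [spl], fun ⟨v, i⟩ => ?_, ?_⟩
  · obtain ⟨_, _, _, _, o⟩ := ord v i
    exact Or.inr o.dg
  have uns : ∀ (S : Finset (V × Bool)) u v, u ∈ S → v ∉ S → (∀ z i, (z, i) ∈ S → (z, !i) ∈ S) →
      4 ≤ (spl a b σ).om S := fun S ⟨u, i⟩ ⟨v, j⟩ p q h => by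
    have m : ∀ z i, (z, i) ∈ S ↔ (z, true) ∈ S := fun z i => by
      cases i
      exacts [⟨h z false, h z true⟩, Iff.rfl]
    have e : S = (univ.filter fun z => (z, true) ∈ S) ×ˢ univ := by
      ext ⟨z, i⟩
      simpa using m z i
    rw [e, om, spl_cw σ _ univ (by simp [spl])]
    exact r.2.2 _ ⟨u, by simpa [m u i] using p⟩ ⟨v, by simpa [m v j] using q⟩
  intro S u v p q
  by_cases h : ∀ z i, (z, i) ∈ S → (z, !i) ∈ S
  · exact uns S u v p q h
  push Not at h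
  obtain ⟨z, i, h1, h2⟩ := h
  obtain ⟨_, _, _, _, o⟩ := ord z i
  by_cases h' : ∀ z' i', (z', i') ∈ S.erase (z, i) → (z', !i') ∈ S.erase (z, i)
  · have a1 := o.ers h1
    rcases (S.erase (z, i)).eq_empty_or_nonempty with e | ⟨u', p'⟩
    · rw [← insert_erase h1, e, insert_empty_eq, o.single]
    · have := uns _ u' _ p' (notMem_erase _ _) h'
      rw [if_neg h2] at a1
      split_ifs at a1 <;> omega
  push Not at h'
  obtain ⟨z', i', k1, k2⟩ := h'
  obtain ⟨_, _, _, _, o'⟩ := ord z' i'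
  simp only [mem_erase, ne_eq, Prod.mk.injEq, not_and] at k1 k2
  have n : z ≠ z' := by
    rintro rfl
    cases i <;> cases i' <;> simp_all
  have := Gr.c2 (L := spl a b σ) (S := S) (g₁ := inr z) (g₂ := inr z') (by simpa) (o.lf.cr1 h1 h2)
    (o'.lf.cr1 k1.2 (k2 fun y => absurd y.symm n))
  rwa [o.wf, o'.wf] at this

end

theorem sub : S_Sub := by
  intro V E _ _ _ _ a b 𝓛 r h4 hl
  obtain ⟨σ, v⟩ := spl_valid r
  obtain ⟨N, s, hN⟩ := lam _ _ (spl a b σ) (𝓛.image (· ×ˢ univ)) v (by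
    simp only [mem_image]
    rintro _ ⟨X, hX, rfl⟩
    refine ⟨by rw [om, spl_cw σ _ univ (by simp [spl]), h4 X hX], ?_⟩
    rintro (g | g) w
    · simp [spl] at w
    · simp [Cr, spl]) (by
    simp only [mem_image]
    rintro _ ⟨X, hX, rfl⟩ _ ⟨Y, hY, rfl⟩
    exact (hl X hX Y hY).imp product_subset_product_left
      (Or.imp product_subset_product_left fun d => disjoint_product.2 (Or.inl d)))
  refine ⟨(pe N)ᶜ, fun S ⟨u, p⟩ ⟨w, q⟩ => ?_, fun X hX => ?_⟩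
  · rw [← spl_cw σ ((spl a b σ).kp N).wt _ fun e => by simp [kp, spl]]
    exact s.tw _ (u, true) (w, true) (by simpa) (by simpa using q)
  · obtain ⟨g | g, i, j⟩ := hN _ (mem_image_of_mem _ hX)
    · have m : g ∈ dl a b univ X := by simpa [Cr, spl, dl] using j
      have : dl a b (pe N)ᶜ X ⊆ (dl a b univ X).erase g := fun z hz => by
        simp only [dl, mem_filter, mem_compl, mem_pe, mem_erase, mem_univ, true_and] at hz ⊢
        exact ⟨fun y => hz.1 (y ▸ i), hz.2⟩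
      have := card_le_card this
      rw [card_erase_of_mem m, h4 X hX] at this
      exact this
    · simp [Cr, spl] at j

theorem half_integral : S_Fin := fin22 (mid (thr sub (cert level) kru))

end Pool.Agent.P.MP_92d394_lc.H
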