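import Pool.Agent.P.MP_92d394_lc.H.CSt

/-! Two cases solved by keeping a path through two partners. -/

set_option linter.unusedSectionVars false

namespace Pool.Agent.P.MP_92d394_lc.H

open Finset

variable {W E : Type} [Fintype W] [DecidableEq W] [Fintype E] [DecidableEq E]

namespace Gr

variable {L : Gr W E} {e j f k fx m fw e' d c g : E} {u v x v' s w xs y ws t z : W} {N : Finset E}

theorem ob1_cov (a : L.Cov N u) : L.Cov (insert e (insert m N)) u :=
  a.imp fun _ z => ⟨mem_insert_of_mem (mem_insert_of_mem z.1), z.2⟩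

/-- The ordinary partner with a prescribed free edge. -/
theorem ob1_part (hv : L.Valid) (ov : L.Ord v e j f x v' s) (wc : L.wt c = 1) (lc : L.Lk c s z) :
    ∃ d t, L.Ord s c d f z t v := by
  obtain ⟨d, f', t, r, os⟩ := hv.ord wc lc
  obtain rfl := os.part ov.wf ov.lf.symm
  obtain rfl := os.forced ov.wf ov.lf.inc2
  exact ⟨d, t, os⟩

/-- A common free neighbour of two partners gives a tight set of three vertices. -/
theorem ob1_three (hv : L.Valid) (ov : L.Ord v e j f x t s) (os : L.Ord s c d f z t v)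
    (n1 : x ≠ s) (n2 : x ≠ t) :
    L.Ct v x {t, s, v} ∧ ∃ g, L.wt g = 2 ∧ L.Cr {t, s, v} g := by
  obtain ⟨a0, -, -⟩ := ov.pair hv.c4 os ov.np n1
  obtain ⟨j', ft, q, r, ot⟩ := hv.ord os.wk os.lk.symm
  have dj : j ≠ d := fun h => ov.nr ((h ▸ ov.lk.symm : L.Lk d t v).uniq os.lk.symm).symm
  obtain ⟨-, rfl⟩ := (ot.nbr ov.wk ov.lk.symm).resolve_left fun h => dj h.1
  have := os.nq
  have := ov.nq
  have := ov.np
  have a1 := ot.ins (S := {s, v}) (by simp [*])
  have a2 := hv.c4 {t, s, v} v x (by simp) (by simp [*])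
  rw [a0] at a1
  simp only [mem_insert, mem_singleton, true_or, or_true, if_true] at a1
  by_cases hr : r = s ∨ r = v
  · rw [if_pos hr] at a1
    omega
  · rw [if_neg hr] at a1
    have := ot.nr
    exact ⟨⟨by omega, by simp, by simp [*]⟩, ft, ot.wf,
      ot.lf.cr1 (by simp) (by simp [*])⟩

theorem ob1_o (hb : S_Byp) (hv : L.Valid) (ih : IH L.fc (Fintype.card W))
    (h : L.Pa e j f k fx m fw v x v' s w xs s ws) (tr : L.Tr v x s xs) {q : W} (oq : L.IsO q) :
    ∃ N, L.Sol N ∧ e ∈ N ∧ m ∈ N ∧ L.Cov N q := by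
  obtain ⟨d, t, os⟩ := ob1_part hv h.ov h.ow.wk h.ow.lk.symm
  have sx := h.sx hv.c4
  have sw' : s ≠ w := h.ow.nq
  obtain ⟨-, -, tv⟩ := h.ov.pair hv.c4 os h.ov.np sx.symm
  have em := h.em
  have ek := h.ox.ne
  have km := h.ow.ne
  have we := h.ov.we
  have wk := h.ox.wk
  have wm := h.ow.wk
  have hw : ∀ g, (((L.sw e 0).sw m 0).sw k 2).wt g =
      if g = k then 2 else if g = m then 0 else if g = e then 0 else L.wt g := fun g => by
    simp only [sw_wt]
  have hfree : ∀ g, (((L.sw e 0).sw m 0).sw k 2).wt g = 1 →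
      g ≠ e ∧ g ≠ k ∧ g ≠ m ∧ L.wt g = 1 := fun g a => by
    rw [hw] at a
    split_ifs at a with c1 c2 c3 <;> first | omega | exact ⟨c3, c1, c2, a⟩
  have hnz : ∀ g, (((L.sw e 0).sw m 0).sw k 2).wt g ≠ 0 →
      g ≠ e ∧ g ≠ m ∧ L.wt g ≠ 0 := fun g a => by
    rw [hw] at a
    split_ifs at a with c1 c2 c3
    · subst c1
      exact ⟨ek.symm, km, by omega⟩
    · exact absurd rfl a
    · exact absurd rfl a
    · exact ⟨c3, c2, a⟩
  have hagr : ∀ u, u ≠ v → u ≠ x → u ≠ w → u ≠ s → L.Agr (((L.sw e 0).sw m 0).sw k 2) u :=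
    fun u n1 n2 n3 n4 =>
      ((Agr.rfl'.sw h.ov.le n1 n2 0).sw h.ow.lk n3 n4 0).sw h.ox.lk n2 n3 2
  have hom : ∀ S, (((L.sw e 0).sw m 0).sw k 2).om S + ch S v x + ch S w s = L.om S + ch S x w := by
    intro S
    have a1 := sw_om h.ov.le 0 S
    have a2 := sw_om (L := L.sw e 0) h.ow.lk 0 S
    have a3 := sw_om (L := (L.sw e 0).sw m 0) h.ox.lk 2 S
    simp only [sw_wt, we, wk, wm, if_neg em.symm, if_neg ek.symm, if_neg km] at a1 a2 a3
    omega
  have hfc : (((L.sw e 0).sw m 0).sw k 2).fc ≤ L.fc := by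
    have a1 := sw_fc (L := L) e 0
    have a2 := sw_fc (L := L.sw e 0) m 0
    have a3 := sw_fc (L := (L.sw e 0).sw m 0) k 2
    simp [sw_wt, we, wk, wm, em.symm, ek.symm, km] at a1 a2 a3
    omega
  have de : d ≠ e := os.lk.ne h.ov.le h.ov.nr sx
  have dk : d ≠ k := os.lk.ne h.ox.lk sx sw'
  have vt : v' ≠ t := by
    rintro rfl
    obtain ⟨a, g, wg, cg⟩ := ob1_three hv h.ov os sx.symm h.vx'.symm
    rcases tr.t3 _ g a wg cg with b | b
    · exact h.ov.nr (b s (by simp))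
    · exact h.ox.nq (b w (by simp [h.vw'.symm, sw'.symm, h.wv]))
  obtain ⟨N, n1, n2, n3, n4⟩ := hb W E (((L.sw e 0).sw m 0).sw k 2) _ _ j d f v s t v' q ih hfc
    (sw_w2 (sw_w2 (sw_w2 hv.w2 (Nat.zero_le 2)) (Nat.zero_le 2)) le_rfl)
    (fun u a1 a2 => by
      by_cases a3 : u = x
      · refine deg_of fun ⟨g, a, i⟩ => ?_
        have b := hfree g a
        exact ((h.ox.free b.2.2.2 (a3 ▸ i)).elim b.1 b.2.1).elim
      by_cases a4 : u = w
      · refine deg_of fun ⟨g, a, i⟩ => ?_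
        have b := hfree g a
        exact ((h.ow.free b.2.2.2 (a4 ▸ i)).elim b.2.1 b.2.2.1).elim
      exact (hagr u a1 a3 a4 a2).deg hv)
    (fun S u i a1 a2 a3 => by
      have b1 := hom S
      have b2 := hv.c4 S u v i a1
      have b3 := hv.even S
      have b4 : x ∈ S → w ∈ S → L.om S ≠ 4 := fun i1 i2 z => by
        rcases tr.t4 Sᶜ ⟨by rw [om_compl, z], by simpa using a1, by simpa using i1⟩ with b | b
        · exact (b t (by simpa using a3)).elim tv os.nq
        · exact (b w (by simpa using i2)).elim h.ox.nq (h.xsw hv.c4).symm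
      simp only [ch] at b1
      by_cases x ∈ S <;> by_cases w ∈ S <;> simp [*] at b1 b4 <;> omega)
    (by simp [hw, h.jk, h.jm, h.ov.ne.symm, h.ov.wk])
    (by simp [hw, dk, de, os.ne.symm, os.wk])
    (by simp [hw, os.nef.symm, h.ov.nef.symm, h.ov.wf])
    h.ov.lk os.lk h.ov.lf
    (fun g a i => (h.ov.all g (hnz g a).2.2 i).resolve_left (hnz g a).1)
    (fun g a i => (os.all g (hnz g a).2.2 i).resolve_left (hnz g a).2.1)
    h.ov.nr tv os.nq h.ov.nq (h.vs' hv) vt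
  have me : e ∈ insert e (insert m N) := mem_insert_self ..
  have mm : m ∈ insert e (insert m N) := mem_insert_of_mem (mem_insert_self ..)
  have cD : ∀ u, u = v ∨ u = x ∨ u = w ∨ u = s → L.Cov (insert e (insert m N)) u := by
    rintro u (rfl | rfl | rfl | rfl)
    exacts [⟨e, me, h.ov.le.inc1⟩, ⟨e, me, h.ov.le.inc2⟩, ⟨m, mm, h.ow.lk.inc1⟩,
      ⟨m, mm, h.ow.lk.inc2⟩]
  refine ⟨insert e (insert m N), sol_of (fun u => u = v ∨ u = x ∨ u = w ∨ u = s) (fun u n => ?_)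
    (n3.mono fun u c => by tauto) (fun g c => ?_)
    (n2.lift (fun g => ?_) fun g _ _ => ⟨rfl, rfl⟩) (fun u _ z => ob1_cov z)
    (fun g u _ _ _ c _ _ => Or.inl (cD u c)), me, mm, ?_⟩
  · push Not at n
    exact hagr u n.1 n.2.1 n.2.2.1 n.2.2.2
  · rcases mem_insert.1 c with rfl | c
    · exact we
    rcases mem_insert.1 c with rfl | c
    · exact wm
    exact (hfree g (n1 g c).1).2.2.2
  · rw [hw, mem_insert, mem_insert]
    have := ek.symm
    split_ifs with c1 c2 c3 <;> simp [*]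
  · by_cases c : q = v ∨ q = x ∨ q = w ∨ q = s
    · exact cD q c
    · push Not at c
      exact ob1_cov (n4 c.1 c.2.2.2 ((hagr q c.1 c.2.1 c.2.2.1 c.2.2.2).isO oq))

theorem ob1_b (hb : S_Byp) (hv : L.Valid) (ih : IH L.fc (Fintype.card W))
    (h : L.Pa e j f k fx m fw v x v' s w xs y ws) (we' : L.wt e' = 1) (le' : L.Lk e' s y)
    (sw' : s ≠ w) (nb : ¬ L.Blk v x e') : ∃ N, L.Sol N ∧ e ∈ N ∧ e' ∈ N := by
  obtain ⟨d, t, os⟩ := ob1_part hv h.ov we' le'
  have sx := h.sx hv.c4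
  have ys : y ≠ s := os.np
  obtain ⟨t0, -, tv⟩ := h.ov.pair hv.c4 os h.ov.np sx.symm
  have em := h.em
  have ek := h.ox.ne
  have km := h.ow.ne
  have we := h.ov.we
  have wk := h.ox.wk
  have wm := h.ow.wk
  have ee : e' ≠ e := le'.ne h.ov.le h.ov.nr sx
  have ek' : e' ≠ k := le'.ne h.ox.lk sx sw'
  have em' : e' ≠ m := le'.ne h.ow.lk sw' ys.symm
  have de : d ≠ e := os.lk.ne h.ov.le h.ov.nr sx
  have dk : d ≠ k := os.lk.ne h.ox.lk sx sw'
  have dm : d ≠ m := os.lk.ne h.ow.lk sw' ys.symm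
  have je : j ≠ e' := h.ov.lk.ne le' h.ov.nr.symm h.yv.symm
  have yfree : ∀ g, L.wt g = 1 → L.Inc g y → g = m ∨ g = e' := by
    obtain ⟨d', fy, q, r, oy⟩ := hv.ord wm h.ow.lk.symm
    obtain rfl := (oy.free we' le'.inc2).resolve_left em'
    exact fun g a i => oy.free a i
  have c0 : L.Ct v x {s, v} := ⟨t0, by simp, by simp [sx.symm, h.ov.np]⟩
  have c1 : L.Cr {s, v} e' := le'.cr1 (by simp) (by simp [ys, h.yv])
  have hw : ∀ g, ((((L.sw e 0).sw e' 0).sw k 2).sw m 2).wt g =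
      if g = m then 2 else if g = k then 2 else if g = e' then 0 else if g = e then 0
        else L.wt g := fun g => by
    simp only [sw_wt]
  have hfree : ∀ g, ((((L.sw e 0).sw e' 0).sw k 2).sw m 2).wt g = 1 →
      g ≠ e ∧ g ≠ k ∧ g ≠ m ∧ g ≠ e' ∧ L.wt g = 1 := fun g a => by
    rw [hw] at a
    split_ifs at a with c1 c2 c3 c4 <;> first | omega | exact ⟨c4, c2, c1, c3, a⟩
  have hnz : ∀ g, ((((L.sw e 0).sw e' 0).sw k 2).sw m 2).wt g ≠ 0 →
      g ≠ e ∧ g ≠ e' ∧ L.wt g ≠ 0 := fun g a => by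
    rw [hw] at a
    split_ifs at a with c1 c2 c3 c4
    · subst c1
      exact ⟨em.symm, em'.symm, by omega⟩
    · subst c2
      exact ⟨ek.symm, ek'.symm, by omega⟩
    · exact absurd rfl a
    · exact absurd rfl a
    · exact ⟨c4, c3, a⟩
  have hagr : ∀ u, u ≠ v → u ≠ x → u ≠ w → u ≠ y → u ≠ s →
      L.Agr ((((L.sw e 0).sw e' 0).sw k 2).sw m 2) u := fun u n1 n2 n3 n4 n5 =>
    (((Agr.rfl'.sw h.ov.le n1 n2 0).sw le' n5 n4 0).sw h.ox.lk n2 n3 2).sw h.ow.lk n3 n4 2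
  have hom : ∀ S, ((((L.sw e 0).sw e' 0).sw k 2).sw m 2).om S + ch S v x + ch S s y =
      L.om S + ch S x w + ch S w y := by
    intro S
    have a1 := sw_om h.ov.le 0 S
    have a2 := sw_om (L := L.sw e 0) le' 0 S
    have a3 := sw_om (L := (L.sw e 0).sw e' 0) h.ox.lk 2 S
    have a4 := sw_om (L := ((L.sw e 0).sw e' 0).sw k 2) h.ow.lk 2 S
    simp only [sw_wt, we, wk, wm, we', if_neg ee, if_neg em.symm, if_neg ek.symm, if_neg km.symm,
      if_neg ek'.symm, if_neg em'.symm] at a1 a2 a3 a4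
    omega
  have hfc : ((((L.sw e 0).sw e' 0).sw k 2).sw m 2).fc ≤ L.fc := by
    have a1 := sw_fc (L := L) e 0
    have a2 := sw_fc (L := L.sw e 0) e' 0
    have a3 := sw_fc (L := (L.sw e 0).sw e' 0) k 2
    have a4 := sw_fc (L := ((L.sw e 0).sw e' 0).sw k 2) m 2
    simp [sw_wt, we, wk, wm, we', ee, em.symm, ek.symm, km.symm, ek'.symm, em'.symm]
      at a1 a2 a3 a4
    omega
  have vt : v' ≠ t := by
    rintro rfl
    obtain ⟨a, -⟩ := ob1_three hv h.ov os sx.symm h.vx'.symm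
    have yt : y ≠ v' := fun z => (yfree d os.wk (z ▸ os.lk.inc2)).elim dm os.ne.symm
    refine nb (Or.inr ⟨{s, v}, {v', s, v}, fun c => ?_, c0, a, c1,
      le'.cr1 (by simp) (by simp [ys, h.yv, yt])⟩)
    have b : v' ∈ ({s, v} : Finset W) := by rw [c]; simp
    exact (mem_insert.1 b).elim os.nq fun b => tv (mem_singleton.1 b)
  obtain ⟨N, n1, n2, n3, n4⟩ := hb W E ((((L.sw e 0).sw e' 0).sw k 2).sw m 2) _ _ j d f v s t v' ws
    ih hfc (sw_w2 (sw_w2 (sw_w2 (sw_w2 hv.w2 (Nat.zero_le 2)) (Nat.zero_le 2)) le_rfl) le_rfl)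
    (fun u a1 a2 => by
      by_cases a3 : u = x
      · refine deg_of fun ⟨g, a, i⟩ => ?_
        have b := hfree g a
        exact ((h.ox.free b.2.2.2.2 (a3 ▸ i)).elim b.1 b.2.1).elim
      by_cases a4 : u = w
      · refine deg_of fun ⟨g, a, i⟩ => ?_
        have b := hfree g a
        exact ((h.ow.free b.2.2.2.2 (a4 ▸ i)).elim b.2.1 b.2.2.1).elim
      by_cases a5 : u = y
      · refine deg_of fun ⟨g, a, i⟩ => ?_
        have b := hfree g a
        exact ((yfree g b.2.2.2.2 (a5 ▸ i)).elim b.2.2.1 b.2.2.2.1).elim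
      exact (hagr u a1 a3 a4 a5 a2).deg hv)
    (fun S u i a1 a2 a3 => by
      have b1 := hom S
      have b2 := hv.c4 S u v i a1
      have b3 := hv.even S
      have b4 : x ∈ S → y ∈ S → L.om S ≠ 4 := fun i1 i2 z => by
        refine nb (Or.inr ⟨{s, v}, Sᶜ, fun c => ?_, c0,
          ⟨by rw [om_compl, z], by simpa using a1, by simpa using i1⟩, c1,
          le'.cr1 (by simpa using a2) (by simpa using i2)⟩)
        have b : t ∈ ({s, v} : Finset W) := by rw [c]; simpa using a3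
        exact (mem_insert.1 b).elim os.nq fun b => tv (mem_singleton.1 b)
      simp only [ch] at b1
      by_cases x ∈ S <;> by_cases w ∈ S <;> by_cases y ∈ S <;> simp [*] at b1 b4 <;> omega)
    (by simp [hw, h.jk, h.jm, je, h.ov.ne.symm, h.ov.wk])
    (by simp [hw, dk, de, dm, os.ne.symm, os.wk])
    (by simp [hw, os.nef.symm, h.ov.nef.symm, h.ov.wf])
    h.ov.lk os.lk h.ov.lf
    (fun g a i => (h.ov.all g (hnz g a).2.2 i).resolve_left (hnz g a).1)
    (fun g a i => (os.all g (hnz g a).2.2 i).resolve_left (hnz g a).2.1)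
    h.ov.nr tv os.nq h.ov.nq (h.vs' hv) vt
  have me : e ∈ insert e (insert e' N) := mem_insert_self ..
  have mm : e' ∈ insert e (insert e' N) := mem_insert_of_mem (mem_insert_self ..)
  have cD : ∀ u, u = v ∨ u = x ∨ u = y ∨ u = s → L.Cov (insert e (insert e' N)) u := by
    rintro u (rfl | rfl | rfl | rfl)
    exacts [⟨e, me, h.ov.le.inc1⟩, ⟨e, me, h.ov.le.inc2⟩, ⟨e', mm, le'.inc2⟩,
      ⟨e', mm, le'.inc1⟩]
  refine ⟨insert e (insert e' N),
    sol_of (fun u => u = w ∨ u = v ∨ u = x ∨ u = y ∨ u = s) (fun u n => ?_)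
    (n3.mono fun u c => by tauto) (fun g c => ?_)
    (n2.lift (fun g => ?_) fun g _ _ => ⟨rfl, rfl⟩) (fun u _ z => ob1_cov z)
    (fun g u u' wg l c _ o => ?_), me, mm⟩
  · push Not at n
    exact hagr u n.2.1 n.2.2.1 n.1 n.2.2.2.1 n.2.2.2.2
  · rcases mem_insert.1 c with rfl | c
    · exact we
    rcases mem_insert.1 c with rfl | c
    · exact we'
    exact (hfree g (n1 g c).1).2.2.2.2
  · rw [hw, mem_insert, mem_insert]
    have := ek.symm
    have := em.symm
    have := ek'.symm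
    have := em'.symm
    split_ifs with c1 c2 c3 c4 <;> simp [*]
  · rcases c with rfl | c
    · obtain rfl := h.ow.part wg l
      refine Or.inr ?_
      by_cases c : u' = v ∨ u' = x ∨ u' = y ∨ u' = s
      · exact cD u' c
      · push Not at c
        exact ob1_cov (n4 c.1 c.2.2.2 ((hagr u' c.1 c.2.1 h.ow.nr c.2.2.1 c.2.2.2).isO o))
    · exact Or.inl (cD u c)

end Gr

theorem caseO (h : S_Byp) : S_O :=
  fun _ _ _ _ _ _ _ hv ih _ _ _ _ _ _ _ _ _ _ _ _ _ _ _ pa tr oq => Gr.ob1_o h hv ih pa tr oq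

theorem caseB1 (h : S_Byp) : S_B1 :=
  fun _ _ _ _ _ _ _ hv ih _ _ _ _ _ _ _ _ _ _ _ _ _ _ _ _ pa we le sw nb =>
    Gr.ob1_b h hv ih pa we le sw nb

end Pool.Agent.P.MP_92d394_lc.H
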