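import Pool.Agent.P.MP_92d394_lc.H.CSt

/-! One of the two slides serves a demand. -/

set_option linter.unusedSectionVars false

namespace Pool.Agent.P.MP_92d394_lc.H

open Finset

variable {W E : Type} [Fintype W] [DecidableEq W] [Fintype E] [DecidableEq E]

namespace Gr

variable {L : Gr W E} {e j f k fx m fw g k₁ k₂ fq : E} {v x v' s w xs y ws q r z₁ z₂ c₁ c₂ : W}
  {S Ru Rl : Finset W}

theorem Sd.u5_symm (d : L.Sd q w y z₁ z₂ c₁ c₂ Ru Rl) : L.Sd q w y z₁ z₂ c₂ c₁ Ru Rl :=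
  ⟨d.tu, d.tl, d.sub, d.yu, d.bu, d.qu, d.ql, d.al, d.wl, d.c2, d.c1, d.up,
    d.lo.imp_right (Or.imp_right fun ⟨g, c, a1, a2, a3⟩ => ⟨g, c, a1, a2, a3.symm⟩)⟩

theorem Sde.u5_symm (d : L.Sde q w y z₁ z₂ c₁ c₂) : L.Sde q w y z₁ z₂ c₂ c₁ :=
  d.imp (fun ⟨a, b, d⟩ => ⟨a, b, d.u5_symm⟩) fun ⟨a, b, d⟩ => ⟨a, b, d.u5_symm⟩

namespace Pa

variable (h : L.Pa e j f k fx m fw v x v' s w xs y ws)
include h

theorem u5_yxs (c : L.Valid) (tr : L.Tr v x s xs) (q1 : q ≠ v) (q2 : q ≠ x) (q3 : q ≠ w)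
    (q4 : q ≠ y) : y ≠ xs := fun z => by
  subst z
  obtain ⟨_, _, _, _, o⟩ := c.ord h.ow.wk h.ow.lk.symm
  have a1 := (h.ox.pair c.c4 o q2 q4).1
  have n1 := h.wsx c.c4
  have n2 := h.wsy c
  have a2 := h.ow.ins (S := {y, x}) (by simp [h.ow.np.symm, h.ow.nq.symm])
  simp only [mem_insert, mem_singleton, n1, n2, or_true, true_or, if_true, or_self, if_false] at a2
  have ct : L.Ct v x (insert w {y, x} : Finset W)ᶜ :=
    ⟨by rw [om_compl]; omega, by simp [h.wv.symm, h.yv.symm, h.ov.np.symm], by simp⟩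
  rcases tr.t3 _ fw ct h.ow.wf (h.ow.lf.cr2 (by simp) (by simp [n1, n2, h.ow.nr])) with a | a
  · exact q1 (a q (by simp [*]))
  · exact h.ox.nq (a w (by simp))

theorem u5_ct (c : L.C4) (tr : L.Tr v x s xs) (n : y ≠ xs) (t : (L.sld e k m v y).Ct v y S) :
    L.om S = 4 ∧ ((∀ u ∈ S, u = v ∨ u = s) ∨ (x ∈ S ∧ w ∈ S)) := by
  obtain ⟨a1, a2⟩ := h.sld_ct c t
  refine ⟨a1, ?_⟩
  by_cases i : x ∈ S
  · exact Or.inr ⟨i, a2 i⟩
  · exact Or.inl ((tr.t4 S ⟨a1, t.2.1, i⟩).resolve_right fun a => (a y t.2.2).elim h.yx n)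

theorem u5_forced (a : (L.sld e k m v y).wt g = 2) (b : (L.sld e k m v y).Cr S g) :
    L.Cr S g ∧ (g = k ∨ L.wt g = 2) := by
  have n : g ≠ e := fun z => by have := h.sld_we; rw [z] at a; omega
  refine ⟨(h.sld_cr' n).1 b, ?_⟩
  rw [h.sld_wt] at a
  split_ifs at a with c1 c2
  exacts [Or.inl c2, Or.inr a]

theorem u5_forced' (i : x ∈ S ↔ w ∈ S) (a : (L.sld e k m v y).wt g = 2)
    (b : (L.sld e k m v y).Cr S g) : L.wt g = 2 ∧ L.Cr S g := by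
  obtain ⟨a1, a2⟩ := h.u5_forced a b
  refine ⟨a2.resolve_left fun z => ?_, a1⟩
  rw [z, h.ox.lk.cr] at a1
  exact a1 i

theorem u5_sd (c : L.Valid) (tr : L.Tr v x s xs) (n : y ≠ s) (o : L.Ord q k₁ k₂ fq z₁ z₂ r)
    (q1 : q ≠ v) (q2 : q ≠ x) (q3 : q ≠ w) (q4 : q ≠ y) (q5 : q ≠ v') (q6 : q ≠ s)
    (d1 : (L.sld e k m v y).DB v y q z₁) (d2 : (L.sld e k m v y).DB y v q z₂) :
    ∃ Ru Rl, L.Sd q w y z₁ z₂ v x Ru Rl := by
  have hv := h.sld_valid c tr n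
  have nx := h.u5_yxs c tr q1 q2 q3 q4
  obtain ⟨U, u, a, b, cu⟩ := d1
  obtain ⟨R, r', a', b', cr⟩ := d2
  have zv : z₁ ≠ v := fun z =>
    (h.ov.nbr o.we (z ▸ o.le.symm)).elim (fun p => q2 p.2) fun p => q5 p.2
  obtain ⟨tU, iU⟩ := h.u5_ct c.c4 tr nx u
  obtain ⟨tR, iR⟩ := h.u5_ct c.c4 tr nx r'.compl
  have jR := iR.resolve_left fun p => (p q (mem_compl.2 a')).elim q1 q6
  have jU : x ∈ U ∧ w ∈ U := iU.resolve_left fun p => by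
    have zs : z₁ = s := (p _ b).resolve_left zv
    subst zs
    rcases cu with ⟨g, wg, cg⟩ | ⟨U₀, u₀, s₀, n₀, i₀⟩
    · obtain ⟨a1, a2⟩ := h.u5_forced wg cg
      obtain ⟨p1, p2, l, i1, i2⟩ := a1.lk
      rcases a2 with rfl | a2
      · rcases (h.ox.lk.inc p1).1 l.inc1 with rfl | rfl
        · exact (p _ i1).elim h.ov.np (h.sx c.c4).symm
        · refine (p _ i1).elim h.wv fun z => ?_
          exact (h.ow.nbr o.we (z ▸ o.le.symm)).elim (fun p => q2 p.2) fun p => q4 p.2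
      · rcases p _ i1 with rfl | rfl
        · exact i2 (h.ov.part a2 l ▸ b)
        · obtain ⟨_, _, _, _, os⟩ := c.ord o.we o.le.symm
          exact i2 ((os.part a2 l).trans (os.part h.ov.wf h.ov.lf.symm).symm ▸ u.2.1)
    · exact n₀ (Subset.antisymm s₀ fun z hz => (p z hz).elim (fun t => t ▸ u₀.2.1) fun t => t ▸ i₀)
  have xR : x ∉ R := mem_compl.1 jR.1
  have wR : w ∉ R := mem_compl.1 jR.2
  refine ⟨R, Uᶜ, (om_compl R).symm.trans tR, (om_compl U).trans tU,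
    (hv.c4.chain h.sld_we h.sld_lk.symm r' u.compl).resolve_right
      fun s => a' (s (mem_compl.2 a)), r'.2.1, b', a', mem_compl.2 a, by simpa,
    by simpa using jU.2, by simpa using u.2.1, by simpa using jU.1, ?_, ?_⟩
  · refine cr.imp (fun ⟨g, p1, p2⟩ => ⟨g, h.u5_forced' (by simp [xR, wR]) p1 p2⟩)
      fun ⟨R₀, r₀, s₀, n₀, i₀⟩ => ⟨R₀, ?_, s₀, n₀, r₀.2.1, i₀⟩
    exact (om_compl R₀).symm.trans (h.u5_ct c.c4 tr nx r₀.compl).1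
  · rcases cu with ⟨g, p1, p2⟩ | ⟨U₀, u₀, s₀, n₀, i₀⟩
    · have := h.u5_forced' (by simp [jU.1, jU.2]) p1 p2
      exact Or.inl ⟨g, this.1, cr_compl.2 this.2⟩
    · obtain ⟨t₀, p | p⟩ := h.u5_ct c.c4 tr nx u₀
      · exact Or.inr (Or.inr ⟨f, v, h.ov.wf, (p _ i₀).resolve_left zv ▸ h.ov.lf.symm, Or.inl rfl⟩)
      · exact Or.inr (Or.inl ⟨U₀ᶜ, (om_compl _).trans t₀, compl_subset_compl.2 s₀,
          fun z => n₀ (compl_injective z).symm, by simpa, by simpa using p.2⟩)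

theorem u5_sde (c : L.Valid) (tr : L.Tr v x s xs) (n : y ≠ s) (o : L.Ord q k₁ k₂ fq z₁ z₂ r)
    (q1 : q ≠ v) (q2 : q ≠ x) (q3 : q ≠ w) (q4 : q ≠ y) (q5 : q ≠ v') (q6 : q ≠ s)
    (d : ¬ (L.sld e k m v y).Dok v y q) : L.Sde q w y z₁ z₂ v x :=
  (kill (h.sld_valid c tr n).c4 h.sld_we h.sld_lk ((h.sld_agr q1 q2 q3 q4).ord o) d).2.2.imp
    (fun b => h.u5_sd c tr n o q1 q2 q3 q4 q5 q6 b.1 b.2)
    fun b => h.u5_sd c tr n o.symm q1 q2 q3 q4 q5 q6 b.1 b.2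

theorem u5_dem (c : L.Valid) (ih : IH L.fc (Fintype.card W)) (tr : L.Tr v x s xs) (n : y ≠ s)
    (d : q = x ∨ q = w ∨ (L.sld e k m v y).Dok v y q) : ∃ N, L.Sol N ∧ e ∈ N ∧ L.Cov N q := by
  have dm := (ih W E _ (h.sld_valid c tr n) (Or.inl (by have := h.sld_fc; omega))).1
  rcases d with rfl | rfl | d
  · obtain ⟨N, a1, a2, -⟩ := dm e v y v h.sld_we h.sld_lk (Or.inl rfl)
    exact ⟨_, h.sld_lift a1 a2, mem_insert_of_mem a2, e, mem_insert_of_mem a2, h.ov.le.inc2⟩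
  · obtain ⟨N, a1, a2, -⟩ := dm e v y v h.sld_we h.sld_lk (Or.inl rfl)
    exact ⟨_, h.sld_lift a1 a2, mem_insert_of_mem a2, m, mem_insert_self .., h.ow.lk.inc1⟩
  · obtain ⟨N, a1, a2, a3⟩ := dm e v y q h.sld_we h.sld_lk d
    exact ⟨_, h.sld_lift a1 a2, mem_insert_of_mem a2, h.sld_cov a2 a3⟩

end Pa

end Gr

open Gr in
theorem u5 : S_U5 := by
  intro W E _ _ _ _ L c ih e j f k fx m fw m' fw' v x v' s w xs y ws y' ws' q h h' tr n n' oq q6 q6'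
  by_contra ng
  have a1 := fun d => ng (h.u5_dem (q := q) c ih tr n d)
  have a2 := fun d => ng (h'.u5_dem (q := q) c ih tr.symm n' d)
  simp only [imp_false, not_or] at a1 a2
  obtain ⟨q2, q3, d1⟩ := a1
  obtain ⟨q1, q5, d2⟩ := a2
  have q4 : q ≠ y := fun z => d1 (Or.inr (Or.inl z))
  have q4' : q ≠ y' := fun z => d2 (Or.inr (Or.inl z))
  obtain ⟨k₁, k₂, fq, z₁, z₂, r, o⟩ := c.ord' oq
  have s1 := h.u5_sde c tr n o q1 q2 q3 q4 q5 q6 d1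
  have s2 := (h'.u5_sde c tr.symm n' o q2 q1 q5 q4' q3 q6' d2).u5_symm
  by_cases vy : v' = y
  · have key : ∀ {k₁ k₂ z₁ z₂ Ru Rl}, L.Ord q k₁ k₂ fq z₁ z₂ r → L.Sd q w y z₁ z₂ v x Ru Rl →
        False := fun o d => by
      obtain ⟨R, -, -, i, -, i'⟩ := d.third c.c4 h.ow.wk o.wk h.ov.wk h.ow.lk o.lk h.ov.lk.symm
        (o.lk.ne h.ow.lk q3 q4).symm h.jm.symm (o.lk.ne h.ov.lk q1 q5) (vy ▸ d.yu)
        fun i => d.c1 (d.sub i)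
      exact i' (vy ▸ i)
    rcases s1 with ⟨_, _, d⟩ | ⟨_, _, d⟩
    exacts [key o d, key o.symm d]
  · exact core c.c4 h.ow.wk h'.ow.wk o h.ow.lk h'.ow.lk (h'.ow.lk.ne h.ow.lk h.vw' vy).symm q3 q4 q5
      q4' q1 q2 (Or.inr (Or.inr ⟨k, x, h.ow.we, h.ow.le, Or.inr rfl, h'.jm.symm⟩))
      (Or.inr (Or.inr ⟨j, v, h'.ow.we, h'.ow.le, Or.inl rfl, h.jm.symm⟩)) s1 s2

end Pool.Agent.P.MP_92d394_lc.H
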