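import Pool.Agent.P.MP_92d394_lc.H.AB
import Pool.Agent.P.MP_92d394_lc.H.Glue
import Pool.Agent.P.MP_92d394_lc.H.C23
import Pool.Agent.P.MP_92d394_lc.H.AntL
import Pool.Agent.P.MP_92d394_lc.H.OB1
import Pool.Agent.P.MP_92d394_lc.H.A2
import Pool.Agent.P.MP_92d394_lc.H.U5
import Pool.Agent.P.MP_92d394_lc.H.DSBB

/-! The main induction. -/

set_option linter.unusedSectionVars false

namespace Pool.Agent.P.MP_92d394_lc.H

open Finset Gr

variable {W E : Type} [Fintype W] [DecidableEq W] [Fintype E] [DecidableEq E] {L : Gr W E}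
  {e j f k fx m fw e' d k' fz : E} {v x v' s w xs y ws z t w' zs : W}

theorem tr_or (c : L.Valid) (ih : IH L.fc (Fintype.card W)) (ov : L.Ord v e j f x v' s)
    (ox : L.Ord x e k fx v w xs) : L.Tr v x s xs ∨ (L.DemE e v x ∧ L.AntE e v x ∧ L.DrvE e v x) := by
  have two : ∀ {A : Finset W}, ((∀ q ∈ A, L.Dok v x q → ∃ N, L.Sol N ∧ e ∈ N ∧ L.Cov N q) ∧
      L.AntE e v x ∧ L.DrvE e v x) → (∀ q ∈ Aᶜ, L.Dok x v q → ∃ N, L.Sol N ∧ e ∈ N ∧ L.Cov N q) →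
      L.DemE e v x ∧ L.AntE e v x ∧ L.DrvE e v x := fun {A} a b => ⟨fun q d => by
    by_cases i : q ∈ A
    exacts [a.1 q i d, b q (mem_compl.2 i) d.symm], a.2⟩
  by_cases h3 : ∀ S g, L.Ct v x S → L.wt g = 2 → L.Cr S g → (∀ u ∈ S, u = v) ∨ ∀ u, u ∉ S → u = x
  · by_cases h4 : ∀ S, L.Ct v x S → (∀ u ∈ S, u = v ∨ u = s) ∨ ∀ u, u ∉ S → u = x ∨ u = xs
    · exact Or.inl ⟨h4, h3⟩
    push Not at h4
    obtain ⟨S, t, ⟨u, i, n1, n2⟩, u', i', n3, n4⟩ := h4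
    have nf : ∀ g, L.wt g = 2 → ¬ L.Cr S g := fun g w z =>
      (h3 S g t w z).elim (fun a => n1 (a u i)) fun a => n3 (a u' i')
    have c1 : 3 ≤ S.card := two_lt_card_iff.2 ⟨v, s, u, t.2.1, by
      by_contra n; exact nf f ov.wf (ov.lf.cr1 t.2.1 n), i, ov.nr.symm, Ne.symm n1, Ne.symm n2⟩
    have c2 : 3 ≤ Sᶜ.card := two_lt_card_iff.2 ⟨x, xs, u', mem_compl.2 t.2.2, mem_compl.2 fun n =>
      nf fx ox.wf (ox.lf.cr2 t.2.2 n), mem_compl.2 i', ox.nr.symm, Ne.symm n3, Ne.symm n4⟩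
    exact Or.inr (two (glue4 _ _ L c ih e v x S ov.we ov.le t nf c1 c2)
      (glue4 _ _ L c ih e x v Sᶜ ov.we ox.le t.compl (fun g w z => nf g w (cr_compl.1 z)) c2
        (by rwa [compl_compl])).1)
  · push Not at h3
    obtain ⟨S, g, t, wg, cg, ⟨u, i, n⟩, u', i', n'⟩ := h3
    exact Or.inr (two (glue3 _ _ L c ih e g v x u u' S ov.we ov.le t wg cg i n i' n')
      (glue3 _ _ L c ih e g x v u' u Sᶜ ov.we ox.le t.compl wg (cr_compl.2 cg) (mem_compl.2 i') n'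
        (by simpa) n).1)

theorem pa_or (c : L.Valid) (ih : IH L.fc (Fintype.card W)) (ov : L.Ord v e j f x v' s)
    (ox : L.Ord x e k fx v w xs) : (L.DemE e v x ∧ L.AntE e v x ∧ L.DrvE e v x) ∨
      (L.Tr v x s xs ∧ ∃ m fw y ws, L.Pa e j f k fx m fw v x v' s w xs y ws) := by
  refine (tr_or c ih ov ox).symm.elim Or.inl fun tr => ?_
  by_cases h2 : w = v
  · subst h2
    obtain ⟨rfl, rfl⟩ := (ov.nbr ox.wk ox.lk.symm).resolve_left fun z => ox.ne z.1.symm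
    exact Or.inl (c2 anti _ _ L c ih _ _ _ _ _ _ _ _ ov ox)
  obtain ⟨m, fw, y, ws, ow⟩ := c.ord ox.wk ox.lk.symm
  by_cases h3 : y = v
  · subst h3
    obtain ⟨rfl, rfl⟩ := (ov.nbr ow.wk ow.lk.symm).resolve_left fun z => ox.nq z.2
    exact Or.inl (c3 anti _ _ L c ih _ _ _ _ _ _ _ _ _ _ _ _ ov ox ow)
  exact Or.inr ⟨tr, m, fw, y, ws, ov, ox, ow, h2, h3⟩

theorem drv_half (c : L.Valid) (ih : IH L.fc (Fintype.card W)) (ov : L.Ord v e j f x v' s)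
    (ox : L.Ord x e k fx v w xs) (os : L.Ord s e' d f z t v) (oz : L.Ord z e' k' fz s w' zs)
    (tr' : L.Tr s z v zs) (nb : ¬ L.Blk v x e') : (∃ N, L.Sol N ∧ e ∈ N ∧ e' ∈ N) ∨
      ∃ m fw ws, L.Pa e j f k fx m fw v x v' s w xs zs ws ∧ s ≠ w ∧ zs ≠ s := by
  rcases pa_or c ih ov ox with h | ⟨tr, m, fw, y, ws, pa⟩
  · exact Or.inl (h.2.2 f s e' ov.wf ov.lf os.we os.le.inc1 nb)
  have ds := caseDS _ _ L c ih _ _ _ _ _ _ _ _ _ _ _ _ _ _ _ _ _ _ _ _ _ pa tr oz tr' nb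
  by_cases h1 : s = w
  · exact Or.inl (ds (h1 ▸ pa.ow.nq) (Or.inl h1))
  by_cases h2 : y = s
  · subst h2
    by_cases h3 : e' = m
    · obtain ⟨N, a, b, b', -⟩ := caseO byp _ _ L c ih _ _ _ _ _ _ _ _ _ _ _ _ _ _ v pa tr ov.isO
      exact Or.inl ⟨N, a, b, h3 ▸ b'⟩
    · exact Or.inl (caseA2 _ _ L c ih _ _ _ _ _ _ _ _ _ _ _ _ _ _ _ _ pa os.we os.le h3 nb)
  by_cases h3 : y = z
  · subst h3
    exact Or.inl (caseB1 byp _ _ L c ih _ _ _ _ _ _ _ _ _ _ _ _ _ _ _ _ pa os.we os.le h1 nb)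
  by_cases h4 : y = zs
  · exact Or.inr ⟨m, fw, ws, h4 ▸ pa, h1, h4 ▸ h2⟩
  · exact Or.inl (ds h2 (Or.inr ⟨h3, h4⟩))

theorem step_drv (c : L.Valid) (ih : IH L.fc (Fintype.card W)) : L.Drv := by
  intro e v x f s e' we le wf lf we' i nb
  obtain ⟨j, _, v', _, ov⟩ := c.ord we le
  obtain rfl := ov.forced wf lf.inc1
  obtain rfl := ov.part wf lf
  obtain ⟨k, fx, w, xs, ox⟩ := c.ord we le.symm
  obtain ⟨z, le'⟩ := i.lk
  obtain ⟨d, _, t, _, os⟩ := c.ord we' le'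
  obtain rfl := os.forced wf lf.inc2
  obtain rfl := os.part wf lf.symm
  obtain ⟨k', fz, w', zs, oz⟩ := c.ord we' le'.symm
  have nb' : ¬ L.Blk s z e := fun b => nb (b.swap le le' wf lf)
  have sw : (∃ N, L.Sol N ∧ e' ∈ N ∧ e ∈ N) → ∃ N, L.Sol N ∧ e ∈ N ∧ e' ∈ N :=
    fun ⟨N, a, b, c⟩ => ⟨N, a, c, b⟩
  rcases tr_or c ih ov ox with tr | h
  swap
  · exact h.2.2 f s e' wf lf we' i nb
  rcases tr_or c ih os oz with tr' | h
  swap
  · exact sw (h.2.2 f v e wf lf.symm we le.inc1 nb')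
  rcases drv_half c ih ov ox os oz tr' nb with h | ⟨m, fw, ws, pa, n1, n2⟩
  · exact h
  rcases drv_half c ih os oz ov ox tr nb' with h | ⟨m', fw', ws', pa', n3, -⟩
  · exact sw h
  exact caseBB _ _ L c ih _ _ _ _ _ _ _ _ _ _ _ _ _ _ _ _ _ _ _ _ _ _ _ _ _ pa pa' tr tr' nb n1 n2 n3

theorem step_ant (c : L.Valid) (ih : IH L.fc (Fintype.card W)) : L.Ant := by
  intro e v x f s we le
  obtain ⟨j, f', v', s', ov⟩ := c.ord we le
  obtain ⟨k, fx, w, xs, ox⟩ := c.ord we le.symm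
  rcases pa_or c ih ov ox with h | ⟨tr, m, fw, y, ws, pa⟩
  exacts [h.2.1 f s, antl anti _ _ L c ih _ _ _ _ _ _ _ _ _ _ _ _ _ _ _ pa tr f s]

theorem step_dem (c : L.Valid) (ih : IH L.fc (Fintype.card W)) : L.Dem := by
  intro e v x q we le dk
  obtain ⟨j, f, v', s, ov⟩ := c.ord we le
  obtain ⟨k, fx, w, xs, ox⟩ := c.ord we le.symm
  rcases pa_or c ih ov ox with h | ⟨tr, m, fw, y, ws, pa⟩
  · exact h.1 q dk
  rcases pa_or c ih ox ov with h | ⟨-, m', fw', y', ws', pa'⟩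
  · exact h.1 q dk.symm
  have oq : L.IsO q := by
    rcases dk with rfl | rfl | ⟨k, a, b, -⟩
    exacts [ov.isO, ox.isO, ⟨k, a, b⟩]
  have dr := step_drv c ih
  by_cases h1 : q = s
  · subst h1
    obtain ⟨g, a, b, nb⟩ := (dk.resolve_left ov.nr).resolve_left (pa.sx c.c4)
    obtain ⟨N, n1, n2, n3⟩ := dr e v x f q g we le ov.wf ov.lf a b nb
    exact ⟨N, n1, n2, g, n3, b⟩
  by_cases h2 : q = xs
  · subst h2
    obtain ⟨g, a, b, nb⟩ := (dk.symm.resolve_left ox.nr).resolve_left (pa.xsv c.c4)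
    obtain ⟨N, n1, n2, n3⟩ := dr e x v fx q g we le.symm ox.wf ox.lf a b nb
    exact ⟨N, n1, n2, g, n3, b⟩
  by_cases h3 : y = s
  · subst h3
    obtain ⟨N, a, b, -, b'⟩ := caseO byp _ _ L c ih _ _ _ _ _ _ _ _ _ _ _ _ _ _ q pa tr oq
    exact ⟨N, a, b, b'⟩
  by_cases h4 : y' = xs
  · subst h4
    obtain ⟨N, a, b, -, b'⟩ := caseO byp _ _ L c ih _ _ _ _ _ _ _ _ _ _ _ _ _ _ q pa' tr.symm oq
    exact ⟨N, a, b, b'⟩
  exact u5 _ _ L c ih _ _ _ _ _ _ _ _ _ _ _ _ _ _ _ _ _ _ _ q pa pa' tr h3 h4 oq h1 h2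

theorem ih_all (n : ℕ) : ∀ c, IH n c := by
  induction n using Nat.strong_induction_on with
  | _ n h1 =>
    intro c
    induction c using Nat.strong_induction_on with
    | _ c h2 =>
      intro W E _ _ _ _ L v h
      have ih : IH L.fc (Fintype.card W) := by
        by_cases a : L.fc < n
        · exact h1 _ a _
        · rw [show L.fc = n by omega]
          exact h2 _ (by omega)
      exact ⟨step_dem v ih, step_ant v ih, step_drv v ih⟩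

theorem main : Main := fun W E _ _ _ _ L v => ih_all (L.fc + 1) 0 W E L v (Or.inl (by omega))

end Pool.Agent.P.MP_92d394_lc.H
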