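import Pool.Agent.P.MP_92d394_lc.Q1
import Pool.Agent.P.MP_92d394_lc.Spl

/-! Statements of the steps towards the bound 22/15 for half integral points. -/

namespace Pool.Agent.P.MP_92d394_lc.H

open Finset

/-- The edges of `H` with exactly one end in `S`. -/
def dl {V E : Type} [DecidableEq V] (a b : E → V) (H : Finset E) (S : Finset V) : Finset E :=
  H.filter fun e => ¬ (a e ∈ S ↔ b e ∈ S)

/-- The price of an edge. -/
def pr {E : Type} [DecidableEq E] (D : Bool → Finset E) (e : E) : ℕ :=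
  2 + (if e ∈ D true then 1 else 0) + (if e ∈ D false then 1 else 0)

/-- Loopless four regular multigraphs all of whose cuts have at least four edges. -/
def Reg {V E : Type} [Fintype V] [DecidableEq V] [Fintype E] (a b : E → V) : Prop :=
  (∀ e, a e ≠ b e) ∧ (∀ v, (dl a b univ {v}).card = 4) ∧
    ∀ S : Finset V, S.Nonempty → Sᶜ.Nonempty → 4 ≤ (dl a b univ S).card

/-- Laminar families. -/
def Lam {V : Type} (𝓛 : Finset (Finset V)) : Prop :=
  ∀ X ∈ 𝓛, ∀ Y ∈ 𝓛, X ⊆ Y ∨ Y ⊆ X ∨ Disjoint X Y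

/-- Every cut has at least two edges of `H`. -/
def Two {V E : Type} [Fintype V] [DecidableEq V] (a b : E → V) (H : Finset E) : Prop :=
  ∀ S : Finset V, S.Nonempty → Sᶜ.Nonempty → 2 ≤ (dl a b H S).card

/-- A certificate: edges outside `D i` lie in three element cuts, and may be removed when they
lie in a set meeting every three element cut at most once. -/
def Crt {V E : Type} [Fintype V] [DecidableEq V] [DecidableEq E] (a b : E → V) (H : Finset E)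
    (D : Bool → Finset E) : Prop :=
  (∀ i, ∀ e ∈ H, a e ≠ b e → e ∉ D i → ∃ X, (dl a b H X).card = 3 ∧ e ∈ dl a b H X) ∧
    ∀ i, ∀ J : Finset E, (∀ X, (dl a b H X).card = 3 → (J ∩ dl a b H X).card ≤ 1) →
      ∀ S : Finset V, S.Nonempty → Sᶜ.Nonempty → ∃ e ∈ dl a b H S, e ∉ J ∨ e ∈ D i

/-- A two edge connected spanning subgraph missing an edge of each cut of a laminar family. -/
def S_Sub : Prop :=
  ∀ (V E : Type) [Fintype V] [DecidableEq V] [Fintype E] [DecidableEq E] (a b : E → V)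
    (𝓛 : Finset (Finset V)), Reg a b → (∀ X ∈ 𝓛, (dl a b univ X).card = 4) → Lam 𝓛 →
    ∃ H : Finset E, Two a b H ∧ ∀ X ∈ 𝓛, (dl a b H X).card ≤ 3

/-- One level of the certificate. -/
def S_Level : Prop :=
  ∀ (V E : Type) [Fintype V] [DecidableEq V] [Fintype E] [DecidableEq E] (a b : E → V)
    (H : Finset E) (U : Finset V), U.Nonempty →
    (∀ S ⊆ U, S.Nonempty → 2 ≤ (dl a b H S).card) → (∀ u ∈ U, (dl a b H {u}).card ≤ 3) →
    (dl a b H U).card ≤ 3 →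
    ∃ D : Bool → Finset E,
      (∀ i, ∀ e ∈ H, a e ∈ U → b e ∈ U → a e ≠ b e → e ∉ D i →
        ∃ u ∈ U, (dl a b H {u}).card = 3 ∧ e ∈ dl a b H {u}) ∧
      (∀ i, ∀ J : Finset E, (∀ u ∈ U, (dl a b H {u}).card = 3 → (J ∩ dl a b H {u}).card ≤ 1) →
        ∀ S ⊆ U, S.Nonempty → S ≠ U →
          ∃ e ∈ dl a b H S, a e ∈ U ∧ b e ∈ U ∧ (e ∉ J ∨ e ∈ D i)) ∧
      ∀ F ⊆ U, ∑ e ∈ H.filter (fun e => a e ∈ U ∧ b e ∈ U ∧ a e ≠ b e ∧ (a e ∈ F ∨ b e ∈ F)),
        pr D e + 4 ≤ 4 * F.card + 2 * (dl a b H (U \ F)).card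

/-- The certificate for a laminar family. -/
def S_Cert : Prop :=
  ∀ (V E : Type) [Fintype V] [DecidableEq V] [Fintype E] [DecidableEq E] (a b : E → V)
    (H : Finset E) (r : V) (𝓛 : Finset (Finset V)), Two a b H → Lam 𝓛 →
    (∀ X ∈ 𝓛, r ∉ X ∧ X.Nonempty ∧ (dl a b H X).card ≤ 3) → (∀ v, v ≠ r → {v} ∈ 𝓛) →
    {r}ᶜ ∈ 𝓛 →
    ∃ D : Bool → Finset E, Crt a b H D ∧
      ∀ ρ : V → Finset V, (∀ v, v ∈ ρ v) → (∀ u v, u ∈ ρ v → ρ u = ρ v) → ρ r = {r} →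
        (∀ X ∈ 𝓛, (∃ v, X ⊆ ρ v) ∨ ∀ v ∈ X, ρ v ⊆ X) →
        ∑ e ∈ H.filter (fun e => a e ≠ r ∧ b e ≠ r ∧ ρ (a e) ≠ ρ (b e)), pr D e + 4 ≤
          ∑ Y ∈ ({r}ᶜ : Finset V).image ρ, if Y ∈ 𝓛 then 4 else 2 * (dl a b H Y).card

/-- A spanning forest adapted to all thresholds. -/
def S_Kru : Prop :=
  ∀ (V E : Type) [Fintype V] [DecidableEq V] [Fintype E] [DecidableEq E] (a b : E → V)
    (w : E → ℝ), Nonempty V →
    ∃ (B : Finset E) (ρ : ℝ → V → Finset V),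
      (∀ S, (dl a b univ S).Nonempty → (dl a b B S).Nonempty) ∧ (∀ t v, v ∈ ρ t v) ∧
      (∀ t u v, u ∈ ρ t v → ρ t u = ρ t v) ∧ (∀ s t v, s ≤ t → ρ s v ⊆ ρ t v) ∧
      (∀ t e, w e ≤ t → ρ t (a e) = ρ t (b e)) ∧
      ∀ t, (B.filter fun e => t < w e).card + 1 ≤ (univ.image (ρ t)).card

/-- The threshold inequality. -/
def S_Thr : Prop :=
  ∀ (V E : Type) [Fintype V] [DecidableEq V] [Fintype E] [DecidableEq E] (a b : E → V)
    (w : E → ℝ), Reg a b → 2 ≤ Fintype.card V →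
    ∃ (B H : Finset E) (D : Bool → Finset E),
      (∀ S : Finset V, S.Nonempty → Sᶜ.Nonempty → (dl a b B S).Nonempty) ∧ Two a b H ∧
      Crt a b H D ∧
      ∀ t, 12 * (B.filter fun e => t < w e).card + ∑ e ∈ H.filter (fun e => t < w e), pr D e ≤
        8 * (univ.filter fun e => t < w e).card

/-- A cheap connected even multigraph. -/
def S_Mid : Prop :=
  ∀ (V E : Type) [Fintype V] [DecidableEq V] [Fintype E] [DecidableEq E] (a b : E → V)
    (w : E → ℝ), Reg a b → 2 ≤ Fintype.card V → (∀ e, 0 ≤ w e) →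
    ∃ z : E → ℕ, (∀ S, Even (∑ e ∈ dl a b univ S, z e)) ∧
      (∀ S : Finset V, S.Nonempty → Sᶜ.Nonempty → 0 < ∑ e ∈ dl a b univ S, z e) ∧
      15 * ∑ e, w e * z e ≤ 11 * ∑ e, w e

/-- The bound for half integral points. -/
def S_Fin : Prop :=
  ∀ (n : ℕ), 3 ≤ n → ∀ y ∈ SubP (Fin n), (∀ u v, y u v = 0 ∨ y u v = 1 / 2 ∨ y u v = 1) →
    ∀ c, IsMetric c →
      ∃ x ∈ SubP (Fin n), (∀ u v, ∃ k : ℤ, x u v = k) ∧ dot c x ≤ 22 / 15 * dot c y

end Pool.Agent.P.MP_92d394_lc.H
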